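import Pool.Agent.Lib.MP_5a0708_an.KRW.SpecD
import Pool.Agent.Lib.MP_5a0708_an.Nil.FIN

/-!
# MP_5a0708_an, package KRW : the main theorem (module Ab)
-/

set_option autoImplicit false

namespace Pool.MP_5a0708_an.KRW

open Pool.MP_5a0708_an.Nil

theorem t_Ab (hA : SCAOF) (hPC : SPC) (hR : S_Rot) (hT : STHT) (hC : SCNG) : S_Ab := by
  intro α β hα hβ
  obtain ⟨ψ1, hψ1, L1, h1⟩ := hA α hα
  obtain ⟨ψ2, hψ2, L2, h2⟩ := hA β hβ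
  set L := max 2 (max L1 L2) with hLdef
  have hL2 : 2 ≤ L := le_max_left _ _
  have c1 : CA L (ψ1 * α) := h1 L (by simp [hLdef])
  have c2 : CA L (ψ2 * β) := h2 L (by simp [hLdef])
  obtain ⟨N, hTN⟩ := hT L (by omega)
  obtain ⟨ρ, hρ, hρc, hp⟩ := hPC L N (ψ2 * β) hL2 c2
  have d2 : CA L (ρ * (ψ2 * β)) := hρc.mul c2
  have hrr := hR L N (ρ * (ψ2 * β)) (by omega) d2 hp
  have a1G : ψ1 * α * α⁻¹ ∈ G := by
    have : ψ1 * α * α⁻¹ = ψ1 := by group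
    rw [this]; exact hψ1
  have b1G : ρ * (ψ2 * β) * β⁻¹ ∈ G := by
    have : ρ * (ψ2 * β) * β⁻¹ = ρ * ψ2 := by group
    rw [this]; exact G.mul_mem hρ hψ2
  have hfix : ∀ (n : ℕ) (x : Pt), 0 < n → n < N → Per n x → (ρ * (ψ2 * β)) x = x := by
    intro n x hn hnN hx
    obtain ⟨m, hm, hmx⟩ := exists_lp hn hx
    rcases hp x m hmx (lt_of_le_of_lt hm hnN) with h | h
    · obtain ⟨j, rfl⟩ := h
      rw [FIN_comm d2.mem, hrr m hmx.1 (lt_of_le_of_lt hm hnN)]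
    · exact h
  have e1 := hTN (ψ1 * α) _ c1 d2 hfix
  have e2 := hC α _ β _ hα c1.mem hβ d2.mem a1G b1G
  have e4 : cm α β = (cm (ψ1 * α) (ρ * (ψ2 * β)) * (cm α β)⁻¹)⁻¹ *
      cm (ψ1 * α) (ρ * (ψ2 * β)) := by group
  rw [e4]
  exact G.mul_mem (G.inv_mem e2) e1

end Pool.MP_5a0708_an.KRW
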