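import Pool.Agent.Lib.MP_5a0708_an.KRW.SpecB

/-!
# MP_5a0708_an, package KRW : block triangular matrices
-/

set_option autoImplicit false

namespace Pool.MP_5a0708_an.KRW

open Finset

private theorem pk_lt_iff {C Λ : Type} [LinearOrder Λ] {m : ℕ} {e : C → C → Λ} {x y : ℤ → C} :
    pk m e x < pk m e y ↔ ∃ i : Fin m,
      (∀ j : Fin m, j < i → e (x ((j : ℕ) : ℤ)) (x (((j : ℕ) : ℤ) + 1)) =
        e (y ((j : ℕ) : ℤ)) (y (((j : ℕ) : ℤ) + 1))) ∧
      e (x ((i : ℕ) : ℤ)) (x (((i : ℕ) : ℤ) + 1)) < e (y ((i : ℕ) : ℤ)) (y (((i : ℕ) : ℤ) + 1)) :=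
  Iff.rfl

private theorem pk_iff {C C' Λ Λ' : Type} [LinearOrder Λ] [LinearOrder Λ'] {m : ℕ}
    {e : C → C → Λ} {e' : C' → C' → Λ'} (f : C → C')
    (h1 : ∀ a b c d, e a b = e c d ↔ e' (f a) (f b) = e' (f c) (f d))
    (h2 : ∀ a b c d, e a b < e c d ↔ e' (f a) (f b) < e' (f c) (f d)) (x y : ℤ → C) :
    pk m e x < pk m e y ↔ pk m e' (fun k => f (x k)) < pk m e' (fun k => f (y k)) := by
  rw [pk_lt_iff, pk_lt_iff]
  refine exists_congr fun i => and_congr ?_ (h2 _ _ _ _)
  exact forall_congr' fun j => imp_congr_right fun _ => h1 _ _ _ _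

section emb

variable {I J I' J' : Type} [Fintype I] [Fintype J] [Fintype I'] [Fintype J'] [LinearOrder I]
  [LinearOrder J] [LinearOrder I'] [LinearOrder J']

/-- the map on the letters -/
private def fm (e : I' → I) (g : J' → J) (c : I' × J' × ℕ × ℕ) : I × J × ℕ × ℕ :=
  (e c.1, g c.2.1, c.2.2.1, c.2.2.2)

omit [Fintype I] [Fintype J] [Fintype I'] [Fintype J'] in
private theorem kA_iff {e : I' → I} {g : J' → J} (he : StrictMono e) (hg : StrictMono g)
    (a b c d : I' × J' × ℕ × ℕ) :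
    (kA a b = kA c d ↔ kA (fm e g a) (fm e g b) = kA (fm e g c) (fm e g d)) ∧
    (kA a b < kA c d ↔ kA (fm e g a) (fm e g b) < kA (fm e g c) (fm e g d)) := by
  constructor
  · simp only [kA, fm, toLex_inj, Prod.mk.injEq, he.injective.eq_iff, hg.injective.eq_iff]
  · simp only [kA, fm, Prod.Lex.toLex_lt_toLex, he.injective.eq_iff, hg.injective.eq_iff,
      he.lt_iff_lt, hg.lt_iff_lt]

omit [Fintype I] [Fintype J] [Fintype I'] [Fintype J'] in
private theorem kB_iff {e : I' → I} {g : J' → J} (he : StrictMono e) (hg : StrictMono g)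
    (a b c d : I' × J' × ℕ × ℕ) :
    (kB a b = kB c d ↔ kB (fm e g a) (fm e g b) = kB (fm e g c) (fm e g d)) ∧
    (kB a b < kB c d ↔ kB (fm e g a) (fm e g b) < kB (fm e g c) (fm e g d)) := by
  constructor
  · simp only [kB, fm, toLex_inj, Prod.mk.injEq, he.injective.eq_iff, hg.injective.eq_iff]
  · simp only [kB, fm, Prod.Lex.toLex_lt_toLex, he.injective.eq_iff, hg.injective.eq_iff,
      he.lt_iff_lt, hg.lt_iff_lt]

open Classical in
private theorem emb (hTr : S_Tr) {m : ℕ} (hm : 0 < m) {e : I' → I} {g : J' → J}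
    (he : StrictMono e) (hg : StrictMono g) (U : I → J → Finset ℕ) (V : J → I → Finset ℕ) :
    Iv m (shf _) ((AP m U V).filter fun x =>
      ∀ k : ℤ, (x k).1 ∈ Set.range e ∧ (x k).2.1 ∈ Set.range g) ∧
    Dl m (shf _) ((AP m U V).filter fun x =>
      ∀ k : ℤ, (x k).1 ∈ Set.range e ∧ (x k).2.1 ∈ Set.range g) (pk m kA) (pk m kB) =
      DD m (fun i j => U (e i) (g j)) (fun j i => V (g j) (e i)) := by
  refine hTr _ _ _ _ _ _ m (shf _) (shf _) (AP m (fun i j => U (e i) (g j))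
    (fun j i => V (g j) (e i))) _ (pk m kA) (pk m kB) _ _ (fun x k => fm e g (x k))
    (iv_AP hm _ _) ?_ ?_ ?_ ?_ ?_ ?_
  · intro x hx
    rw [mem_AP hm] at hx
    rw [mem_filter, mem_AP hm]
    refine ⟨fun k => ⟨congrArg (fm e g) (hx k).1, (hx k).2.1, (hx k).2.2⟩, fun k => ⟨⟨_, rfl⟩, ⟨_, rfl⟩⟩⟩
  · intro x _ y _ hxy
    funext k
    have h1 := congrFun hxy k
    simp only [fm, Prod.mk.injEq, he.injective.eq_iff, hg.injective.eq_iff] at h1
    exact Prod.ext h1.1 (Prod.ext h1.2.1 (Prod.ext h1.2.2.1 h1.2.2.2))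
  · intro y hy
    rw [mem_filter, mem_AP hm] at hy
    obtain ⟨hy1, hy2⟩ := hy
    choose u hu using fun k => (hy2 k).1
    choose v hv using fun k => (hy2 k).2
    have hy3 : (fun k => fm e g (u k, v k, (y k).2.2.1, (y k).2.2.2)) = y := by
      funext k
      show (e (u k), g (v k), (y k).2.2.1, (y k).2.2.2) = y k
      rw [hu, hv]
    refine ⟨fun k => (u k, v k, (y k).2.2.1, (y k).2.2.2), ?_, hy3⟩
    rw [mem_AP hm]
    intro k
    obtain ⟨h1, h2, h3⟩ := hy1 k
    refine ⟨?_, ?_, ?_⟩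
    · have hu1 : u (k + m) = u k := he.injective (by rw [hu, hu, h1])
      have hv1 : v (k + m) = v k := hg.injective (by rw [hv, hv, h1])
      show (u (k + m), v (k + m), (y (k + m)).2.2.1, (y (k + m)).2.2.2) = _
      rw [hu1, hv1, h1]
    · show (y k).2.2.1 ∈ U (e (u k)) (g (v k))
      rw [hu, hv]
      exact h2
    · show (y k).2.2.2 ∈ V (g (v k)) (e (u (k + 1)))
      rw [hu, hv]
      exact h3
  · intro x _
    rfl
  · intro x _ y _
    exact pk_iff (fm e g) (fun a b c d => (kA_iff he hg a b c d).1)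
      (fun a b c d => (kA_iff he hg a b c d).2) x y
  · intro x _ y _
    exact pk_iff (fm e g) (fun a b c d => (kB_iff he hg a b c d).1)
      (fun a b c d => (kB_iff he hg a b c d).2) x y

end emb

private theorem castAdd_iff {a b : ℕ} (i : Fin (a + b)) :
    i ∈ Set.range (Fin.castAdd b : Fin a → Fin (a + b)) ↔ (i : ℕ) < a := by
  constructor
  · rintro ⟨j, rfl⟩
    exact j.2
  · intro h
    exact ⟨⟨i, h⟩, rfl⟩

private theorem natAdd_iff {a b : ℕ} (i : Fin (a + b)) :
    i ∈ Set.range (Fin.natAdd a : Fin b → Fin (a + b)) ↔ a ≤ (i : ℕ) := by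
  constructor
  · rintro ⟨j, rfl⟩
    exact Nat.le_add_right _ _
  · intro h
    refine ⟨⟨(i : ℕ) - a, by have := i.2; omega⟩, ?_⟩
    apply Fin.ext
    show a + ((i : ℕ) - a) = i
    omega

private theorem zero_of {a b c d : ℕ} {R : Matrix (Fin (a + b)) (Fin (c + d)) ℕ} (h : b21 R = 0)
    {i : Fin (a + b)} {j : Fin (c + d)} (hi : a ≤ (i : ℕ)) (hj : (j : ℕ) < c) : R i j = 0 := by
  obtain ⟨i', rfl⟩ := (natAdd_iff i).2 hi
  obtain ⟨j', rfl⟩ := (castAdd_iff j).2 hj
  exact congrFun (congrFun h i') j'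

private theorem castAdd_sm (a b : ℕ) : StrictMono (Fin.castAdd b : Fin a → Fin (a + b)) :=
  fun _ _ h => h

private theorem natAdd_sm (a b : ℕ) : StrictMono (Fin.natAdd a : Fin b → Fin (a + b)) :=
  fun _ _ h => Nat.add_lt_add_left h a

theorem t_AddN (hTr : S_Tr) (hUn : S_Un) : S_AddN := by
  classical
  intro m a b c d R S hm hR hS
  set U : Fin (a + b) → Fin (c + d) → Finset ℕ := fun i j => range (R i j) with hU
  set V : Fin (c + d) → Fin (a + b) → Finset ℕ := fun j i => range (S j i) with hV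
  obtain ⟨i1, e1⟩ := emb hTr hm (castAdd_sm a b) (castAdd_sm c d) U V
  obtain ⟨i2, e2⟩ := emb hTr hm (natAdd_sm a b) (natAdd_sm c d) U V
  set F₁ := (AP m U V).filter fun x => ∀ k : ℤ,
    (x k).1 ∈ Set.range (Fin.castAdd b : Fin a → Fin (a + b)) ∧
    (x k).2.1 ∈ Set.range (Fin.castAdd d : Fin c → Fin (c + d)) with hF₁
  set F₂ := (AP m U V).filter fun x => ∀ k : ℤ,
    (x k).1 ∈ Set.range (Fin.natAdd a : Fin b → Fin (a + b)) ∧
    (x k).2.1 ∈ Set.range (Fin.natAdd c : Fin d → Fin (c + d)) with hF₂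
  have hm' : (0 : ℤ) < m := by exact_mod_cast hm
  have hunion : AP m U V = F₁ ∪ F₂ := by
    ext x
    rw [mem_union]
    constructor
    · intro hx
      have hx' := (mem_AP hm).1 hx
      have hA : ∀ k : ℤ, a ≤ ((x k).1 : ℕ) → c ≤ ((x k).2.1 : ℕ) := by
        intro k hk
        by_contra hcon
        have h1 := (hx' k).2.1
        rw [hU] at h1
        simp only at h1
        rw [zero_of hR hk (not_le.1 hcon)] at h1
        simp at h1
      have hB : ∀ k : ℤ, c ≤ ((x k).2.1 : ℕ) → a ≤ ((x (k + 1)).1 : ℕ) := by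
        intro k hk
        by_contra hcon
        have h1 := (hx' k).2.2
        rw [hV] at h1
        simp only at h1
        rw [zero_of hS hk (not_le.1 hcon)] at h1
        simp at h1
      have hstep : ∀ (n : ℕ) (k : ℤ), a ≤ ((x k).1 : ℕ) → a ≤ ((x (k + n)).1 : ℕ) := by
        intro n
        induction n with
        | zero => intro k hk; simpa using hk
        | succ n ih =>
          intro k hk
          have e : k + ((n + 1 : ℕ) : ℤ) = k + n + 1 := by push_cast; ring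
          rw [e]
          exact hB _ (hA _ (ih k hk))
      have hall : ∀ k l : ℤ, a ≤ ((x k).1 : ℕ) → a ≤ ((x l).1 : ℕ) := by
        intro k l hk
        have h1 := hstep (l + (|k| + |l|) * m - k).toNat k hk
        have h2 : 0 ≤ l + (|k| + |l|) * m - k := by
          have h3 : (|k| + |l|) * 1 ≤ (|k| + |l|) * (m : ℤ) :=
            mul_le_mul_of_nonneg_left (by omega) (by positivity)
          have h4 := le_abs_self k
          have h5 := neg_abs_le l
          linarith
        rw [Int.toNat_of_nonneg h2] at h1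
        have h3 : k + (l + (|k| + |l|) * m - k) = l + (|k| + |l|) * m := by ring
        rw [h3, per_mul (fun k => (hx' k).1)] at h1
        exact h1
      by_cases h0 : a ≤ ((x 0).1 : ℕ)
      · right
        rw [hF₂, mem_filter]
        refine ⟨hx, fun k => ?_⟩
        have hk := hall 0 k h0
        exact ⟨(natAdd_iff _).2 hk, (natAdd_iff _).2 (hA k hk)⟩
      · left
        rw [hF₁, mem_filter]
        refine ⟨hx, fun k => ⟨(castAdd_iff _).2 ?_, (castAdd_iff _).2 ?_⟩⟩
        · exact not_le.1 fun hk => h0 (hall k 0 hk)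
        · exact not_le.1 fun hk => h0 (hall (k + 1) 0 (hB k hk))
    · rintro (hx | hx)
      · exact (mem_filter.1 hx).1
      · exact (mem_filter.1 hx).1
  have key := hUn _ _ _ m (shf _) F₁ F₂ (pk m kA) (pk m kB) i1 i2 ?_ ?_
  · rw [← hunion, e1, e2] at key
    exact key
  · intro x hx y hy
    refine pk_lt_iff.2 ⟨⟨0, hm⟩, fun j hj => absurd hj (Nat.not_lt_zero _), ?_⟩
    have h1 := (castAdd_iff _).1 ((mem_filter.1 hx).2 0).1
    have h2 := (natAdd_iff _).1 ((mem_filter.1 hy).2 0).1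
    have h3 : (x 0).1 < (y 0).1 := Fin.lt_def.2 (lt_of_lt_of_le h1 h2)
    exact Prod.Lex.toLex_lt_toLex.2 (Or.inl h3)
  · intro x hx y hy
    refine pk_lt_iff.2 ⟨⟨0, hm⟩, fun j hj => absurd hj (Nat.not_lt_zero _), ?_⟩
    have h1 := (castAdd_iff _).1 ((mem_filter.1 hx).2 0).2
    have h2 := (natAdd_iff _).1 ((mem_filter.1 hy).2 0).2
    have h3 : (x 0).2.1 < (y 0).2.1 := Fin.lt_def.2 (lt_of_lt_of_le h1 h2)
    exact Prod.Lex.toLex_lt_toLex.2 (Or.inl h3)

end Pool.MP_5a0708_an.KRW
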