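import Pool.Agent.Lib.MP_5a0708_an.KRW.SpecC

/-!
# MP_5a0708_an, package KRW : module Alg
-/

set_option autoImplicit false

namespace Pool.MP_5a0708_an.KRW

theorem t_Alg : S_Alg := by
  intro m z hz
  have h1 : ∀ (n : ℕ) (X : Matrix (Fin n) (Fin n) ℤ), z n n 1 X = 0 := by
    intro n X
    have := hz.tri n n n 1 1 X
    rw [one_mul, mul_one, one_mul] at this
    exact (add_eq_left.mp this)
  refine ⟨h1, ?_, ?_, ?_, fun p q P => hz.zero p q P⟩
  · intro p p' q P Q R S hQP
    have := hz.tri p' p q P R (S * Q)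
    rw [Matrix.mul_assoc S Q P, hQP, Matrix.mul_one, ← Matrix.mul_assoc] at this
    rw [← this, add_comm]
  · intro p q q' P Q R S hPQ
    have := hz.tri p q q' R P (Q * S)
    rw [← Matrix.mul_assoc P Q S, hPQ, Matrix.one_mul] at this
    rw [← this]
  · intro p p' P Q X hPQ
    have := hz.tri p p' p P Q X
    rw [hPQ, h1] at this
    exact eq_neg_of_add_eq_zero_right this

end Pool.MP_5a0708_an.KRW
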