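import Pool.Agent.Lib.MP_5a0708_an.KRW.SpecD

/-!
# MP_5a0708_an, package KRW : any two codings are connected by splittings
-/

set_option autoImplicit false

namespace Pool.MP_5a0708_an.KRW

open Finset Matrix Pool.MP_5a0708_an.Nil

/-- splittings in the direction `s` -/
private def ChSp (s : ℤ) {n n' : ℕ} (u : Pt → Fin n) (u' : Pt → Fin n') : Prop :=
  (∀ x y : Pt, u' x = u' y → u x = u y) ∧
    ∀ x y : Pt, u x = u y → u (tr s x) = u (tr s y) → u' x = u' y

private theorem ch_p {n n' : ℕ} {u : Pt → Fin n} {u' : Pt → Fin n'}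
    (h : Function.Surjective u') (hd : ∀ x y : Pt, u' x = u' y → u x = u y) :
    ∃ p : Fin n' → Fin n, ∀ x, u x = p (u' x) := by
  choose g hg using h
  exact ⟨fun j => u (g j), fun x => hd _ _ (hg (u' x)).symm⟩

/-- the properties of the relation -/
private structure ChE (E : (n : ℕ) → (Pt → Fin n) → (n' : ℕ) → (Pt → Fin n') → Prop) :
    Prop where
  sym : ∀ n u n' u', E n u n' u' → E n' u' n u
  tra : ∀ n u n' u' n'' u'', Gd n u → Gd n' u' → Gd n'' u'' → E n u n' u' → E n' u' n'' u'' →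
    E n u n'' u''
  sp : ∀ s : ℤ, (s = 1 ∨ s = -1) → ∀ n u n' u', Gd n u → Function.Surjective u' →
    ChSp s u u' → Gd n' u' ∧ E n u n' u'

private theorem ch_e0 {E : (n : ℕ) → (Pt → Fin n) → (n' : ℕ) → (Pt → Fin n') → Prop}
    (h : ChE E) {n n' : ℕ} {u : Pt → Fin n} {v : Pt → Fin n'} (hu : Gd n u) (hv : Gd n' v)
    (h1 : ∀ x y : Pt, u x = u y → v x = v y) (h2 : ∀ x y : Pt, v x = v y → u x = u y) :
    E n u n' v :=
  (h.sp 1 (Or.inl rfl) n u n' v hu hv.surj ⟨h2, fun x y hxy _ => h1 x y hxy⟩).2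

private theorem ch_enum {E : (n : ℕ) → (Pt → Fin n) → (n' : ℕ) → (Pt → Fin n') → Prop}
    (h : ChE E) (hE : S_Enum) {s : ℤ} (hs : s = 1 ∨ s = -1) {n : ℕ} {u : Pt → Fin n}
    (hu : Gd n u) {K : Type} [Finite K] (c : Pt → K) (h1 : ∀ x y : Pt, c x = c y → u x = u y)
    (h2 : ∀ x y : Pt, u x = u y → u (tr s x) = u (tr s y) → c x = c y) :
    ∃ (n' : ℕ) (u' : Pt → Fin n'), Gd n' u' ∧ E n u n' u' ∧
      ∀ x y : Pt, u' x = u' y ↔ c x = c y := by
  obtain ⟨n', u', hsu, hiff⟩ := hE K c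
  obtain ⟨h3, h4⟩ := h.sp s hs n u n' u' hu hsu
    ⟨fun x y hxy => h1 x y ((hiff x y).1 hxy), fun x y hx hy => (hiff x y).2 (h2 x y hx hy)⟩
  exact ⟨n', u', h3, h4, hiff⟩

private theorem ch_step {E : (n : ℕ) → (Pt → Fin n) → (n' : ℕ) → (Pt → Fin n') → Prop}
    (h : ChE E) (hE : S_Enum) {s : ℤ} (hs : s = 1 ∨ s = -1) (I I' : Set ℤ) (hI : s ∈ I)
    (hI' : ∀ k ∈ I, k ∈ I' ∨ k - s ∈ I')
    (ih : ∀ (n : ℕ) (u : Pt → Fin n) (n' : ℕ) (v : Pt → Fin n'), Gd n u → Gd n' v →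
      (∀ x y : Pt, u x = u y → v x = v y) →
      (∀ x y : Pt, (∀ k ∈ I', v (tr k x) = v (tr k y)) → u x = u y) → E n u n' v)
    (n : ℕ) (u : Pt → Fin n) (n' : ℕ) (v : Pt → Fin n') (hu : Gd n u) (hv : Gd n' v)
    (huv : ∀ x y : Pt, u x = u y → v x = v y)
    (hvu : ∀ x y : Pt, (∀ k ∈ I, v (tr k x) = v (tr k y)) → u x = u y) : E n u n' v := by
  obtain ⟨n1, u1, gu1, eu1, hu1⟩ := ch_enum h hE hs hu (K := Fin n × Fin n')
    (fun x => (u x, v (tr s x))) (fun x y hxy => (Prod.ext_iff.1 hxy).1)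
    (fun x y h1 h2 => Prod.ext h1 (huv _ _ h2))
  obtain ⟨n2, v1, gv1, ev1, hv1⟩ := ch_enum h hE hs hv (K := Fin n' × Fin n')
    (fun x => (v x, v (tr s x))) (fun x y hxy => (Prod.ext_iff.1 hxy).1)
    (fun x y h1 h2 => Prod.ext h1 h2)
  have e1 : E n1 u1 n2 v1 := by
    refine ih n1 u1 n2 v1 gu1 gv1 ?_ ?_
    · intro x y hxy
      have h1 := (hu1 x y).1 hxy
      have h2 : u x = u y := (Prod.ext_iff.1 h1).1
      exact (hv1 x y).2 (Prod.ext (huv _ _ h2) (Prod.ext_iff.1 h1).2)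
    · intro x y hxy
      have h1 : ∀ k ∈ I, v (tr k x) = v (tr k y) := by
        intro k hk
        rcases hI' k hk with h2 | h2
        · exact (Prod.ext_iff.1 ((hv1 _ _).1 (hxy k h2))).1
        · have h3 : v (tr s (tr (k - s) x)) = v (tr s (tr (k - s) y)) :=
            (Prod.ext_iff.1 ((hv1 _ _).1 (hxy (k - s) h2))).2
          rwa [tr_tr', tr_tr', show s + (k - s) = k by ring] at h3
      exact (hu1 x y).2 (Prod.ext (hvu x y h1) (h1 s hI))
  exact h.tra _ _ _ _ _ _ hu gu1 hv eu1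
    (h.tra _ _ _ _ _ _ gu1 gv1 hv e1 (h.sym _ _ _ _ ev1))

private theorem ch_claim {E : (n : ℕ) → (Pt → Fin n) → (n' : ℕ) → (Pt → Fin n') → Prop}
    (h : ChE E) (hE : S_Enum) (N : ℕ) : ∀ (a b : ℕ), a + b = N →
    ∀ (n : ℕ) (u : Pt → Fin n) (n' : ℕ) (v : Pt → Fin n'), Gd n u → Gd n' v →
      (∀ x y : Pt, u x = u y → v x = v y) →
      (∀ x y : Pt, (∀ k ∈ Set.Icc (-(a : ℤ)) (b : ℤ), v (tr k x) = v (tr k y)) → u x = u y) →
      E n u n' v := by
  induction N with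
  | zero =>
    intro a b hab n u n' v hu hv huv hvu
    have ha : a = 0 := by omega
    have hb : b = 0 := by omega
    subst ha hb
    refine ch_e0 h hu hv huv fun x y hxy => hvu x y fun k hk => ?_
    have hk0 : k = 0 := by
      have h1 := hk.1
      have h2 := hk.2
      push_cast at h1 h2
      omega
    rw [hk0, tr_zero', tr_zero', hxy]
  | succ N ih =>
    intro a b hab
    by_cases hb : 1 ≤ b
    · refine ch_step h hE (Or.inl rfl) _ (Set.Icc (-(a : ℤ)) ((b - 1 : ℕ) : ℤ)) ?_ ?_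
        (ih a (b - 1) (by omega))
      · constructor <;> omega
      · rintro k ⟨h1, h2⟩
        by_cases h3 : k ≤ ((b - 1 : ℕ) : ℤ)
        · exact Or.inl ⟨h1, h3⟩
        · right
          constructor <;> omega
    · refine ch_step h hE (Or.inr rfl) _ (Set.Icc (-((a - 1 : ℕ) : ℤ)) (b : ℤ)) ?_ ?_
        (ih (a - 1) b (by omega))
      · constructor <;> omega
      · rintro k ⟨h1, h2⟩
        by_cases h3 : -((a - 1 : ℕ) : ℤ) ≤ k
        · exact Or.inl ⟨h3, h2⟩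
        · right
          constructor <;> omega

private theorem ch_win {E : (n : ℕ) → (Pt → Fin n) → (n' : ℕ) → (Pt → Fin n') → Prop}
    (h : ChE E) (hE : S_Enum) {n : ℕ} {u : Pt → Fin n} (hu : Gd n u) (a b : ℕ) :
    ∃ (n' : ℕ) (u' : Pt → Fin n'), Gd n' u' ∧ E n u n' u' ∧
      ∀ x y : Pt, u' x = u' y ↔ ∀ k : ℤ, -(a : ℤ) ≤ k → k ≤ b → u (tr k x) = u (tr k y) := by
  have hA : ∀ b : ℕ, ∃ (n' : ℕ) (u' : Pt → Fin n'), Gd n' u' ∧ E n u n' u' ∧
      ∀ x y : Pt, u' x = u' y ↔ ∀ k : ℤ, 0 ≤ k → k ≤ b → u (tr k x) = u (tr k y) := by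
    intro b
    induction b with
    | zero =>
      refine ⟨n, u, hu, ch_e0 h hu hu (fun _ _ h => h) (fun _ _ h => h), fun x y => ?_⟩
      constructor
      · intro hxy k h1 h2
        have : k = 0 := by
          push_cast at h2
          omega
        rw [this, tr_zero', tr_zero', hxy]
      · intro hk
        have := hk 0 le_rfl (by simp)
        rwa [tr_zero', tr_zero'] at this
    | succ b ih =>
      obtain ⟨n1, u1, g1, e1, h1⟩ := ih
      obtain ⟨n2, u2, g2, e2, h2⟩ := ch_enum h hE (Or.inl rfl) g1 (K := Fin n1 × Fin n)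
        (fun x => (u1 x, u (tr ((b : ℤ) + 1) x))) (fun x y hxy => (Prod.ext_iff.1 hxy).1)
        (fun x y h3 h4 => Prod.ext h3 (by
          have := (h1 _ _).1 h4 b (by omega) le_rfl
          rwa [tr_tr', tr_tr'] at this))
      refine ⟨n2, u2, g2, h.tra _ _ _ _ _ _ hu g1 g2 e1 e2, fun x y => ?_⟩
      rw [h2]
      constructor
      · intro hxy k hk hk'
        have h3 : u1 x = u1 y := (Prod.ext_iff.1 hxy).1
        have h4 : u (tr ((b : ℤ) + 1) x) = u (tr ((b : ℤ) + 1) y) := (Prod.ext_iff.1 hxy).2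
        push_cast at hk'
        rcases lt_or_eq_of_le hk' with h5 | h5
        · exact (h1 x y).1 h3 k hk (by omega)
        · rw [h5]
          exact h4
      · intro hk
        refine Prod.ext ((h1 x y).2 fun k h3 h4 => hk k h3 (by push_cast; omega)) ?_
        exact hk _ (by omega) (by push_cast; omega)
  obtain ⟨n0, v0, g0, e0, h0⟩ := hA b
  induction a with
  | zero =>
    refine ⟨n0, v0, g0, e0, fun x y => ?_⟩
    rw [h0]
    simp
  | succ a ih =>
    obtain ⟨n1, u1, g1, e1, h1⟩ := ih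
    obtain ⟨n2, u2, g2, e2, h2⟩ := ch_enum h hE (Or.inr rfl) g1 (K := Fin n1 × Fin n)
      (fun x => (u1 x, u (tr (-(a : ℤ) - 1) x))) (fun x y hxy => (Prod.ext_iff.1 hxy).1)
      (fun x y h3 h4 => Prod.ext h3 (by
        have := (h1 _ _).1 h4 (-(a : ℤ)) le_rfl (by omega)
        rw [tr_tr', tr_tr'] at this
        exact this))
    refine ⟨n2, u2, g2, h.tra _ _ _ _ _ _ hu g1 g2 e1 e2, fun x y => ?_⟩
    rw [h2]
    constructor
    · intro hxy k hk hk'
      have h3 : u1 x = u1 y := (Prod.ext_iff.1 hxy).1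
      have h4 : u (tr (-(a : ℤ) - 1) x) = u (tr (-(a : ℤ) - 1) y) := (Prod.ext_iff.1 hxy).2
      push_cast at hk
      by_cases h5 : -(a : ℤ) ≤ k
      · exact (h1 x y).1 h3 k h5 hk'
      · have h6 : k = -(a : ℤ) - 1 := by omega
        rw [h6]
        exact h4
    · intro hk
      refine Prod.ext ((h1 x y).2 fun k h3 h4 => hk k (by push_cast; omega) h4) ?_
      exact hk _ (by push_cast; omega) (by omega)

theorem t_CH (hGSp : S_GSp) (hEnum : S_Enum) : S_CH := by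
  intro E hsym htra hR hL n u n' v hu hv
  have h : ChE E := by
    refine ⟨hsym, htra, ?_⟩
    rintro s (rfl | rfl) n u n' u' hu hs hsp
    · obtain ⟨p, hp⟩ := ch_p hs hsp.1
      have h1 : RSp u u' p := ⟨hp, hsp.2⟩
      have h2 : Gd n' u' := hGSp n n' u u' p hu hs (Or.inl h1)
      exact ⟨h2, hR n u n' u' p hu h2 h1⟩
    · obtain ⟨p, hp⟩ := ch_p hs hsp.1
      have h1 : LSp u u' p := ⟨hp, hsp.2⟩
      have h2 : Gd n' u' := hGSp n n' u u' p hu hs (Or.inr h1)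
      exact ⟨h2, hL n u n' u' p hu h2 h1⟩
  obtain ⟨w, hw⟩ := hv.loc
  obtain ⟨w', hw'⟩ := hu.win
  obtain ⟨n1, u1, g1, e1, h1⟩ := ch_win h hEnum hu (w + w') (w + w')
  obtain ⟨w1, hw1⟩ := g1.loc
  obtain ⟨w2, hw2⟩ := hv.win
  refine htra _ _ _ _ _ _ hu g1 hv e1
    (ch_claim h hEnum _ (w1 + w2) (w1 + w2) rfl n1 u1 n' v g1 hv ?_ ?_)
  · intro x y hxy
    refine hw x y fun i hi hi' => ?_
    refine hw' (-w) w x y (fun k hk hk' => ?_) i hi hi'
    exact (h1 x y).1 hxy k (by push_cast; omega) (by push_cast; omega)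
  · intro x y hxy
    refine hw1 x y fun i hi hi' => ?_
    refine hw2 (-w1) w1 x y (fun k hk hk' => ?_) i hi hi'
    exact hxy k ⟨by push_cast; omega, by push_cast; omega⟩

end Pool.MP_5a0708_an.KRW
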