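import Pool.Agent.Lib.MP_5a0708_an.KRW.SpecC

/-!
# MP_5a0708_an, package KRW : the pair lemma for cores (COR)
-/

set_option autoImplicit false

namespace Pool.MP_5a0708_an.KRW

open Finset Matrix

theorem t_COR (hSt : S_St) : S_COR := by
  intro m z hz t
  induction t with
  | zero =>
    intro p q R S r s C π h C' π' h' h1 h2
    cases h1
    cases h2
    refine ⟨R, S, rfl, rfl, ?_, ?_⟩
    · rw [Matrix.one_mul, Matrix.mul_one]
    · rw [sub_zero, zero_add]
  | succ t ih =>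
    intro p q R S r s C π h C' π' h' h1 h2
    cases h1 with
    | succ _ K _ π₁ h₁ hc₁ =>
    cases h2 with
    | succ _ K' _ π₂ h₂ hc₂ =>
    obtain ⟨e1, e2, e3, e4, -⟩ := hSt m z hz p q R S K K'
    rw [← e2] at hc₁
    rw [← e3] at hc₂
    obtain ⟨R₀, S₀, f1, f2, f3, f4⟩ := ih _ _ _ _ _ _ _ _ _ _ _ _ hc₁ hc₂
    refine ⟨R₀, S₀, f1, f2, ?_, ?_⟩
    · rw [Matrix.mul_assoc, e4, ← Matrix.mul_assoc, f3, Matrix.mul_assoc]
    · rw [e1, f4]
      ring

end Pool.MP_5a0708_an.KRW
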