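import Pool.Agent.Lib.MP_5a0708_an.KRW.SpecC

/-!
# MP_5a0708_an, package KRW : module Chi
-/

set_option autoImplicit false

namespace Pool.MP_5a0708_an.KRW

open Finset Matrix

/-- the `1 × 1` matrix -/
private def cst (a : ℤ) : Matrix (Fin 1) (Fin 1) ℤ := fun _ _ => a

private theorem cst_mul (a b : ℤ) : cst a * cst b = cst (a * b) := by
  ext i j
  simp [cst, Matrix.mul_apply]

private theorem cst_one : cst 1 = 1 := by
  ext i j
  rw [Subsingleton.elim i j, Matrix.one_apply_eq]
  rfl

private theorem eq_cst (R : Matrix (Fin 1) (Fin 1) ℤ) : R = cst (R 0 0) := by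
  ext i j
  rw [Subsingleton.elim i 0, Subsingleton.elim j 0]
  rfl

theorem t_Chi (hAlg : S_Alg) : S_Chi := by
  intro m z hz
  obtain ⟨h1, -⟩ := hAlg m z hz
  have tri : ∀ a b c : ℤ, z 1 1 (cst a) (cst (b * c)) + z 1 1 (cst b) (cst (c * a)) =
      z 1 1 (cst (a * b)) (cst c) := by
    intro a b c
    have := hz.tri 1 1 1 (cst a) (cst b) (cst c)
    rwa [cst_mul, cst_mul, cst_mul] at this
  have h12 : z 1 1 (cst 1) (cst 2) = 0 := by
    rw [cst_one]
    exact h1 1 _
  set τ : ZMod m := z 1 1 (cst 2) (cst 1) with hτ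
  set ε : ZMod m := z 1 1 (cst (-1)) (cst (-2)) with hε
  have h2 : ε + ε = 0 := by
    have := tri (-1) (-1) 2
    norm_num at this
    rw [h12] at this
    exact this
  have h3 : z 1 1 (cst (-2)) (cst (-1)) = τ + ε := by
    have := tri (-1) 2 (-1)
    norm_num at this
    rw [← this, hτ, hε]
    ring
  haveI : Fact (Nat.Prime 2) := ⟨Nat.prime_two⟩
  refine ⟨fun x => (padicValRat 2 x) • τ + (if x < 0 then ε else 0), ?_, ?_⟩
  · intro x y hx hy
    simp only
    rw [padicValRat.mul hx hy, add_smul]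
    have key : (if x * y < 0 then ε else 0) = (if x < 0 then ε else 0) + (if y < 0 then ε else 0) := by
      rcases lt_or_gt_of_ne hx with h4 | h4 <;> rcases lt_or_gt_of_ne hy with h5 | h5
      · rw [if_neg (not_lt.mpr (mul_pos_of_neg_of_neg h4 h5).le), if_pos h4, if_pos h5, h2]
      · rw [if_pos (mul_neg_of_neg_of_pos h4 h5), if_pos h4, if_neg (not_lt.mpr h5.le), add_zero]
      · rw [if_pos (mul_neg_of_pos_of_neg h4 h5), if_pos h5, if_neg (not_lt.mpr h4.le), zero_add]
      · rw [if_neg (not_lt.mpr (mul_pos h4 h5).le), if_neg (not_lt.mpr h4.le),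
          if_neg (not_lt.mpr h5.le), add_zero]
    rw [key]
    ring
  · intro R S hRS
    simp only
    have hv2 : padicValRat 2 (2 : ℚ) = 1 := by
      have := padicValRat.self (p := 2) (by norm_num)
      exact_mod_cast this
    have hv1 : padicValRat 2 (1 : ℚ) = 0 := padicValRat.one
    have hd : (R 0 0) ∣ 2 := ⟨S 0 0, hRS.symm⟩
    have hn : (R 0 0).natAbs ∣ 2 := by
      have := Int.natAbs_dvd_natAbs.mpr hd
      simpa using this
    rw [eq_cst R, eq_cst S]
    have hcases : (R 0 0 = 1 ∧ S 0 0 = 2) ∨ (R 0 0 = -1 ∧ S 0 0 = -2) ∨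
        (R 0 0 = 2 ∧ S 0 0 = 1) ∨ (R 0 0 = -2 ∧ S 0 0 = -1) := by
      rcases (Nat.dvd_prime Nat.prime_two).mp hn with h | h
      · rcases Int.natAbs_eq (R 0 0) with h' | h' <;> rw [h] at h' <;> rw [h'] at hRS ⊢
        · left; constructor <;> push_cast at * <;> omega
        · right; left; constructor <;> push_cast at * <;> omega
      · rcases Int.natAbs_eq (R 0 0) with h' | h' <;> rw [h] at h' <;> rw [h'] at hRS ⊢
        · right; right; left; constructor <;> push_cast at * <;> omega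
        · right; right; right; constructor <;> push_cast at * <;> omega
    rcases hcases with ⟨ha, hb⟩ | ⟨ha, hb⟩ | ⟨ha, hb⟩ | ⟨ha, hb⟩
    · rw [ha, hb, h12]
      simp [cst]
    · rw [ha, hb, ← hε]
      have e : ((cst (-1) 0 0 : ℤ) : ℚ) = -1 := by simp [cst]
      rw [e, if_pos (by norm_num), padicValRat.neg, hv1]
      simp
    · rw [ha, hb, ← hτ]
      have e : ((cst 2 0 0 : ℤ) : ℚ) = 2 := by simp [cst]
      rw [e, if_neg (by norm_num), hv2]
      simp
    · rw [ha, hb, h3]
      have e : ((cst (-2) 0 0 : ℤ) : ℚ) = -2 := by simp [cst]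
      rw [e, if_pos (by norm_num), padicValRat.neg, hv2]
      simp

end Pool.MP_5a0708_an.KRW
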