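import Pool.Agent.Lib.MP_5a0708_an.KRW.SpecA

/-!
# MP_5a0708_an, package KRW : module CntP (the count of closed paths)
-/

set_option autoImplicit false

namespace Pool.MP_5a0708_an.KRW

open Finset

/-! ### numbers -/

private theorem cp_card {α β : Type} (A : Finset α) (D : Finset β) (R : β → α → Prop)
    [∀ d, DecidablePred (R d)] (h1 : ∀ a ∈ A, ∃ d ∈ D, R d a)
    (h2 : ∀ a ∈ A, ∀ d ∈ D, ∀ d' ∈ D, R d a → R d' a → d = d') :
    A.card = ∑ d ∈ D, (A.filter (R d)).card := by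
  classical
  have h3 : ∀ a ∈ A, ∑ d ∈ D, (if R d a then 1 else 0) = 1 := by
    intro a ha
    obtain ⟨d, hd, hda⟩ := h1 a ha
    rw [Finset.sum_eq_single d]
    · rw [if_pos hda]
    · intro b hb hne
      rw [if_neg]
      intro hb2
      exact hne (h2 a ha b hb d hd hb2 hda)
    · intro h
      exact absurd hd h
  have h4 : ∀ d ∈ D, (A.filter (R d)).card = ∑ a ∈ A, (if R d a then 1 else 0) := by
    intro d _
    rw [Finset.card_filter]
  rw [Finset.sum_congr rfl h4, Finset.sum_comm, Finset.sum_congr rfl h3, Finset.card_eq_sum_ones]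

/-- the divisors `e` of `h` with `h / e` odd -/
private def Do (h : ℕ) : Finset ℕ := h.divisors.filter fun e => (h / e) % 2 = 1

private theorem mem_Do {h e : ℕ} (hh : 0 < h) : e ∈ Do h ↔ ∃ c, h = e * (2 * c + 1) := by
  unfold Do
  rw [Finset.mem_filter, Nat.mem_divisors]
  constructor
  · rintro ⟨⟨⟨q, rfl⟩, h0⟩, h1⟩
    have he : 0 < e := Nat.pos_of_ne_zero fun h => h0 (by rw [h, zero_mul])
    rw [Nat.mul_div_cancel_left _ he] at h1
    exact ⟨q / 2, by rw [show 2 * (q / 2) + 1 = q by omega]⟩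
  · rintro ⟨c, rfl⟩
    have he : 0 < e := Nat.pos_of_ne_zero fun h => by rw [h, zero_mul] at hh; exact absurd hh (by omega)
    refine ⟨⟨⟨_, rfl⟩, hh.ne'⟩, ?_⟩
    rw [Nat.mul_div_cancel_left _ he]
    omega

private theorem cp_even {a c : ℕ → ℕ} (ha : ∀ d, d % 2 = 1 → a d = 0)
    (hs : ∀ h, 0 < h → ∑ e ∈ Do h, a (2 * e) = ∑ d ∈ h.divisors, c d) (h : ℕ) (hh : 0 < h) :
    ∑ d ∈ h.divisors.filter (fun e => ¬ (h / e) % 2 = 1), c d = ∑ e ∈ Do h, a e := by
  rcases Nat.even_or_odd' h with ⟨h', rfl | rfl⟩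
  · have hh' : 0 < h' := by omega
    have e1 : (2 * h').divisors.filter (fun e => ¬ (2 * h' / e) % 2 = 1) = h'.divisors := by
      ext d
      rw [Finset.mem_filter, Nat.mem_divisors, Nat.mem_divisors]
      constructor
      · rintro ⟨⟨⟨q, hq⟩, _⟩, h1⟩
        have hd : 0 < d := Nat.pos_of_ne_zero fun h => by rw [h, zero_mul] at hq; omega
        rw [hq, Nat.mul_div_cancel_left _ hd] at h1
        refine ⟨⟨q / 2, ?_⟩, hh'.ne'⟩
        have h2 : q = 2 * (q / 2) := by omega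
        rw [h2] at hq
        have h3 : 2 * h' = 2 * (d * (q / 2)) := by rw [hq]; ring
        omega
      · rintro ⟨⟨q, hq⟩, _⟩
        have hd : 0 < d := Nat.pos_of_ne_zero fun h => by rw [h, zero_mul] at hq; omega
        have h2 : 2 * h' = d * (2 * q) := by rw [hq]; ring
        refine ⟨⟨⟨_, h2⟩, by omega⟩, ?_⟩
        rw [h2, Nat.mul_div_cancel_left _ hd]
        omega
    rw [e1, ← hs h' hh']
    refine Finset.sum_bij (fun e _ => 2 * e) ?_ ?_ ?_ ?_
    · intro e he
      rw [mem_Do hh'] at he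
      rw [mem_Do hh]
      obtain ⟨q, hq⟩ := he
      exact ⟨q, by rw [hq]; ring⟩
    · intro e _ e' _ h1
      have h2 : 2 * e = 2 * e' := h1
      omega
    · intro e he
      rw [mem_Do hh] at he
      obtain ⟨q, hq⟩ := he
      have h1 : e % 2 = 0 := by
        by_contra h2
        have h3 : e = 2 * (e / 2) + 1 := by omega
        have h4 : 2 * h' = 2 * ((e / 2) * (2 * q + 1) + q) + 1 := by
          rw [hq]
          conv_lhs => rw [h3]
          ring
        omega
      refine ⟨e / 2, ?_, by omega⟩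
      rw [mem_Do hh']
      refine ⟨q, ?_⟩
      have h2 : e = 2 * (e / 2) := by omega
      have h3 : 2 * h' = 2 * (e / 2 * (2 * q + 1)) := by
        rw [hq]
        conv_lhs => rw [h2]
        ring
      omega
    · intro e _
      rfl
  · have e1 : (2 * h' + 1).divisors.filter (fun e => ¬ ((2 * h' + 1) / e) % 2 = 1) = ∅ := by
      rw [Finset.eq_empty_iff_forall_notMem]
      intro d hd
      rw [Finset.mem_filter, Nat.mem_divisors] at hd
      obtain ⟨⟨⟨q, hq⟩, _⟩, h1⟩ := hd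
      have hd : 0 < d := Nat.pos_of_ne_zero fun h => by rw [h, zero_mul] at hq; omega
      rw [hq, Nat.mul_div_cancel_left _ hd] at h1
      have h2 : q = 2 * (q / 2) := by omega
      rw [h2] at hq
      have h3 : 2 * h' + 1 = 2 * (d * (q / 2)) := by rw [hq]; ring
      omega
    rw [e1, Finset.sum_empty]
    symm
    refine Finset.sum_eq_zero fun e he => ha e ?_
    rw [mem_Do hh] at he
    obtain ⟨q, hq⟩ := he
    by_contra h2
    have h3 : e = 2 * (e / 2) := by omega
    have h4 : 2 * h' + 1 = 2 * (e / 2 * (2 * q + 1)) := by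
      rw [hq]
      conv_lhs => rw [h3]
      ring
    omega

private theorem cp_num {a c : ℕ → ℕ} (ha : ∀ d, d % 2 = 1 → a d = 0)
    (hs : ∀ h, 0 < h → ∑ e ∈ Do h, a (2 * e) = ∑ d ∈ h.divisors, c d) (h : ℕ) (hh : 0 < h) :
    a (2 * h) = a h + c h := by
  induction h using Nat.strong_induction_on with
  | _ h ih =>
    have h1 := hs h hh
    have h2 := cp_even ha hs h hh
    have h3 : ∑ d ∈ h.divisors, c d = ∑ e ∈ Do h, c e +
        ∑ d ∈ h.divisors.filter (fun e => ¬ (h / e) % 2 = 1), c d :=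
      (Finset.sum_filter_add_sum_filter_not _ _ _).symm
    have hm : h ∈ Do h := (mem_Do hh).2 ⟨0, by ring⟩
    have h4 : ∑ e ∈ (Do h).erase h, a (2 * e) = ∑ e ∈ (Do h).erase h, (a e + c e) := by
      refine Finset.sum_congr rfl fun e he => ?_
      rw [Finset.mem_erase, mem_Do hh] at he
      obtain ⟨hne, q, hq⟩ := he
      have he0 : 0 < e := Nat.pos_of_ne_zero fun h0 => by rw [h0, zero_mul] at hq; omega
      have hle : e ≤ h := by
        rw [hq]
        exact Nat.le_mul_of_pos_right _ (by omega)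
      exact ih e (lt_of_le_of_ne hle hne) he0
    rw [← Finset.add_sum_erase _ _ hm, h4, Finset.sum_add_distrib, h3, h2,
      ← Finset.add_sum_erase _ c hm, ← Finset.add_sum_erase _ a hm] at h1
    omega

/-! ### closed paths -/

section paths

variable {E I : Type} {ED : Finset E} {src tgt : E → I} {π : Equiv.Perm E}

private theorem ext_pow (t : ℕ) (x : ℤ → E) :
    ext π (((shf E) ^ t) x) = ((shf E) ^ t) (ext π x) := by
  rw [shf_pow, shf_pow]
  rfl

private theorem ext_ap (x : ℤ → E) (k : ℤ) : ext π x k = π (x k) := rfl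

private theorem cp_inv (hi : ∀ e ∈ ED, π (π e) = e) {x : ℤ → E} (hx : ∀ k, x k ∈ ED) :
    ext π (ext π x) = x := funext fun k => hi _ (hx k)

private theorem mem_ED {d : ℕ} (hd : 0 < d) {x : ℤ → E} (hx : x ∈ CP d ED src tgt) (k : ℤ) :
    x k ∈ ED := ((mem_CP hd).1 hx k).2.1

/-- the exponent of a turned path -/
private theorem cp_turn (hi : ∀ e ∈ ED, π (π e) = e) {d t : ℕ} {x : ℤ → E} (hx : ∀ k, x k ∈ ED)
    (hl : LPr (shf E) d x) (ht : ext π x = ((shf E) ^ t) x) (hne : ext π x ≠ x) :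
    ∃ e c : ℕ, d = 2 * e ∧ t = e * (2 * c + 1) ∧ ext π x = ((shf E) ^ e) x := by
  have h1 : ((shf E) ^ (t + t)) x = x := by
    rw [← pow_ap, ← ht, ← ext_pow, ← ht, cp_inv hi hx]
  have h2 : d ∣ t + t := by
    have h3 := (hl.eq_iff (t + t) 0).1 (by rw [h1, pow_zero]; rfl)
    rw [Nat.cast_zero] at h3
    exact (ZMod.natCast_eq_zero_iff _ _).1 h3
  have h3 : ¬ d ∣ t := by
    intro h4
    apply hne
    rw [ht]
    have h5 := (hl.eq_iff t 0).2 (by
      rw [Nat.cast_zero]
      exact (ZMod.natCast_eq_zero_iff _ _).2 h4)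
    rw [h5, pow_zero]
    rfl
  have h4 : d % 2 = 0 := by
    by_contra h5
    have h6 : Nat.Coprime d 2 := Nat.coprime_two_right.2 (Nat.odd_iff.2 (by omega))
    rw [← two_mul] at h2
    exact h3 (h6.dvd_of_dvd_mul_left h2)
  obtain ⟨e, rfl⟩ : ∃ e, d = 2 * e := ⟨d / 2, by omega⟩
  obtain ⟨q, hq⟩ := h2
  have h5 : t = e * q := by
    have : 2 * t = 2 * (e * q) := by rw [two_mul, hq]; ring
    omega
  have h6 : q % 2 = 1 := by
    by_contra h7
    apply h3
    refine ⟨q / 2, ?_⟩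
    have h8 : q = 2 * (q / 2) := by omega
    rw [h5]
    conv_lhs => rw [h8]
    ring
  refine ⟨e, q / 2, rfl, ?_, ?_⟩
  · rw [h5, show 2 * (q / 2) + 1 = q by omega]
  · rw [ht, (hl.eq_iff t e).2]
    have h7 : t = e + 2 * e * (q / 2) := by
      rw [h5]
      conv_lhs => rw [show q = 2 * (q / 2) + 1 by omega]
      ring
    rw [h7]
    push_cast
    have h8 : ((2 * e : ℕ) : ZMod (2 * e)) = 0 := ZMod.natCast_self _
    push_cast at h8
    rw [h8, zero_mul, add_zero]

private theorem cp_odd (hi : ∀ e ∈ ED, π (π e) = e) (d : ℕ) (hd : d % 2 = 1) :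
    nP d ED src tgt π = 0 := by
  classical
  unfold nP
  rw [Finset.card_eq_zero, Finset.eq_empty_iff_forall_notMem]
  intro x hx
  rw [Finset.mem_filter] at hx
  obtain ⟨hx, hl, hne, t, ht⟩ := hx
  obtain ⟨e, c, h1, -, -⟩ := cp_turn hi (mem_ED (by omega) hx) hl ht hne
  omega

private theorem CP_mono {d m : ℕ} (hd : 0 < d) (hm : 0 < m) (h : d ∣ m) {x : ℤ → E}
    (hx : x ∈ CP d ED src tgt) : x ∈ CP m ED src tgt := by
  rw [mem_CP hd] at hx
  rw [mem_CP hm]
  intro k
  refine ⟨?_, (hx k).2⟩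
  obtain ⟨q, rfl⟩ := h
  have := per_mul (fun k => (hx k).1) (q : ℤ) k
  rw [← this]
  congr 1
  push_cast
  ring

private theorem CP_of_LPr {d m : ℕ} (hm : 0 < m) {x : ℤ → E} (hx : x ∈ CP m ED src tgt)
    (hl : LPr (shf E) d x) : x ∈ CP d ED src tgt := by
  rw [mem_CP hm] at hx
  rw [mem_CP hl.1]
  intro k
  refine ⟨?_, (hx k).2⟩
  have := hl.2.1
  rw [shf_pow] at this
  exact congrFun this k

private theorem exists_LPr {m : ℕ} (hm : 0 < m) {x : ℤ → E} (hx : x ∈ CP m ED src tgt) :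
    ∃ d, d ∣ m ∧ LPr (shf E) d x := by
  classical
  have h1 : ∃ d, 0 < d ∧ ((shf E) ^ d) x = x := ⟨m, hm, (iv_CP hm ED src tgt).per x hx⟩
  have h2 := Nat.find_spec h1
  have h3 : LPr (shf E) (Nat.find h1) x :=
    ⟨h2.1, h2.2, fun t h4 h5 h6 => Nat.find_min h1 h5 ⟨h4, h6⟩⟩
  exact ⟨_, h3.dvd (iv_CP hm ED src tgt) hx, h3⟩

private theorem LPr_unique {d d' : ℕ} {x : ℤ → E} (h : LPr (shf E) d x)
    (h' : LPr (shf E) d' x) : d = d' := by
  rcases lt_trichotomy d d' with h1 | h1 | h1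
  · exact absurd h.2.1 (h'.2.2 d h.1 h1)
  · exact h1
  · exact absurd h'.2.1 (h.2.2 d' h'.1 h1)

open Classical in
/-- the paths of length `h` which are moved -/
private noncomputable def Mv (ED : Finset E) (src tgt : E → I) (π : Equiv.Perm E) (h : ℕ) :
    Finset (ℤ → E) := (CP h ED src tgt).filter fun x => ext π x ≠ x

open Classical in
/-- the moved paths of length `2 h` with `ψ y = s ^ h y` -/
private noncomputable def Zm (ED : Finset E) (src tgt : E → I) (π : Equiv.Perm E) (h : ℕ) :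
    Finset (ℤ → E) :=
  (CP (2 * h) ED src tgt).filter fun y => ext π y = ((shf E) ^ h) y ∧ ext π y ≠ y

private theorem card_Mv {h : ℕ} (hh : 0 < h) : (Mv ED src tgt π h).card =
    ∑ d ∈ h.divisors, (nP d ED src tgt π + tP d ED src tgt π) := by
  classical
  rw [cp_card (Mv ED src tgt π h) h.divisors (fun d x => LPr (shf E) d x)]
  · refine Finset.sum_congr rfl fun d hd => ?_
    have hdvd := Nat.dvd_of_mem_divisors hd
    unfold nP tP
    rw [← Finset.card_union_of_disjoint]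
    · congr 1
      ext x
      unfold Mv
      rw [Finset.mem_filter, Finset.mem_filter, Finset.mem_union, Finset.mem_filter,
        Finset.mem_filter]
      constructor
      · rintro ⟨⟨h1, h2⟩, h3⟩
        have h4 := CP_of_LPr hh h1 h3
        by_cases h5 : ∃ t : ℕ, ext π x = ((shf E) ^ t) x
        · exact Or.inl ⟨h4, h3, h2, h5⟩
        · exact Or.inr ⟨h4, h3, fun t h6 => h5 ⟨t, h6⟩⟩
      · rintro (⟨h1, h2, h3, _⟩ | ⟨h1, h2, h3⟩)
        · exact ⟨⟨CP_mono h2.1 hh hdvd h1, h3⟩, h2⟩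
        · exact ⟨⟨CP_mono h2.1 hh hdvd h1, fun h4 => h3 0 h4⟩, h2⟩
    · rw [Finset.disjoint_left]
      intro x hx hx'
      rw [Finset.mem_filter] at hx hx'
      obtain ⟨_, _, _, t, ht⟩ := hx
      exact hx'.2.2 t ht
  · intro x hx
    unfold Mv at hx
    rw [Finset.mem_filter] at hx
    obtain ⟨d, hd, hl⟩ := exists_LPr hh hx.1
    exact ⟨d, Nat.mem_divisors.2 ⟨hd, hh.ne'⟩, hl⟩
  · intro x _ d _ d' _ h1 h2
    exact LPr_unique h1 h2

private theorem card_Zm (hi : ∀ e ∈ ED, π (π e) = e) {h : ℕ} (hh : 0 < h) :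
    (Zm ED src tgt π h).card = ∑ e ∈ Do h, nP (2 * e) ED src tgt π := by
  classical
  have hh2 : 0 < 2 * h := by omega
  rw [cp_card (Zm ED src tgt π h) (Do h) (fun e x => LPr (shf E) (2 * e) x)]
  · refine Finset.sum_congr rfl fun e he => ?_
    obtain ⟨c, hc⟩ := (mem_Do hh).1 he
    unfold nP
    congr 1
    ext x
    unfold Zm
    rw [Finset.mem_filter, Finset.mem_filter, Finset.mem_filter]
    constructor
    · rintro ⟨⟨h1, h2, h3⟩, h4⟩
      exact ⟨CP_of_LPr hh2 h1 h4, h4, h3, h, h2⟩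
    · rintro ⟨h1, h2, h3, t, ht⟩
      have h4 : x ∈ CP (2 * h) ED src tgt :=
        CP_mono h2.1 hh2 ⟨2 * c + 1, by rw [hc]; ring⟩ h1
      refine ⟨⟨h4, ?_, h3⟩, h2⟩
      obtain ⟨e', c', h5, -, h6⟩ := cp_turn hi (mem_ED hh2 h4) h2 ht h3
      have h7 : e' = e := by omega
      rw [h7] at h6
      rw [h6, (h2.eq_iff e h).2]
      rw [hc]
      push_cast
      have h8 : ((2 * e : ℕ) : ZMod (2 * e)) = 0 := ZMod.natCast_self _
      push_cast at h8
      have h9 : (e : ZMod (2 * e)) * (2 * (c : ZMod (2 * e)) + 1) =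
          (2 * (e : ZMod (2 * e))) * c + e := by ring
      rw [h9, h8, zero_mul, zero_add]
  · intro x hx
    unfold Zm at hx
    rw [Finset.mem_filter] at hx
    obtain ⟨h1, h2, h3⟩ := hx
    obtain ⟨d, hd, hl⟩ := exists_LPr hh2 h1
    obtain ⟨e, c, h5, h6, -⟩ := cp_turn hi (mem_ED hh2 h1) hl h2 h3
    refine ⟨e, (mem_Do hh).2 ⟨c, h6⟩, ?_⟩
    rw [← h5]
    exact hl
  · intro x _ d _ d' _ h1 h2
    have := LPr_unique h1 h2
    omega

/-! ### doubling -/

open Classical in
/-- the doubled path -/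
private noncomputable def dbl (π : Equiv.Perm E) (h : ℕ) (w : ℤ → E) : ℤ → E :=
  fun k => if (k / (h : ℤ)) % 2 = 0 then w k else π (w k)

/-- the first half of a path -/
private def hlf (h : ℕ) (y : ℤ → E) : ℤ → E := fun k => y (k % (h : ℤ))

private theorem dbl_add (hi : ∀ e ∈ ED, π (π e) = e) {h : ℕ} (hh : 0 < h) {w : ℤ → E}
    (hw : w ∈ CP h ED src tgt) (k : ℤ) : dbl π h w (k + h) = π (dbl π h w k) := by
  have h0 : (h : ℤ) ≠ 0 := by exact_mod_cast hh.ne'
  have h1 : (k + h) / (h : ℤ) = k / h + 1 := Int.add_ediv_of_dvd_right (dvd_refl _) |>.trans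
    (by rw [Int.ediv_self h0])
  have h2 := ((mem_CP hh).1 hw k).1
  unfold dbl
  rw [h1, h2]
  by_cases h3 : (k / (h : ℤ)) % 2 = 0
  · rw [if_pos h3, if_neg (by omega)]
  · rw [if_neg h3, if_pos (by omega), hi _ (mem_ED hh hw k)]

private theorem dbl_cases (π : Equiv.Perm E) (h : ℕ) (w : ℤ → E) (k : ℤ) :
    dbl π h w k = w k ∨ dbl π h w k = π (w k) := by
  unfold dbl
  split_ifs
  · exact Or.inl rfl
  · exact Or.inr rfl

private theorem dbl_mem (hf : Fb ED src tgt π) (hi : ∀ e ∈ ED, π (π e) = e) {h : ℕ}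
    (hh : 0 < h) {w : ℤ → E} (hw : w ∈ CP h ED src tgt) :
    dbl π h w ∈ CP (2 * h) ED src tgt := by
  have hE : ∀ k, dbl π h w k ∈ ED := by
    intro k
    rcases dbl_cases π h w k with h1 | h1
    · rw [h1]
      exact mem_ED hh hw k
    · rw [h1]
      exact (hf _ (mem_ED hh hw k)).1
  rw [mem_CP (by omega)]
  intro k
  refine ⟨?_, hE k, ?_⟩
  · have e : k + ((2 * h : ℕ) : ℤ) = (k + h) + h := by push_cast; ring
    rw [e, dbl_add hi hh hw, dbl_add hi hh hw, hi _ (hE k)]
  · have h1 : tgt (dbl π h w k) = tgt (w k) := by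
      rcases dbl_cases π h w k with h1 | h1
      · rw [h1]
      · rw [h1]
        exact (hf _ (mem_ED hh hw k)).2.2
    have h2 : src (dbl π h w (k + 1)) = src (w (k + 1)) := by
      rcases dbl_cases π h w (k + 1) with h1 | h1
      · rw [h1]
      · rw [h1]
        exact (hf _ (mem_ED hh hw (k + 1))).2.1
    rw [h1, h2]
    exact ((mem_CP hh).1 hw k).2.2

private theorem dbl_fix (hi : ∀ e ∈ ED, π (π e) = e) {h : ℕ} {w : ℤ → E}
    (hw : ∀ k, w k ∈ ED) (h1 : ext π (dbl π h w) = dbl π h w) : ext π w = w := by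
  funext k
  have h2 := congrFun h1 k
  rw [ext_ap] at h2 ⊢
  rcases dbl_cases π h w k with h3 | h3
  · rwa [h3] at h2
  · rw [h3, hi _ (hw k)] at h2
    exact h2.symm

private theorem hlf_mem (hf : Fb ED src tgt π) {h : ℕ} (hh : 0 < h) {y : ℤ → E}
    (hy : y ∈ CP (2 * h) ED src tgt) (hz : ∀ k : ℤ, y (k + h) = π (y k)) :
    hlf h y ∈ CP h ED src tgt := by
  have hh2 : 0 < 2 * h := by omega
  have hp : (0 : ℤ) < h := by exact_mod_cast hh
  rw [mem_CP hh]
  intro k
  refine ⟨?_, mem_ED hh2 hy _, ?_⟩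
  · unfold hlf
    rw [Int.add_emod_right]
  · unfold hlf
    rw [((mem_CP hh2).1 hy (k % h)).2.2]
    have h1 := Int.emod_lt_of_pos k hp
    have h2 := Int.emod_nonneg k hp.ne'
    by_cases h3 : k % (h : ℤ) + 1 < h
    · have h4 : (k + 1) % (h : ℤ) = k % h + 1 := by
        rw [← Int.emod_add_emod]
        exact Int.emod_eq_of_lt (by omega) h3
      rw [h4]
    · have h5 : k % (h : ℤ) + 1 = h := by omega
      have h4 : (k + 1) % (h : ℤ) = 0 := by
        rw [← Int.emod_add_emod, h5, Int.emod_self]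
      rw [h4, h5]
      have h6 := hz 0
      rw [zero_add] at h6
      rw [h6]
      exact (hf _ (mem_ED hh2 hy 0)).2.1

private theorem dbl_hlf {h : ℕ} (hh : 0 < h) {y : ℤ → E}
    (hy : y ∈ CP (2 * h) ED src tgt) (hz : ∀ k : ℤ, y (k + h) = π (y k)) :
    dbl π h (hlf h y) = y := by
  have hh2 : 0 < 2 * h := by omega
  funext k
  have hper := fun k => ((mem_CP hh2).1 hy k).1
  have hk : k = k % h + h * (k / h) := (Int.emod_add_mul_ediv k h).symm
  unfold dbl hlf
  by_cases h3 : (k / (h : ℤ)) % 2 = 0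
  · rw [if_pos h3]
    have h4 := per_mul hper (k / h / 2) (k % h)
    rw [← h4]
    congr 1
    have h5 : k / (h : ℤ) = 2 * (k / h / 2) := by omega
    conv_rhs => rw [hk, h5]
    push_cast
    ring
  · rw [if_neg h3, ← hz]
    have h4 := per_mul hper (k / h / 2) (k % h + h)
    rw [← h4]
    congr 1
    have h5 : k / (h : ℤ) = 2 * (k / h / 2) + 1 := by omega
    conv_rhs => rw [hk, h5]
    push_cast
    ring

private theorem hlf_dbl {h : ℕ} (hh : 0 < h) {w : ℤ → E} (hw : w ∈ CP h ED src tgt) :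
    hlf h (dbl π h w) = w := by
  have hp : (0 : ℤ) < h := by exact_mod_cast hh
  funext k
  have h1 := Int.emod_lt_of_pos k hp
  have h2 := Int.emod_nonneg k hp.ne'
  unfold hlf dbl
  rw [Int.ediv_eq_zero_of_lt h2 h1, if_pos (by norm_num)]
  exact per_mod (fun k => ((mem_CP hh).1 hw k).1) k

private theorem Zm_card (hf : Fb ED src tgt π) (hi : ∀ e ∈ ED, π (π e) = e) {h : ℕ}
    (hh : 0 < h) : (Zm ED src tgt π h).card = (Mv ED src tgt π h).card := by
  classical
  have hh2 : 0 < 2 * h := by omega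
  have hz : ∀ y : ℤ → E, ext π y = ((shf E) ^ h) y → ∀ k : ℤ, y (k + h) = π (y k) := by
    intro y hy k
    rw [shf_pow] at hy
    exact (congrFun hy k).symm
  refine Finset.card_bij' (fun y _ => hlf h y) (fun w _ => dbl π h w) ?_ ?_ ?_ ?_
  · intro y hy
    unfold Zm at hy
    rw [Finset.mem_filter] at hy
    unfold Mv
    rw [Finset.mem_filter]
    refine ⟨hlf_mem hf hh hy.1 (hz y hy.2.1), ?_⟩
    intro h1
    apply hy.2.2
    rw [← dbl_hlf hh hy.1 (hz y hy.2.1)]
    funext k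
    have h2 := congrFun h1 k
    rw [ext_ap] at h2 ⊢
    rcases dbl_cases π h (hlf h y) k with h3 | h3
    · rw [h3]
      exact h2
    · rw [h3, h2]
      exact h2
  · intro w hw
    unfold Mv at hw
    rw [Finset.mem_filter] at hw
    unfold Zm
    rw [Finset.mem_filter]
    refine ⟨dbl_mem hf hi hh hw.1, ?_, ?_⟩
    · rw [shf_pow]
      funext k
      exact (dbl_add hi hh hw.1 k).symm
    · intro h1
      exact hw.2 (dbl_fix hi (mem_ED hh hw.1) h1)
  · intro y hy
    unfold Zm at hy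
    rw [Finset.mem_filter] at hy
    exact dbl_hlf hh hy.1 (hz y hy.2.1)
  · intro w hw
    unfold Mv at hw
    rw [Finset.mem_filter] at hw
    exact hlf_dbl hh hw.1

end paths

theorem t_CntP : S_CntP := by
  intro E I ED src tgt π hf hi
  have h1 : ∀ d : ℕ, d % 2 = 1 → nP d ED src tgt π = 0 := fun d hd => cp_odd hi d hd
  refine ⟨h1, fun h hh => ?_⟩
  have h2 := cp_num (a := fun d => nP d ED src tgt π)
    (c := fun d => nP d ED src tgt π + tP d ED src tgt π) h1 (fun h hh => by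
      rw [← card_Zm hi hh, Zm_card hf hi hh, card_Mv hh]) h hh
  have h3 : nP (2 * h) ED src tgt π = nP h ED src tgt π +
      (nP h ED src tgt π + tP h ED src tgt π) := h2
  omega

end Pool.MP_5a0708_an.KRW
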