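import Pool.Agent.Lib.MP_5a0708_an.KRW.SpecA

/-!
# MP_5a0708_an, package KRW : the cocycle property of the comparison of frames
-/

set_option autoImplicit false

namespace Pool.MP_5a0708_an.KRW

open Finset

section

variable {W Λ Λ' Λ'' : Type} [LinearOrder Λ] [LinearOrder Λ'] [LinearOrder Λ''] {m : ℕ}
  {s : Equiv.Perm W} {F : Finset W}

/-- the least element of the orbit -/
private noncomputable def mvC (s : Equiv.Perm W) (l : W → Λ) (x : W) : W := (s ^ (sh s l x)) x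

private theorem mvC_mem (h : Iv m s F) (l : W → Λ) {x : W} (hx : x ∈ F) : mvC s l x ∈ F :=
  h.mem hx _

private theorem mvC_mn (h : Iv m s F) (l : W → Λ) {x : W} (hx : x ∈ F) : Mn s l (mvC s l x) :=
  sh_spec h hx

private theorem mvC_lpr (l : W → Λ) {d : ℕ} {x : W} (hx : LPr s d x) : LPr s d (mvC s l x) :=
  hx.pow _

private theorem mvC_mkey (h : Iv m s F) (l : W → Λ) (k : W → Λ') {x : W} (hx : x ∈ F) :
    mkey s k (mvC s l x) = mkey s k x := mkey_pow h hx _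

private theorem mvC_mvC (h : Iv m s F) (l : W → Λ) {k : W → Λ'} (hk : Ki F k) {x : W} (hx : x ∈ F)
    (hm : Mn s k x) : mvC s k (mvC s l x) = x := by
  have h1 : Mn s k (mvC s k (mvC s l x)) := mvC_mn h k (mvC_mem h l hx)
  have h2 : mvC s k (mvC s l x) = (s ^ (sh s k (mvC s l x) + sh s l x)) x := by
    rw [← pow_ap]
    rfl
  rw [h2] at h1 ⊢
  exact mn_unique h hk hx hm h1

/-- the gyration parts add up -/
private theorem gp_add (h : Iv m s F) {k₁ : W → Λ} {k₂ : W → Λ'} {k₃ : W → Λ''} (h1 : Ki F k₁)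
    (h2 : Ki F k₂) (h3 : Ki F k₃) : gp m s F k₁ k₂ + gp m s F k₂ k₃ = gp m s F k₁ k₃ := by
  classical
  have e : gp m s F k₂ k₃ = ∑ x ∈ F.filter (fun x => LPr s m x ∧ Mn s k₁ x),
      ((sh s k₃ x : ZMod m) - (sh s k₂ x : ZMod m)) := by
    unfold gp
    symm
    refine Finset.sum_nbij' (fun x => mvC s k₂ x) (fun y => mvC s k₁ y) ?_ ?_ ?_ ?_ ?_
    · intro x hx
      rw [mem_filter] at hx ⊢
      exact ⟨mvC_mem h k₂ hx.1, mvC_lpr k₂ hx.2.1, mvC_mn h k₂ hx.1⟩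
    · intro x hx
      rw [mem_filter] at hx ⊢
      exact ⟨mvC_mem h k₁ hx.1, mvC_lpr k₁ hx.2.1, mvC_mn h k₁ hx.1⟩
    · intro x hx
      rw [mem_filter] at hx
      exact mvC_mvC h k₂ h1 hx.1 hx.2.2
    · intro x hx
      rw [mem_filter] at hx
      exact mvC_mvC h k₁ h2 hx.1 hx.2.2
    · intro x hx
      rw [mem_filter] at hx
      exact (sh_pow h h3 hx.1 hx.2.1 _).symm
  rw [e, Finset.sum_sub_distrib]
  unfold gp
  have e2 : ∀ (p q : W → Prop) (ip : DecidablePred p) (iq : DecidablePred q)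
      (f : W → ZMod m), p = q → ∑ x ∈ @Finset.filter W p ip F, f x =
        ∑ x ∈ @Finset.filter W q iq F, f x := by
    rintro p q ip iq f rfl
    congr
  rw [e2 _ (fun x => LPr s m x ∧ Mn s k₁ x) _ inferInstance _ rfl,
    e2 (fun x => LPr s m x ∧ Mn s k₁ x) (fun x => LPr s m x ∧ Mn s k₁ x) _ inferInstance
      (fun x => (sh s k₃ x : ZMod m)) rfl]
  ring

private theorem gp_self {k : W → Λ} : gp m s F k k = 0 := by
  classical
  unfold gp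
  refine Finset.sum_eq_zero fun x hx => ?_
  rw [mem_filter] at hx
  rw [sh_eq_zero hx.2.2, Nat.cast_zero]

/-- the number of inversions, seen on the minima for another key -/
private theorem iv_eq (h : Iv m s F) (d : ℕ) {b : W → Λ} {k : W → Λ'} (hb : Ki F b) (hk : Ki F k)
    (l : W → Λ'') (Y : Finset W) (hY : ∀ x, x ∈ Y ↔ x ∈ F ∧ LPr s d x ∧ Mn s b x) :
    iv d s F k l = ((Y ×ˢ Y).filter (fun z => mkey s k z.1 < mkey s k z.2 ∧
      mkey s l z.2 < mkey s l z.1)).card := by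
  classical
  unfold iv
  refine Finset.card_nbij' (fun z => (mvC s b z.1, mvC s b z.2))
    (fun z => (mvC s k z.1, mvC s k z.2)) ?_ ?_ ?_ ?_
  · intro z hz
    rw [mem_coe, mem_filter, mem_product] at hz
    obtain ⟨⟨hx, hy⟩, ⟨px, py⟩, ⟨mx, my⟩, h1, h2⟩ := hz
    rw [mem_coe, mem_filter, mem_product, hY, hY]
    refine ⟨⟨⟨mvC_mem h b hx, mvC_lpr b px, mvC_mn h b hx⟩,
      ⟨mvC_mem h b hy, mvC_lpr b py, mvC_mn h b hy⟩⟩, ?_, ?_⟩
    · rw [mvC_mkey h b k hx, mvC_mkey h b k hy, mkey_of_mn mx, mkey_of_mn my]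
      exact h1
    · rw [mvC_mkey h b l hx, mvC_mkey h b l hy]
      exact h2
  · intro z hz
    rw [mem_coe, mem_filter, mem_product, hY, hY] at hz
    obtain ⟨⟨⟨hx, px, -⟩, ⟨hy, py, -⟩⟩, h1, h2⟩ := hz
    rw [mem_coe, mem_filter, mem_product]
    refine ⟨⟨mvC_mem h k hx, mvC_mem h k hy⟩, ⟨mvC_lpr k px, mvC_lpr k py⟩,
      ⟨mvC_mn h k hx, mvC_mn h k hy⟩, h1, ?_⟩
    rw [mvC_mkey h k l hx, mvC_mkey h k l hy]
    exact h2
  · intro z hz
    rw [mem_coe, mem_filter, mem_product] at hz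
    obtain ⟨⟨hx, hy⟩, ⟨px, py⟩, ⟨mx, my⟩, h1, h2⟩ := hz
    exact Prod.ext (mvC_mvC h b hk hx mx) (mvC_mvC h b hk hy my)
  · intro z hz
    rw [mem_coe, mem_filter, mem_product, hY, hY] at hz
    obtain ⟨⟨⟨hx, px, mx⟩, ⟨hy, py, my⟩⟩, h1, h2⟩ := hz
    exact Prod.ext (mvC_mvC h k hb hx mx) (mvC_mvC h k hb hy my)

/-- three injective functions with values in ordered sets -/
private theorem three (Y : Finset W) (f : W → Λ) (g : W → Λ') (u : W → Λ'')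
    (hf : ∀ x ∈ Y, ∀ y ∈ Y, f x = f y → x = y) (hg : ∀ x ∈ Y, ∀ y ∈ Y, g x = g y → x = y)
    (hu : ∀ x ∈ Y, ∀ y ∈ Y, u x = u y → x = y) :
    ∃ a : ℕ, ((Y ×ˢ Y).filter (fun z => f z.1 < f z.2 ∧ g z.2 < g z.1)).card +
      ((Y ×ˢ Y).filter (fun z => g z.1 < g z.2 ∧ u z.2 < u z.1)).card =
      ((Y ×ˢ Y).filter (fun z => f z.1 < f z.2 ∧ u z.2 < u z.1)).card + 2 * a := by
  classical
  have hne : ∀ z : W × W, (g z.2 < g z.1 ∨ g z.1 < g z.2) ∨ (u z.2 < u z.1) ∨ (f z.1 < f z.2) →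
      z.1 ≠ z.2 := by
    rintro ⟨x, y⟩ h1 h2
    simp only at h1 h2
    subst h2
    simp at h1
  -- the three splittings
  have s12 := Finset.card_filter_add_card_filter_not
    (s := (Y ×ˢ Y).filter (fun z => f z.1 < f z.2 ∧ g z.2 < g z.1)) (fun z => u z.1 < u z.2)
  have s23 := Finset.card_filter_add_card_filter_not
    (s := (Y ×ˢ Y).filter (fun z => g z.1 < g z.2 ∧ u z.2 < u z.1)) (fun z => f z.1 < f z.2)
  have s13 := Finset.card_filter_add_card_filter_not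
    (s := (Y ×ˢ Y).filter (fun z => f z.1 < f z.2 ∧ u z.2 < u z.1)) (fun z => g z.2 < g z.1)
  have e1 : ((Y ×ˢ Y).filter (fun z => f z.1 < f z.2 ∧ g z.2 < g z.1)).filter
      (fun z => ¬ u z.1 < u z.2) =
      ((Y ×ˢ Y).filter (fun z => f z.1 < f z.2 ∧ u z.2 < u z.1)).filter
        (fun z => g z.2 < g z.1) := by
    ext ⟨x, y⟩
    simp only [mem_filter, mem_product]
    constructor
    · rintro ⟨⟨⟨hx, hy⟩, h1, h2⟩, h3⟩
      refine ⟨⟨⟨hx, hy⟩, h1, lt_of_le_of_ne (not_lt.1 h3) ?_⟩, h2⟩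
      intro h4
      have := hu _ hy _ hx h4
      subst this
      exact lt_irrefl _ h1
    · rintro ⟨⟨⟨hx, hy⟩, h1, h2⟩, h3⟩
      exact ⟨⟨⟨hx, hy⟩, h1, h3⟩, not_lt.2 h2.le⟩
  have e2 : ((Y ×ˢ Y).filter (fun z => f z.1 < f z.2 ∧ u z.2 < u z.1)).filter
      (fun z => ¬ g z.2 < g z.1) =
      ((Y ×ˢ Y).filter (fun z => g z.1 < g z.2 ∧ u z.2 < u z.1)).filter
        (fun z => f z.1 < f z.2) := by
    ext ⟨x, y⟩
    simp only [mem_filter, mem_product]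
    constructor
    · rintro ⟨⟨⟨hx, hy⟩, h1, h2⟩, h3⟩
      refine ⟨⟨⟨hx, hy⟩, lt_of_le_of_ne (not_lt.1 h3) ?_, h2⟩, h1⟩
      intro h4
      have := hg _ hx _ hy h4
      subst this
      exact lt_irrefl _ h1
    · rintro ⟨⟨⟨hx, hy⟩, h1, h2⟩, h3⟩
      exact ⟨⟨⟨hx, hy⟩, h3, h2⟩, not_lt.2 h1.le⟩
  have e3 : (((Y ×ˢ Y).filter (fun z => g z.1 < g z.2 ∧ u z.2 < u z.1)).filter
      (fun z => ¬ f z.1 < f z.2)).card =
      (((Y ×ˢ Y).filter (fun z => f z.1 < f z.2 ∧ g z.2 < g z.1)).filter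
        (fun z => u z.1 < u z.2)).card := by
    refine Finset.card_nbij' (fun z => (z.2, z.1)) (fun z => (z.2, z.1)) ?_ ?_ ?_ ?_
    · rintro ⟨x, y⟩ hz
      simp only [mem_coe, mem_filter, mem_product] at hz ⊢
      obtain ⟨⟨⟨hx, hy⟩, h1, h2⟩, h3⟩ := hz
      refine ⟨⟨⟨hy, hx⟩, lt_of_le_of_ne (not_lt.1 h3) ?_, h1⟩, h2⟩
      intro h4
      have := hf _ hy _ hx h4
      subst this
      exact lt_irrefl _ h1
    · rintro ⟨x, y⟩ hz
      simp only [mem_coe, mem_filter, mem_product] at hz ⊢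
      obtain ⟨⟨⟨hx, hy⟩, h1, h2⟩, h3⟩ := hz
      exact ⟨⟨⟨hy, hx⟩, h2, h3⟩, not_lt.2 h1.le⟩
    · rintro ⟨x, y⟩ _; rfl
    · rintro ⟨x, y⟩ _; rfl
  rw [e1] at s12
  rw [e2] at s13
  rw [e3] at s23
  refine ⟨(((Y ×ˢ Y).filter (fun z => f z.1 < f z.2 ∧ g z.2 < g z.1)).filter
        (fun z => u z.1 < u z.2)).card, ?_⟩
  omega

private theorem iv_add (h : Iv m s F) (d : ℕ) {k₁ : W → Λ} {k₂ : W → Λ'} {k₃ : W → Λ''}
    (h1 : Ki F k₁) (h2 : Ki F k₂) (h3 : Ki F k₃) :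
    ∃ a : ℕ, iv d s F k₁ k₂ + iv d s F k₂ k₃ = iv d s F k₁ k₃ + 2 * a := by
  classical
  obtain ⟨Y, hY⟩ : ∃ Y : Finset W, ∀ x, x ∈ Y ↔ x ∈ F ∧ LPr s d x ∧ Mn s k₁ x :=
    ⟨F.filter (fun x => LPr s d x ∧ Mn s k₁ x), fun x => by rw [mem_filter]⟩
  rw [iv_eq h d h1 h1 k₂ Y hY, iv_eq h d h1 h2 k₃ Y hY, iv_eq h d h1 h1 k₃ Y hY]
  have hinj : ∀ x ∈ Y, ∀ y ∈ Y, (∃ t : ℕ, y = (s ^ t) x) → x = y := by
    rintro x hx y hy ⟨t, rfl⟩
    rw [hY] at hx hy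
    exact (mn_unique h h1 hx.1 hx.2.2 hy.2.2).symm
  apply three Y
  · intro x hx y hy he
    exact hinj x hx y hy (orb_of_mkey h h1 ((hY x).1 hx).1 ((hY y).1 hy).1 he)
  · intro x hx y hy he
    exact hinj x hx y hy (orb_of_mkey h h2 ((hY x).1 hx).1 ((hY y).1 hy).1 he)
  · intro x hx y hy he
    exact hinj x hx y hy (orb_of_mkey h h3 ((hY x).1 hx).1 ((hY y).1 hy).1 he)

private theorem iv_self (d : ℕ) {k : W → Λ} : iv d s F k k = 0 := by
  classical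
  unfold iv
  rw [card_eq_zero, filter_eq_empty_iff]
  rintro ⟨x, y⟩ _ ⟨-, ⟨mx, my⟩, h1, h2⟩
  simp only at mx my h1 h2
  rw [mkey_of_mn mx, mkey_of_mn my] at h2
  exact lt_asymm h1 h2

private theorem half_two (m : ℕ) (a : ℕ → ℕ) :
    ((m / 2 : ℕ) : ZMod m) * ((∑ d ∈ ds m, 2 * a d : ℕ) : ZMod m) = 0 := by
  rcases Nat.even_or_odd' m with ⟨c, hc | hc⟩
  · rw [← mul_sum, Nat.cast_mul, ← mul_assoc]
    have e : ((m / 2 : ℕ) : ZMod m) * ((2 : ℕ) : ZMod m) = 0 := by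
      rw [← Nat.cast_mul]
      have : m / 2 * 2 = m := by omega
      rw [this, ZMod.natCast_self]
    rw [e, zero_mul]
  · have : ds m = ∅ := by
      classical
      unfold ds
      rw [filter_eq_empty_iff]
      rintro d _ ⟨i, hi, he⟩
      obtain ⟨j, rfl⟩ : ∃ j, i = j + 1 := ⟨i - 1, by omega⟩
      rw [pow_succ] at he
      have : m = 2 * (d * 2 ^ j) := by rw [← he]; ring
      omega
    rw [this, sum_empty, Nat.cast_zero, mul_zero]

end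

theorem t_Coc : S_Coc := by
  intro W Λ₁ Λ₂ Λ₃ _ _ _ m s F k₁ k₂ k₃ h h1 h2 h3
  refine ⟨?_, ?_⟩
  · choose a ha using fun d => iv_add (k₁ := k₁) (k₂ := k₂) (k₃ := k₃) h d h1 h2 h3
    have e : (∑ d ∈ ds m, iv d s F k₁ k₂) + (∑ d ∈ ds m, iv d s F k₂ k₃) =
        (∑ d ∈ ds m, iv d s F k₁ k₃) + ∑ d ∈ ds m, 2 * a d := by
      rw [← sum_add_distrib, ← sum_add_distrib]
      exact sum_congr rfl fun d _ => ha d
    have e' := congrArg (Nat.cast : ℕ → ZMod m) e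
    rw [Nat.cast_add, Nat.cast_add] at e'
    have g := gp_add h h1 h2 h3
    have z := half_two m a
    unfold Dl
    calc _ = (gp m s F k₁ k₂ + gp m s F k₂ k₃) + ((m / 2 : ℕ) : ZMod m) *
          (((∑ d ∈ ds m, iv d s F k₁ k₂ : ℕ) : ZMod m) +
            ((∑ d ∈ ds m, iv d s F k₂ k₃ : ℕ) : ZMod m)) := by ring
      _ = _ := by rw [g, e', mul_add, z, add_zero]
  · unfold Dl
    rw [gp_self, sum_congr rfl fun d _ => iv_self d, sum_const_zero, Nat.cast_zero, mul_zero,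
      add_zero]

end Pool.MP_5a0708_an.KRW
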