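import Pool.Agent.Lib.MP_5a0708_an.KRW.SpecC

/-!
# MP_5a0708_an, package KRW : module CorEx
-/

set_option autoImplicit false

namespace Pool.MP_5a0708_an.KRW

theorem t_CorEx (hKD : S_KD) : S_CorEx := by
  intro m z t
  induction t with
  | zero =>
    intro n A
    exact ⟨n, A, 1, 0, Cor.zero A⟩
  | succ t ih =>
    intro n A
    obtain ⟨K⟩ := hKD n n A
    obtain ⟨q, C, π, h, hc⟩ := ih K.b (b22 (K.Q * A * K.P))
    exact ⟨q, C, _, _, Cor.succ A K C π h hc⟩

end Pool.MP_5a0708_an.KRW
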