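import Pool.Agent.Lib.MP_5a0708_an.KRW.SpecC

/-!
# MP_5a0708_an, package KRW : EIG

Left eigenvectors for the eigenvalue `2` factor through the core.
-/

set_option autoImplicit false

namespace Pool.MP_5a0708_an.KRW

open Finset Matrix

/-- reading an integer matrix over the rationals -/
private abbrev cst {p q : ℕ} (M : Matrix (Fin p) (Fin q) ℤ) : Matrix (Fin p) (Fin q) ℚ :=
  M.map (Int.cast : ℤ → ℚ)

private theorem cst_mul {p q r : ℕ} (M : Matrix (Fin p) (Fin q) ℤ)
    (N : Matrix (Fin q) (Fin r) ℤ) : cst (M * N) = cst M * cst N := by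
  ext i j
  simp [cst, Matrix.mul_apply]

private theorem cst_one {p : ℕ} : cst (1 : Matrix (Fin p) (Fin p) ℤ) = 1 := by
  ext i j
  simp only [cst, Matrix.map_apply, Matrix.one_apply]
  split_ifs <;> simp

/-- one step: an eigenvector of `A` comes from an eigenvector of the quotient by the kernel -/
private theorem step {n : ℕ} (A : Matrix (Fin n) (Fin n) ℤ) (K : KD A) (v : Fin n → ℚ)
    (hv : v ᵥ* cst A = (2 : ℚ) • v) :
    ∃ w : Fin K.b → ℚ, v = w ᵥ* cst (low K.Q) ∧
      w ᵥ* cst (b22 (K.Q * A * K.P)) = (2 : ℚ) • w := by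
  -- the vector in the new basis
  set u : Fin (K.a + K.b) → ℚ := v ᵥ* cst K.P with hu
  have huQ : u ᵥ* cst K.Q = v := by
    rw [hu, Matrix.vecMul_vecMul, ← cst_mul, K.pq, cst_one, Matrix.vecMul_one]
  -- the first part vanishes
  have h0 : ∀ j : Fin K.a, u (Fin.castAdd K.b j) = 0 := by
    intro j
    have h1 : (v ᵥ* cst A) ᵥ* cst K.P = (2 : ℚ) • u := by
      rw [hv, Matrix.smul_vecMul]
    have h2 : ((v ᵥ* cst A) ᵥ* cst K.P) (Fin.castAdd K.b j) = 0 := by
      rw [Matrix.vecMul_vecMul, ← cst_mul]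
      simp only [Matrix.vecMul, dotProduct, cst, Matrix.map_apply]
      refine Finset.sum_eq_zero fun i _ => ?_
      rw [K.z i j]
      simp
    rw [h1] at h2
    simpa using h2
  -- sums over all indices are sums over the second part
  have hs : ∀ f : Fin (K.a + K.b) → ℚ,
      ∑ i, u i * f i = ∑ i : Fin K.b, u (Fin.natAdd K.a i) * f (Fin.natAdd K.a i) := by
    intro f
    rw [Fin.sum_univ_add]
    have : ∑ i : Fin K.a, u (Fin.castAdd K.b i) * f (Fin.castAdd K.b i) = 0 :=
      Finset.sum_eq_zero fun i _ => by rw [h0 i, zero_mul]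
    rw [this, zero_add]
  refine ⟨fun j => u (Fin.natAdd K.a j), ?_, ?_⟩
  · conv_lhs => rw [← huQ]
    funext j
    exact hs fun i => cst K.Q i j
  · funext j
    have h3 : u ᵥ* cst (K.Q * A * K.P) = (2 : ℚ) • u := by
      rw [cst_mul, cst_mul, ← Matrix.vecMul_vecMul, ← Matrix.vecMul_vecMul, huQ, hv,
        Matrix.smul_vecMul]
    have h4 := congrFun h3 (Fin.natAdd K.a j)
    have h5 := hs fun i => cst (K.Q * A * K.P) i (Fin.natAdd K.a j)
    exact h5.symm.trans h4

theorem t_EIG : S_EIG := by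
  intro m z t n q A C π h hc
  induction hc with
  | zero A =>
    intro v hv
    refine ⟨v, ?_, hv⟩
    exact (by rw [cst_one, Matrix.vecMul_one] : v = v ᵥ* cst 1)
  | succ A K C π h hc ih =>
    intro v hv
    obtain ⟨w₁, h1, h2⟩ := step A K v hv
    obtain ⟨w, h3, h4⟩ := ih w₁ h2
    refine ⟨w, ?_, h4⟩
    have h5 : v = w ᵥ* cst (π * low K.Q) := by
      rw [cst_mul, ← Matrix.vecMul_vecMul, ← h3]
      exact h1
    exact h5

end Pool.MP_5a0708_an.KRW
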