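import Pool.Agent.Lib.MP_5a0708_an.KRW.SpecD

/-! # The comparison of two codings is a difference of potentials -/

set_option autoImplicit false

namespace Pool.MP_5a0708_an.KRW

open Finset Matrix Pool.MP_5a0708_an.Nil

private theorem map_mul' {p q r : ℕ} (R : Matrix (Fin p) (Fin q) ℕ)
    (S : Matrix (Fin q) (Fin r) ℕ) :
    (R.map (Nat.cast : ℕ → ℤ)) * (S.map (Nat.cast : ℕ → ℤ)) = (R * S).map (Nat.cast : ℕ → ℤ) := by
  have h := Matrix.map_mul (L := R) (M := S) (f := Nat.castRingHom ℤ)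
  exact h.symm

private theorem lam_ne (hLam : S_Lam) {n : ℕ} {u : Pt → Fin n} (hu : Gd n u) : lam u ≠ 0 := by
  intro h
  have h1 := (hLam n u hu).2.1 (u zpt)
  rw [h] at h1
  exact lt_irrefl _ h1

private theorem dl_neg (hCoc : S_Coc) {m n n' : ℕ} (hm : 0 < m) {u : Pt → Fin n}
    {u' : Pt → Fin n'} (hu : Gd n u) (hu' : Gd n' u') :
    Dl m (shf Bool) (PP m) (uk m u') (uk m u) =
      -Dl m (shf Bool) (PP m) (uk m u) (uk m u') := by
  obtain ⟨h1, h2⟩ := hCoc _ _ _ _ m (shf Bool) (PP m) (uk m u) (uk m u') (uk m u) (iv_PP hm)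
    (ki_uk hu hm) (ki_uk hu' hm) (ki_uk hu hm)
  rw [h2] at h1
  exact (neg_eq_of_add_eq_zero_right h1).symm

theorem t_Edge (hCoc : S_Coc) (hZ : S_Z) (hCH : S_CH) (hREd : S_REd) (hLEd : S_LEd)
    (hLam : S_Lam) (hLamM : S_LamM) (hLamR : S_LamR) (hLamL : S_LamL) : S_Edge := by
  intro m Ty Φ hm hPo n u n' u' hu hu'
  have key := hCH (fun n u n' u' => Gd n u → Gd n' u' → Er m Ty Φ n u n' u') ?_ ?_ ?_ ?_
    n u n' u' hu hu'
  · exact key hu hu'
  · intro n u n' u' h hu' hu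
    obtain ⟨t₀, ht⟩ := h hu hu'
    refine ⟨t₀, fun t h1 => ⟨(ht t h1).1.symm, fun h2 => ?_⟩⟩
    rw [dl_neg hCoc hm hu hu', (ht t h1).2 ((ht t h1).1.mpr h2)]
    ring
  · intro n u n' u' n'' u'' g g' g'' h h' _ _
    obtain ⟨t₀, ht⟩ := h g g'
    obtain ⟨t₁, ht'⟩ := h' g' g''
    refine ⟨max t₀ t₁, fun t h1 => ?_⟩
    have a1 := ht t (le_trans (le_max_left _ _) h1)
    have a2 := ht' t (le_trans (le_max_right _ _) h1)
    refine ⟨a1.1.trans a2.1, fun h2 => ?_⟩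
    have h3 := (hCoc _ _ _ _ m (shf Bool) (PP m) (uk m u) (uk m u') (uk m u'') (iv_PP hm)
      (ki_uk g hm) (ki_uk g' hm) (ki_uk g'' hm)).1
    rw [← h3, a1.2 h2, a2.2 (a1.1.mp h2)]
    ring
  · intro n u n' u' p _ _ hp g g'
    obtain ⟨R, S, hR, hRS, hSR, hD⟩ := hREd m n n' u u' p hm g g' hp
    have e1 : R.map (Nat.cast : ℕ → ℤ) * S.map (Nat.cast : ℕ → ℤ) = tmz u := by
      rw [map_mul', hRS]
      rfl
    have e2 : S.map (Nat.cast : ℕ → ℤ) * R.map (Nat.cast : ℕ → ℤ) = tmz u' := by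
      rw [map_mul', hSR]
      rfl
    refine ⟨max n n', fun t h1 => ?_⟩
    have hn : n ≤ t := le_trans (le_max_left _ _) h1
    have hn' : n' ≤ t := le_trans (le_max_right _ _) h1
    have h2 := hPo.iff t n n' (R.map (Nat.cast : ℕ → ℤ)) (S.map (Nat.cast : ℕ → ℤ)) hn hn'
    rw [e1, e2] at h2
    refine ⟨h2, fun h3 => ?_⟩
    have h4 := hPo.val t n n' (R.map (Nat.cast : ℕ → ℤ)) (S.map (Nat.cast : ℕ → ℤ)) (lam u) hn hn'
      (by rw [e1]; exact h3) (lam_ne hLam g) (by rw [e1]; exact hLamM n u g)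
    have h5 : lam u ᵥ* (R.map (Nat.cast : ℕ → ℤ)).map (Int.cast : ℤ → ℚ) = lam u' := by
      funext b
      rw [hLamR n n' u u' p g g' hp b]
      simp only [Matrix.vecMul, dotProduct, Matrix.map_apply, hR]
      rw [Finset.sum_eq_single (p b)]
      · simp
      · intro i _ hi
        rw [if_neg (Ne.symm hi)]
        simp
      · intro h
        exact absurd (mem_univ _) h
    rw [e1, e2, h5] at h4
    rw [hD, ← (hZ m hm).2 n n' R S]
    exact h4
  · intro n u n' u' p _ _ hp g g'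
    obtain ⟨R, S, hS, hRS, hSR, hD⟩ := hLEd m n n' u u' p hm g g' hp
    have e1 : R.map (Nat.cast : ℕ → ℤ) * S.map (Nat.cast : ℕ → ℤ) = tmz u := by
      rw [map_mul', hRS]
      rfl
    have e2 : S.map (Nat.cast : ℕ → ℤ) * R.map (Nat.cast : ℕ → ℤ) = tmz u' := by
      rw [map_mul', hSR]
      rfl
    refine ⟨max n n', fun t h1 => ?_⟩
    have hn : n ≤ t := le_trans (le_max_left _ _) h1
    have hn' : n' ≤ t := le_trans (le_max_right _ _) h1
    have h2 := hPo.iff t n n' (R.map (Nat.cast : ℕ → ℤ)) (S.map (Nat.cast : ℕ → ℤ)) hn hn'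
    rw [e1, e2] at h2
    refine ⟨h2, fun h3 => ?_⟩
    have h4 := hPo.val t n' n (S.map (Nat.cast : ℕ → ℤ)) (R.map (Nat.cast : ℕ → ℤ)) (lam u') hn' hn
      (by rw [e2]; exact h2.mp h3) (lam_ne hLam g') (by rw [e2]; exact hLamM n' u' g')
    have h5 : lam u' ᵥ* (S.map (Nat.cast : ℕ → ℤ)).map (Int.cast : ℤ → ℚ) = lam u := by
      funext a
      rw [hLamL n n' u u' p g g' hp a]
      simp only [Matrix.vecMul, dotProduct, Matrix.map_apply, hS]
      refine Finset.sum_congr rfl fun j _ => ?_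
      split_ifs
      · simp
      · simp
    rw [e1, e2, h5] at h4
    have h6 : Dl m (shf Bool) (PP m) (uk m u') (uk m u) =
        Φ t n' (tmz u') (lam u') - Φ t n (tmz u) (lam u) := by
      rw [hD, ← (hZ m hm).2 n' n S R]
      exact h4
    rw [dl_neg hCoc hm g' g, h6]
    ring

end Pool.MP_5a0708_an.KRW
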