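import Pool.Agent.Lib.MP_5a0708_an.KRW.SpecD

/-!
# MP_5a0708_an, package KRW : module Enum
-/

set_option autoImplicit false

namespace Pool.MP_5a0708_an.KRW

theorem t_Enum : S_Enum := by
  intro K _ c
  obtain ⟨n, ⟨e⟩⟩ := Finite.exists_equiv_fin (Set.range c)
  refine ⟨n, fun x => e ⟨c x, ⟨x, rfl⟩⟩, ?_, ?_⟩
  · intro i
    obtain ⟨⟨b, x, hx⟩, hb⟩ := e.surjective i
    refine ⟨x, ?_⟩
    subst hx
    exact hb
  · intro x y
    constructor
    · intro h
      exact congrArg Subtype.val (e.injective h)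
    · intro h
      exact congrArg e (Subtype.ext h)

end Pool.MP_5a0708_an.KRW
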