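import Pool.Agent.Lib.MP_5a0708_an.KRW.SpecA

/-! Permutations of the edges which preserve source and target do not change the frame. -/

set_option autoImplicit false

namespace Pool.MP_5a0708_an.KRW

open Finset

variable {E I : Type} {m : ℕ} {ED : Finset E} {src tgt : E → I}

private theorem ext_mem (hm : 0 < m) {σ : Equiv.Perm E} (hσ : Fb ED src tgt σ) {x : ℤ → E}
    (hx : x ∈ CP m ED src tgt) : ext σ x ∈ CP m ED src tgt := by
  rw [mem_CP hm] at hx ⊢
  intro k
  obtain ⟨h1, h2, h3⟩ := hx k
  refine ⟨?_, (hσ _ h2).1, ?_⟩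
  · show σ (x (k + m)) = σ (x k)
    rw [h1]
  · show tgt (σ (x k)) = src (σ (x (k + 1)))
    rw [(hσ _ h2).2.2, h3, (hσ _ (hx (k + 1)).2.1).2.1]

private theorem ext_surj (hm : 0 < m) {σ : Equiv.Perm E} (hσ : Fb ED src tgt σ) {y : ℤ → E}
    (hy : y ∈ CP m ED src tgt) : ∃ x ∈ CP m ED src tgt, ext σ x = y := by
  classical
  have h1 : (CP m ED src tgt).image (ext σ) ⊆ CP m ED src tgt := by
    intro z hz
    obtain ⟨x, hx, rfl⟩ := mem_image.mp hz
    exact ext_mem hm hσ hx
  have h2 : (CP m ED src tgt).image (ext σ) = CP m ED src tgt :=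
    eq_of_subset_of_card_le h1 (le_of_eq (card_image_of_injective _ (ext σ).injective).symm)
  rw [← h2] at hy
  exact mem_image.mp hy

private theorem ki_ext {Λ : Type} {k : (ℤ → E) → Λ} (hm : 0 < m) {σ : Equiv.Perm E}
    (hσ : Fb ED src tgt σ) (hk : Ki (CP m ED src tgt) k) :
    Ki (CP m ED src tgt) (k ∘ ext σ) := by
  intro x hx y hy hxy
  exact (ext σ).injective (hk _ (ext_mem hm hσ hx) _ (ext_mem hm hσ hy) hxy)

theorem t_Fib (hTr : S_Tr) (hCoc : S_Coc) (hSw : S_Sw) : S_Fib := by
  classical
  intro E I Λ _ m ED src tgt π k hm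
  -- induction on the number of moved edges
  suffices H : ∀ (n : ℕ) (π : Equiv.Perm E) (k : (ℤ → E) → Λ),
      (ED.filter fun e => π e ≠ e).card = n → Fb ED src tgt π → Ki (CP m ED src tgt) k →
      Dl m (shf E) (CP m ED src tgt) k (k ∘ ext π) = 0 from fun h1 h2 => H _ π k rfl h1 h2
  intro n
  induction n using Nat.strong_induction_on with
  | _ n ih =>
    intro π k hn hπ hk
    have hiv : Iv m (shf E) (CP m ED src tgt) := iv_CP hm ED src tgt
    by_cases hne : ∃ e ∈ ED, π e ≠ e
    · obtain ⟨e, he, hpe⟩ := hne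
      set τ : Equiv.Perm E := Equiv.swap e (π e) with hτ
      set π' : Equiv.Perm E := τ * π with hπ'
      have hττ : ∀ a, τ (τ a) = a := fun a => by
        show (τ * τ) a = a
        rw [hτ, Equiv.swap_mul_self]
        rfl
      have hτf : Fb ED src tgt τ := by
        intro a ha
        by_cases h1 : a = e
        · subst h1
          rw [hτ, Equiv.swap_apply_left]
          exact hπ _ he
        · by_cases h2 : a = π e
          · rw [h2, hτ, Equiv.swap_apply_right]
            exact ⟨he, (hπ _ he).2.1.symm, (hπ _ he).2.2.symm⟩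
          · rw [hτ, Equiv.swap_apply_of_ne_of_ne h1 h2]
            exact ⟨ha, rfl, rfl⟩
      have hπf : Fb ED src tgt π' := by
        intro a ha
        obtain ⟨h1, h2, h3⟩ := hπ a ha
        obtain ⟨h4, h5, h6⟩ := hτf _ h1
        exact ⟨h4, h5.trans h2, h6.trans h3⟩
      have hlt : (ED.filter fun a => π' a ≠ a).card < n := by
        rw [← hn]
        apply card_lt_card
        rw [ssubset_iff_of_subset]
        · refine ⟨e, mem_filter.mpr ⟨he, hpe⟩, ?_⟩
          rw [mem_filter, not_and, not_not]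
          intro _
          show τ (π e) = e
          rw [hτ, Equiv.swap_apply_right]
        · intro a ha
          rw [mem_filter] at ha ⊢
          refine ⟨ha.1, fun h => ha.2 ?_⟩
          show τ (π a) = a
          rw [h]
          have h1 : a ≠ e := fun h1 => hpe (by rw [← h1]; exact h)
          have h2 : a ≠ π e := fun h2 => h1 (π.injective (h.trans h2))
          rw [hτ, Equiv.swap_apply_of_ne_of_ne h1 h2]
      have h1 := ih _ hlt π' k rfl hπf hk
      have h2 := hSw E I Λ m ED src tgt τ k hm hτf (fun a _ => hττ a) hk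
      have hcomp : (k ∘ ext π) = (k ∘ ext τ) ∘ ext π' := by
        funext x
        simp only [Function.comp_apply]
        congr 1
        funext j
        show π (x j) = τ (τ (π (x j)))
        rw [hττ]
      have h3 := (hTr (ℤ → E) (ℤ → E) Λ Λ Λ Λ m (shf E) (shf E) (CP m ED src tgt)
        (CP m ED src tgt) (k ∘ ext π') (k ∘ ext π) k (k ∘ ext τ) (ext π') hiv
        (fun x hx => ext_mem hm hπf hx) (fun x _ y _ h => (ext π').injective h)
        (fun y hy => ext_surj hm hπf hy) (fun x _ => rfl) (fun x _ y _ => Iff.rfl)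
        (fun x _ y _ => by rw [hcomp]; exact Iff.rfl)).2
      rw [h2] at h3
      have h4 := (hCoc (ℤ → E) Λ Λ Λ m (shf E) (CP m ED src tgt) k (k ∘ ext π') (k ∘ ext π) hiv hk
        (ki_ext hm hπf hk) (ki_ext hm hπ hk)).1
      rw [← h4, h1, ← h3, add_zero]
    · push Not at hne
      have hid : ∀ x ∈ CP m ED src tgt, ext π x = x := by
        intro x hx
        rw [mem_CP hm] at hx
        funext j
        exact hne _ (hx j).2.1
      have h1 := (hTr (ℤ → E) (ℤ → E) Λ Λ Λ Λ m (shf E) (shf E) (CP m ED src tgt)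
        (CP m ED src tgt) k k k (k ∘ ext π) id hiv (fun x hx => hx) (fun x _ y _ h => h)
        (fun y hy => ⟨y, hy, rfl⟩) (fun x _ => rfl) (fun x _ y _ => Iff.rfl)
        (fun x hx y hy => by
          simp only [Function.comp_apply, id_eq]
          rw [hid x hx, hid y hy])).2
      rw [h1]
      exact (hCoc (ℤ → E) Λ Λ Λ m (shf E) (CP m ED src tgt) k k k hiv hk hk hk).2

end Pool.MP_5a0708_an.KRW
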