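import Pool.Agent.Lib.MP_5a0708_an.KRW.SpecD

/-!
# MP_5a0708_an, package KRW : splittings of codings are codings
-/

set_option autoImplicit false

namespace Pool.MP_5a0708_an.KRW

open Finset Matrix Pool.MP_5a0708_an.Nil

private theorem gsp_loc {n n' : ℕ} {u : Pt → Fin n} {u' : Pt → Fin n'} (hu : Gd n u) (e : ℤ)
    (he : -1 ≤ e) (he' : e ≤ 1)
    (h : ∀ x y : Pt, u x = u y → u (tr e x) = u (tr e y) → u' x = u' y) :
    ∃ w : ℕ, ∀ x y : Pt, (∀ i : ℤ, -w ≤ i → i ≤ w → x i = y i) → u' x = u' y := by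
  obtain ⟨w, hw⟩ := hu.locw
  refine ⟨w + 1, fun x y hxy => ?_⟩
  have h1 : ∀ k : ℤ, -1 ≤ k → k ≤ 1 → u (tr k x) = u (tr k y) :=
    hw (-1) 1 x y fun i hi hi' => hxy i (by push_cast; omega) (by push_cast; omega)
  have h0 := h1 0 (by omega) (by omega)
  rw [tr_zero', tr_zero'] at h0
  exact h x y h0 (h1 e he he')

private theorem gsp_inj {n n' : ℕ} {u : Pt → Fin n} {u' : Pt → Fin n'} {p : Fin n' → Fin n}
    (hu : Gd n u) (hp : ∀ x : Pt, u x = p (u' x)) :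
    ∃ w : ℕ, ∀ x y : Pt, (∀ k : ℤ, -w ≤ k → k ≤ w → u' (tr k x) = u' (tr k y)) → x 0 = y 0 := by
  obtain ⟨w, hw⟩ := hu.inj
  exact ⟨w, fun x y hxy => hw x y fun k hk hk' => by rw [hp, hp, hxy k hk hk']⟩

theorem t_GSp : S_GSp := by
  intro n n' u u' p hu hs hsp
  rcases hsp with ⟨hp, h⟩ | ⟨hp, h⟩
  · refine ⟨hs, gsp_loc hu 1 (by omega) (by omega) h, gsp_inj hu hp, fun x y hxy => ?_⟩
    obtain ⟨z, hz, hz'⟩ := hu.glue x y (by rw [hp, hp, hxy])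
    have h1 : ∀ k : ℤ, 0 ≤ k → u' (tr k z) = u' (tr k y) := fun k hk =>
      h _ _ (hz' k hk) (by rw [tr_tr', tr_tr']; exact hz' _ (by omega))
    refine ⟨z, fun k hk => ?_, h1⟩
    rcases hk.lt_or_eq with hk | rfl
    · exact h _ _ (hz k (by omega)) (by rw [tr_tr', tr_tr']; exact hz _ (by omega))
    · rw [h1 0 le_rfl, tr_zero', tr_zero', hxy]
  · refine ⟨hs, gsp_loc hu (-1) (by omega) (by omega) h, gsp_inj hu hp, fun x y hxy => ?_⟩
    obtain ⟨z, hz, hz'⟩ := hu.glue x y (by rw [hp, hp, hxy])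
    have h1 : ∀ k : ℤ, k ≤ 0 → u' (tr k z) = u' (tr k x) := fun k hk =>
      h _ _ (hz k hk) (by rw [tr_tr', tr_tr']; exact hz _ (by omega))
    refine ⟨z, h1, fun k hk => ?_⟩
    rcases hk.lt_or_eq with hk | rfl
    · exact h _ _ (hz' k (by omega)) (by rw [tr_tr', tr_tr']; exact hz' _ (by omega))
    · rw [h1 0 le_rfl, tr_zero', tr_zero', hxy]

end Pool.MP_5a0708_an.KRW
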