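import Pool.Agent.Lib.MP_5a0708_an.KRW.SpecC

/-!
# MP_5a0708_an, package KRW : module INJ
-/

set_option autoImplicit false

namespace Pool.MP_5a0708_an.KRW

open Finset Matrix

/-- the first part is empty if `A` is injective -/
private theorem a_zero {p q : ℕ} {S : Matrix (Fin q) (Fin p) ℤ} (K : KD S)
    (hS : ∀ v : Fin p → ℤ, S *ᵥ v = 0 → v = 0) : K.a = 0 := by
  by_contra hne
  have j : Fin K.a := ⟨0, Nat.pos_of_ne_zero hne⟩
  have h1 : S *ᵥ (fun l => K.P l (Fin.castAdd K.b j)) = 0 := by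
    funext i
    exact K.z i j
  have h2 := hS _ h1
  have h3 : (K.Q * K.P) (Fin.castAdd K.b j) (Fin.castAdd K.b j) = 0 := by
    rw [Matrix.mul_apply]
    refine Finset.sum_eq_zero fun l _ => ?_
    have := congrFun h2 l
    simp only [Pi.zero_apply] at this
    rw [this, mul_zero]
  rw [K.qp, Matrix.one_apply_eq] at h3
  exact one_ne_zero h3

/-- the quotient of an injective matrix is injective -/
private theorem b22_inj {n : ℕ} {A : Matrix (Fin n) (Fin n) ℤ} (K : KD A)
    (hA : ∀ v : Fin n → ℤ, A *ᵥ v = 0 → v = 0) (v : Fin K.b → ℤ)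
    (hv : b22 (K.Q * A * K.P) *ᵥ v = 0) : v = 0 := by
  have ha := a_zero K hA
  have hemp : IsEmpty (Fin K.a) := by
    rw [ha]
    infer_instance
  let w : Fin (K.a + K.b) → ℤ := Fin.append (fun _ => 0) v
  have hw : ∀ j : Fin K.b, w (Fin.natAdd K.a j) = v j := fun j => Fin.append_right _ _ j
  have h1 : (K.Q * A * K.P) *ᵥ w = 0 := by
    funext i
    refine Fin.addCases (fun i => (hemp.false i).elim) (fun i => ?_) i
    have h2 : ((K.Q * A * K.P) *ᵥ w) (Fin.natAdd K.a i) =
        ∑ j, (K.Q * A * K.P) (Fin.natAdd K.a i) j * w j := rfl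
    rw [h2, Fin.sum_univ_add, Finset.univ_eq_empty, Finset.sum_empty, zero_add]
    have h3 := congrFun hv i
    have h4 : (b22 (K.Q * A * K.P) *ᵥ v) i =
        ∑ j, (K.Q * A * K.P) (Fin.natAdd K.a i) (Fin.natAdd K.a j) * v j := rfl
    rw [h4] at h3
    simp only [hw]
    exact h3
  have h2 : A *ᵥ (K.P *ᵥ w) = 0 := by
    have h3 : K.P *ᵥ ((K.Q * A * K.P) *ᵥ w) = 0 := by rw [h1, Matrix.mulVec_zero]
    rw [Matrix.mulVec_mulVec, ← Matrix.mul_assoc, ← Matrix.mul_assoc, K.pq, Matrix.one_mul] at h3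
    rw [Matrix.mulVec_mulVec]
    exact h3
  have h3 := hA _ h2
  have h4 : w = 0 := by
    have h5 : K.Q *ᵥ (K.P *ᵥ w) = 0 := by rw [h3, Matrix.mulVec_zero]
    rwa [Matrix.mulVec_mulVec, K.qp, Matrix.one_mulVec] at h5
  funext j
  rw [← hw j, h4]
  rfl

private theorem inj_a {m : ℕ} {z : Zt m} {t n q : ℕ} {A : Matrix (Fin n) (Fin n) ℤ}
    {C : Matrix (Fin q) (Fin q) ℤ} {π : Matrix (Fin q) (Fin n) ℤ} {h : ZMod m}
    (hc : Cor z t A C π h) :
    (∀ v : Fin n → ℤ, A *ᵥ v = 0 → v = 0) → ∀ v : Fin q → ℤ, C *ᵥ v = 0 → v = 0 := by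
  induction hc with
  | zero A => exact fun hA => hA
  | succ A K C π h hc ih => exact fun hA => ih (fun v hv => b22_inj K hA v hv)

theorem t_INJ (hSZ : S_SZ) : S_INJ := by
  intro m z t n q A C π h hc
  induction hc with
  | zero A =>
    intro hn v _
    funext i
    exact absurd i.isLt (by omega)
  | succ A K C π h hc ih =>
    intro hn
    have hs := hSZ.1 _ _ K.P K.Q K.pq K.qp
    rcases Nat.eq_zero_or_pos K.a with ha | ha
    · have hemp : IsEmpty (Fin K.a) := by
        rw [ha]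
        infer_instance
      refine inj_a (Cor.succ A K C π h hc) ?_
      intro v hv
      have h1 : K.Q *ᵥ v = 0 := by
        funext i
        refine Fin.addCases (fun i => (hemp.false i).elim) (fun i => ?_) i
        exact K.k v hv i
      have h2 : K.P *ᵥ (K.Q *ᵥ v) = 0 := by rw [h1, Matrix.mulVec_zero]
      rwa [Matrix.mulVec_mulVec, K.pq, Matrix.one_mulVec] at h2
    · exact ih (by omega)

end Pool.MP_5a0708_an.KRW
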