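import Pool.Agent.Lib.MP_5a0708_an.KRW.SpecA

/-!
# MP_5a0708_an, package KRW : the comparison of `k` and `k ∘ ψ` for an involution `ψ`
-/

set_option autoImplicit false

namespace Pool.MP_5a0708_an.KRW

open Finset

section InvAux

variable {W Λ : Type} [LinearOrder Λ] {m : ℕ} {s ψ : Equiv.Perm W} {F : Finset W} {k : W → Λ}

private theorem com_pow (h : Iv m s F) (hψ : Vol s ψ F) {x : W} (hx : x ∈ F) (t : ℕ) :
    ψ ((s ^ t) x) = (s ^ t) (ψ x) := by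
  induction t with
  | zero => simp
  | succ t ih =>
    rw [pow_succ', Equiv.Perm.mul_apply, Equiv.Perm.mul_apply, hψ.com _ (h.mem hx t), ih]

private theorem mn_psi (h : Iv m s F) (hψ : Vol s ψ F) {x : W} (hx : x ∈ F) :
    Mn s (k ∘ ψ) x ↔ Mn s k (ψ x) := by
  unfold Mn
  refine forall_congr' fun t => ?_
  rw [Function.comp_apply, Function.comp_apply, com_pow h hψ hx]

private theorem sh_psi (h : Iv m s F) (hψ : Vol s ψ F) {x : W} (hx : x ∈ F) :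
    sh s (k ∘ ψ) x = sh s k (ψ x) := by
  unfold sh
  congr 1
  ext t
  rw [Set.mem_ofPred_eq, Set.mem_ofPred_eq, mn_psi h hψ (h.mem hx t), com_pow h hψ hx]

private theorem mkey_psi (h : Iv m s F) (hψ : Vol s ψ F) {x : W} (hx : x ∈ F) :
    mkey s (k ∘ ψ) x = mkey s k (ψ x) := by
  rw [mkey, mkey, sh_psi h hψ hx, Function.comp_apply, com_pow h hψ hx]

private theorem lpr_psi (h : Iv m s F) (hψ : Vol s ψ F) {x : W} (hx : x ∈ F) {d : ℕ}
    (hl : LPr s d x) : LPr s d (ψ x) := by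
  obtain ⟨hd, hp, hl⟩ := hl
  refine ⟨hd, ?_, ?_⟩
  · rw [← com_pow h hψ hx, hp]
  · intro t h1 h2 h3
    rw [← com_pow h hψ hx] at h3
    exact hl t h1 h2 (ψ.injective h3)

/-- the least element of the orbit of `ψ x` -/
private noncomputable def gg (s ψ : Equiv.Perm W) (k : W → Λ) (x : W) : W :=
  (s ^ (sh s k (ψ x))) (ψ x)

/-- `x` is the least element of an orbit of length `d` -/
private def Xp (d : ℕ) (s : Equiv.Perm W) (F : Finset W) (k : W → Λ) (x : W) : Prop :=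
  x ∈ F ∧ LPr s d x ∧ Mn s k x

private theorem k_gg (x : W) : k (gg s ψ k x) = mkey s k (ψ x) := rfl

private theorem gg_X (h : Iv m s F) (hψ : Vol s ψ F) {d : ℕ} {x : W} (hx : Xp d s F k x) :
    Xp d s F k (gg s ψ k x) :=
  ⟨h.mem (hψ.st x hx.1) _, (lpr_psi h hψ hx.1 hx.2.1).pow _, sh_spec h (hψ.st x hx.1)⟩

private theorem psi_gg (h : Iv m s F) (hψ : Vol s ψ F) {x : W} (hx : x ∈ F) :
    ψ (gg s ψ k x) = (s ^ (sh s k (ψ x))) x := by
  unfold gg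
  rw [com_pow h hψ (hψ.st x hx), hψ.inv x hx]

private theorem gg_gg (h : Iv m s F) (hk : Ki F k) (hψ : Vol s ψ F) {d : ℕ} {x : W}
    (hx : Xp d s F k x) : gg s ψ k (gg s ψ k x) = x := by
  have h1 := (gg_X h hψ (gg_X h hψ hx)).2.2
  have e : gg s ψ k (gg s ψ k x) =
      (s ^ (sh s k (ψ (gg s ψ k x)) + sh s k (ψ x))) x := by
    have e1 : gg s ψ k (gg s ψ k x) =
        (s ^ (sh s k (ψ (gg s ψ k x)))) (ψ (gg s ψ k x)) := rfl
    rw [e1, ← pow_ap]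
    congr 1
    exact psi_gg h hψ hx.1
  rw [e] at h1 ⊢
  exact mn_unique h hk hx.1 hx.2.2 h1

private theorem t_gg (h : Iv m s F) (hk : Ki F k) (hψ : Vol s ψ F) {x : W}
    (hx : Xp m s F k x) :
    ((sh s k (ψ x) : ℕ) : ZMod m) + ((sh s k (ψ (gg s ψ k x)) : ℕ) : ZMod m) = 0 := by
  rw [psi_gg h hψ hx.1, sh_pow h hk hx.1 hx.2.1, sh_eq_zero hx.2.2, Nat.cast_zero]
  ring

private theorem gg_fix_iff (h : Iv m s F) (hk : Ki F k) (hψ : Vol s ψ F) {d : ℕ} {x : W}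
    (hx : Xp d s F k x) : gg s ψ k x = x ↔ ∃ t : ℕ, ψ x = (s ^ t) x := by
  constructor
  · intro h1
    refine ⟨sh s k (ψ x), ?_⟩
    have h2 := psi_gg (k := k) h hψ hx.1
    rwa [h1] at h2
  · rintro ⟨t, ht⟩
    have h1 := (gg_X h hψ hx).2.2
    have e : gg s ψ k x = (s ^ (sh s k (ψ x) + t)) x := by
      rw [← pow_ap, ← ht]
      rfl
    rw [e] at h1 ⊢
    exact mn_unique h hk hx.1 hx.2.2 h1

open Classical in
private theorem t_fix (h : Iv m s F) (hψ : Vol s ψ F) {x : W}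
    (hx : Xp m s F k x) (hg : gg s ψ k x = x) :
    ((sh s k (ψ x) : ℕ) : ZMod m) = if ψ x = x then 0 else ((m / 2 : ℕ) : ZMod m) := by
  have h1 : ψ x = (s ^ (sh s k (ψ x))) x := by
    have h2 := psi_gg (k := k) h hψ hx.1
    rwa [hg] at h2
  split_ifs with h2
  · rw [h2, sh_eq_zero hx.2.2, Nat.cast_zero]
  · have h3 : (s ^ (sh s k (ψ x) + sh s k (ψ x))) x = (s ^ 0) x := by
      rw [← pow_ap, ← h1, ← com_pow h hψ hx.1, ← h1, hψ.inv x hx.1, pow_zero]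
      rfl
    have h4 := (hx.2.1.eq_iff _ _).1 h3
    rw [Nat.cast_zero, ZMod.natCast_eq_zero_iff] at h4
    have h5 : sh s k (ψ x) < m := sh_lt h (hψ.st x hx.1)
    have h6 : sh s k (ψ x) ≠ 0 := by
      intro h7
      rw [h7, pow_zero] at h1
      exact h2 h1
    obtain ⟨c, hc⟩ := h4
    have h7 : c = 1 := by
      rcases Nat.lt_or_ge c 1 with h8 | h8
      · have : c = 0 := by omega
        rw [this, mul_zero] at hc
        omega
      · rcases Nat.lt_or_ge 1 c with h9 | h9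
        · have : m * 2 ≤ m * c := Nat.mul_le_mul_left _ h9
          omega
        · omega
    rw [h7, mul_one] at hc
    congr 1
    omega

private theorem gp_eq (h : Iv m s F) (hk : Ki F k) (hψ : Vol s ψ F) :
    gp m s F k (k ∘ ψ) = ((m / 2 : ℕ) : ZMod m) * ((Nn m s ψ F k : ℕ) : ZMod m) := by
  classical
  unfold gp Nn
  have hX : ∀ x, x ∈ F.filter (fun x => LPr s m x ∧ Mn s k x) ↔ Xp m s F k x := by
    intro x
    rw [mem_filter]
    exact Iff.rfl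
  have e1 : ∑ x ∈ F.filter (fun x => LPr s m x ∧ Mn s k x), ((sh s (k ∘ ψ) x : ℕ) : ZMod m) =
      ∑ x ∈ F.filter (fun x => LPr s m x ∧ Mn s k x), ((sh s k (ψ x) : ℕ) : ZMod m) :=
    sum_congr rfl fun x hx => by rw [sh_psi h hψ (mem_filter.1 hx).1]
  rw [e1, ← sum_filter_add_sum_filter_not _ (fun x => gg s ψ k x = x)]
  have e2 : ∑ x ∈ (F.filter (fun x => LPr s m x ∧ Mn s k x)).filter
      (fun x => ¬ gg s ψ k x = x), ((sh s k (ψ x) : ℕ) : ZMod m) = 0 := by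
    refine sum_involution (fun x _ => gg s ψ k x) ?_ ?_ ?_ ?_
    · intro x hx
      exact t_gg h hk hψ ((hX x).1 (mem_filter.1 hx).1)
    · intro x hx _
      exact (mem_filter.1 hx).2
    · intro x hx
      have h1 := (hX x).1 (mem_filter.1 hx).1
      rw [mem_filter, hX, gg_gg h hk hψ h1]
      exact ⟨gg_X h hψ h1, fun h2 => (mem_filter.1 hx).2 h2.symm⟩
    · intro x hx
      exact gg_gg h hk hψ ((hX x).1 (mem_filter.1 hx).1)
  rw [e2, add_zero]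
  have e3 : ∑ x ∈ (F.filter (fun x => LPr s m x ∧ Mn s k x)).filter
      (fun x => gg s ψ k x = x), ((sh s k (ψ x) : ℕ) : ZMod m) =
      ∑ x ∈ (F.filter (fun x => LPr s m x ∧ Mn s k x)).filter
      (fun x => gg s ψ k x = x), (if ψ x = x then 0 else ((m / 2 : ℕ) : ZMod m)) :=
    sum_congr rfl fun x hx => t_fix h hψ ((hX x).1 (mem_filter.1 hx).1) (mem_filter.1 hx).2
  rw [e3, sum_ite, sum_const_zero, zero_add, sum_const, nsmul_eq_mul, mul_comm]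
  congr 3
  ext x
  rw [mem_filter, mem_filter, mem_filter, mem_filter]
  constructor
  · rintro ⟨⟨⟨h1, h2⟩, h3⟩, h4⟩
    exact ⟨h1, h2, h4, (gg_fix_iff h hk hψ ⟨h1, h2⟩).1 h3⟩
  · rintro ⟨h1, h2, h4, h3⟩
    exact ⟨⟨⟨h1, h2⟩, (gg_fix_iff h hk hψ ⟨h1, h2⟩).2 h3⟩, h4⟩

private theorem iv_par (h : Iv m s F) (hk : Ki F k) (hψ : Vol s ψ F) (d : ℕ) :
    ((iv d s F k (k ∘ ψ) : ℕ) : ZMod 2) = ((Tn d s ψ F k : ℕ) : ZMod 2) := by
  classical
  unfold iv Tn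
  set I := (F ×ˢ F).filter (fun z => (LPr s d z.1 ∧ LPr s d z.2) ∧
    (Mn s k z.1 ∧ Mn s k z.2) ∧ k z.1 < k z.2 ∧
      mkey s (k ∘ ψ) z.2 < mkey s (k ∘ ψ) z.1) with hI
  have hmem : ∀ z : W × W, z ∈ I ↔ (Xp d s F k z.1 ∧ Xp d s F k z.2) ∧ k z.1 < k z.2 ∧
      k (gg s ψ k z.2) < k (gg s ψ k z.1) := by
    rintro ⟨x, y⟩
    rw [hI, mem_filter, mem_product]
    constructor
    · rintro ⟨⟨h1, h2⟩, ⟨h3, h4⟩, ⟨h5, h6⟩, h7, h8⟩
      rw [mkey_psi h hψ h1, mkey_psi h hψ h2] at h8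
      exact ⟨⟨⟨h1, h3, h5⟩, ⟨h2, h4, h6⟩⟩, h7, h8⟩
    · rintro ⟨⟨⟨h1, h3, h5⟩, ⟨h2, h4, h6⟩⟩, h7, h8⟩
      refine ⟨⟨h1, h2⟩, ⟨h3, h4⟩, ⟨h5, h6⟩, h7, ?_⟩
      rw [mkey_psi h hψ h1, mkey_psi h hψ h2]
      exact h8
  have hσ : ∀ z ∈ I, ((gg s ψ k z.2, gg s ψ k z.1) : W × W) ∈ I := by
    intro z hz
    obtain ⟨⟨h1, h2⟩, h3, h4⟩ := (hmem z).1 hz
    refine (hmem _).2 ⟨⟨gg_X h hψ h2, gg_X h hψ h1⟩, h4, ?_⟩
    show k (gg s ψ k (gg s ψ k z.1)) < k (gg s ψ k (gg s ψ k z.2))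
    rw [gg_gg h hk hψ h1, gg_gg h hk hψ h2]
    exact h3
  have hσσ : ∀ z ∈ I, ((gg s ψ k (gg s ψ k z.1), gg s ψ k (gg s ψ k z.2)) : W × W) = z := by
    intro z hz
    obtain ⟨⟨h1, h2⟩, -, -⟩ := (hmem z).1 hz
    rw [gg_gg h hk hψ h1, gg_gg h hk hψ h2]
  have e0 : ((I.card : ℕ) : ZMod 2) = ∑ _z ∈ I, (1 : ZMod 2) := by
    rw [sum_const, nsmul_eq_mul, mul_one]
  rw [e0, ← sum_filter_add_sum_filter_not _
    (fun z : W × W => ((gg s ψ k z.2, gg s ψ k z.1) : W × W) = z)]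
  have e2 : ∑ _z ∈ I.filter
      (fun z : W × W => ¬ ((gg s ψ k z.2, gg s ψ k z.1) : W × W) = z), (1 : ZMod 2) = 0 := by
    refine sum_involution (fun z _ => ((gg s ψ k z.2, gg s ψ k z.1) : W × W)) ?_ ?_ ?_ ?_
    · intro z _
      decide
    · intro z hz _
      exact (mem_filter.1 hz).2
    · intro z hz
      obtain ⟨h1, h2⟩ := mem_filter.1 hz
      refine mem_filter.2 ⟨hσ z h1, ?_⟩
      show ¬ ((gg s ψ k (gg s ψ k z.1), gg s ψ k (gg s ψ k z.2)) : W × W) = _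
      rw [hσσ z h1]
      exact fun h3 => h2 h3.symm
    · intro z hz
      exact hσσ z (mem_filter.1 hz).1
  rw [e2, add_zero, sum_const, nsmul_eq_mul, mul_one]
  congr 1
  symm
  refine card_nbij' (fun x => ((x, gg s ψ k x) : W × W)) (fun z => z.1) ?_ ?_ ?_ ?_
  · intro x hx
    obtain ⟨h1, ⟨h2, h3⟩, h4⟩ := mem_filter.1 (mem_coe.1 hx)
    have hX : Xp d s F k x := ⟨h1, h2, h3⟩
    rw [mkey_of_mn h3, ← k_gg] at h4
    refine mem_coe.2 (mem_filter.2 ⟨(hmem _).2 ⟨⟨hX, gg_X h hψ hX⟩, h4, ?_⟩, ?_⟩)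
    · show k (gg s ψ k (gg s ψ k x)) < k (gg s ψ k x)
      rw [gg_gg h hk hψ hX]
      exact h4
    · show ((gg s ψ k (gg s ψ k x), gg s ψ k x) : W × W) = (x, gg s ψ k x)
      rw [gg_gg h hk hψ hX]
  · intro z hz
    obtain ⟨h1, h2⟩ := mem_filter.1 (mem_coe.1 hz)
    obtain ⟨⟨h3, h4⟩, h5, h6⟩ := (hmem z).1 h1
    refine mem_coe.2 (mem_filter.2 ⟨h3.1, h3.2, ?_⟩)
    rw [mkey_of_mn h3.2.2, ← k_gg]
    have h7 : gg s ψ k z.1 = z.2 := congrArg Prod.snd h2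
    rw [h7]
    exact h5
  · intro x _
    rfl
  · intro z hz
    obtain ⟨h1, h2⟩ := mem_filter.1 (mem_coe.1 hz)
    have h7 : gg s ψ k z.1 = z.2 := congrArg Prod.snd h2
    exact Prod.ext rfl h7

private theorem half_mul {m a b : ℕ} (hm : m % 2 = 0) (hab : (a : ZMod 2) = (b : ZMod 2)) :
    ((m / 2 : ℕ) : ZMod m) * (a : ZMod m) = ((m / 2 : ℕ) : ZMod m) * (b : ZMod m) := by
  have h1 : a ≡ b [MOD 2] := (ZMod.natCast_eq_natCast_iff a b 2).1 hab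
  have h2 : m / 2 * a ≡ m / 2 * b [MOD (m / 2 * 2)] := Nat.ModEq.mul_left' (m / 2) h1
  have h3 : m / 2 * 2 = m := by omega
  rw [h3] at h2
  have h4 := (ZMod.natCast_eq_natCast_iff _ _ m).2 h2
  rw [Nat.cast_mul, Nat.cast_mul] at h4
  exact h4

end InvAux

/-- **Inv** -/
theorem t_Inv : S_Inv := by
  intro W Λ _ m s ψ F k h hk hψ
  unfold Dl
  rw [gp_eq h hk hψ, Nat.cast_add, mul_add]
  congr 1
  by_cases hm : m % 2 = 0
  · refine half_mul hm ?_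
    rw [Nat.cast_sum, Nat.cast_sum]
    exact sum_congr rfl fun d _ => iv_par h hk hψ d
  · have h0 : ds m = ∅ := by
      classical
      unfold ds
      rw [filter_eq_empty_iff]
      rintro d _ ⟨i, hi, hd⟩
      apply hm
      rw [← hd]
      obtain ⟨j, rfl⟩ : ∃ j, i = j + 1 := ⟨i - 1, by omega⟩
      rw [pow_succ, ← mul_assoc, Nat.mul_mod_left]
    rw [h0, sum_empty, sum_empty]

end Pool.MP_5a0708_an.KRW
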