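import Pool.Agent.Lib.MP_5a0708_an.KRW.SpecC

/-!
# MP_5a0708_an, package KRW : a basis which starts with a basis of the kernel
-/

set_option autoImplicit false

namespace Pool.MP_5a0708_an.KRW

open Finset Matrix

theorem t_KD : S_KD := by
  classical
  intro p q S
  obtain ⟨f, hf⟩ : ∃ f : (Fin p → ℤ) →ₗ[ℤ] (Fin q → ℤ), f = S.mulVecLin := ⟨_, rfl⟩
  have hfv : ∀ v, f v = S *ᵥ v := fun v => by rw [hf, Matrix.mulVecLin_apply]
  obtain ⟨a, ⟨bK⟩⟩ := Submodule.nonempty_basis_of_pid (Pi.basisFun ℤ (Fin p)) (LinearMap.ker f)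
  obtain ⟨b, ⟨bM⟩⟩ := Submodule.nonempty_basis_of_pid (Pi.basisFun ℤ (Fin q))
    (LinearMap.range f)
  have hu : ∀ j : Fin b, ∃ u : Fin p → ℤ, f u = (bM j : Fin q → ℤ) := fun j => (bM j).2
  choose u hu using hu
  obtain ⟨g, hg⟩ : ∃ g : LinearMap.range f →ₗ[ℤ] (Fin p → ℤ), ∀ y, f (g y) = (y : Fin q → ℤ) := by
    refine ⟨bM.constr ℤ u, fun y => ?_⟩
    have h1 : f ∘ₗ (bM.constr ℤ u) = (LinearMap.range f).subtype := by
      apply bM.ext
      intro j
      rw [LinearMap.comp_apply, Module.Basis.constr_basis, hu]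
      rfl
    exact LinearMap.congr_fun h1 y
  have hbij : Function.Bijective
      (LinearMap.coprod (LinearMap.ker f).subtype g : _ →ₗ[ℤ] (Fin p → ℤ)) := by
    constructor
    · rw [← LinearMap.ker_eq_bot, LinearMap.ker_eq_bot']
      rintro ⟨x, y⟩ hxy
      rw [LinearMap.coprod_apply] at hxy
      have h1 : f ((LinearMap.ker f).subtype x + g y) = 0 := by
        rw [show (LinearMap.ker f).subtype x + g y = 0 from hxy, map_zero]
      have h2 : f ((LinearMap.ker f).subtype x) = 0 := x.2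
      rw [map_add, h2, hg, zero_add] at h1
      have h3 : y = 0 := Subtype.ext h1
      subst h3
      have h4 : (LinearMap.ker f).subtype x = 0 := by
        simpa using hxy
      have h5 : x = 0 := Subtype.ext h4
      rw [h5]
      rfl
    · intro v
      refine ⟨(⟨v - g ⟨f v, v, rfl⟩, ?_⟩, ⟨f v, v, rfl⟩), ?_⟩
      · rw [LinearMap.mem_ker, map_sub, hg, sub_self]
      · rw [LinearMap.coprod_apply]
        show v - g ⟨f v, v, rfl⟩ + g ⟨f v, v, rfl⟩ = v
        abel
  obtain ⟨e1, he1⟩ : ∃ e1 : (LinearMap.ker f × LinearMap.range f) ≃ₗ[ℤ] (Fin p → ℤ),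
      ∀ z, e1 z = (z.1 : Fin p → ℤ) + g z.2 :=
    ⟨LinearEquiv.ofBijective _ hbij, fun z => rfl⟩
  obtain ⟨B, hB⟩ : ∃ B : Module.Basis (Fin (a + b)) ℤ (Fin p → ℤ),
      B = ((bK.prod bM).map e1).reindex finSumFinEquiv := ⟨_, rfl⟩
  refine ⟨⟨a, b, (Pi.basisFun ℤ (Fin p)).toMatrix B, B.toMatrix (Pi.basisFun ℤ (Fin p)),
    Module.Basis.toMatrix_mul_toMatrix_flip _ _, Module.Basis.toMatrix_mul_toMatrix_flip _ _,
    ?_, ?_⟩⟩
  · intro i j
    have h1 : B (Fin.castAdd b j) = (bK j : Fin p → ℤ) := by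
      rw [hB, Module.Basis.reindex_apply, finSumFinEquiv_symm_apply_castAdd,
        Module.Basis.map_apply, Module.Basis.prod_apply, he1]
      show (bK j : Fin p → ℤ) + g 0 = (bK j : Fin p → ℤ)
      rw [map_zero, add_zero]
    have h2 : (S * (Pi.basisFun ℤ (Fin p)).toMatrix B) i (Fin.castAdd b j) =
        (S *ᵥ (B (Fin.castAdd b j))) i := by
      rw [Matrix.mul_apply]
      rfl
    rw [h2, h1, ← hfv]
    have h3 : f (bK j : Fin p → ℤ) = 0 := (bK j).2
    rw [h3]
    rfl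
  · intro v hv j
    have h1 : (B.toMatrix (Pi.basisFun ℤ (Fin p))) *ᵥ v = B.repr v := by
      have h2 := Module.Basis.toMatrix_mulVec_repr (Pi.basisFun ℤ (Fin p)) B v
      have h3 : ⇑((Pi.basisFun ℤ (Fin p)).repr v) = v := by
        funext t
        exact Pi.basisFun_repr ℤ (Fin p) v t
      rw [h3] at h2
      exact h2
    rw [h1, hB, Module.Basis.repr_reindex_apply, finSumFinEquiv_symm_apply_natAdd,
      Module.Basis.map_repr, LinearEquiv.trans_apply, Module.Basis.prod_repr_inr]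
    have hvK : v ∈ LinearMap.ker f := by
      rw [LinearMap.mem_ker, hfv]
      exact hv
    have h4 : e1.symm v = (⟨v, hvK⟩, 0) := by
      rw [LinearEquiv.symm_apply_eq, he1, map_zero, add_zero]
    rw [h4, map_zero]
    rfl

end Pool.MP_5a0708_an.KRW
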