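import Pool.Agent.Lib.MP_5a0708_an.KRW.SpecD

/-!
# MP_5a0708_an, package KRW : the theorem of Kim, Roush and Wagoner for the 2-shift
-/

set_option autoImplicit false

namespace Pool.MP_5a0708_an.KRW

open Finset Matrix Pool.MP_5a0708_an.Nil

/-- the eigenvector of `u0 ∘ θ` is `(1, 1)` -/
private theorem lam_one (hU0 : S_U0) (hTw : S_Tw) (hLamM : S_LamM) (hLamT : S_LamT) (L : ℕ)
    (θ : Equiv.Perm Pt) (hL : 1 ≤ L) (h : CA L θ) (i : Fin 2) : lam (u0 ∘ θ) i = 1 := by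
  have h0 := hLamT L θ hL h
  have hg := hTw 2 u0 θ hU0.1 h.mem
  have h1 := congrFun (hLamM 2 (u0 ∘ θ) hg.1) 0
  rw [hg.2] at h1
  simp only [Matrix.vecMul, dotProduct, Fin.sum_univ_two, Matrix.map_apply, hU0.2, Int.cast_one,
    mul_one, Pi.smul_apply, smul_eq_mul] at h1
  have h2 : lam (u0 ∘ θ) 1 = 1 := by
    rw [h0] at h1
    linarith
  match i with
  | 0 => exact h0
  | 1 => exact h2

theorem t_KRW (hEdge : S_Edge) (hPot : S_Pot) (hZ : S_Z) (hU0 : S_U0) (hTw : S_Tw)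
    (hLamM : S_LamM) (hLamT : S_LamT) : S_KRW := by
  intro L m θ hL hm h
  obtain ⟨Ty, Φ, hPo⟩ := hPot m _ (hZ m hm).1
  have hg := hTw 2 u0 θ hU0.1 h.mem
  obtain ⟨t0, ht⟩ := hEdge m Ty Φ hm hPo 2 u0 2 (u0 ∘ θ) hU0.1 hg.1
  have h2 := (ht (max t0 2) (le_max_left _ _)).2
    (hPo.two (max t0 2) (tmz u0) (le_max_right _ _) hU0.2)
  have e1 : lam (u0 ∘ θ) = lam u0 := by
    funext i
    rw [lam_one hU0 hTw hLamM hLamT L θ hL h i]
    exact (lam_one hU0 hTw hLamM hLamT L 1 hL (CA.one L) i).symm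
  rw [h2, hg.2, e1, sub_self]

end Pool.MP_5a0708_an.KRW
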