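import Pool.Agent.Lib.MP_5a0708_an.KRW.SpecD

/-!
# MP_5a0708_an, package KRW : a left splitting and its comparison
-/

set_option autoImplicit false

namespace Pool.MP_5a0708_an.KRW

open Finset Matrix Pool.MP_5a0708_an.Nil

private theorem led_lt {A Λ : Type} [LinearOrder A] [LinearOrder Λ] {m : ℕ} (X Y : ℤ → A)
    (e e' : ℤ → Λ)
    (h1 : ∀ t, (X t < Y t ∨ (X t = Y t ∧ X (t + 1) < Y (t + 1))) → e t < e' t)
    (h2 : ∀ t, X t = Y t → X (t + 1) = Y (t + 1) → e t = e' t)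
    (h : (toLex (fun t : Fin m => X ((t : ℕ) : ℤ)) : Lex (Fin m → A)) <
      toLex (fun t : Fin m => Y ((t : ℕ) : ℤ))) :
    (toLex (fun t : Fin m => e ((t : ℕ) : ℤ)) : Lex (Fin m → Λ)) <
      toLex (fun t : Fin m => e' ((t : ℕ) : ℤ)) := by
  obtain ⟨t, h3, h4⟩ := h
  replace h3 : ∀ j : Fin m, j < t → X ((j : ℕ) : ℤ) = Y ((j : ℕ) : ℤ) := h3
  replace h4 : X ((t : ℕ) : ℤ) < Y ((t : ℕ) : ℤ) := h4
  rcases Nat.eq_zero_or_pos (t : ℕ) with h5 | h5
  · refine ⟨t, fun j hj => ?_, h1 _ (Or.inl h4)⟩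
    have : (j : ℕ) < (t : ℕ) := hj
    omega
  · refine ⟨⟨(t : ℕ) - 1, by omega⟩, fun j hj => ?_, ?_⟩
    · have hj' : (j : ℕ) < (t : ℕ) - 1 := hj
      have h6 := h3 j (by rw [Fin.lt_def]; omega)
      have h7 := h3 ⟨(j : ℕ) + 1, by omega⟩ (by rw [Fin.lt_def]; show (j : ℕ) + 1 < t; omega)
      have h8 : ((((j : ℕ) + 1 : ℕ)) : ℤ) = ((j : ℕ) : ℤ) + 1 := by push_cast; rfl
      refine h2 _ h6 ?_
      rw [← h8]
      exact h7
    · have h6 := h3 ⟨(t : ℕ) - 1, by omega⟩ (by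
        rw [Fin.lt_def]; show (t : ℕ) - 1 < t; omega)
      refine h1 _ (Or.inr ⟨h6, ?_⟩)
      have h8 : ((((t : ℕ) - 1 : ℕ)) : ℤ) + 1 = ((t : ℕ) : ℤ) := by omega
      show X ((((t : ℕ) - 1 : ℕ) : ℤ) + 1) < Y ((((t : ℕ) - 1 : ℕ) : ℤ) + 1)
      rw [h8]
      exact h4

private theorem led_iff {A Λ : Type} [LinearOrder A] [LinearOrder Λ] {m : ℕ}
    (X Y : ℤ → A) (e e' : ℤ → Λ) (hX : X m = X 0) (hY : Y m = Y 0)
    (h1 : ∀ t, (X t < Y t ∨ (X t = Y t ∧ X (t + 1) < Y (t + 1))) → e t < e' t)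
    (h1' : ∀ t, (Y t < X t ∨ (Y t = X t ∧ Y (t + 1) < X (t + 1))) → e' t < e t)
    (h2 : ∀ t, X t = Y t → X (t + 1) = Y (t + 1) → e t = e' t) :
    ((toLex (fun t : Fin m => X ((t : ℕ) : ℤ)) : Lex (Fin m → A)) <
      toLex (fun t : Fin m => Y ((t : ℕ) : ℤ))) ↔
    ((toLex (fun t : Fin m => e ((t : ℕ) : ℤ)) : Lex (Fin m → Λ)) <
      toLex (fun t : Fin m => e' ((t : ℕ) : ℤ))) := by
  refine ⟨led_lt X Y e e' h1 h2, fun h => ?_⟩
  rcases lt_trichotomy (toLex (fun t : Fin m => X ((t : ℕ) : ℤ)) : Lex (Fin m → A))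
    (toLex (fun t : Fin m => Y ((t : ℕ) : ℤ))) with h3 | h3 | h3
  · exact h3
  · exfalso
    have h4 : ∀ t : Fin m, X ((t : ℕ) : ℤ) = Y ((t : ℕ) : ℤ) := fun t =>
      congrFun (toLex.injective h3) t
    have h5 : (fun t : Fin m => e ((t : ℕ) : ℤ)) = fun t : Fin m => e' ((t : ℕ) : ℤ) := by
      funext t
      refine h2 _ (h4 t) ?_
      by_cases h6 : (t : ℕ) + 1 < m
      · have h7 := h4 ⟨(t : ℕ) + 1, h6⟩
        have h8 : ((((t : ℕ) + 1 : ℕ)) : ℤ) = ((t : ℕ) : ℤ) + 1 := by push_cast; rfl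
        rw [← h8]
        exact h7
      · have h7 : ((t : ℕ) : ℤ) + 1 = m := by omega
        have h8 := h4 ⟨0, by omega⟩
        rw [h7, hX, hY]
        exact h8
    rw [h5] at h
    exact lt_irrefl _ h
  · exfalso
    exact lt_asymm h (led_lt Y X e' e h1' (fun t ha hb => (h2 t ha.symm hb.symm).symm) h3)

theorem t_LEd (hTr : S_Tr) (hReal : S_Real) : S_LEd := by
  classical
  intro m n n' u u' p hm hu hu' hsp
  obtain ⟨hp, hd⟩ := hsp
  -- the next code is determined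
  have hd1 : ∀ x y : Pt, u x = u y → u (tr 1 x) = u (tr 1 y) → u' (tr 1 x) = u' (tr 1 y) := by
    intro x y h1 h2
    refine hd _ _ h2 ?_
    rw [tr_tr', tr_tr', show (-1 : ℤ) + 1 = 0 by norm_num, tr_zero', tr_zero']
    exact h1
  let R : Matrix (Fin n) (Fin n') ℕ := fun i j =>
    if ∃ x : Pt, u x = i ∧ u' (tr 1 x) = j then 1 else 0
  let S : Matrix (Fin n') (Fin n) ℕ := fun j i => if p j = i then 1 else 0
  have hR : ∀ i j, R i j = if ∃ x : Pt, u x = i ∧ u' (tr 1 x) = j then 1 else 0 :=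
    fun _ _ => rfl
  have hS : ∀ j i, S j i = if p j = i then 1 else 0 := fun _ _ => rfl
  have hRS : R * S = tmat u := by
    ext i i'
    rw [Matrix.mul_apply]
    unfold tmat
    by_cases hx : ∃ x : Pt, u x = i ∧ u (tr 1 x) = i'
    · obtain ⟨x, hx1, hx2⟩ := hx
      rw [Finset.sum_eq_single (u' (tr 1 x)), hR, hS, if_pos ⟨x, hx1, rfl⟩,
        if_pos ((hp _).symm.trans hx2), if_pos ⟨x, hx1, hx2⟩]
      · intro j _ hj
        rw [hR, hS]
        by_cases h1 : ∃ y : Pt, u y = i ∧ u' (tr 1 y) = j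
        · by_cases h2 : p j = i'
          · exfalso
            obtain ⟨y, hy1, hy2⟩ := h1
            apply hj
            rw [← hy2]
            refine hd1 y x (hy1.trans hx1.symm) ?_
            rw [hp (tr 1 y), hy2, h2, hx2]
          · rw [if_neg h2, mul_zero]
        · rw [if_neg h1, zero_mul]
      · intro h
        exact absurd (mem_univ _) h
    · rw [if_neg hx]
      refine Finset.sum_eq_zero fun j _ => ?_
      rw [hR, hS]
      by_cases h1 : ∃ y : Pt, u y = i ∧ u' (tr 1 y) = j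
      · by_cases h2 : p j = i'
        · exfalso
          obtain ⟨y, hy1, hy2⟩ := h1
          exact hx ⟨y, hy1, by rw [hp (tr 1 y), hy2, h2]⟩
        · rw [if_neg h2, mul_zero]
      · rw [if_neg h1, zero_mul]
  have hex : ∀ j j', (∃ x : Pt, u x = p j ∧ u' (tr 1 x) = j') ↔
      ∃ x : Pt, u' x = j ∧ u' (tr 1 x) = j' := by
    intro j j'
    constructor
    · rintro ⟨x, hx1, hx2⟩
      obtain ⟨y, hy⟩ := hu'.surj j
      have hyx : u y = u x := by rw [hp y, hy, hx1]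
      obtain ⟨z, hz1, hz2⟩ := hu.glue y x hyx
      have h0 := hz1 0 le_rfl
      have h0' := hz2 0 le_rfl
      rw [tr_zero', tr_zero'] at h0 h0'
      refine ⟨z, ?_, ?_⟩
      · rw [← hy]
        exact hd z y h0 (hz1 (-1) (by norm_num))
      · rw [← hx2]
        exact hd1 z x h0' (hz2 1 (by norm_num))
    · rintro ⟨x, hx1, hx2⟩
      exact ⟨x, by rw [hp x, hx1], hx2⟩
  have hSR : S * R = tmat u' := by
    ext j j'
    rw [Matrix.mul_apply, Finset.sum_eq_single (p j), hS, if_pos rfl, one_mul, hR]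
    · unfold tmat
      exact if_congr (hex j j') rfl rfl
    · intro i _ hi
      rw [hS, if_neg (Ne.symm hi), zero_mul]
    · intro h
      exact absurd (mem_univ _) h
  refine ⟨R, S, hS, hRS, hSR, ?_⟩
  unfold sgc DD
  let f : Pt → ℤ → Fin n' × Fin n × ℕ × ℕ := fun x k => (u' (tr k x), u (tr k x), 0, 0)
  have hper : ∀ x ∈ PP m, ∀ k : ℤ, tr (k + m) x = tr k x := by
    intro x hx k
    rw [← tr_tr', (mem_PP_tr hm).1 hx]
  refine (hTr Pt (ℤ → Fin n' × Fin n × ℕ × ℕ) _ _ _ _ m (shf Bool) (shf _) (PP m)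
    (AP m (fun i j => range (S i j)) (fun j i => range (R j i))) (uk m u') (uk m u)
    (pk m kA) (pk m kB) f (iv_PP hm) ?_ ?_ ?_ ?_ ?_ ?_).2.symm
  · intro x hx
    rw [mem_AP hm]
    intro k
    refine ⟨?_, ?_, ?_⟩
    · show (u' (tr (k + m) x), u (tr (k + m) x), 0, 0) = (u' (tr k x), u (tr k x), 0, 0)
      rw [hper x hx]
    · show 0 ∈ range (S (u' (tr k x)) (u (tr k x)))
      rw [hS, if_pos (hp _).symm]
      simp
    · show 0 ∈ range (R (u (tr k x)) (u' (tr (k + 1) x)))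
      rw [hR, if_pos ⟨tr k x, rfl, by rw [tr_tr', add_comm 1 k]⟩]
      simp
  · intro x _ y _ hxy
    refine hu.det fun k => ?_
    have := congrFun hxy k
    exact (Prod.ext_iff.1 (Prod.ext_iff.1 this).2).1
  · intro y hy
    rw [mem_AP hm] at hy
    have hy1 : ∀ k : ℤ, p (y k).1 = (y k).2.1 ∧ (y k).2.2.1 = 0 := by
      intro k
      have h1 := (hy k).2.1
      rw [mem_range, hS] at h1
      by_cases h2 : p (y k).1 = (y k).2.1
      · rw [if_pos h2] at h1
        exact ⟨h2, by omega⟩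
      · rw [if_neg h2] at h1
        omega
    have hy2 : ∀ k : ℤ, (∃ x : Pt, u x = (y k).2.1 ∧ u' (tr 1 x) = (y (k + 1)).1) ∧
        (y k).2.2.2 = 0 := by
      intro k
      have h1 := (hy k).2.2
      rw [mem_range, hR] at h1
      by_cases h2 : ∃ x : Pt, u x = (y k).2.1 ∧ u' (tr 1 x) = (y (k + 1)).1
      · rw [if_pos h2] at h1
        exact ⟨h2, by omega⟩
      · rw [if_neg h2] at h1
        omega
    obtain ⟨x, hx⟩ := hReal n' u' hu' (fun k => (y k).1) (by
      intro k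
      show tmat u' (y k).1 (y (k + 1)).1 = 1
      unfold tmat
      rw [if_pos]
      rw [← hex, (hy1 k).1]
      exact (hy2 k).1)
    have hxm : x ∈ PP m := by
      rw [mem_PP_tr hm]
      refine hu'.det fun k => ?_
      rw [tr_tr', hx, hx]
      show (y (k + m)).1 = (y k).1
      rw [(hy k).1]
    refine ⟨x, hxm, ?_⟩
    funext k
    refine Prod.ext (hx k) (Prod.ext ?_ (Prod.ext (hy1 k).2.symm (hy2 k).2.symm))
    show u (tr k x) = (y k).2.1
    rw [hp, hx]
    exact (hy1 k).1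
  · intro x _
    funext k
    show (u' (tr k (tr 1 x)), u (tr k (tr 1 x)), 0, 0) = (u' (tr (k + 1) x), u (tr (k + 1) x), 0, 0)
    rw [tr_tr']
  · intro x hx y hy
    refine led_iff (m := m) (fun k => u' (tr k x)) (fun k => u' (tr k y))
      (fun t => kA (f x t) (f x (t + 1))) (fun t => kA (f y t) (f y (t + 1))) ?_ ?_ ?_ ?_ ?_
    · show u' (tr (m : ℤ) x) = u' (tr 0 x)
      rw [← hper x hx 0, zero_add]
    · show u' (tr (m : ℤ) y) = u' (tr 0 y)
      rw [← hper y hy 0, zero_add]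
    · intro t h
      simp only [kA, f, Prod.Lex.toLex_lt_toLex]
      rcases h with h | ⟨h, h'⟩
      · exact Or.inl h
      · exact Or.inr ⟨h, Or.inl h'⟩
    · intro t h
      simp only [kA, f, Prod.Lex.toLex_lt_toLex]
      rcases h with h | ⟨h, h'⟩
      · exact Or.inl h
      · exact Or.inr ⟨h, Or.inl h'⟩
    · intro t h h'
      simp only [kA, f]
      have h3 : u (tr t x) = u (tr t y) := by rw [hp, hp (tr t y), h]
      rw [h, h', h3]
  · intro x hx y hy
    refine led_iff (m := m) (fun k => u (tr k x)) (fun k => u (tr k y))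
      (fun t => kB (f x t) (f x (t + 1))) (fun t => kB (f y t) (f y (t + 1))) ?_ ?_ ?_ ?_ ?_
    · show u (tr (m : ℤ) x) = u (tr 0 x)
      rw [← hper x hx 0, zero_add]
    · show u (tr (m : ℤ) y) = u (tr 0 y)
      rw [← hper y hy 0, zero_add]
    · intro t h
      simp only [kB, f, Prod.Lex.toLex_lt_toLex]
      rcases h with h | ⟨h, h'⟩
      · exact Or.inl h
      · exact Or.inr ⟨h, Or.inl h'⟩
    · intro t h
      simp only [kB, f, Prod.Lex.toLex_lt_toLex]
      rcases h with h | ⟨h, h'⟩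
      · exact Or.inl h
      · exact Or.inr ⟨h, Or.inl h'⟩
    · intro t h h'
      simp only [kB, f]
      have h3 : u' (tr (t + 1) x) = u' (tr (t + 1) y) := by
        have := hd1 (tr t x) (tr t y) h (by
          rw [tr_tr', tr_tr', add_comm 1 t]
          exact h')
        rwa [tr_tr', tr_tr', add_comm 1 t] at this
      rw [h, h', h3]

end Pool.MP_5a0708_an.KRW
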