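import Pool.Agent.Lib.MP_5a0708_an.KRW.SpecD

/-!
# MP_5a0708_an, package KRW : the normalised left eigenvector of a coding
-/

set_option autoImplicit false

namespace Pool.MP_5a0708_an.KRW

open Finset Matrix Pool.MP_5a0708_an.Nil

/-- the points which vanish on `(-∞, -T)` and have the same future as `x` -/
private def lamY (T : ℕ) {n : ℕ} (u : Pt → Fin n) (x : Pt) : Set Pt :=
  {y : Pt | (∀ i : ℤ, i < -T → y i = false) ∧ ∀ k : ℕ, u (tr k y) = u (tr k x)}

private theorem cnt_eq (T : ℕ) {n : ℕ} (u : Pt → Fin n) (x : Pt) :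
    cnt T u x = (lamY T u x).ncard := rfl

/-- the constant `w` -/
private structure LamW {n : ℕ} (u : Pt → Fin n) (w : ℕ) : Prop where
  fut : ∀ x y : Pt, (∀ k : ℕ, u (tr k x) = u (tr k y)) → ∀ i : ℤ, (w : ℤ) ≤ i → x i = y i
  past : ∀ x y : Pt, (∀ k : ℤ, k ≤ 0 → u (tr k x) = u (tr k y)) →
    ∀ i : ℤ, i ≤ -(w : ℤ) → x i = y i
  loc : ∀ x y : Pt, (∀ i : ℤ, -(w : ℤ) ≤ i → x i = y i) → ∀ k : ℕ, u (tr k x) = u (tr k y)

private theorem exists_lamW {n : ℕ} {u : Pt → Fin n} (h : Gd n u) : ∃ w : ℕ, LamW u w := by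
  obtain ⟨w1, h1⟩ := h.win
  obtain ⟨w2, h2⟩ := h.locw
  refine ⟨max w1 w2, ?_, ?_, ?_⟩
  · intro x y hxy i hi
    have hm : (w1 : ℤ) ≤ (max w1 w2 : ℕ) := by exact_mod_cast le_max_left w1 w2
    refine h1 i i x y (fun k hk _ => ?_) i le_rfl le_rfl
    have hk0 : 0 ≤ k := by omega
    have := hxy k.toNat
    rwa [Int.toNat_of_nonneg hk0] at this
  · intro x y hxy i hi
    have hm : (w1 : ℤ) ≤ (max w1 w2 : ℕ) := by exact_mod_cast le_max_left w1 w2
    exact h1 i i x y (fun k _ hk => hxy k (by omega)) i le_rfl le_rfl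
  · intro x y hxy k
    have hm : (w2 : ℤ) ≤ (max w1 w2 : ℕ) := by exact_mod_cast le_max_right w1 w2
    exact h2 k k x y (fun i hi _ => hxy i (by omega)) k le_rfl le_rfl

private theorem lamY_finite {n : ℕ} {u : Pt → Fin n} {w : ℕ} (hw : LamW u w) (T : ℕ) (x : Pt) :
    (lamY T u x).Finite := by
  refine Set.Finite.of_injOn (f := fun (y : Pt) (i : Finset.Ico (-(T : ℤ)) (w : ℤ)) => y i)
    (t := Set.univ) (fun _ _ => Set.mem_univ _) ?_ (Set.toFinite _)
  intro y hy z hz hyz
  funext i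
  by_cases h1 : i < -(T : ℤ)
  · rw [hy.1 i h1, hz.1 i h1]
  · by_cases h2 : i < (w : ℤ)
    · exact congrFun hyz ⟨i, Finset.mem_Ico.2 ⟨by omega, h2⟩⟩
    · exact hw.fut y z (fun k => by rw [hy.2 k, hz.2 k]) i (by omega)

private theorem lamY_succ {n : ℕ} {u : Pt → Fin n} {w : ℕ} (hw : LamW u w) {T : ℕ}
    (hT : w ≤ T) (x : Pt) : (lamY (T + 1) u x).ncard = 2 * (lamY T u x).ncard := by
  let g : Pt → Pt := fun y => Function.update y (-(T : ℤ) - 1) true
  have hg : ∀ (y : Pt) (i : ℤ), i ≠ -(T : ℤ) - 1 → g y i = y i := fun y i hi =>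
    Function.update_of_ne hi _ _
  have hg1 : ∀ y : Pt, g y (-(T : ℤ) - 1) = true := fun y => Function.update_self _ _ _
  have e : lamY (T + 1) u x = lamY T u x ∪ g '' lamY T u x := by
    ext y
    constructor
    · rintro ⟨h1, h2⟩
      by_cases hy : y (-(T : ℤ) - 1) = false
      · left
        refine ⟨fun i hi => ?_, h2⟩
        by_cases hi' : i = -(T : ℤ) - 1
        · rw [hi', hy]
        · exact h1 i (by push_cast; omega)
      · right
        refine ⟨Function.update y (-(T : ℤ) - 1) false, ⟨fun i hi => ?_, fun k => ?_⟩, ?_⟩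
        · by_cases hi' : i = -(T : ℤ) - 1
          · rw [hi']
            exact Function.update_self _ _ _
          · rw [Function.update_of_ne hi']
            exact h1 i (by push_cast; omega)
        · rw [← h2 k]
          refine hw.loc _ _ (fun i hi => ?_) k
          exact Function.update_of_ne (by omega) _ _
        · funext i
          by_cases hi' : i = -(T : ℤ) - 1
          · rw [hi', hg1]
            simpa using hy
          · rw [hg _ i hi']
            exact Function.update_of_ne hi' _ _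
    · rintro (⟨h1, h2⟩ | ⟨z, ⟨h1, h2⟩, rfl⟩)
      · exact ⟨fun i hi => h1 i (by push_cast at hi; omega), h2⟩
      · refine ⟨fun i hi => ?_, fun k => ?_⟩
        · push_cast at hi
          rw [hg z i (by omega)]
          exact h1 i (by omega)
        · rw [← h2 k]
          exact hw.loc _ _ (fun i hi => hg z i (by omega)) k
  have hd : Disjoint (lamY T u x) (g '' lamY T u x) := by
    rw [Set.disjoint_left]
    rintro y hy ⟨z, -, rfl⟩
    have h1 := hy.1 (-(T : ℤ) - 1) (by omega)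
    rw [hg1] at h1
    exact absurd h1 (by decide)
  have hf := lamY_finite hw T x
  rw [e, Set.ncard_union_eq hd hf (hf.image _), Set.ncard_image_of_injOn, two_mul]
  intro y hy z hz hyz
  funext i
  by_cases hi : i = -(T : ℤ) - 1
  · rw [hi, hy.1 _ (by omega), hz.1 _ (by omega)]
  · rw [← hg y i hi, ← hg z i hi, hyz]

private theorem lamY_le {n : ℕ} {u : Pt → Fin n} (h : Gd n u) {w : ℕ} (hw : LamW u w) {T : ℕ}
    (hT : w ≤ T) {x x' : Pt} (hx : u x = u x') :
    (lamY T u x).ncard ≤ (lamY T u x').ncard := by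
  have hg : ∀ y : Pt, ∃ z : Pt, u y = u x' →
      (∀ k : ℤ, k ≤ 0 → u (tr k z) = u (tr k y)) ∧ ∀ k : ℤ, 0 ≤ k → u (tr k z) = u (tr k x') := by
    intro y
    by_cases hy : u y = u x'
    · obtain ⟨z, hz⟩ := h.glue y x' hy
      exact ⟨z, fun _ => hz⟩
    · exact ⟨y, fun h => absurd h hy⟩
  choose f hf using hg
  have hu : ∀ y ∈ lamY T u x, u y = u x' := by
    intro y hy
    have := hy.2 0
    rw [Nat.cast_zero, tr_zero', tr_zero'] at this
    rw [this, hx]
  refine Set.ncard_le_ncard_of_injOn f ?_ ?_ (lamY_finite hw T x')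
  · intro y hy
    obtain ⟨h1, h2⟩ := hf y (hu y hy)
    refine ⟨fun i hi => ?_, fun k => h2 k (by omega)⟩
    rw [hw.past _ _ h1 i (by omega)]
    exact hy.1 i hi
  · intro y hy z hz hyz
    obtain ⟨h1, _⟩ := hf y (hu y hy)
    obtain ⟨h2, _⟩ := hf z (hu z hz)
    refine h.det fun k => ?_
    rcases le_total k 0 with hk | hk
    · rw [← h1 k hk, ← h2 k hk, hyz]
    · have h3 := hy.2 k.toNat
      have h4 := hz.2 k.toNat
      rw [Int.toNat_of_nonneg hk] at h3 h4
      rw [h3, h4]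

private theorem lamY_pos {n : ℕ} {u : Pt → Fin n} {w : ℕ} (hw : LamW u w) {T : ℕ}
    (hT : w ≤ T) (x : Pt) : 0 < (lamY T u x).ncard := by
  rw [Set.ncard_pos (lamY_finite hw T x)]
  refine ⟨fun i => if i < -(T : ℤ) then false else x i, fun i hi => if_pos hi, ?_⟩
  exact hw.loc _ _ fun i hi => if_neg (by omega)

theorem t_Lam : S_Lam := by
  intro n u h
  obtain ⟨w, hw⟩ := exists_lamW h
  have hpow : ∀ (x : Pt) (c : ℕ), (lamY (w + c) u x).ncard = 2 ^ c * (lamY w u x).ncard := by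
    intro x c
    induction c with
    | zero => rw [pow_zero, one_mul, Nat.add_zero]
    | succ c ih =>
      rw [← Nat.add_assoc, lamY_succ hw (Nat.le_add_right w c), ih, pow_succ]
      ring
  choose g hg using h.surj
  have hsp : LamSp u (fun a => ((lamY w u (g a)).ncard : ℚ) / 2 ^ w) := by
    refine ⟨w, fun x T hT => ?_⟩
    obtain ⟨c, rfl⟩ := Nat.exists_eq_add_of_le hT
    have h1 : (lamY w u x).ncard = (lamY w u (g (u x))).ncard :=
      le_antisymm (lamY_le h hw le_rfl (hg (u x)).symm) (lamY_le h hw le_rfl (hg (u x)))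
    rw [cnt_eq, hpow, h1]
    push_cast
    rw [pow_add]
    field_simp
  have hex : ∃ l : Fin n → ℚ, LamSp u l := ⟨_, hsp⟩
  have hlam : LamSp u (lam u) := by
    unfold lam
    rw [dif_pos hex]
    exact hex.choose_spec
  refine ⟨hlam, ?_, ?_⟩
  · intro a
    obtain ⟨T₀, hT₀⟩ := hlam
    have h1 := hT₀ (g a) (max T₀ w) (le_max_left _ _)
    rw [hg a, cnt_eq] at h1
    have h2 : (0 : ℚ) < ((lamY (max T₀ w) u (g a)).ncard : ℚ) := by
      exact_mod_cast lamY_pos hw (le_max_right _ _) (g a)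
    rw [h1] at h2
    exact pos_of_mul_pos_left h2 (by positivity)
  · intro l hl
    obtain ⟨T₁, hT₁⟩ := hl
    obtain ⟨T₂, hT₂⟩ := hlam
    funext a
    have h1 := hT₁ (g a) (max T₁ T₂) (le_max_left _ _)
    have h2 := hT₂ (g a) (max T₁ T₂) (le_max_right _ _)
    rw [hg a] at h1 h2
    rw [h1] at h2
    exact mul_right_cancel₀ (by positivity) h2

end Pool.MP_5a0708_an.KRW
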