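import Pool.Agent.Lib.MP_5a0708_an.KRW.SpecD

/-! # The eigenvector and left splittings -/

set_option autoImplicit false

namespace Pool.MP_5a0708_an.KRW

open Finset Matrix Pool.MP_5a0708_an.Nil

private def Yset (T : ℕ) {n : ℕ} (u : Pt → Fin n) (x : Pt) : Set Pt :=
  {y : Pt | (∀ i : ℤ, i < -T → y i = false) ∧ ∀ k : ℕ, u (tr k y) = u (tr k x)}

private theorem fib {n n' : ℕ} {u : Pt → Fin n} {u' : Pt → Fin n'} {p : Fin n' → Fin n}
    (hp : LSp u u' p) (T : ℕ) (x xb : Pt) (b : Fin n') (hb : u' xb = b)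
    (hx : ∀ k : ℕ, u (tr k xb) = u (tr k x)) :
    {y | y ∈ Yset T u x ∧ u' y = b} = Yset T u' xb := by
  ext y
  constructor
  · rintro ⟨⟨h1, h2⟩, h3⟩
    refine ⟨h1, fun k => ?_⟩
    cases k with
    | zero =>
      rw [Nat.cast_zero, tr_zero', tr_zero', h3, hb]
    | succ k =>
      refine hp.2 _ _ ?_ ?_
      · rw [h2, hx]
      · rw [tr_tr', tr_tr']
        have e : -1 + ((k + 1 : ℕ) : ℤ) = (k : ℤ) := by push_cast; ring
        rw [e, h2, hx]
  · rintro ⟨h1, h2⟩
    have h3 : u' y = b := by
      have h4 := h2 0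
      rw [Nat.cast_zero, tr_zero', tr_zero', hb] at h4
      exact h4
    refine ⟨⟨h1, fun k => ?_⟩, h3⟩
    rw [hp.1, h2 k, ← hp.1, hx]

theorem t_LamL (hLam : S_Lam) : S_LamL := by
  classical
  intro n n' u u' p hu hu' hp a
  obtain ⟨⟨T0, hT0⟩, hpos, -⟩ := hLam n u hu
  obtain ⟨⟨T1, hT1⟩, -, -⟩ := hLam n' u' hu'
  obtain ⟨x, hx⟩ := hu.surj a
  set T := max T0 T1 with hT
  have e1 := hT0 x T (le_max_left _ _)
  rw [hx] at e1
  have hfin : (Yset T u x).Finite := by
    refine Set.finite_of_ncard_ne_zero ?_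
    intro h0
    have h1 : (cnt T u x : ℚ) = 0 := by
      have h2 : cnt T u x = 0 := h0
      rw [h2, Nat.cast_zero]
    rw [h1] at e1
    have h3 : 0 < lam u a * 2 ^ T := mul_pos (hpos a) (by positivity)
    rw [← e1] at h3
    exact lt_irrefl _ h3
  have hcard : cnt T u x = hfin.toFinset.card := Set.ncard_eq_toFinset_card _ hfin
  have hfw : hfin.toFinset.card = ∑ b : Fin n', (hfin.toFinset.filter fun y => u' y = b).card :=
    card_eq_sum_card_fiberwise fun y _ => mem_univ _
  have hb : ∀ b : Fin n', (((hfin.toFinset.filter fun y => u' y = b).card : ℕ) : ℚ) =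
      (if p b = a then lam u' b else 0) * 2 ^ T := by
    intro b
    by_cases hpb : p b = a
    · rw [if_pos hpb]
      obtain ⟨y0, hy0⟩ := hu'.surj b
      have huy : u y0 = u x := by rw [hp.1, hy0, hpb, hx]
      obtain ⟨z, hz, hz'⟩ := hu.glue y0 x huy
      have hzb : u' z = b := by
        rw [← hy0]
        refine hp.2 _ _ ?_ ?_
        · have h := hz 0 le_rfl
          rwa [tr_zero', tr_zero'] at h
        · exact hz (-1) (by norm_num)
      have hset := fib hp T x z b hzb (fun k => hz' k (by omega))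
      have h5 : (hfin.toFinset.filter fun y => u' y = b).card = cnt T u' z := by
        rw [← Set.ncard_coe_finset]
        have h6 : ((hfin.toFinset.filter fun y => u' y = b : Finset Pt) : Set Pt) =
            Yset T u' z := by
          rw [← hset]
          ext y
          simp
        rw [h6]
        rfl
      rw [h5, hT1 z T (le_max_right _ _), hzb]
    · rw [if_neg hpb, zero_mul]
      have h5 : (hfin.toFinset.filter fun y => u' y = b) = ∅ := by
        rw [filter_eq_empty_iff]
        intro y hy hyb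
        apply hpb
        rw [Set.Finite.mem_toFinset] at hy
        have h6 := hy.2 0
        rw [Nat.cast_zero, tr_zero', tr_zero', hx] at h6
        rw [← hyb, ← hp.1, h6]
      rw [h5, card_empty, Nat.cast_zero]
  rw [hcard, hfw, Nat.cast_sum, sum_congr rfl fun b _ => hb b, ← sum_mul] at e1
  have h2 : (2 : ℚ) ^ T ≠ 0 := by positivity
  exact (mul_right_cancel₀ h2 e1).symm

end Pool.MP_5a0708_an.KRW
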