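import Pool.Agent.Lib.MP_5a0708_an.KRW.SpecD

/-! # The eigenvector equation -/

set_option autoImplicit false

namespace Pool.MP_5a0708_an.KRW

open Finset Matrix Pool.MP_5a0708_an.Nil

private def lmY (T : ℕ) {n : ℕ} (u : Pt → Fin n) (x : Pt) : Set Pt :=
  {y : Pt | (∀ i : ℤ, i < -T → y i = false) ∧ ∀ k : ℕ, u (tr k y) = u (tr k x)}

private theorem lm_tr (x : Pt) : tr 1 (tr (-1) x) = x := by
  rw [tr_tr']
  norm_num
  exact tr_zero' x

private theorem lm_tr' (x : Pt) : tr (-1) (tr 1 x) = x := by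
  rw [tr_tr']
  norm_num
  exact tr_zero' x

private theorem lm_fib {n : ℕ} {u : Pt → Fin n} (T : ℕ) (x z : Pt) (i : Fin n)
    (hz : ∀ k : ℕ, u (tr k z) = u (tr k x)) (hi : u (tr (-1) z) = i) :
    {y | y ∈ lmY (T + 1) u x ∧ u (tr (-1) y) = i} = tr 1 '' lmY T u (tr (-1) z) := by
  ext y
  constructor
  · rintro ⟨⟨h1, h2⟩, h3⟩
    refine ⟨tr (-1) y, ⟨fun l hl => ?_, fun k => ?_⟩, lm_tr y⟩
    · show y (l + -1) = false
      exact h1 _ (by push_cast; omega)
    · cases k with
      | zero => rw [Nat.cast_zero, tr_zero', tr_zero', h3, hi]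
      | succ k =>
        rw [tr_tr', tr_tr']
        have e : ((k + 1 : ℕ) : ℤ) + -1 = (k : ℤ) := by push_cast; ring
        rw [e, h2, hz]
  · rintro ⟨y', ⟨h1, h2⟩, rfl⟩
    refine ⟨⟨fun l hl => ?_, fun k => ?_⟩, ?_⟩
    · show y' (l + 1) = false
      exact h1 _ (by push_cast at hl; omega)
    · have h3 := h2 (k + 1)
      rw [tr_tr'] at h3
      have e : ((k + 1 : ℕ) : ℤ) + -1 = (k : ℤ) := by push_cast; ring
      rw [e, hz] at h3
      rw [tr_tr']
      have e' : (k : ℤ) + 1 = ((k + 1 : ℕ) : ℤ) := by push_cast; ring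
      rw [e', h3]
    · have h3 := h2 0
      rw [Nat.cast_zero, tr_zero', tr_zero', hi] at h3
      rw [lm_tr', h3]

theorem t_LamM (hLam : S_Lam) : S_LamM := by
  classical
  intro n u hu
  obtain ⟨⟨T, hT⟩, hpos, -⟩ := hLam n u hu
  funext j
  obtain ⟨x, hx⟩ := hu.surj j
  have e1 := hT x (T + 1) (Nat.le_succ T)
  rw [hx] at e1
  have hfin : (lmY (T + 1) u x).Finite := by
    refine Set.finite_of_ncard_ne_zero ?_
    intro h0
    have h1 : (cnt (T + 1) u x : ℚ) = 0 := by
      have h2 : cnt (T + 1) u x = 0 := h0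
      rw [h2, Nat.cast_zero]
    rw [h1] at e1
    have h3 : 0 < lam u j * 2 ^ (T + 1) := mul_pos (hpos j) (by positivity)
    rw [← e1] at h3
    exact lt_irrefl _ h3
  have hcard : cnt (T + 1) u x = hfin.toFinset.card := Set.ncard_eq_toFinset_card _ hfin
  have hfw : hfin.toFinset.card =
      ∑ i : Fin n, (hfin.toFinset.filter fun y => u (tr (-1) y) = i).card :=
    card_eq_sum_card_fiberwise fun y _ => mem_univ _
  have hb : ∀ i : Fin n, (((hfin.toFinset.filter fun y => u (tr (-1) y) = i).card : ℕ) : ℚ) =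
      lam u i * ((tmz u).map (Int.cast : ℤ → ℚ)) i j * 2 ^ T := by
    intro i
    have htm : ((tmz u).map (Int.cast : ℤ → ℚ)) i j = ((tmat u i j : ℕ) : ℚ) := by
      rw [Matrix.map_apply, tmz, Matrix.map_apply]
      push_cast
      rfl
    rw [htm]
    by_cases hij : ∃ y : Pt, u y = i ∧ u (tr 1 y) = j
    · have h1 : tmat u i j = 1 := by
        rw [tmat, if_pos hij]
      rw [h1, Nat.cast_one, mul_one]
      obtain ⟨y0, hy0, hy0'⟩ := hij
      obtain ⟨z, hz, hz'⟩ := hu.glue (tr 1 y0) x (by rw [hy0', hx])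
      have hzi : u (tr (-1) z) = i := by
        rw [hz (-1) (by norm_num), lm_tr', hy0]
      have hset := lm_fib T x z i (fun k => hz' k (by omega)) hzi
      have h5 : (hfin.toFinset.filter fun y => u (tr (-1) y) = i).card =
          cnt T u (tr (-1) z) := by
        rw [← Set.ncard_coe_finset]
        have h6 : ((hfin.toFinset.filter fun y => u (tr (-1) y) = i : Finset Pt) : Set Pt) =
            tr 1 '' lmY T u (tr (-1) z) := by
          rw [← hset]
          ext y
          simp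
        rw [h6, Set.ncard_image_of_injective]
        · rfl
        · exact Function.LeftInverse.injective lm_tr'
      rw [h5, hT _ T le_rfl, hzi]
    · have h1 : tmat u i j = 0 := by
        rw [tmat, if_neg hij]
      rw [h1, Nat.cast_zero, mul_zero, zero_mul]
      have h5 : (hfin.toFinset.filter fun y => u (tr (-1) y) = i) = ∅ := by
        rw [filter_eq_empty_iff]
        intro y hy hyb
        apply hij
        rw [Set.Finite.mem_toFinset] at hy
        have h6 := hy.2 0
        rw [Nat.cast_zero, tr_zero', tr_zero', hx] at h6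
        exact ⟨tr (-1) y, hyb, by rw [lm_tr, h6]⟩
      rw [h5, card_empty, Nat.cast_zero]
  rw [hcard, hfw, Nat.cast_sum, sum_congr rfl fun i _ => hb i, ← sum_mul, pow_succ,
    mul_comm ((2 : ℚ) ^ T) 2, ← mul_assoc] at e1
  have h2 : (2 : ℚ) ^ T ≠ 0 := by positivity
  have h3 := mul_right_cancel₀ h2 e1
  show ∑ i, lam u i * ((tmz u).map (Int.cast : ℤ → ℚ)) i j = 2 * lam u j
  rw [h3, mul_comm]

end Pool.MP_5a0708_an.KRW
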