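import Pool.Agent.Lib.MP_5a0708_an.KRW.SpecD

/-!
# MP_5a0708_an, package KRW : LamR
-/

set_option autoImplicit false

namespace Pool.MP_5a0708_an.KRW

open Finset Matrix Pool.MP_5a0708_an.Nil

private theorem fut {n n' : ℕ} {u : Pt → Fin n} {u' : Pt → Fin n'} {p : Fin n' → Fin n}
    (h : RSp u u' p) (x y : Pt) : (∀ k : ℕ, u (tr k y) = u (tr k x)) ↔
      ∀ k : ℕ, u' (tr k y) = u' (tr k x) := by
  constructor
  · intro h1 k
    apply h.2 _ _ (h1 k)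
    have h2 := h1 (k + 1)
    have e : ((k + 1 : ℕ) : ℤ) = 1 + (k : ℤ) := by push_cast; ring
    rw [e] at h2
    rw [tr_tr', tr_tr']
    exact h2
  · intro h1 k
    rw [h.1, h.1, h1 k]

private theorem cnt_eq {n n' : ℕ} {u : Pt → Fin n} {u' : Pt → Fin n'} {p : Fin n' → Fin n}
    (h : RSp u u' p) (T : ℕ) (x : Pt) : cnt T u x = cnt T u' x := by
  unfold cnt
  congr 1
  ext y
  constructor
  · rintro ⟨h1, h2⟩
    exact ⟨h1, (fut h x y).1 h2⟩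
  · rintro ⟨h1, h2⟩
    exact ⟨h1, (fut h x y).2 h2⟩

theorem t_LamR (hLam : S_Lam) : S_LamR := by
  intro n n' u u' p hu hu' hs b
  obtain ⟨x, rfl⟩ := hu'.surj b
  obtain ⟨T₀, h1⟩ := (hLam n u hu).1
  obtain ⟨T₁, h2⟩ := (hLam n' u' hu').1
  have h3 := h1 x (max T₀ T₁) (le_max_left _ _)
  have h4 := h2 x (max T₀ T₁) (le_max_right _ _)
  rw [cnt_eq hs, h4, hs.1 x] at h3
  have h5 : (2 : ℚ) ^ (max T₀ T₁) ≠ 0 := pow_ne_zero _ two_ne_zero
  exact mul_right_cancel₀ h5 h3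

end Pool.MP_5a0708_an.KRW
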