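import Pool.Agent.Lib.MP_5a0708_an.KRW.SpecD

/-!
# MP_5a0708_an, package KRW : the eigenvector of a cluster automorphism (`S_LamT`)
-/

set_option autoImplicit false

namespace Pool.MP_5a0708_an.KRW

open Finset Matrix Pool.MP_5a0708_an.Nil

private theorem u0_eq_zero (x : Pt) : u0 x = 0 ↔ x 0 = false := by
  unfold u0
  cases h : x 0 <;> simp

/-- the points which vanish outside `[-T, 0)` -/
private theorem ncard_window (T : ℕ) :
    Set.ncard {y : Pt | (∀ i : ℤ, i < -T → y i = false) ∧ ∀ i : ℤ, 0 ≤ i → y i = false} =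
      2 ^ T := by
  classical
  let f : (Fin T → Bool) → Pt := fun a i =>
    if h : -(T : ℤ) ≤ i ∧ i < 0 then a ⟨(i + T).toNat, by omega⟩ else false
  have hf : Function.Injective f := by
    intro a b hab
    funext t
    have h1 := congrFun hab ((t : ℕ) - (T : ℤ))
    have ht : (t : ℕ) < T := t.2
    have h2 : -(T : ℤ) ≤ ((t : ℕ) : ℤ) - (T : ℤ) ∧ ((t : ℕ) : ℤ) - (T : ℤ) < 0 := by omega
    have h3 : (⟨((((t : ℕ) : ℤ) - (T : ℤ)) + T).toNat, by omega⟩ : Fin T) = t := by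
      apply Fin.ext
      simp
    simp only [f, dif_pos h2] at h1
    rw [h3] at h1
    exact h1
  have hr : {y : Pt | (∀ i : ℤ, i < -T → y i = false) ∧ ∀ i : ℤ, 0 ≤ i → y i = false} =
      f '' Set.univ := by
    ext y
    constructor
    · rintro ⟨h1, h2⟩
      refine ⟨fun t => y (((t : ℕ) : ℤ) - T), Set.mem_univ _, ?_⟩
      funext i
      by_cases h : -(T : ℤ) ≤ i ∧ i < 0
      · simp only [f, dif_pos h]
        congr 1
        have : 0 ≤ i + (T : ℤ) := by omega
        rw [Int.toNat_of_nonneg this]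
        ring
      · simp only [f, dif_neg h]
        rcases lt_or_ge i (-(T : ℤ)) with h3 | h3
        · exact (h1 i h3).symm
        · exact (h2 i (by by_contra h4; exact h ⟨h3, by omega⟩)).symm
    · rintro ⟨a, -, rfl⟩
      constructor
      · intro i hi
        have : ¬ (-(T : ℤ) ≤ i ∧ i < 0) := by omega
        simp only [f, dif_neg this]
      · intro i hi
        have : ¬ (-(T : ℤ) ≤ i ∧ i < 0) := by omega
        simp only [f, dif_neg this]
  rw [hr, Set.ncard_image_of_injective _ hf, Set.ncard_univ]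
  simp

theorem t_LamT (hLam : S_Lam) (hU0 : S_U0) (hTw : S_Tw) : S_LamT := by
  intro L θ hL hC
  have hG : Gd 2 (u0 ∘ θ) := (hTw 2 u0 θ hU0.1 hC.mem).1
  obtain ⟨⟨T₀, hT⟩, -, -⟩ := hLam 2 (u0 ∘ θ) hG
  have hval : ∀ (y : Pt) (k : ℤ), (u0 ∘ θ) (tr k y) = 0 ↔ θ y k = false := by
    intro y k
    rw [Function.comp_apply, hC.comm, u0_eq_zero, tr_at]
  -- vanishing on `[0, ∞)` is preserved
  have hpre : ∀ y : Pt, (∀ i : ℤ, 0 ≤ i → θ y i = false) ↔ ∀ i : ℤ, 0 ≤ i → y i = false := by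
    intro y
    constructor
    · intro h i hi
      have h1 : ZOn (θ y) i (i + L) := fun j hj _ => h j (by omega)
      exact (hC.zp y i).1 h1 i le_rfl (by omega)
    · intro h i hi
      have h1 : ZOn y i (i + L) := fun j hj _ => h j (by omega)
      exact (hC.zp y i).2 h1 i le_rfl (by omega)
  have hz : ∀ k : ℤ, (u0 ∘ θ) (tr k zpt) = 0 := by
    intro k
    rw [hval]
    have h1 : ZOn zpt k (k + L) := fun j _ _ => rfl
    exact (hC.zp zpt k).2 h1 k le_rfl (by omega)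
  have hset : {y : Pt | (∀ i : ℤ, i < -(T₀ : ℤ) → y i = false) ∧
      ∀ k : ℕ, (u0 ∘ θ) (tr k y) = (u0 ∘ θ) (tr k zpt)} =
      {y : Pt | (∀ i : ℤ, i < -(T₀ : ℤ) → y i = false) ∧ ∀ i : ℤ, 0 ≤ i → y i = false} := by
    ext y
    constructor
    · rintro ⟨h1, h2⟩
      refine ⟨h1, (hpre y).1 ?_⟩
      intro i hi
      have h3 := h2 i.toNat
      rw [hz, Int.toNat_of_nonneg hi, hval] at h3
      exact h3
    · rintro ⟨h1, h2⟩
      refine ⟨h1, fun k => ?_⟩
      rw [hz, hval]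
      exact (hpre y).2 h2 k (by omega)
  have hcnt : cnt T₀ (u0 ∘ θ) zpt = 2 ^ T₀ := by
    unfold cnt
    rw [hset]
    exact ncard_window T₀
  have h1 := hT zpt T₀ le_rfl
  have h0 : (u0 ∘ θ) zpt = 0 := by
    have := hz 0
    rwa [tr_zero'] at this
  rw [hcnt, h0] at h1
  push_cast at h1
  have h2 : (0 : ℚ) < 2 ^ T₀ := by positivity
  have h3 : lam (u0 ∘ θ) 0 * 2 ^ T₀ = 1 * 2 ^ T₀ := by rw [← h1, one_mul]
  exact mul_right_cancel₀ h2.ne' h3

end Pool.MP_5a0708_an.KRW
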