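import Pool.Agent.Lib.MP_5a0708_an.KRW.SpecB

/-!
# MP_5a0708_an, package KRW : NP
-/

set_option autoImplicit false

namespace Pool.MP_5a0708_an.KRW

open Finset

private theorem dvd_ch (m i : ℕ) (hm : 0 < m) (h1 : 1 ≤ i) (h2 : i ≤ m) :
    m ∣ (TT m).choose i := by
  obtain ⟨c, hc⟩ : i ∣ m.factorial := Nat.dvd_factorial h1 h2
  have hT : 0 < TT m := Nat.mul_pos hm (Nat.factorial_pos m)
  obtain ⟨T, hT'⟩ : ∃ T, TT m = T + 1 := ⟨TT m - 1, by omega⟩
  obtain ⟨j, rfl⟩ : ∃ j, i = j + 1 := ⟨i - 1, by omega⟩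
  have h3 := Nat.add_one_mul_choose_eq T j
  rw [← hT'] at h3
  have h4 : TT m = m * ((j + 1) * c) := by
    rw [← hc]
    rfl
  refine ⟨c * T.choose j, ?_⟩
  have h5 : (TT m).choose (j + 1) * (j + 1) = m * (c * T.choose j) * (j + 1) := by
    rw [← h3]
    nth_rewrite 1 [h4]
    ring
  exact Nat.eq_of_mul_eq_mul_right (Nat.succ_pos j) h5

private theorem iter_zero {m : ℕ} (i : ℕ) (g : ℕ → ZMod m) (hg : ∀ n, g n = 0) :
    ∀ n, ((fwdDiff (1 : ℕ))^[i] g) n = 0 := by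
  have h : ((fwdDiff (1 : ℕ))^[i] g) = fun _ => 0 := by
    induction i with
    | zero => funext n; exact hg n
    | succ i ih =>
      rw [Function.iterate_succ_apply', ih]
      funext n
      simp [fwdDiff]
  intro n
  rw [h]

theorem t_NP : S_NP := by
  intro m f hm hf n
  have h1 := shift_eq_sum_fwdDiff_iter (1 : ℕ) f (TT m) n
  rw [smul_eq_mul, mul_one] at h1
  rw [h1, Finset.sum_eq_single 0]
  · rw [Nat.choose_zero_right, one_smul]
    rfl
  · intro i _ hi
    rcases Nat.lt_or_ge m i with h | h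
    · obtain ⟨j, rfl⟩ : ∃ j, i = j + (m + 1) := ⟨i - (m + 1), by omega⟩
      rw [Function.iterate_add_apply, iter_zero j _ hf n, smul_zero]
    · obtain ⟨c, hc⟩ := dvd_ch m i hm (by omega) h
      rw [hc, nsmul_eq_mul, Nat.cast_mul, ZMod.natCast_self, zero_mul, zero_mul]
  · intro h
    exact absurd (Finset.mem_range.2 (Nat.succ_pos _)) h

end Pool.MP_5a0708_an.KRW
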