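import Pool.Agent.Lib.MP_5a0708_an.KRW.SpecA

/-!
# MP_5a0708_an, package KRW : counting points instead of orbits
-/

set_option autoImplicit false

namespace Pool.MP_5a0708_an.KRW

open Finset

variable {W Λ : Type} [LinearOrder Λ] {m d : ℕ} {s ψ : Equiv.Perm W} {F : Finset W} {k : W → Λ}

/-- an invariant set is invariant under the powers -/
private theorem inv_pow (h : Iv m s F) (A : W → Prop) (hA : ∀ x ∈ F, (A (s x) ↔ A x)) {x : W}
    (hx : x ∈ F) (t : ℕ) : A ((s ^ t) x) ↔ A x := by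
  induction t with
  | zero => simp
  | succ t ih =>
    rw [pow_succ', Equiv.Perm.mul_apply, hA _ (h.mem hx t), ih]

/-- coming back -/
private theorem back (h : Iv m s F) {x : W} (hx : x ∈ F) (t : ℕ) :
    (s ^ (t * (m - 1) + t)) x = x := by
  have e : t * (m - 1) + t = 0 + t * m := by
    obtain ⟨c, rfl⟩ : ∃ c, m = c + 1 := ⟨m - 1, by have := h.pos; omega⟩
    simp only [Nat.add_sub_cancel]
    ring
  rw [e, h.mul_m hx t 0]
  simp

private theorem cnt_orb (h : Iv m s F) (hk : Ki F k) (hd : 0 < d) (A : W → Prop)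
    (hA : ∀ x ∈ F, (A (s x) ↔ A x))
    (D1 : DecidablePred fun x => (LPr s d x ∧ Mn s k x) ∧ A x)
    (D2 : DecidablePred fun x => LPr s d x ∧ A x) :
    d * (F.filter (fun x => (LPr s d x ∧ Mn s k x) ∧ A x)).card =
      (F.filter (fun x => LPr s d x ∧ A x)).card := by
  have h1 : d * (F.filter (fun x => (LPr s d x ∧ Mn s k x) ∧ A x)).card =
      ((F.filter (fun x => (LPr s d x ∧ Mn s k x) ∧ A x)) ×ˢ range d).card := by
    rw [card_product, card_range, mul_comm]
  rw [h1]
  refine Finset.card_bij (fun p _ => (s ^ p.2) p.1) ?_ ?_ ?_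
  · rintro ⟨x, t⟩ hp
    simp only [mem_product, mem_filter, mem_range] at hp
    obtain ⟨⟨hx, ⟨hl, -⟩, hAx⟩, -⟩ := hp
    simp only [mem_filter]
    exact ⟨h.mem hx t, hl.pow t, (inv_pow h A hA hx t).mpr hAx⟩
  · rintro ⟨x, t⟩ hp ⟨x', t'⟩ hp' he
    simp only [mem_product, mem_filter, mem_range] at hp hp'
    obtain ⟨⟨hx, ⟨hl, hm⟩, -⟩, ht⟩ := hp
    obtain ⟨⟨hx', ⟨-, hm'⟩, -⟩, ht'⟩ := hp'
    simp only at he
    have h2 : (s ^ (t' * (m - 1) + t)) x = x' := by
      rw [← pow_ap, he, pow_ap]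
      exact back h hx' t'
    have h3 : (s ^ (t' * (m - 1) + t)) x = x :=
      mn_unique h hk hx hm (by rw [h2]; exact hm')
    have h4 : x = x' := h3.symm.trans h2
    subst h4
    have h5 := (hl.eq_iff t t').1 he
    rw [ZMod.natCast_eq_natCast_iff', Nat.mod_eq_of_lt ht, Nat.mod_eq_of_lt ht'] at h5
    rw [h5]
  · intro y hy
    simp only [mem_filter] at hy
    obtain ⟨hyF, hl, hAy⟩ := hy
    have hx : (s ^ (sh s k y)) y ∈ F := h.mem hyF _
    have hlx : LPr s d ((s ^ (sh s k y)) y) := hl.pow _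
    refine ⟨((s ^ (sh s k y)) y, (sh s k y * (m - 1)) % d), ?_, ?_⟩
    · simp only [mem_product, mem_filter, mem_range]
      exact ⟨⟨hx, ⟨hlx, sh_spec h hyF⟩, (inv_pow h A hA hyF _).mpr hAy⟩, Nat.mod_lt _ hd⟩
    · show (s ^ ((sh s k y * (m - 1)) % d)) ((s ^ (sh s k y)) y) = y
      rw [(hlx.eq_iff ((sh s k y * (m - 1)) % d) (sh s k y * (m - 1))).2 (by
        rw [ZMod.natCast_mod]), pow_ap]
      exact back h hyF _

private theorem vol_pow (hV : Vol s ψ F) (h : Iv m s F) {x : W} (hx : x ∈ F) (t : ℕ) :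
    ψ ((s ^ t) x) = (s ^ t) (ψ x) := by
  induction t with
  | zero => simp
  | succ t ih =>
    rw [pow_succ', Equiv.Perm.mul_apply, Equiv.Perm.mul_apply, hV.com _ (h.mem hx t), ih]

private theorem vol_lpr (hV : Vol s ψ F) (h : Iv m s F) {x : W} (hx : x ∈ F)
    (hl : LPr s d x) : LPr s d (ψ x) := by
  obtain ⟨hd, hp, hn⟩ := hl
  refine ⟨hd, ?_, ?_⟩
  · rw [← vol_pow hV h hx, hp]
  · intro t h1 h2 h3
    rw [← vol_pow hV h hx] at h3
    exact hn t h1 h2 (ψ.injective h3)

theorem t_Orb : S_Orb := by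
  intro W Λ _ m d s ψ F k h hk hV hd
  refine ⟨?_, ?_⟩
  · unfold Nn
    refine cnt_orb h hk hd (fun x => ψ x ≠ x ∧ ∃ t : ℕ, ψ x = (s ^ t) x) ?_ _ _
    intro x hx
    simp only [hV.com x hx]
    refine and_congr ?_ ?_
    · rw [Ne, Ne, EmbeddingLike.apply_eq_iff_eq]
    · refine exists_congr fun t => ?_
      have e : (s ^ t) (s x) = s ((s ^ t) x) := by
        rw [← Equiv.Perm.mul_apply, ← Equiv.Perm.mul_apply, ← pow_succ, pow_succ']
      rw [e, EmbeddingLike.apply_eq_iff_eq]
  · have hinv : ∀ x ∈ F, (mkey s k (s x) < mkey s k (ψ (s x)) ↔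
        mkey s k x < mkey s k (ψ x)) := by
      intro x hx
      have e1 : mkey s k (s x) = mkey s k x := by
        simpa using mkey_pow (k := k) h hx 1
      have e2 : mkey s k (ψ (s x)) = mkey s k (ψ x) := by
        rw [hV.com x hx]
        simpa using mkey_pow (k := k) h (hV.st x hx) 1
      rw [e1, e2]
    classical
    have h1 : d * Tn d s ψ F k =
        (F.filter (fun x => LPr s d x ∧ mkey s k x < mkey s k (ψ x))).card := by
      unfold Tn
      exact cnt_orb h hk hd (fun x => mkey s k x < mkey s k (ψ x)) hinv _ _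
    have h2 : (F.filter (fun x => LPr s d x ∧ mkey s k x < mkey s k (ψ x))).card =
        (F.filter (fun x => LPr s d x ∧ mkey s k (ψ x) < mkey s k x)).card := by
      refine Finset.card_bij (fun x _ => ψ x) ?_ ?_ ?_
      · intro x hx
        simp only [mem_filter] at hx ⊢
        refine ⟨hV.st x hx.1, vol_lpr hV h hx.1 hx.2.1, ?_⟩
        rw [hV.inv x hx.1]
        exact hx.2.2
      · intro x _ y _ hxy
        exact ψ.injective hxy
      · intro y hy
        simp only [mem_filter] at hy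
        refine ⟨ψ y, ?_, hV.inv y hy.1⟩
        simp only [mem_filter]
        refine ⟨hV.st y hy.1, vol_lpr hV h hy.1 hy.2.1, ?_⟩
        rw [hV.inv y hy.1]
        exact hy.2.2
    have h3 : Disjoint (F.filter (fun x => LPr s d x ∧ mkey s k x < mkey s k (ψ x)))
        (F.filter (fun x => LPr s d x ∧ mkey s k (ψ x) < mkey s k x)) := by
      rw [Finset.disjoint_left]
      intro x hx hx'
      simp only [mem_filter] at hx hx'
      exact lt_asymm hx.2.2 hx'.2.2
    have h4 : (F.filter (fun x => LPr s d x ∧ ∀ t : ℕ, ψ x ≠ (s ^ t) x)) =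
        (F.filter (fun x => LPr s d x ∧ mkey s k x < mkey s k (ψ x))) ∪
        (F.filter (fun x => LPr s d x ∧ mkey s k (ψ x) < mkey s k x)) := by
      ext x
      simp only [mem_union, mem_filter]
      constructor
      · rintro ⟨hx, hl, hne⟩
        rcases lt_trichotomy (mkey s k x) (mkey s k (ψ x)) with h5 | h5 | h5
        · exact Or.inl ⟨hx, hl, h5⟩
        · obtain ⟨t, ht⟩ := orb_of_mkey h hk hx (hV.st x hx) h5
          exact absurd ht (hne t)
        · exact Or.inr ⟨hx, hl, h5⟩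
      · have key : ∀ t : ℕ, x ∈ F → ψ x = (s ^ t) x → mkey s k (ψ x) = mkey s k x := by
          intro t hx ht
          rw [ht]
          exact mkey_pow h hx t
        rintro (⟨hx, hl, h5⟩ | ⟨hx, hl, h5⟩)
        · exact ⟨hx, hl, fun t ht => by rw [key t hx ht] at h5; exact lt_irrefl _ h5⟩
        · exact ⟨hx, hl, fun t ht => by rw [key t hx ht] at h5; exact lt_irrefl _ h5⟩
    have h5 : 2 * (d * Tn d s ψ F k) =
        (F.filter (fun x => LPr s d x ∧ ∀ t : ℕ, ψ x ≠ (s ^ t) x)).card := by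
      rw [h4, card_union_of_disjoint h3, ← h2, h1, two_mul]
    rw [h5]

end Pool.MP_5a0708_an.KRW
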