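import Pool.Agent.Lib.MP_5a0708_an.KRW.SpecB

/-!
# MP_5a0708_an, package KRW : the cocycle is a polynomial function of each entry
-/

set_option autoImplicit false

namespace Pool.MP_5a0708_an.KRW

open Finset

/-- the alternating sum over the subsets of `X` which contain `T` vanishes if `X` is not contained
in `T` -/
private theorem pf_alt {N : ℕ} {X T : Finset ℕ} (hX : X.card ≤ N) (h : ¬ X ⊆ T) :
    ∑ D ∈ X.powerset.filter (fun D => T ⊆ D), (-1 : ℤ) ^ (N - D.card) = 0 := by
  classical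
  obtain ⟨a, haX, haT⟩ := Finset.not_subset.1 h
  have hsgn : ∀ c : ℕ, c + 1 ≤ N → (-1 : ℤ) ^ (N - c) + (-1 : ℤ) ^ (N - (c + 1)) = 0 := by
    intro c hc
    have e : N - c = (N - (c + 1)) + 1 := by omega
    rw [e, pow_succ]
    ring
  refine Finset.sum_involution (fun D _ => if a ∈ D then D.erase a else insert a D) ?_ ?_ ?_ ?_
  · intro D hD
    rw [mem_filter, mem_powerset] at hD
    by_cases ha : a ∈ D
    · rw [if_pos ha]
      have h1 : (D.erase a).card + 1 = D.card := Finset.card_erase_add_one ha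
      have h2 : D.card ≤ N := (card_le_card hD.1).trans hX
      rw [add_comm, ← h1]
      exact hsgn _ (by omega)
    · rw [if_neg ha]
      have h1 : (insert a D).card = D.card + 1 := Finset.card_insert_of_notMem ha
      have h2 : (insert a D).card ≤ N :=
        (card_le_card (Finset.insert_subset haX hD.1)).trans hX
      rw [h1]
      exact hsgn _ (by omega)
  · intro D _ _ heq
    by_cases ha : a ∈ D
    · rw [if_pos ha] at heq
      rw [← heq] at ha
      exact (Finset.notMem_erase a D) ha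
    · rw [if_neg ha] at heq
      exact ha (heq ▸ Finset.mem_insert_self a D)
  · intro D hD
    rw [mem_filter, mem_powerset] at hD ⊢
    by_cases ha : a ∈ D
    · rw [if_pos ha]
      refine ⟨(Finset.erase_subset _ _).trans hD.1, fun t ht => ?_⟩
      refine Finset.mem_erase.2 ⟨?_, hD.2 ht⟩
      rintro rfl
      exact haT ht
    · rw [if_neg ha]
      exact ⟨Finset.insert_subset haX hD.1, hD.2.trans (Finset.subset_insert _ _)⟩
  · intro D _
    by_cases ha : a ∈ D
    · have h1 : a ∉ D.erase a := Finset.notMem_erase a D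
      simp only [ha, if_true, h1, if_false]
      exact Finset.insert_erase ha
    · have h1 : a ∈ insert a D := Finset.mem_insert_self a D
      simp only [ha, if_false, h1, if_true]
      exact Finset.erase_insert ha

/-- exchange of the sums -/
private theorem pf_sum {A W : Type} [AddCommGroup A] {N : ℕ} {X : Finset ℕ} (hX : X.card ≤ N)
    (Ω : Finset W) (w : W → A) (T : W → Finset ℕ) (h : ∀ x ∈ Ω, ¬ X ⊆ T x) :
    ∑ D ∈ X.powerset, (-1 : ℤ) ^ (N - D.card) • (∑ x ∈ Ω.filter (fun x => T x ⊆ D), w x) = 0 := by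
  classical
  have h1 : ∀ D : Finset ℕ, (-1 : ℤ) ^ (N - D.card) • (∑ x ∈ Ω.filter (fun x => T x ⊆ D), w x) =
      ∑ x ∈ Ω, (if T x ⊆ D then (-1 : ℤ) ^ (N - D.card) else 0) • w x := by
    intro D
    rw [Finset.sum_filter, Finset.smul_sum]
    refine Finset.sum_congr rfl fun x _ => ?_
    split_ifs
    · rfl
    · rw [smul_zero, zero_smul]
  rw [Finset.sum_congr rfl fun D _ => h1 D, Finset.sum_comm]
  refine Finset.sum_eq_zero fun x hx => ?_
  rw [← Finset.sum_smul, ← Finset.sum_filter, pf_alt hX (h x hx), zero_smul]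

section sp

variable {I J α β : Type}

/-- the labels in `X` which occur in `x` at `(i₀, j₀)` -/
private noncomputable def sp (X : Finset ℕ) (i₀ : I) (j₀ : J) (x : ℤ → I × J × ℕ × β) :
    Finset ℕ :=
  open Classical in X.filter (fun a => ∃ k : ℤ, (x k).1 = i₀ ∧ (x k).2.1 = j₀ ∧ (x k).2.2.1 = a)

private theorem sp_card (X : Finset ℕ) (i₀ : I) (j₀ : J) (x : ℤ → I × J × ℕ × β) (d : ℕ)
    (hd : LPr (shf _) d x) : (sp X i₀ j₀ x).card ≤ d := by
  classical
  have hx : ∀ k : ℤ, x (k + d) = x k := by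
    intro k
    have h1 := hd.2.1
    rw [shf_pow] at h1
    exact congrFun h1 k
  have hd0 : (0 : ℤ) < d := by exact_mod_cast hd.1
  have hsub : sp X i₀ j₀ x ⊆ (range d).image (fun t : ℕ => (x ((t : ℕ) : ℤ)).2.2.1) := by
    intro a ha
    unfold sp at ha
    rw [mem_filter] at ha
    obtain ⟨_, k, _, _, h3⟩ := ha
    have h0 := Int.emod_nonneg k (ne_of_gt hd0)
    have h1 := Int.emod_lt_of_pos k hd0
    refine mem_image.2 ⟨(k % d).toNat, mem_range.2 (by omega), ?_⟩
    rw [Int.toNat_of_nonneg h0, per_mod hx k]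
    exact h3
  calc (sp X i₀ j₀ x).card ≤ ((range d).image (fun t : ℕ => (x ((t : ℕ) : ℤ)).2.2.1)).card :=
        card_le_card hsub
    _ ≤ (range d).card := card_image_le
    _ = d := card_range d

end sp

theorem t_PF (hLab : S_Lab) : S_PF := by
  intro m p q R S i₀ j₀ hm n
  classical
  set r : ℕ := R i₀ j₀ + n with hr
  set X : Finset ℕ := Finset.Ico r (r + (m + 1)) with hX
  have hXc : X.card = m + 1 := by
    rw [hX, Nat.card_Ico]
    omega
  let U : Finset ℕ → Fin p → Fin q → Finset ℕ := fun D i j =>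
    if i = i₀ ∧ j = j₀ then range r ∪ D else range (R i j)
  let V : Fin q → Fin p → Finset ℕ := fun j i => range (S j i)
  have hdis : ∀ D ∈ X.powerset, Disjoint (range r) D := by
    intro D hD
    rw [mem_powerset] at hD
    rw [disjoint_left]
    intro a ha ha'
    have h1 := hD ha'
    rw [hX, mem_Ico] at h1
    rw [mem_range] at ha
    omega
  have hlab : ∀ D ∈ X.powerset, sgc m (upd R i₀ j₀ (n + D.card)) S = DD m (U D) V := by
    intro D hD
    refine hLab (Fin p) (Fin q) ℕ ℕ ℕ ℕ m _ _ (U D) V hm (fun i j => ?_) fun j i => rfl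
    rw [card_range]
    by_cases h : i = i₀ ∧ j = j₀
    · have h1 : U D i j = range r ∪ D := if_pos h
      rw [h1, card_union_of_disjoint (hdis D hD), card_range]
      unfold upd
      rw [if_pos h, hr, h.1, h.2]
      ring
    · have h1 : U D i j = range (R i j) := if_neg h
      rw [h1, card_range]
      unfold upd
      rw [if_neg h, add_zero]
  set W : Finset (ℤ → Fin p × Fin q × ℕ × ℕ) := AP m (U X) V with hW
  let T : (ℤ → Fin p × Fin q × ℕ × ℕ) → Finset ℕ := sp X i₀ j₀
  have hAP : ∀ D ∈ X.powerset, AP m (U D) V = W.filter (fun x => T x ⊆ D) := by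
    intro D hD
    have hDX := mem_powerset.1 hD
    ext x
    rw [mem_filter, hW, mem_AP hm, mem_AP hm]
    constructor
    · intro h
      refine ⟨fun k => ⟨(h k).1, ?_, (h k).2.2⟩, fun a ha => ?_⟩
      · have h1 := (h k).2.1
        by_cases hc : (x k).1 = i₀ ∧ (x k).2.1 = j₀
        · have h2 : U D (x k).1 (x k).2.1 = range r ∪ D := if_pos hc
          have h3 : U X (x k).1 (x k).2.1 = range r ∪ X := if_pos hc
          rw [h2] at h1
          rw [h3]
          exact union_subset_union_right hDX h1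
        · have h2 : U D (x k).1 (x k).2.1 = range (R (x k).1 (x k).2.1) := if_neg hc
          have h3 : U X (x k).1 (x k).2.1 = range (R (x k).1 (x k).2.1) := if_neg hc
          rw [h2] at h1
          rw [h3]
          exact h1
      · have ha' : a ∈ X.filter (fun a => ∃ k : ℤ, (x k).1 = i₀ ∧ (x k).2.1 = j₀ ∧
          (x k).2.2.1 = a) := ha
        rw [mem_filter] at ha'
        obtain ⟨haX, k, h1, h2, h3⟩ := ha'
        have h4 := (h k).2.1
        have h5 : U D (x k).1 (x k).2.1 = range r ∪ D := if_pos ⟨h1, h2⟩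
        rw [h5, h3, mem_union] at h4
        rcases h4 with h4 | h4
        · rw [hX, mem_Ico] at haX
          rw [mem_range] at h4
          omega
        · exact h4
    · rintro ⟨h, hT⟩ k
      refine ⟨(h k).1, ?_, (h k).2.2⟩
      have h1 := (h k).2.1
      by_cases hc : (x k).1 = i₀ ∧ (x k).2.1 = j₀
      · have h2 : U D (x k).1 (x k).2.1 = range r ∪ D := if_pos hc
        have h3 : U X (x k).1 (x k).2.1 = range r ∪ X := if_pos hc
        rw [h3, mem_union] at h1
        rw [h2, mem_union]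
        rcases h1 with h1 | h1
        · exact Or.inl h1
        · refine Or.inr (hT ?_)
          show (x k).2.2.1 ∈ X.filter (fun a => ∃ k : ℤ, (x k).1 = i₀ ∧ (x k).2.1 = j₀ ∧
            (x k).2.2.1 = a)
          exact mem_filter.2 ⟨h1, k, hc.1, hc.2, rfl⟩
      · have h2 : U D (x k).1 (x k).2.1 = range (R (x k).1 (x k).2.1) := if_neg hc
        have h3 : U X (x k).1 (x k).2.1 = range (R (x k).1 (x k).2.1) := if_neg hc
        rw [h3] at h1
        rw [h2]
        exact h1
  -- the two parts of the cocycle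
  let s : Equiv.Perm (ℤ → Fin p × Fin q × ℕ × ℕ) := shf _
  let Q1 : (ℤ → Fin p × Fin q × ℕ × ℕ) → Prop := fun x => LPr s m x ∧ Mn s (pk m kA) x
  let Q2 : ℕ → (ℤ → Fin p × Fin q × ℕ × ℕ) × (ℤ → Fin p × Fin q × ℕ × ℕ) → Prop := fun d z =>
    (LPr s d z.1 ∧ LPr s d z.2) ∧ (Mn s (pk m kA) z.1 ∧ Mn s (pk m kA) z.2) ∧
      pk m kA z.1 < pk m kA z.2 ∧ mkey s (pk m kB) z.2 < mkey s (pk m kB) z.1
  have hgp : ∀ D ∈ X.powerset, gp m s (AP m (U D) V) (pk m kA) (pk m kB) =
      ∑ x ∈ (W.filter Q1).filter (fun x => T x ⊆ D), (sh s (pk m kB) x : ZMod m) := by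
    intro D hD
    unfold gp
    refine sum_congr ?_ fun _ _ => rfl
    ext x
    rw [hAP D hD]
    simp only [mem_filter]
    tauto
  have hiv : ∀ d, ∀ D ∈ X.powerset,
      ((iv d s (AP m (U D) V) (pk m kA) (pk m kB) : ℕ) : ZMod m) =
      ∑ z ∈ ((W ×ˢ W).filter (Q2 d)).filter (fun z => T z.1 ∪ T z.2 ⊆ D), (1 : ZMod m) := by
    intro d D hD
    unfold iv
    rw [Finset.card_eq_sum_ones, Nat.cast_sum]
    refine sum_congr ?_ fun _ _ => Nat.cast_one
    ext z
    rw [hAP D hD]
    simp only [mem_filter, mem_product, union_subset_iff]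
    tauto
  -- conclusion
  rw [fwdDiff_iter_eq_sum_shift]
  have hterm : ∀ k ∈ range (m + 1 + 1), ((-1 : ℤ) ^ (m + 1 - k) * (m + 1).choose k) •
      sgc m (upd R i₀ j₀ (n + k • 1)) S =
      X.card.choose k • ((-1 : ℤ) ^ (m + 1 - k) • sgc m (upd R i₀ j₀ (n + k)) S) := by
    intro k _
    rw [smul_eq_mul, mul_one, hXc, mul_comm, mul_smul, natCast_zsmul]
  have hDl : ∀ D ∈ X.powerset, sgc m (upd R i₀ j₀ (n + D.card)) S =
      (∑ x ∈ (W.filter Q1).filter (fun x => T x ⊆ D), (sh s (pk m kB) x : ZMod m)) +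
      ((m / 2 : ℕ) : ZMod m) * ∑ d ∈ ds m,
        ∑ z ∈ ((W ×ˢ W).filter (Q2 d)).filter (fun z => T z.1 ∪ T z.2 ⊆ D), (1 : ZMod m) := by
    intro D hD
    rw [hlab D hD]
    show gp m s (AP m (U D) V) (pk m kA) (pk m kB) + ((m / 2 : ℕ) : ZMod m) *
      ((∑ d ∈ ds m, iv d s (AP m (U D) V) (pk m kA) (pk m kB) : ℕ) : ZMod m) = _
    rw [hgp D hD, Nat.cast_sum, sum_congr rfl fun d _ => hiv d D hD]
  rw [sum_congr rfl hterm, ← hXc, ← Finset.sum_powerset_apply_card
    (fun k => (-1 : ℤ) ^ (X.card - k) • sgc m (upd R i₀ j₀ (n + k)) S) (x := X)]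
  rw [sum_congr rfl fun D hD => by rw [hDl D hD, smul_add, ← mul_smul_comm],
    sum_add_distrib, ← mul_sum]
  have h1 : ∀ x ∈ W.filter Q1, ¬ X ⊆ T x := by
    intro x hx hc
    rw [mem_filter] at hx
    have h2 := sp_card X i₀ j₀ x m hx.2.1
    have h3 := card_le_card hc
    rw [hXc] at h3
    exact absurd (h3.trans h2) (by omega)
  have h2 : ∀ d ∈ ds m, ∀ z ∈ (W ×ˢ W).filter (Q2 d), ¬ X ⊆ T z.1 ∪ T z.2 := by
    intro d hd z hz hc
    unfold ds at hd
    rw [mem_filter] at hz hd
    obtain ⟨_, i, hi, hdi⟩ := hd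
    have h3 := sp_card X i₀ j₀ z.1 d hz.2.1.1
    have h4 := sp_card X i₀ j₀ z.2 d hz.2.1.2
    have h5 := card_le_card hc
    rw [hXc] at h5
    have h6 := card_union_le (T z.1) (T z.2)
    have h7 : 2 * d ≤ m := by
      have h8 : 2 ^ 1 ≤ 2 ^ i := Nat.pow_le_pow_right (by norm_num) hi
      calc 2 * d = d * 2 ^ 1 := by ring
        _ ≤ d * 2 ^ i := Nat.mul_le_mul_left _ h8
        _ = m := hdi
    have h9 : (T z.1).card ≤ d := h3
    have h10 : (T z.2).card ≤ d := h4
    omega
  rw [pf_sum le_rfl _ _ _ h1, sum_congr rfl fun D _ => Finset.smul_sum, sum_comm,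
    sum_eq_zero fun d hd => pf_sum le_rfl _ _ _ (h2 d hd), mul_zero, add_zero]

end Pool.MP_5a0708_an.KRW
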