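import Pool.Agent.Lib.MP_5a0708_an.KRW.SpecB

/-!
# MP_5a0708_an, package KRW : the cocycle depends on the entries modulo TT m
-/

set_option autoImplicit false

namespace Pool.MP_5a0708_an.KRW

open Finset

private theorem updx_zero {p q : ℕ} (R : Matrix (Fin p) (Fin q) ℕ) (i₀ : Fin p) (j₀ : Fin q) :
    upd R i₀ j₀ 0 = R := by
  funext i j
  simp [upd]

private theorem perx_mul (hNP : S_NP) (hPF : S_PF) (m p q : ℕ) (R : Matrix (Fin p) (Fin q) ℕ)
    (S : Matrix (Fin q) (Fin p) ℕ) (i₀ : Fin p) (j₀ : Fin q) (hm : 0 < m) (c : ℕ) :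
    sgc m (upd R i₀ j₀ (c * TT m)) S = sgc m R S := by
  induction c with
  | zero => rw [Nat.zero_mul, updx_zero]
  | succ c ih =>
    rw [Nat.succ_mul]
    have h := hNP m (fun n : ℕ => sgc m (upd R i₀ j₀ n) S) hm (hPF m p q R S i₀ j₀ hm) (c * TT m)
    exact h.trans ih

/-- the matrix changed at the entries in `s` -/
private noncomputable def chg {p q : ℕ} (m : ℕ) (R C : Matrix (Fin p) (Fin q) ℕ)
    (s : Finset (Fin p × Fin q)) : Matrix (Fin p) (Fin q) ℕ :=
  fun i j => R i j + (open Classical in if (i, j) ∈ s then C i j * TT m else 0)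

private theorem perx_chg (hNP : S_NP) (hPF : S_PF) (m p q : ℕ) (R C : Matrix (Fin p) (Fin q) ℕ)
    (S : Matrix (Fin q) (Fin p) ℕ) (hm : 0 < m) (s : Finset (Fin p × Fin q)) :
    sgc m (chg m R C s) S = sgc m R S := by
  classical
  induction s using Finset.induction_on with
  | empty =>
    have h : chg m R C ∅ = R := by
      funext i j
      simp [chg]
    rw [h]
  | insert a s ha ih =>
    have h : chg m R C (insert a s) = upd (chg m R C s) a.1 a.2 (C a.1 a.2 * TT m) := by
      funext i j
      unfold upd chg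
      by_cases h1 : i = a.1 ∧ j = a.2
      · obtain ⟨rfl, rfl⟩ := h1
        have h2 : (a.1, a.2) ∉ s := ha
        have h3 : (a.1, a.2) ∈ insert a s := Finset.mem_insert_self a s
        rw [if_pos h3, if_neg h2, if_pos ⟨rfl, rfl⟩]
        omega
      · have h2 : (i, j) ≠ a := by
          intro h
          exact h1 ⟨congrArg Prod.fst h, congrArg Prod.snd h⟩
        rw [if_neg h1]
        by_cases h3 : (i, j) ∈ s
        · rw [if_pos h3, if_pos (Finset.mem_insert_of_mem h3)]
          omega
        · have h4 : (i, j) ∉ insert a s := by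
            intro h
            rcases Finset.mem_insert.1 h with h | h
            · exact h2 h
            · exact h3 h
          rw [if_neg h3, if_neg h4]
    rw [h, perx_mul hNP hPF m p q _ S a.1 a.2 hm, ih]

private theorem perx_left (hNP : S_NP) (hPF : S_PF) (m p q : ℕ) (R R' : Matrix (Fin p) (Fin q) ℕ)
    (S : Matrix (Fin q) (Fin p) ℕ) (hm : 0 < m) (h : ∀ i j, R i j % TT m = R' i j % TT m) :
    sgc m R S = sgc m R' S := by
  have key : ∀ Q : Matrix (Fin p) (Fin q) ℕ, sgc m Q S = sgc m (fun i j => Q i j % TT m) S := by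
    intro Q
    have h1 : Q = chg m (fun i j => Q i j % TT m) (fun i j => Q i j / TT m) univ := by
      funext i j
      unfold chg
      rw [if_pos (Finset.mem_univ _)]
      have := Nat.mod_add_div (Q i j) (TT m)
      rw [Nat.mul_comm (Q i j / TT m)]
      exact this.symm
    exact (congrArg (fun Z => sgc m Z S) h1).trans
      (perx_chg hNP hPF m p q (fun i j => Q i j % TT m) (fun i j => Q i j / TT m) S hm univ)
  rw [key R, key R']
  have h2 : (fun i j => R i j % TT m) = fun i j => R' i j % TT m := by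
    funext i j
    exact h i j
  rw [h2]

theorem t_Per (hNP : S_NP) (hPF : S_PF) (hTN : S_TN) : S_Per := by
  intro m p q R R' S S' hm hR hS
  have hmul : ∀ i j, (R' * S) i j % TT m = (R' * S') i j % TT m := by
    intro i j
    rw [Matrix.mul_apply, Matrix.mul_apply, Finset.sum_nat_mod, Finset.sum_nat_mod univ _
      (fun k => R' i k * S' k j)]
    congr 1
    refine Finset.sum_congr rfl ?_
    intro k _
    rw [Nat.mul_mod, hS k j, ← Nat.mul_mod]
  have h1 := hTN m p q p R' S 1 hm
  have h2 := hTN m p q p R' S' 1 hm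
  rw [Matrix.mul_one, Matrix.one_mul] at h1 h2
  have h3 : sgc m S R' = sgc m S' R' := perx_left hNP hPF m q p S S' R' hm hS
  have h4 : sgc m (R' * S) 1 = sgc m (R' * S') 1 := perx_left hNP hPF m p p _ _ 1 hm hmul
  rw [perx_left hNP hPF m p q R R' S hm hR]
  rw [h4, ← h2, h3] at h1
  exact add_right_cancel h1

end Pool.MP_5a0708_an.KRW
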