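import Pool.Agent.Lib.MP_5a0708_an.KRW.SpecD

/-!
# MP_5a0708_an, package KRW : a right splitting and its comparison
-/

set_option autoImplicit false

namespace Pool.MP_5a0708_an.KRW

open Finset Matrix Pool.MP_5a0708_an.Nil

/-- comparison of vertex keys and edge keys -/
private theorem ordE {α γ : Type} [LinearOrder α] [LinearOrder γ] {m : ℕ} (i i' : ℤ → α)
    (c c' : ℤ → γ) (hm : 0 < m) (hi : i m = i 0) (hi' : i' m = i' 0)
    (hdet : ∀ t : ℤ, i t = i' t → i (t + 1) = i' (t + 1) → c t = c' t) :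
    (toLex (fun t : Fin m => i ((t : ℕ) : ℤ)) : Lex (Fin m → α)) <
        toLex (fun t : Fin m => i' ((t : ℕ) : ℤ)) ↔
      (toLex (fun t : Fin m => (toLex (i ((t : ℕ) : ℤ),
        (toLex (i (((t : ℕ) : ℤ) + 1), c ((t : ℕ) : ℤ)) : α ×ₗ γ)) : α ×ₗ α ×ₗ γ)) :
          Lex (Fin m → α ×ₗ α ×ₗ γ)) <
        toLex (fun t : Fin m => toLex (i' ((t : ℕ) : ℤ),
          toLex (i' (((t : ℕ) : ℤ) + 1), c' ((t : ℕ) : ℤ)))) := by
  constructor
  · rintro ⟨t, h1, h2⟩
    change ∀ s : Fin m, s < t → i ((s : ℕ) : ℤ) = i' ((s : ℕ) : ℤ) at h1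
    change i ((t : ℕ) : ℤ) < i' ((t : ℕ) : ℤ) at h2
    rcases Nat.eq_zero_or_pos (t : ℕ) with h0 | h0
    · refine ⟨t, ?_, ?_⟩
      · intro s hs
        exfalso
        have : (s : ℕ) < t := hs
        omega
      · exact Prod.Lex.toLex_lt_toLex.2 (Or.inl h2)
    · have ht := t.2
      have e : ((((t : ℕ) - 1 : ℕ) : ℤ)) + 1 = ((t : ℕ) : ℤ) := by omega
      refine ⟨⟨(t : ℕ) - 1, by omega⟩, ?_, ?_⟩
      · intro s hs
        have hs' : (s : ℕ) < (t : ℕ) - 1 := hs
        have h3 : i ((s : ℕ) : ℤ) = i' ((s : ℕ) : ℤ) := h1 s (by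
          rw [Fin.lt_def]; omega)
        have h4 : i (((s : ℕ) : ℤ) + 1) = i' (((s : ℕ) : ℤ) + 1) := by
          have := h1 ⟨(s : ℕ) + 1, by omega⟩ (by rw [Fin.lt_def]; change (s : ℕ) + 1 < t; omega)
          simpa using this
        change toLex (i ((s : ℕ) : ℤ), toLex (i (((s : ℕ) : ℤ) + 1), c ((s : ℕ) : ℤ))) =
          toLex (i' ((s : ℕ) : ℤ), toLex (i' (((s : ℕ) : ℤ) + 1), c' ((s : ℕ) : ℤ)))
        rw [h3, h4, hdet _ h3 h4]
      · refine Prod.Lex.toLex_lt_toLex.2 (Or.inr ⟨?_, Prod.Lex.toLex_lt_toLex.2 (Or.inl ?_)⟩)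
        · exact h1 ⟨(t : ℕ) - 1, by omega⟩ (by rw [Fin.lt_def]; change (t : ℕ) - 1 < t; omega)
        · change i ((((t : ℕ) - 1 : ℕ) : ℤ) + 1) < i' ((((t : ℕ) - 1 : ℕ) : ℤ) + 1)
          rw [e]
          exact h2
  · rintro ⟨t, h1, h2⟩
    have h1' : ∀ s : Fin m, s < t → i ((s : ℕ) : ℤ) = i' ((s : ℕ) : ℤ) := by
      intro s hs
      have h3 := h1 s hs
      exact congrArg (fun z : α ×ₗ α ×ₗ γ => (ofLex z).1) h3
    have ht := t.2
    rcases Prod.Lex.toLex_lt_toLex.1 h2 with h3 | ⟨h3, h4⟩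
    · exact ⟨t, h1', h3⟩
    · change i ((t : ℕ) : ℤ) = i' ((t : ℕ) : ℤ) at h3
      rcases Prod.Lex.toLex_lt_toLex.1 h4 with h5 | ⟨h5, h6⟩
      · change i (((t : ℕ) : ℤ) + 1) < i' (((t : ℕ) : ℤ) + 1) at h5
        rcases Nat.lt_or_ge ((t : ℕ) + 1) m with h7 | h7
        · refine ⟨⟨(t : ℕ) + 1, h7⟩, ?_, ?_⟩
          · intro s hs
            have hs' : (s : ℕ) < (t : ℕ) + 1 := hs
            rcases Nat.lt_or_ge (s : ℕ) (t : ℕ) with h8 | h8
            · exact h1' s h8
            · have : s = t := Fin.ext (by omega)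
              rw [this]
              exact h3
          · change i (((t : ℕ) + 1 : ℕ) : ℤ) < i' (((t : ℕ) + 1 : ℕ) : ℤ)
            push_cast
            exact h5
        · exfalso
          have e : ((t : ℕ) : ℤ) + 1 = m := by omega
          rw [e, hi, hi'] at h5
          have h8 : i 0 = i' 0 := by
            rcases Nat.eq_zero_or_pos (t : ℕ) with h0 | h0
            · rw [h0] at h3
              exact h3
            · exact h1' ⟨0, hm⟩ (by rw [Fin.lt_def]; exact h0)
          rw [h8] at h5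
          exact lt_irrefl _ h5
      · exfalso
        change i (((t : ℕ) : ℤ) + 1) = i' (((t : ℕ) : ℤ) + 1) at h5
        change c ((t : ℕ) : ℤ) < c' ((t : ℕ) : ℤ) at h6
        rw [hdet _ h3 h5] at h6
        exact lt_irrefl _ h6

theorem t_REd (hTr : S_Tr) (hReal : S_Real) : S_REd := by
  classical
  intro m n n' u u' p hm hu hu' hR
  obtain ⟨hp, hd⟩ := hR
  obtain ⟨R, hRd⟩ : ∃ R : Matrix (Fin n) (Fin n') ℕ, ∀ i j, R i j = if p j = i then 1 else 0 :=
    ⟨fun i j => if p j = i then 1 else 0, fun i j => rfl⟩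
  obtain ⟨S, hSd⟩ : ∃ S : Matrix (Fin n') (Fin n) ℕ, ∀ j i, S j i =
      if ∃ x : Pt, u' x = j ∧ u (tr 1 x) = i then 1 else 0 :=
    ⟨fun j i => if ∃ x : Pt, u' x = j ∧ u (tr 1 x) = i then 1 else 0, fun j i => rfl⟩
  have h1 : R * S = tmat u := by
    ext i i'
    rw [Matrix.mul_apply]
    by_cases h : ∃ x : Pt, u x = i ∧ u (tr 1 x) = i'
    · have ht : tmat u i i' = 1 := if_pos h
      obtain ⟨x₀, hx₀, hx₀'⟩ := h
      rw [ht, Finset.sum_eq_single (u' x₀)]
      · rw [hRd, hSd, if_pos (by rw [← hp, hx₀]), if_pos ⟨x₀, rfl, hx₀'⟩]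
      · intro j _ hj
        rw [hRd, hSd]
        by_cases h2 : p j = i
        · rw [if_pos h2, if_neg, mul_zero]
          rintro ⟨x, hx, hx'⟩
          apply hj
          rw [← hx]
          apply hd
          · rw [hp, hx, h2, hx₀]
          · rw [hx', hx₀']
        · rw [if_neg h2, zero_mul]
      · intro h2
        exact absurd (Finset.mem_univ _) h2
    · have ht : tmat u i i' = 0 := if_neg h
      rw [ht]
      apply Finset.sum_eq_zero
      intro j _
      rw [hRd, hSd]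
      by_cases h2 : p j = i
      · rw [if_pos h2, if_neg, mul_zero]
        rintro ⟨x, hx, hx'⟩
        exact h ⟨x, by rw [hp, hx, h2], hx'⟩
      · rw [if_neg h2, zero_mul]
  have h2 : S * R = tmat u' := by
    ext j j'
    rw [Matrix.mul_apply, Finset.sum_eq_single (p j')]
    · rw [hRd, if_pos rfl, mul_one, hSd]
      have key : (∃ x : Pt, u' x = j ∧ u (tr 1 x) = p j') ↔
          ∃ x : Pt, u' x = j ∧ u' (tr 1 x) = j' := by
        constructor
        · rintro ⟨x, hx, hx'⟩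
          obtain ⟨y, hy⟩ := hu'.surj j'
          have h3 : u (tr 1 x) = u y := by rw [hx', hp y, hy]
          obtain ⟨z, hz1, hz2⟩ := hu.glue (tr 1 x) y h3
          refine ⟨tr (-1) z, ?_, ?_⟩
          · rw [← hx]
            apply hd
            · have := hz1 (-1) (by norm_num)
              rw [tr_tr', show (-1 : ℤ) + 1 = 0 by norm_num, tr_zero'] at this
              exact this
            · have := hz1 0 le_rfl
              rw [tr_zero', tr_zero'] at this
              rw [tr_tr', show (1 : ℤ) + -1 = 0 by norm_num, tr_zero']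
              exact this
          · rw [tr_tr', show (1 : ℤ) + -1 = 0 by norm_num, tr_zero', ← hy]
            apply hd
            · have := hz2 0 le_rfl
              rw [tr_zero', tr_zero'] at this
              exact this
            · exact hz2 1 (by norm_num)
        · rintro ⟨x, hx, hx'⟩
          exact ⟨x, hx, by rw [hp, hx']⟩
      by_cases h3 : ∃ x : Pt, u' x = j ∧ u (tr 1 x) = p j'
      · rw [if_pos h3]
        exact (if_pos (key.1 h3)).symm
      · rw [if_neg h3]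
        exact (if_neg (fun h4 => h3 (key.2 h4))).symm
    · intro i _ hi
      rw [hRd, if_neg (fun h => hi h.symm), mul_zero]
    · intro h
      exact absurd (Finset.mem_univ _) h
  refine ⟨R, S, hRd, h1, h2, ?_⟩
  let f : Pt → ℤ → Fin n × Fin n' × ℕ × ℕ := fun x k => (u (tr k x), u' (tr k x), 0, 0)
  have hper : ∀ x ∈ PP m, ∀ k : ℤ, tr (k + m) x = tr k x := by
    intro x hx k
    rw [← tr_tr', (mem_PP_tr hm).1 hx]
  have hmain := hTr Pt (ℤ → Fin n × Fin n' × ℕ × ℕ) (Lex (Fin m → Fin n)) (Lex (Fin m → Fin n'))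
    (Lex (Fin m → Fin n ×ₗ Fin n ×ₗ Fin n' ×ₗ ℕ ×ₗ ℕ))
    (Lex (Fin m → Fin n' ×ₗ Fin n' ×ₗ Fin n ×ₗ ℕ ×ₗ ℕ)) m (shf Bool)
    (shf (Fin n × Fin n' × ℕ × ℕ)) (PP m)
    (AP m (fun i j => range (R i j)) (fun j i => range (S j i))) (uk m u) (uk m u') (pk m kA)
    (pk m kB) f (iv_PP hm) ?_ ?_ ?_ ?_ ?_ ?_
  · exact hmain.2.symm
  · intro x hx
    rw [mem_AP hm]
    intro k
    refine ⟨?_, ?_, ?_⟩
    · change (u (tr (k + m) x), u' (tr (k + m) x), 0, 0) = (u (tr k x), u' (tr k x), 0, 0)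
      rw [hper x hx]
    · change 0 ∈ range (R (u (tr k x)) (u' (tr k x)))
      rw [hRd, if_pos (hp _).symm]
      exact Finset.mem_range.2 one_pos
    · change 0 ∈ range (S (u' (tr k x)) (u (tr (k + 1) x)))
      rw [hSd, if_pos ⟨tr k x, rfl, by rw [tr_tr', add_comm]⟩]
      exact Finset.mem_range.2 one_pos
  · intro x _ y _ hxy
    apply hu.det
    intro k
    exact congrArg (fun z : Fin n × Fin n' × ℕ × ℕ => z.1) (congrFun hxy k)
  · intro y hy
    rw [mem_AP hm] at hy
    have hyR : ∀ k : ℤ, p (y k).2.1 = (y k).1 ∧ (y k).2.2.1 = 0 := by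
      intro k
      have h3 := Finset.mem_range.1 (hy k).2.1
      rw [hRd] at h3
      by_cases h4 : p (y k).2.1 = (y k).1
      · rw [if_pos h4] at h3
        exact ⟨h4, by omega⟩
      · rw [if_neg h4] at h3
        omega
    have hyS : ∀ k : ℤ, S (y k).2.1 (y (k + 1)).1 = 1 ∧ (y k).2.2.2 = 0 := by
      intro k
      have h3 := Finset.mem_range.1 (hy k).2.2
      rw [hSd] at h3 ⊢
      by_cases h4 : ∃ x : Pt, u' x = (y k).2.1 ∧ u (tr 1 x) = (y (k + 1)).1
      · rw [if_pos h4] at h3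
        exact ⟨if_pos h4, by omega⟩
      · rw [if_neg h4] at h3
        omega
    obtain ⟨x, hx⟩ := hReal n' u' hu' (fun k => (y k).2.1) (by
      intro k
      rw [← h2, Matrix.mul_apply, Finset.sum_eq_single (p (y (k + 1)).2.1)]
      · rw [hRd, if_pos rfl, mul_one, (hyR (k + 1)).1]
        exact (hyS k).1
      · intro i _ hi
        rw [hRd, if_neg (fun h => hi h.symm), mul_zero]
      · intro h
        exact absurd (Finset.mem_univ _) h)
    refine ⟨x, ?_, ?_⟩
    · rw [mem_PP_tr hm]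
      apply hu'.det
      intro k
      rw [tr_tr', hx, hx, (hy k).1]
    · funext k
      change (u (tr k x), u' (tr k x), 0, 0) = y k
      have h3 : u (tr k x) = (y k).1 := by rw [hp, hx, (hyR k).1]
      rw [h3, hx k]
      refine Prod.ext rfl (Prod.ext rfl (Prod.ext ?_ ?_))
      · exact (hyR k).2.symm
      · exact (hyS k).2.symm
  · intro x _
    funext k
    change (u (tr k (tr 1 x)), u' (tr k (tr 1 x)), 0, 0) =
      (u (tr (k + 1) x), u' (tr (k + 1) x), 0, 0)
    rw [tr_tr']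
  · intro x hx y hy
    refine ordE (fun k => u (tr k x)) (fun k => u (tr k y))
      (fun k => (toLex (u' (tr k x), (toLex (0, 0) : ℕ ×ₗ ℕ)) : Fin n' ×ₗ ℕ ×ₗ ℕ))
      (fun k => (toLex (u' (tr k y), (toLex (0, 0) : ℕ ×ₗ ℕ)) : Fin n' ×ₗ ℕ ×ₗ ℕ)) hm ?_ ?_ ?_
    · have := hper x hx 0
      rw [zero_add] at this
      exact congrArg u this
    · have := hper y hy 0
      rw [zero_add] at this
      exact congrArg u this
    · intro t h3 h4
      have h5 : u' (tr t x) = u' (tr t y) := by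
        apply hd _ _ h3
        rw [tr_tr', tr_tr', add_comm]
        exact h4
      change toLex (u' (tr t x), toLex (0, 0)) = toLex (u' (tr t y), toLex (0, 0))
      rw [h5]
  · intro x hx y hy
    refine ordE (fun k => u' (tr k x)) (fun k => u' (tr k y))
      (fun k => (toLex (u (tr (k + 1) x), (toLex (0, 0) : ℕ ×ₗ ℕ)) : Fin n ×ₗ ℕ ×ₗ ℕ))
      (fun k => (toLex (u (tr (k + 1) y), (toLex (0, 0) : ℕ ×ₗ ℕ)) : Fin n ×ₗ ℕ ×ₗ ℕ)) hm ?_ ?_ ?_
    · have := hper x hx 0
      rw [zero_add] at this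
      exact congrArg u' this
    · have := hper y hy 0
      rw [zero_add] at this
      exact congrArg u' this
    · intro t _ h4
      have h5 : u (tr (t + 1) x) = u (tr (t + 1) y) := by
        rw [hp, hp]
        exact congrArg p h4
      change toLex (u (tr (t + 1) x), toLex (0, 0)) = toLex (u (tr (t + 1) y), toLex (0, 0))
      rw [h5]

end Pool.MP_5a0708_an.KRW
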