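import Pool.Agent.Lib.MP_5a0708_an.KRW.SpecD

/-! # Every path is realised -/

set_option autoImplicit false

namespace Pool.MP_5a0708_an.KRW

open Finset Matrix Pool.MP_5a0708_an.Nil

private theorem tmat_one {n : ℕ} {u : Pt → Fin n} {i j : Fin n} (h : tmat u i j = 1) :
    ∃ x : Pt, u x = i ∧ u (tr 1 x) = j := by
  unfold tmat at h
  by_contra hc
  rw [if_neg hc] at h
  exact absurd h (by norm_num)

private theorem real_fin {n : ℕ} {u : Pt → Fin n} (hu : Gd n u) (a : ℤ → Fin n)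
    (ha : ∀ k : ℤ, tmat u (a k) (a (k + 1)) = 1) (c : ℤ) (N : ℕ) :
    ∃ x : Pt, ∀ k : ℤ, c ≤ k → k ≤ c + N → u (tr k x) = a k := by
  induction N with
  | zero =>
    obtain ⟨x, hx⟩ := hu.surj (a c)
    refine ⟨tr (-c) x, fun k hk hk' => ?_⟩
    have hkc : k = c := by
      have h1 : k ≤ c := by simpa using hk'
      omega
    rw [hkc, tr_tr', add_neg_cancel, tr_zero', hx]
  | succ N ih =>
    obtain ⟨x, hx⟩ := ih
    obtain ⟨y, hy, hy'⟩ := tmat_one (ha (c + N))
    obtain ⟨z, hz, hz'⟩ := hu.glue (tr (c + N) x) y (by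
      rw [hy]
      exact hx _ (by omega) le_rfl)
    refine ⟨tr (-(c + N)) z, fun k hk hk' => ?_⟩
    rw [tr_tr']
    by_cases h : k ≤ c + N
    · rw [hz _ (by omega), tr_tr', show k + -(c + (N : ℤ)) + (c + N) = k by ring]
      exact hx k hk h
    · push_cast at hk'
      have hkd : k = c + N + 1 := by omega
      rw [hkd, show c + (N : ℤ) + 1 + -(c + N) = 1 by ring, hz' 1 (by norm_num), hy']

theorem t_Real : S_Real := by
  intro n u hu a ha
  have h1 : ∀ N : ℕ, ∃ x : Pt, ∀ k : ℤ, -(N : ℤ) ≤ k → k ≤ N → u (tr k x) = a k := by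
    intro N
    obtain ⟨x, hx⟩ := real_fin hu a ha (-(N : ℤ)) (2 * N)
    refine ⟨x, fun k hk hk' => hx k hk ?_⟩
    push_cast
    omega
  choose Y hY using h1
  obtain ⟨w, hw⟩ := hu.win
  obtain ⟨w', hw'⟩ := hu.locw
  have h2 : ∀ (i : ℤ) (N : ℕ), i.natAbs + w ≤ N → Y N i = Y (i.natAbs + w) i := by
    intro i N hN
    refine hw i i _ _ (fun k hk hk' => ?_) i le_rfl le_rfl
    rw [hY N k (by omega) (by omega), hY (i.natAbs + w) k (by omega)
      (by omega)]
  refine ⟨fun i => Y (i.natAbs + w) i, fun k => ?_⟩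
  have h3 := hw' k k (fun i => Y (i.natAbs + w) i) (Y (k.natAbs + w + w')) (fun i hi hi' => by
    rw [h2 i (k.natAbs + w + w') (by omega)]) k le_rfl le_rfl
  rw [h3]
  exact hY _ k (by omega) (by omega)

end Pool.MP_5a0708_an.KRW
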