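import Pool.Agent.Lib.MP_5a0708_an.KRW.SpecD

/-!
# MP_5a0708_an, package KRW : the module Rot
-/

set_option autoImplicit false

namespace Pool.MP_5a0708_an.KRW

open Finset Pool.MP_5a0708_an.Nil

private theorem rot_comm {α : Equiv.Perm Pt} (hα : α ∈ Au) (k : ℤ) (x : Pt) :
    α (tr k x) = tr k (α x) := by
  obtain ⟨r, hr⟩ := hα
  exact hr.comm k x

private theorem rot_pow {α : Equiv.Perm Pt} (hα : α ∈ Au) (t : ℕ) (x : Pt) :
    α (((shf Bool) ^ t) x) = ((shf Bool) ^ t) (α x) := by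
  rw [shf_pow_tr, shf_pow_tr, rot_comm hα]

private theorem rot_per {m : ℕ} {x : Pt} : Per m x ↔ ((shf Bool) ^ m) x = x := by
  rw [shf_pow_tr]
  exact ⟨fun h => funext fun i => h i, fun h i => congrFun h i⟩

private theorem rot_lp {m : ℕ} {x : Pt} : LP m x ↔ LPr (shf Bool) m x := by
  unfold LP LPr
  rw [rot_per]
  simp only [ne_eq]
  refine and_congr Iff.rfl (and_congr Iff.rfl ?_)
  exact forall_congr' fun t => by rw [rot_per]

private theorem rot_mem {m : ℕ} (hm : 0 < m) {x : Pt} : x ∈ PP m ↔ Per m x := mem_PP hm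

private theorem rot_per_dvd {d n : ℕ} {x : Pt} (h : Per d x) (hd : d ∣ n) : Per n x := by
  obtain ⟨c, rfl⟩ := hd
  intro i
  have := per_mul (m := d) (x := x) h c i
  rw [← this]
  congr 1
  push_cast
  ring

/-- a translation of a point of period `n` is a power of the shift -/
private theorem rot_nat {n : ℕ} (hn : 0 < n) {x : Pt} (hx : Per n x) (k : ℤ) :
    ∃ t : ℕ, tr k x = ((shf Bool) ^ t) x := by
  have h0 : 0 ≤ k % n := Int.emod_nonneg _ (by omega)
  refine ⟨(k % n).toNat, ?_⟩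
  rw [shf_pow_tr, Int.toNat_of_nonneg h0]
  funext i
  simp only [tr]
  have := per_mul hx (k / n) (i + k % n)
  rw [← this]
  congr 1
  have := Int.emod_add_mul_ediv k n
  linarith

private theorem rot_ki {n : ℕ} (hn : 0 < n) : Ki (PP n) (uk n u0) := by
  intro x hx y hy hxy
  rw [mem_PP hn] at hx hy
  have h1 : ∀ t : Fin n, u0 (tr ((t : ℕ) : ℤ) x) = u0 (tr ((t : ℕ) : ℤ) y) := fun t =>
    congrFun (toLex.injective hxy) t
  funext i
  have hk : 0 ≤ i % n := Int.emod_nonneg _ (by omega)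
  have hk' : i % n < n := Int.emod_lt_of_pos _ (by omega)
  rw [← per_mod hx i, ← per_mod hy i]
  have h2 := h1 ⟨(i % n).toNat, by omega⟩
  simp only [Int.toNat_of_nonneg hk, u0, tr_at] at h2
  by_cases h3 : x (i % n) = true <;> by_cases h4 : y (i % n) = true
  · rw [h3, h4]
  · rw [if_pos h3, if_neg h4] at h2
    exact absurd h2 (by decide)
  · rw [if_neg h3, if_pos h4] at h2
    exact absurd h2 (by decide)
  · rw [Bool.not_eq_true] at h3 h4
    rw [h3, h4]

private theorem rot_key {α : Equiv.Perm Pt} (hα : α ∈ Au) (n : ℕ) (x : Pt) :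
    uk n (u0 ∘ α) x = uk n u0 (α x) := by
  unfold uk
  congr 1
  funext t
  simp only [Function.comp_apply, rot_comm hα]

private theorem rot_mn {α : Equiv.Perm Pt} (hα : α ∈ Au) (n : ℕ) (x : Pt) :
    Mn (shf Bool) (uk n (u0 ∘ α)) x ↔ Mn (shf Bool) (uk n u0) (α x) := by
  unfold Mn
  refine forall_congr' fun t => ?_
  rw [rot_key hα, rot_key hα, rot_pow hα]

private theorem rot_sh {α : Equiv.Perm Pt} (hα : α ∈ Au) (n : ℕ) (x : Pt) :
    sh (shf Bool) (uk n (u0 ∘ α)) x = sh (shf Bool) (uk n u0) (α x) := by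
  unfold sh
  congr 1
  ext t
  show Mn _ _ _ ↔ Mn _ _ _
  rw [rot_mn hα, rot_pow hα]

private theorem rot_mkey {α : Equiv.Perm Pt} (hα : α ∈ Au) (n : ℕ) (x : Pt) :
    mkey (shf Bool) (uk n (u0 ∘ α)) x = mkey (shf Bool) (uk n u0) (α x) := by
  unfold mkey
  rw [rot_sh hα, rot_key hα, rot_pow hα]

theorem t_Rot (hKRW : S_KRW) (hSRR : SRR) : S_Rot := by
  classical
  intro L N α hL hCA h n hn1 hnN
  have hn : 0 < n := hn1
  have hα : α ∈ Au := hCA.mem
  have hiv : Iv n (shf Bool) (PP n) := iv_PP hn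
  have hki : Ki (PP n) (uk n u0) := rot_ki hn
  -- every point of `PP n` is mapped into its orbit
  have horb : ∀ x ∈ PP n, ∃ t : ℕ, α x = ((shf Bool) ^ t) x := by
    intro x hx
    have hper : Per n x := (rot_mem hn).1 hx
    obtain ⟨d, hdn, hd⟩ := exists_lp hn hper
    rcases h x d hd (lt_of_le_of_lt hdn hnN) with h1 | h1
    · obtain ⟨j, rfl⟩ := h1
      have h2 : ∃ k : ℤ, α (rr d) = tr k (rr d) := by
        have h3 := hSRR.1 d hd.1
        rcases h (α (rr d)) d (h3.image hα) (lt_of_le_of_lt hdn hnN) with h4 | h4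
        · exact h4
        · exact ⟨0, by rw [tr_zero']; exact α.injective h4⟩
      obtain ⟨k, hk⟩ := h2
      obtain ⟨t, ht⟩ := rot_nat hn hper k
      refine ⟨t, ?_⟩
      rw [← ht, rot_comm hα, hk, tr_tr', tr_tr', add_comm]
    · exact ⟨0, by simpa using h1⟩
  -- the inversions
  have hmk : ∀ x ∈ PP n, mkey (shf Bool) (uk n (u0 ∘ α)) x = mkey (shf Bool) (uk n u0) x := by
    intro x hx
    obtain ⟨t, ht⟩ := horb x hx
    rw [rot_mkey hα, ht, mkey_pow hiv hx]
  have hinv : ∀ d : ℕ, iv d (shf Bool) (PP n) (uk n u0) (uk n (u0 ∘ α)) = 0 := by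
    intro d
    unfold iv
    rw [card_eq_zero, filter_eq_empty_iff]
    rintro ⟨x, y⟩ hxy ⟨-, ⟨h1, h2⟩, h3, h4⟩
    rw [mem_product] at hxy
    have h5 := hmk x hxy.1
    have h6 := hmk y hxy.2
    simp only at h3 h4
    rw [h5, h6, mkey_of_mn h1, mkey_of_mn h2] at h4
    exact lt_asymm h3 h4
  -- the gyration part
  have hgp : gp n (shf Bool) (PP n) (uk n u0) (uk n (u0 ∘ α)) = 0 := by
    have h1 := hKRW L n α hL hn hCA
    unfold Dl at h1
    rw [sum_eq_zero (fun d _ => hinv d)] at h1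
    simpa using h1
  have hLP : LP n (rr n) := hSRR.1 n hn1
  have hLPr : LPr (shf Bool) n (rr n) := rot_lp.1 hLP
  have hF : rr n ∈ PP n := (rot_mem hn).2 hLP.2.1
  obtain ⟨t, ht⟩ := horb (rr n) hF
  set a := sh (shf Bool) (uk n u0) (rr n) with ha
  have hx0 : ((shf Bool) ^ a) (rr n) ∈ PP n := hiv.mem hF a
  have hmn0 : Mn (shf Bool) (uk n u0) (((shf Bool) ^ a) (rr n)) := sh_spec hiv hF
  have hLP0 : LPr (shf Bool) n (((shf Bool) ^ a) (rr n)) := hLPr.pow a
  have hαx0 : α (((shf Bool) ^ a) (rr n)) = ((shf Bool) ^ t) (((shf Bool) ^ a) (rr n)) := by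
    rw [rot_pow hα, ht, pow_ap, pow_ap, add_comm]
  have hsum : (sh (shf Bool) (uk n (u0 ∘ α)) (((shf Bool) ^ a) (rr n)) : ZMod n) = 0 := by
    rw [← hgp]
    unfold gp
    symm
    apply sum_eq_single_of_mem
    · rw [mem_filter]
      exact ⟨hx0, hLP0, hmn0⟩
    · intro x hx hne
      rw [mem_filter] at hx
      obtain ⟨hxF, hxL, hxM⟩ := hx
      rcases h x n (rot_lp.2 hxL) hnN with h1 | h1
      · exfalso
        apply hne
        obtain ⟨j, rfl⟩ := h1
        have h2 : ∃ u : ℕ, tr j (rr n) = ((shf Bool) ^ u) (((shf Bool) ^ a) (rr n)) := by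
          obtain ⟨u, hu⟩ := rot_nat hn ((rot_mem hn).1 hx0) (j - a)
          refine ⟨u, ?_⟩
          rw [← hu, shf_pow_tr, tr_tr', sub_add_cancel]
        obtain ⟨u, hu⟩ := h2
        rw [hu] at hxM ⊢
        exact mn_unique hiv hki hx0 hmn0 hxM
      · rw [rot_sh hα, h1, sh_eq_zero hxM, Nat.cast_zero]
  rw [rot_sh hα, hαx0, sh_pow hiv hki hx0 hLP0, sh_eq_zero hmn0, Nat.cast_zero, zero_sub,
    neg_eq_zero] at hsum
  have hfin : ((shf Bool) ^ t) (rr n) = ((shf Bool) ^ 0) (rr n) := by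
    rw [hLPr.eq_iff]
    rw [hsum, Nat.cast_zero]
  rw [ht, hfin]
  simp

end Pool.MP_5a0708_an.KRW
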