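import Pool.Agent.Lib.MP_5a0708_an.KRW.SpecC

/-!
# MP_5a0708_an, package KRW : module SZ
-/

set_option autoImplicit false

namespace Pool.MP_5a0708_an.KRW

open Matrix

private theorem sz_le {r s : ℕ} (R : Matrix (Fin r) (Fin s) ℤ) (S : Matrix (Fin s) (Fin r) ℤ)
    (h : ∀ v : Fin r → ℤ, (R * S) *ᵥ v = 0 → v = 0) : r ≤ s := by
  have hinj : Function.Injective S.mulVecLin := by
    rw [← LinearMap.ker_eq_bot, LinearMap.ker_eq_bot']
    intro v hv
    apply h
    rw [← Matrix.mulVec_mulVec]
    rw [Matrix.mulVecLin_apply] at hv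
    rw [hv, Matrix.mulVec_zero]
  have := LinearMap.finrank_le_finrank_of_injective hinj
  simpa using this

theorem t_SZ : S_SZ := by
  constructor
  · intro p q P Q h1 h2
    have h3 := Matrix.trace_mul_comm P Q
    rw [h1, h2, Matrix.trace_one, Matrix.trace_one] at h3
    simpa using h3
  · intro r s R S h1 h2
    exact le_antisymm (sz_le R S h1) (sz_le S R h2)

end Pool.MP_5a0708_an.KRW
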