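import Pool.Agent.Lib.MP_5a0708_an.KRW.SpecA

/-!
# MP_5a0708_an, package KRW : two edge keys which refine the order of the pairs (source, target)
-/

set_option autoImplicit false

namespace Pool.MP_5a0708_an.KRW

open Finset

/-- enumeration of a finite set with an injective key -/
private theorem exists_enum {E Λ : Type} [LinearOrder Λ] (ED : Finset E) (e : E → Λ)
    (he : ∀ a ∈ ED, ∀ b ∈ ED, e a = e b → a = b) :
    ∃ r : Fin ED.card ≃ {x // x ∈ ED}, StrictMono (fun t => e (r t).1) := by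
  classical
  have hN : (ED.image e).card = ED.card := by
    apply card_image_of_injOn
    intro a ha b hb hab
    exact he a ha b hb hab
  have hbij : Function.Bijective
      (fun a : {x // x ∈ ED} => (⟨e a.1, mem_image_of_mem e a.2⟩ : {y // y ∈ ED.image e})) := by
    constructor
    · rintro ⟨a, ha⟩ ⟨b, hb⟩ hab
      exact Subtype.ext (he a ha b hb (congrArg Subtype.val hab))
    · rintro ⟨y, hy⟩
      obtain ⟨a, ha, rfl⟩ := mem_image.mp hy
      exact ⟨⟨a, ha⟩, rfl⟩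
  refine ⟨((ED.image e).orderIsoOfFin hN).toEquiv.trans (Equiv.ofBijective _ hbij).symm, ?_⟩
  have hval : ∀ t, e ((((ED.image e).orderIsoOfFin hN).toEquiv.trans
      (Equiv.ofBijective _ hbij).symm) t).1 = ((ED.image e).orderIsoOfFin hN t).1 := by
    intro t
    exact congrArg Subtype.val
      ((Equiv.ofBijective _ hbij).apply_symm_apply ((ED.image e).orderIsoOfFin hN t))
  intro t t' htt
  simp only [hval]
  exact ((ED.image e).orderIsoOfFin hN).strictMono htt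

/-- the comparison of the two enumerations -/
private theorem exists_perm {E I Λ Λ' : Type} [LinearOrder I] [LinearOrder Λ] [LinearOrder Λ']
    (ED : Finset E) (src tgt : E → I) (e₁ : E → Λ) (e₂ : E → Λ')
    (h1 : ∀ a ∈ ED, ∀ b ∈ ED, e₁ a = e₁ b → a = b) (h2 : ∀ a ∈ ED, ∀ b ∈ ED, e₂ a = e₂ b → a = b)
    (hR1 : Rf ED src tgt e₁) (hR2 : Rf ED src tgt e₂) :
    ∃ π : Equiv.Perm E, Fb ED src tgt π ∧
      ∀ a ∈ ED, ∀ b ∈ ED, (e₁ (π a) < e₁ (π b) ↔ e₂ a < e₂ b) := by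
  classical
  obtain ⟨r₁, hr₁⟩ := exists_enum ED e₁ h1
  obtain ⟨r₂, hr₂⟩ := exists_enum ED e₂ h2
  have hmono : ∀ (M : Type) [LinearOrder M] (e : E → M) (r : Fin ED.card ≃ {x // x ∈ ED}),
      Rf ED src tgt e → StrictMono (fun t => e (r t).1) →
      Monotone (fun t => (toLex (src (r t).1, tgt (r t).1) : I ×ₗ I)) := by
    intro M _ e r hR hr t t' htt
    by_contra hlt
    rw [not_le, Prod.Lex.toLex_lt_toLex] at hlt
    have h3 := hR (r t').1 (r t').2 (r t).1 (r t).2 hlt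
    exact absurd (hr.monotone htt) (not_le.mpr h3)
  have hq := Tuple.unique_monotone
    (f := fun t => (toLex (src (r₂ t).1, tgt (r₂ t).1) : I ×ₗ I)) (σ := r₁.trans r₂.symm)
    (τ := 1) (by
      have h3 := hmono Λ e₁ r₁ hR1 hr₁
      intro t t' htt
      have h4 := h3 htt
      simpa using h4) (by
      have h3 := hmono Λ' e₂ r₂ hR2 hr₂
      exact h3)
  have hq' : ∀ t, src (r₁ t).1 = src (r₂ t).1 ∧ tgt (r₁ t).1 = tgt (r₂ t).1 := by
    intro t
    have h3 := congrFun hq t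
    simp only [Function.comp_apply, Equiv.trans_apply, Equiv.apply_symm_apply,
      Equiv.Perm.coe_one, id_eq, toLex_inj, Prod.mk.injEq] at h3
    exact h3
  refine ⟨Equiv.Perm.ofSubtype (r₂.symm.trans r₁), ?_, ?_⟩
  · intro e he
    have h3 : (Equiv.Perm.ofSubtype (r₂.symm.trans r₁)) e = (r₁ (r₂.symm ⟨e, he⟩)).1 :=
      Equiv.Perm.ofSubtype_apply_of_mem _ he
    rw [h3]
    refine ⟨(r₁ (r₂.symm ⟨e, he⟩)).2, ?_, ?_⟩
    · rw [(hq' _).1, Equiv.apply_symm_apply]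
    · rw [(hq' _).2, Equiv.apply_symm_apply]
  · intro a ha b hb
    have h3 : ∀ e (he : e ∈ ED),
        (Equiv.Perm.ofSubtype (r₂.symm.trans r₁)) e = (r₁ (r₂.symm ⟨e, he⟩)).1 := fun e he =>
      Equiv.Perm.ofSubtype_apply_of_mem _ he
    rw [h3 a ha, h3 b hb]
    have h4 := hr₁.lt_iff_lt (a := r₂.symm ⟨a, ha⟩) (b := r₂.symm ⟨b, hb⟩)
    have h5 := hr₂.lt_iff_lt (a := r₂.symm ⟨a, ha⟩) (b := r₂.symm ⟨b, hb⟩)
    simp only [Equiv.apply_symm_apply] at h5
    exact h4.trans h5.symm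

private theorem lex_lt {m : ℕ} {Λ : Type} [LinearOrder Λ] {f g : Fin m → Λ} :
    toLex f < toLex g ↔ ∃ i, (∀ j, j < i → f j = g j) ∧ f i < g i := Iff.rfl

theorem t_Sim (hTr : S_Tr) (hFib : S_Fib) : S_Sim := by
  classical
  intro E I Λ Λ' _ _ _ m ED src tgt e₁ e₂ hm h1 h2 hR1 hR2
  obtain ⟨π, hFb, hπ⟩ := exists_perm ED src tgt e₁ e₂ h1 h2 hR1 hR2
  have hki : Ki (CP m ED src tgt) (pk1 m e₁) := by
    refine ki_pk (e := fun a _ => e₁ a) hm (fun x hx k => ((mem_CP hm).1 hx k).1) ?_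
    intro x hx y hy h
    funext k
    exact h1 _ ((mem_CP hm).1 hx k).2.1 _ ((mem_CP hm).1 hy k).2.1 (h k)
  have h0 := hFib E I (Lex (Fin m → Λ)) m ED src tgt π (pk1 m e₁) hm hFb hki
  have heq : ∀ a ∈ ED, ∀ b ∈ ED, (e₁ (π a) = e₁ (π b) ↔ e₂ a = e₂ b) := by
    intro a ha b hb
    have h3 := hπ a ha b hb
    have h4 := hπ b hb a ha
    constructor
    · intro h5
      rcases lt_trichotomy (e₂ a) (e₂ b) with h6 | h6 | h6
      · exact absurd h5 (ne_of_lt (h3.mpr h6))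
      · exact h6
      · exact absurd h5.symm (ne_of_lt (h4.mpr h6))
    · intro h5
      rw [h2 a ha b hb h5]
  have hord : ∀ x ∈ CP m ED src tgt, ∀ y ∈ CP m ED src tgt,
      ((pk1 m e₁ ∘ ext π) x < (pk1 m e₁ ∘ ext π) y ↔ pk1 m e₂ (id x) < pk1 m e₂ (id y)) := by
    intro x hx y hy
    have hxE : ∀ k, x k ∈ ED := fun k => ((mem_CP hm).1 hx k).2.1
    have hyE : ∀ k, y k ∈ ED := fun k => ((mem_CP hm).1 hy k).2.1
    show toLex (fun t : Fin m => e₁ (π (x ((t : ℕ) : ℤ)))) <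
        toLex (fun t : Fin m => e₁ (π (y ((t : ℕ) : ℤ)))) ↔
      toLex (fun t : Fin m => e₂ (x ((t : ℕ) : ℤ))) <
        toLex (fun t : Fin m => e₂ (y ((t : ℕ) : ℤ)))
    rw [lex_lt, lex_lt]
    refine exists_congr fun i => and_congr ?_ ?_
    · exact forall_congr' fun j => imp_congr_right fun _ => heq _ (hxE _) _ (hyE _)
    · exact hπ _ (hxE _) _ (hyE _)
  have h3 := hTr (ℤ → E) (ℤ → E) (Lex (Fin m → Λ)) (Lex (Fin m → Λ)) (Lex (Fin m → Λ))
    (Lex (Fin m → Λ')) m (shf E) (shf E) (CP m ED src tgt) (CP m ED src tgt) (pk1 m e₁)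
    (pk1 m e₁ ∘ ext π) (pk1 m e₁) (pk1 m e₂) id (iv_CP hm ED src tgt) (fun x hx => hx)
    (fun x _ y _ hxy => hxy) (fun y hy => ⟨y, hy, rfl⟩) (fun x _ => rfl)
    (fun x _ y _ => Iff.rfl) hord
  rw [h3.2, h0]

end Pool.MP_5a0708_an.KRW
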