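import Pool.Agent.Lib.MP_5a0708_an.KRW.SpecC

/-!
# MP_5a0708_an, package KRW : one step of the reduction to the core (`S_St`)
-/

set_option autoImplicit false

namespace Pool.MP_5a0708_an.KRW

open Finset Matrix

private theorem st_b22_mul {a b c d e f : ℕ} (X : Matrix (Fin (a + b)) (Fin (c + d)) ℤ)
    (Y : Matrix (Fin (c + d)) (Fin (e + f)) ℤ) (h : b21 X = 0) :
    b22 X * b22 Y = b22 (X * Y) := by
  ext i j
  have h0 : ∀ l : Fin c, X (Fin.natAdd a i) (Fin.castAdd d l) = 0 := fun l =>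
    congrFun (congrFun h i) l
  show ∑ l, b22 X i l * b22 Y l j = ∑ l, X (Fin.natAdd a i) l * Y l (Fin.natAdd e j)
  rw [Fin.sum_univ_add]
  simp only [h0, zero_mul, Finset.sum_const_zero, zero_add]
  rfl

private theorem st_b11_mul {a b c d e f : ℕ} (X : Matrix (Fin (a + b)) (Fin (c + d)) ℤ)
    (Y : Matrix (Fin (c + d)) (Fin (e + f)) ℤ) (h : b21 Y = 0) :
    b11 X * b11 Y = b11 (X * Y) := by
  ext i j
  have h0 : ∀ l : Fin d, Y (Fin.natAdd c l) (Fin.castAdd f j) = 0 := fun l =>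
    congrFun (congrFun h l) j
  show ∑ l, b11 X i l * b11 Y l j = ∑ l, X (Fin.castAdd b i) l * Y l (Fin.castAdd f j)
  rw [Fin.sum_univ_add]
  simp only [h0, mul_zero, Finset.sum_const_zero, add_zero]
  rfl

private theorem st_low_mul {a b c d n : ℕ} (X : Matrix (Fin (a + b)) (Fin (c + d)) ℤ)
    (Y : Matrix (Fin (c + d)) (Fin n) ℤ) (h : b21 X = 0) : low (X * Y) = b22 X * low Y := by
  ext i j
  have h0 : ∀ l : Fin c, X (Fin.natAdd a i) (Fin.castAdd d l) = 0 := fun l =>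
    congrFun (congrFun h i) l
  show ∑ l, X (Fin.natAdd a i) l * Y l j = ∑ l, b22 X i l * low Y l j
  rw [Fin.sum_univ_add]
  simp only [h0, zero_mul, Finset.sum_const_zero, zero_add]
  rfl

private theorem st_low_mul' {a b n l : ℕ} (Q : Matrix (Fin (a + b)) (Fin n) ℤ)
    (M : Matrix (Fin n) (Fin l) ℤ) : low Q * M = low (Q * M) := rfl

/-- the kernels are respected by intertwiners -/
private theorem st_b21_zero {p q : ℕ} {A : Matrix (Fin p) (Fin p) ℤ}
    {B : Matrix (Fin q) (Fin q) ℤ} (K : KD A) (K' : KD B) (R : Matrix (Fin p) (Fin q) ℤ)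
    (h : A * R = R * B) : b21 (K.Q * R * K'.P) = 0 := by
  ext i j
  have h1 : A *ᵥ (fun l => (R * K'.P) l (Fin.castAdd K'.b j)) = 0 := by
    have e : A * (R * K'.P) = R * (B * K'.P) := by
      rw [← Matrix.mul_assoc, h, Matrix.mul_assoc]
    funext l
    have e1 : (A * (R * K'.P)) l (Fin.castAdd K'.b j) = 0 := by
      rw [e, Matrix.mul_apply]
      exact Finset.sum_eq_zero fun x _ => by rw [K'.z, mul_zero]
    exact e1
  have h2 := K.k _ h1 i
  rw [Matrix.mul_assoc]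
  exact h2

private theorem st_b11_zero {p : ℕ} {A : Matrix (Fin p) (Fin p) ℤ} (K : KD A) :
    b11 (K.Q * A * K.P) = 0 := by
  ext i j
  rw [Matrix.mul_assoc]
  show (K.Q * (A * K.P)) (Fin.castAdd K.b i) (Fin.castAdd K.b j) = 0
  rw [Matrix.mul_apply]
  exact Finset.sum_eq_zero fun x _ => by rw [K.z, mul_zero]

private theorem st_prod {p q n l : ℕ} {Q' : Matrix (Fin q) (Fin l) ℤ}
    {P' : Matrix (Fin l) (Fin q) ℤ} (h : P' * Q' = 1) (Q : Matrix (Fin n) (Fin p) ℤ)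
    (R : Matrix (Fin p) (Fin l) ℤ) (S : Matrix (Fin l) (Fin p) ℤ) (P : Matrix (Fin p) (Fin n) ℤ) :
    Q * R * P' * (Q' * S * P) = Q * (R * S) * P := by
  calc Q * R * P' * (Q' * S * P) = Q * R * (P' * Q') * S * P := by
        simp only [Matrix.mul_assoc]
    _ = Q * (R * S) * P := by rw [h, Matrix.mul_one]; simp only [Matrix.mul_assoc]

theorem t_St (hAlg : S_Alg) (hZ0 : S_Z0) : S_St := by
  intro m z hz p q R S K K'
  obtain ⟨_, a2, a3, a4, _⟩ := hAlg m z hz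
  have hR : b21 (K.Q * R * K'.P) = 0 := st_b21_zero K K' R (by rw [Matrix.mul_assoc])
  have hS : b21 (K'.Q * S * K.P) = 0 := st_b21_zero K' K S (by rw [Matrix.mul_assoc])
  have e1 : K.Q * R * K'.P * (K'.Q * S * K.P) = K.Q * (R * S) * K.P := st_prod K'.pq _ _ _ _
  have e2 : K'.Q * S * K.P * (K.Q * R * K'.P) = K'.Q * (S * R) * K'.P := st_prod K.pq _ _ _ _
  refine ⟨?_, ?_, ?_, ?_, ?_⟩
  · have h1 := hz.add _ _ _ _ _ _ hR hS
    have h2 : z _ _ (b11 (K.Q * R * K'.P)) (b11 (K'.Q * S * K.P)) = 0 := by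
      refine hZ0 m z hz _ _ _ _ ?_ ?_
      · rw [st_b11_mul _ _ hS, e1, st_b11_zero]
      · rw [st_b11_mul _ _ hR, e2, st_b11_zero]
    rw [h2, zero_add] at h1
    have h3 := a2 _ _ _ K.Q K.P (R * K'.P) (K'.Q * S) K.pq
    have h4 := a3 _ _ _ K'.P K'.Q R S K'.pq
    have h5 := a4 _ _ K.P K.Q (R * S) K.pq
    have e3 : R * K'.P * (K'.Q * S) * K.P = R * S * K.P := by
      have := congrArg (fun M => R * M * S * K.P) K'.pq
      simp only [Matrix.mul_one, Matrix.mul_assoc] at this ⊢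
      exact this
    rw [e3, h5, h4] at h3
    rw [Matrix.mul_assoc K.Q R K'.P] at h1
    rw [h3] at h1
    rw [← Matrix.mul_assoc K.Q R K'.P] at h1
    rw [← h1, Matrix.mul_assoc K'.Q S R]
    ring
  · rw [st_b22_mul _ _ hR, e1]
  · rw [st_b22_mul _ _ hS, e2]
  · rw [st_low_mul', ← st_low_mul _ _ hR, Matrix.mul_assoc _ K'.P, K'.pq, Matrix.mul_one]
  · rw [st_low_mul', ← st_low_mul _ _ hS, Matrix.mul_assoc _ K.P, K.pq, Matrix.mul_one]

end Pool.MP_5a0708_an.KRW
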