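import Pool.Agent.Lib.MP_5a0708_an.KRW.SpecA

/-!
# MP_5a0708_an, package KRW : the module Sw
-/

set_option autoImplicit false

namespace Pool.MP_5a0708_an.KRW

open Finset

private theorem vol_CP {E I : Type} {m : ℕ} (hm : 0 < m) {ED : Finset E} {src tgt : E → I}
    {π : Equiv.Perm E} (hF : Fb ED src tgt π) (hI : ∀ e ∈ ED, π (π e) = e) :
    Vol (shf E) (ext π) (CP m ED src tgt) := by
  refine ⟨?_, ?_, ?_⟩
  · intro x hx
    rw [mem_CP hm] at hx ⊢
    intro k
    obtain ⟨h1, h2, h3⟩ := hx k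
    refine ⟨?_, (hF _ h2).1, ?_⟩
    · show π (x (k + m)) = π (x k)
      rw [h1]
    · show tgt (π (x k)) = src (π (x (k + 1)))
      rw [(hF _ h2).2.2, (hF _ (hx (k + 1)).2.1).2.1, h3]
  · intro x hx
    rw [mem_CP hm] at hx
    funext k
    exact hI _ (hx k).2.1
  · intro x _
    rfl

private theorem lpr_CP {E I : Type} {m d : ℕ} (hm : 0 < m) (hd : 0 < d) (hdm : d ∣ m)
    {ED : Finset E} {src tgt : E → I} {x : ℤ → E} (hx : LPr (shf E) d x) :
    x ∈ CP m ED src tgt ↔ x ∈ CP d ED src tgt := by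
  have hp : ∀ k : ℤ, x (k + d) = x k := fun k => by
    have := congrFun hx.2.1 k
    rwa [shf_pow] at this
  rw [mem_CP hm, mem_CP hd]
  obtain ⟨c, rfl⟩ := hdm
  constructor
  · intro h k
    exact ⟨hp k, (h k).2⟩
  · intro h k
    refine ⟨?_, (h k).2⟩
    have := per_mul hp c k
    rw [← this]
    congr 1
    push_cast
    ring

/-- the numbers of the orbits and the numbers of the points -/
private theorem cnt_eq (hOrb : S_Orb) {E I Λ : Type} [LinearOrder Λ] {m d : ℕ} (hm : 0 < m)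
    (hd : 0 < d) (hdm : d ∣ m) {ED : Finset E} {src tgt : E → I} {π : Equiv.Perm E}
    {k : (ℤ → E) → Λ} (hF : Fb ED src tgt π) (hI : ∀ e ∈ ED, π (π e) = e)
    (hk : Ki (CP m ED src tgt) k) :
    d * Nn d (shf E) (ext π) (CP m ED src tgt) k = nP d ED src tgt π ∧
    2 * (d * Tn d (shf E) (ext π) (CP m ED src tgt) k) = tP d ED src tgt π := by
  obtain ⟨h1, h2⟩ := hOrb (ℤ → E) Λ m d (shf E) (ext π) (CP m ED src tgt) k
    (iv_CP hm ED src tgt) hk (vol_CP hm hF hI) hd
  refine ⟨h1.trans ?_, h2.trans ?_⟩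
  · unfold nP
    apply congrArg Finset.card
    ext x
    simp only [mem_filter]
    constructor
    · rintro ⟨h3, h4, h5⟩
      exact ⟨(lpr_CP hm hd hdm h4).1 h3, h4, h5⟩
    · rintro ⟨h3, h4, h5⟩
      exact ⟨(lpr_CP hm hd hdm h4).2 h3, h4, h5⟩
  · unfold tP
    apply congrArg Finset.card
    ext x
    simp only [mem_filter]
    constructor
    · rintro ⟨h3, h4, h5⟩
      exact ⟨(lpr_CP hm hd hdm h4).1 h3, h4, h5⟩
    · rintro ⟨h3, h4, h5⟩
      exact ⟨(lpr_CP hm hd hdm h4).2 h3, h4, h5⟩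

private theorem ds_eq (r q : ℕ) (hq : Odd q) :
    ds (2 ^ r * q) = (range r).image fun i => 2 ^ i * q := by
  have hq0 : 0 < q := hq.pos
  ext d
  unfold ds
  simp only [mem_filter, mem_range, mem_image]
  constructor
  · rintro ⟨_, i, hi, h⟩
    have h1 : 2 ^ i ∣ 2 ^ r * q := ⟨d, by rw [← h]; ring⟩
    have hc : Nat.Coprime (2 ^ i) q := (Nat.coprime_two_left.2 hq).pow_left i
    have h2 : 2 ^ i ∣ 2 ^ r := hc.dvd_of_dvd_mul_right h1
    have h3 : i ≤ r := (Nat.pow_dvd_pow_iff_le_right (by norm_num)).1 h2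
    refine ⟨r - i, by omega, ?_⟩
    have h4 : 2 ^ r = 2 ^ (r - i) * 2 ^ i := by rw [← pow_add, Nat.sub_add_cancel h3]
    have h5 : d * 2 ^ i = 2 ^ (r - i) * q * 2 ^ i := by rw [h, h4]; ring
    exact (Nat.eq_of_mul_eq_mul_right (by positivity) h5).symm
  · rintro ⟨i, hi, rfl⟩
    refine ⟨?_, r - i, by omega, ?_⟩
    · exact Nat.mul_lt_mul_of_pos_right (Nat.pow_lt_pow_right (by norm_num) hi) hq0
    · have h4 : 2 ^ r = 2 ^ (r - i) * 2 ^ i := by rw [← pow_add, Nat.sub_add_cancel hi.le]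
      rw [h4]
      ring

theorem t_Sw (hInv : S_Inv) (hOrb : S_Orb) (hCntP : S_CntP) : S_Sw := by
  intro E I Λ _ m ED src tgt π k hm hF hI hk
  rw [hInv (ℤ → E) Λ m (shf E) (ext π) (CP m ED src tgt) k (iv_CP hm ED src tgt) hk
    (vol_CP hm hF hI)]
  obtain ⟨c1, c2⟩ := hCntP E I ED src tgt π hF hI
  obtain ⟨r, q, hq, hmr⟩ := Nat.exists_eq_two_pow_mul_odd hm.ne'
  have hq0 : 0 < q := hq.pos
  -- the recursion
  have hodd : Nn q (shf E) (ext π) (CP m ED src tgt) k = 0 := by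
    have h1 := (cnt_eq hOrb hm hq0 ⟨2 ^ r, by rw [hmr]; ring⟩ hF hI hk).1
    rw [c1 q (Nat.odd_iff.1 hq)] at h1
    rcases Nat.mul_eq_zero.1 h1 with h | h
    · omega
    · exact h
  have hrec : ∀ h : ℕ, 0 < h → 2 * h ∣ m →
      Nn (2 * h) (shf E) (ext π) (CP m ED src tgt) k =
        Nn h (shf E) (ext π) (CP m ED src tgt) k + Tn h (shf E) (ext π) (CP m ED src tgt) k := by
    intro h hh hd
    have h1 := (cnt_eq hOrb hm (by omega) hd hF hI hk).1
    have h2 := cnt_eq hOrb hm hh ((Dvd.intro_left 2 rfl).trans hd) hF hI hk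
    have h3 := c2 h hh
    rw [← h1, ← h2.1, ← h2.2] at h3
    have h4 : 2 * h * Nn (2 * h) (shf E) (ext π) (CP m ED src tgt) k =
        2 * h * (Nn h (shf E) (ext π) (CP m ED src tgt) k +
          Tn h (shf E) (ext π) (CP m ED src tgt) k) := by
      rw [h3]
      ring
    exact Nat.eq_of_mul_eq_mul_left (by omega) h4
  have hsum : ∀ j ≤ r, Nn (2 ^ j * q) (shf E) (ext π) (CP m ED src tgt) k =
      ∑ i ∈ range j, Tn (2 ^ i * q) (shf E) (ext π) (CP m ED src tgt) k := by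
    intro j
    induction j with
    | zero =>
      intro _
      rw [pow_zero, one_mul, hodd]
      rfl
    | succ j ih =>
      intro hj
      rw [sum_range_succ, ← ih (by omega)]
      have e : 2 ^ (j + 1) * q = 2 * (2 ^ j * q) := by ring
      rw [e]
      apply hrec _ (by positivity)
      rw [← e, hmr]
      exact Nat.mul_dvd_mul_right (pow_dvd_pow 2 hj) q
  have hds : ∑ d ∈ ds m, Tn d (shf E) (ext π) (CP m ED src tgt) k =
      Nn m (shf E) (ext π) (CP m ED src tgt) k := by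
    have h1 := hsum r le_rfl
    rw [← hmr] at h1
    rw [h1]
    have h2 : ds m = (range r).image fun i => 2 ^ i * q := by
      rw [← ds_eq r q hq, ← hmr]
    rw [h2, sum_image]
    intro a _ b _ hab
    have h3 : 2 ^ a = 2 ^ b := Nat.eq_of_mul_eq_mul_right hq0 hab
    exact Nat.pow_right_injective (le_refl 2) h3
  rw [hds]
  rcases Nat.eq_zero_or_pos r with hr | hr
  · have h1 : Nn m (shf E) (ext π) (CP m ED src tgt) k = 0 := by
      have h2 : m = q := by rw [hmr, hr, pow_zero, one_mul]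
      rw [show Nn m (shf E) (ext π) (CP m ED src tgt) k =
        Nn q (shf E) (ext π) (CP m ED src tgt) k by congr 1]
      exact hodd
    rw [h1]
    simp
  · obtain ⟨r', rfl⟩ : ∃ r', r = r' + 1 := ⟨r - 1, by omega⟩
    have h1 : m / 2 * 2 = m := by
      apply Nat.div_mul_cancel
      exact ⟨2 ^ r' * q, by rw [hmr]; ring⟩
    set N := Nn m (shf E) (ext π) (CP m ED src tgt) k with hN
    have h2 : (((m / 2 : ℕ) : ZMod m)) * ((N + N : ℕ) : ZMod m) =
        ((m / 2 * 2 * N : ℕ) : ZMod m) := by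
      push_cast
      ring
    rw [h2, h1, Nat.cast_mul, ZMod.natCast_self, zero_mul]

end Pool.MP_5a0708_an.KRW
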