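import Pool.Agent.Lib.MP_5a0708_an.KRW.SpecB

/-!
# MP_5a0708_an, package KRW : the module TA
-/

set_option autoImplicit false

namespace Pool.MP_5a0708_an.KRW

open Finset

section

variable {I J L α β γ : Type}

private def e1 (e : (I × J × L × α × β × γ) × I) : I ×ₗ I ×ₗ J ×ₗ α ×ₗ (L ×ₗ β ×ₗ γ) :=
  toLex (e.1.1, toLex (e.2, toLex (e.1.2.1, toLex (e.1.2.2.2.1,
    toLex (e.1.2.2.1, toLex (e.1.2.2.2.2.1, e.1.2.2.2.2.2))))))

private def e2 (e : (I × J × L × α × β × γ) × I) : I ×ₗ I ×ₗ L ×ₗ (J ×ₗ α ×ₗ β) ×ₗ γ :=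
  toLex (e.1.1, toLex (e.2, toLex (e.1.2.2.1, toLex (
    toLex (e.1.2.1, toLex (e.1.2.2.2.1, e.1.2.2.2.2.1)), e.1.2.2.2.2.2))))

private theorem e1_inj (a b : (I × J × L × α × β × γ) × I) (h : e1 a = e1 b) : a = b := by
  simp only [e1, toLex_inj, Prod.mk.injEq] at h
  obtain ⟨h1, h2, h3, h4, h5, h6, h7⟩ := h
  exact Prod.ext (Prod.ext h1 (Prod.ext h3 (Prod.ext h5 (Prod.ext h4 (Prod.ext h6 h7))))) h2

private theorem e2_inj (a b : (I × J × L × α × β × γ) × I) (h : e2 a = e2 b) : a = b := by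
  simp only [e2, toLex_inj, Prod.mk.injEq] at h
  obtain ⟨h1, h2, h3, ⟨h4, h5, h6⟩, h7⟩ := h
  exact Prod.ext (Prod.ext h1 (Prod.ext h4 (Prod.ext h3 (Prod.ext h5 (Prod.ext h6 h7))))) h2

/-- the map of sequences -/
private def fm (x : ℤ → I × J × L × α × β × γ) : ℤ → (I × J × L × α × β × γ) × I :=
  fun k => (x k, (x (k + 1)).1)

variable [Fintype I] [Fintype J] [Fintype L]

/-- the edges -/
private noncomputable def edg (U : I → J → Finset α) (V : J → L → Finset β)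
    (Z : L → I → Finset γ) : Finset ((I × J × L × α × β × γ) × I) :=
  fs {e : (I × J × L × α × β × γ) × I | e.1.2.2.2.1 ∈ U e.1.1 e.1.2.1 ∧
    e.1.2.2.2.2.1 ∈ V e.1.2.1 e.1.2.2.1 ∧ e.1.2.2.2.2.2 ∈ Z e.1.2.2.1 e.2}

private theorem mem_edg {U : I → J → Finset α} {V : J → L → Finset β}
    {Z : L → I → Finset γ} {e : (I × J × L × α × β × γ) × I} : e ∈ edg U V Z ↔
      e.1.2.2.2.1 ∈ U e.1.1 e.1.2.1 ∧ e.1.2.2.2.2.1 ∈ V e.1.2.1 e.1.2.2.1 ∧
      e.1.2.2.2.2.2 ∈ Z e.1.2.2.1 e.2 := by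
  classical
  unfold edg
  rw [mem_fs]
  · rfl
  refine (((Set.finite_univ (α := I)).prod ((Set.finite_univ (α := J)).prod
      ((Set.finite_univ (α := L)).prod
      (((univ.biUnion fun i => univ.biUnion fun j => U i j).finite_toSet).prod
        (((univ.biUnion fun j => univ.biUnion fun l => V j l).finite_toSet).prod
        ((univ.biUnion fun l => univ.biUnion fun i => Z l i).finite_toSet)))))).prod
        (Set.finite_univ (α := I))).subset ?_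
  rintro ⟨⟨i, j, l, a, b, c⟩, i'⟩ ⟨h1, h2, h3⟩
  refine ⟨⟨Set.mem_univ _, Set.mem_univ _, Set.mem_univ _, Finset.mem_coe.mpr ?_,
      Finset.mem_coe.mpr ?_, Finset.mem_coe.mpr ?_⟩, Set.mem_univ _⟩
  · simp only [mem_biUnion, mem_univ, true_and]
    exact ⟨_, _, h1⟩
  · simp only [mem_biUnion, mem_univ, true_and]
    exact ⟨_, _, h2⟩
  · simp only [mem_biUnion, mem_univ, true_and]
    exact ⟨_, _, h3⟩

private theorem fm_mem {m : ℕ} (hm : 0 < m) {U : I → J → Finset α} {V : J → L → Finset β}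
    {Z : L → I → Finset γ} {x : ℤ → I × J × L × α × β × γ} (hx : x ∈ TP m U V Z) :
    fm x ∈ CP m (edg U V Z) (fun e => e.1.1) (fun e => e.2) := by
  rw [mem_TP hm] at hx
  rw [mem_CP hm]
  intro k
  refine ⟨?_, ?_, rfl⟩
  · have h1 := (hx k).1
    have h2 := (hx (k + 1)).1
    have e : k + 1 + (m : ℤ) = k + m + 1 := by ring
    rw [e] at h2
    unfold fm
    rw [h1, h2]
  · rw [mem_edg]
    exact (hx k).2

private theorem fm_surj {m : ℕ} (hm : 0 < m) {U : I → J → Finset α} {V : J → L → Finset β}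
    {Z : L → I → Finset γ} {y : ℤ → (I × J × L × α × β × γ) × I}
    (hy : y ∈ CP m (edg U V Z) (fun e => e.1.1) (fun e => e.2)) :
    ∃ x ∈ TP m U V Z, fm x = y := by
  rw [mem_CP hm] at hy
  refine ⟨fun k => (y k).1, ?_, ?_⟩
  · rw [mem_TP hm]
    intro k
    obtain ⟨h1, h2, h3⟩ := hy k
    rw [mem_edg] at h2
    have h3' : (y k).2 = (y (k + 1)).1.1 := h3
    rw [h3'] at h2
    exact ⟨by rw [h1], h2⟩
  · funext k
    have h3' : (y k).2 = (y (k + 1)).1.1 := (hy k).2.2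
    unfold fm
    exact Prod.ext rfl h3'.symm

end

theorem t_TA (hTr : S_Tr) (hSim : S_Sim) : S_TA := by
  intro I J L α β γ _ _ _ _ _ _ _ _ _ m U V Z hm
  have h1 := hTr (ℤ → I × J × L × α × β × γ) (ℤ → (I × J × L × α × β × γ) × I)
    (Lex (Fin m → I ×ₗ I ×ₗ J ×ₗ α ×ₗ (L ×ₗ β ×ₗ γ)))
    (Lex (Fin m → I ×ₗ I ×ₗ L ×ₗ (J ×ₗ α ×ₗ β) ×ₗ γ))
    (Lex (Fin m → I ×ₗ I ×ₗ J ×ₗ α ×ₗ (L ×ₗ β ×ₗ γ)))
    (Lex (Fin m → I ×ₗ I ×ₗ L ×ₗ (J ×ₗ α ×ₗ β) ×ₗ γ)) m (shf _) (shf _) (TP m U V Z)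
    (CP m (edg U V Z) (fun e => e.1.1) (fun e => e.2)) (pk m tA) (pk m tA') (pk1 m e1) (pk1 m e2)
    fm (iv_TP hm U V Z) (fun x hx => fm_mem hm hx)
    (fun x _ y _ h => funext fun k => congrArg Prod.fst (congrFun h k))
    (fun y hy => fm_surj hm hy) (fun x _ => rfl) (fun x _ y _ => Iff.rfl) (fun x _ y _ => Iff.rfl)
  rw [← h1.2]
  refine hSim ((I × J × L × α × β × γ) × I) I _ _ m (edg U V Z) (fun e => e.1.1) (fun e => e.2)
    e1 e2 hm (fun a _ b _ h => e1_inj a b h) (fun a _ b _ h => e2_inj a b h) ?_ ?_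
  · intro a _ b _ h
    unfold e1
    rw [Prod.Lex.toLex_lt_toLex]
    rcases h with h | ⟨h, h'⟩
    · exact Or.inl h
    · refine Or.inr ⟨h, ?_⟩
      show toLex _ < toLex _
      rw [Prod.Lex.toLex_lt_toLex]
      exact Or.inl h'
  · intro a _ b _ h
    unfold e2
    rw [Prod.Lex.toLex_lt_toLex]
    rcases h with h | ⟨h, h'⟩
    · exact Or.inl h
    · refine Or.inr ⟨h, ?_⟩
      show toLex _ < toLex _
      rw [Prod.Lex.toLex_lt_toLex]
      exact Or.inl h'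

end Pool.MP_5a0708_an.KRW
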