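import Pool.Agent.Lib.MP_5a0708_an.KRW.SpecB

/-!
# MP_5a0708_an, package KRW : TB

The triple product read as `U (V Z)`.
-/

set_option autoImplicit false

namespace Pool.MP_5a0708_an.KRW

open Finset

section

variable {I J L α β γ : Type}

/-- the letter `(i, j, l, a, b, c)` read as `(i, j, a, (l, b, c))` -/
private def g (c : I × J × L × α × β × γ) : I × J × α × (L ×ₗ β ×ₗ γ) :=
  (c.1, c.2.1, c.2.2.2.1, toLex (c.2.2.1, toLex (c.2.2.2.2.1, c.2.2.2.2.2)))

/-- the inverse of `g` -/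
private def g' (c : I × J × α × (L ×ₗ β ×ₗ γ)) : I × J × L × α × β × γ :=
  (c.1, c.2.1, (ofLex c.2.2.2).1, c.2.2.1, (ofLex (ofLex c.2.2.2).2).1,
    (ofLex (ofLex c.2.2.2).2).2)

private theorem g'_g (c : I × J × L × α × β × γ) : g' (g c) = c := rfl

private theorem g_g' (c : I × J × α × (L ×ₗ β ×ₗ γ)) : g (g' c) = c := rfl

end

theorem t_TB (hTr : S_Tr) : S_TB := by
  intro I J L α β γ _ _ _ _ _ _ _ _ _ m U V Z hm
  have h := hTr (ℤ → I × J × L × α × β × γ) (ℤ → I × J × α × (L ×ₗ β ×ₗ γ)) _ _ _ _ m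
    (shf _) (shf _) (TP m U V Z) (AP m U (cmp V Z)) (pk m tA) (pk m tB) (pk m kA) (pk m kB)
    (fun x k => g (x k)) (iv_TP hm U V Z) ?_ ?_ ?_ ?_ ?_ ?_
  · exact h.2
  · intro x hx
    rw [mem_TP hm] at hx
    rw [mem_AP hm]
    intro k
    refine ⟨congrArg g (hx k).1, (hx k).2.1, ?_⟩
    rw [mem_cmp]
    exact ⟨(hx k).2.2.1, (hx k).2.2.2⟩
  · intro x _ y _ hxy
    funext k
    have := congrArg g' (congrFun hxy k)
    exact this
  · intro y hy
    rw [mem_AP hm] at hy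
    refine ⟨fun k => g' (y k), ?_, ?_⟩
    · rw [mem_TP hm]
      intro k
      have h1 := (hy k).2.2
      rw [mem_cmp] at h1
      exact ⟨congrArg g' (hy k).1, (hy k).2.1, h1.1, h1.2⟩
    · funext k
      exact g_g' (y k)
  · intro x _
    rfl
  · intro x _ y _
    exact Iff.rfl
  · intro x _ y _
    exact Iff.rfl

end Pool.MP_5a0708_an.KRW
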