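import Pool.Agent.Lib.MP_5a0708_an.KRW.SpecB

/-!
# MP_5a0708_an, package KRW : module TC
-/

set_option autoImplicit false

namespace Pool.MP_5a0708_an.KRW

open Finset

private def fTC {I J L α β γ : Type} (x : ℤ → I × J × L × α × β × γ) :
    ℤ → I × L × (J ×ₗ α ×ₗ β) × γ := fun k =>
  ((x k).1, (x k).2.2.1, toLex ((x k).2.1, toLex ((x k).2.2.2.1, (x k).2.2.2.2.1)),
    (x k).2.2.2.2.2)

private theorem fTC_inj {I J L α β γ : Type} {x y : ℤ → I × J × L × α × β × γ}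
    (h : fTC x = fTC y) : x = y := by
  funext k
  have h1 := congrFun h k
  simp only [fTC, toLex_inj, Prod.mk.injEq] at h1
  obtain ⟨h2, h3, ⟨h4, h5, h6⟩, h7⟩ := h1
  exact Prod.ext h2 (Prod.ext h4 (Prod.ext h3 (Prod.ext h5 (Prod.ext h6 h7))))

private theorem fTC_mem {I J L α β γ : Type} [Fintype I] [Fintype J] [Fintype L] {m : ℕ}
    (hm : 0 < m) (U : I → J → Finset α) (V : J → L → Finset β) (Z : L → I → Finset γ)
    (x : ℤ → I × J × L × α × β × γ) :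
    fTC x ∈ AP m (cmp U V) Z ↔ x ∈ TP m U V Z := by
  rw [mem_AP hm, mem_TP hm]
  constructor
  · intro h k
    obtain ⟨h1, h2, h3⟩ := h k
    rw [mem_cmp] at h2
    refine ⟨?_, h2.1, h2.2, h3⟩
    simp only [fTC, toLex_inj, Prod.mk.injEq] at h1
    obtain ⟨h2, h3, ⟨h4, h5, h6⟩, h7⟩ := h1
    exact Prod.ext h2 (Prod.ext h4 (Prod.ext h3 (Prod.ext h5 (Prod.ext h6 h7))))
  · intro h k
    obtain ⟨h1, h2, h3, h4⟩ := h k
    refine ⟨?_, ?_, h4⟩
    · simp only [fTC, h1]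
    · rw [mem_cmp]
      exact ⟨h2, h3⟩

theorem t_TC (hTr : S_Tr) : S_TC := by
  intro I J L α β γ _ _ _ _ _ _ _ _ _ m U V Z hm
  have h := hTr _ _ _ _ _ _ m (shf (I × J × L × α × β × γ)) (shf (I × L × (J ×ₗ α ×ₗ β) × γ))
    (TP m U V Z) (AP m (cmp U V) Z) (pk m tA') (pk m tC) (pk m kA) (pk m kB) fTC
    (iv_TP hm U V Z) (fun x hx => (fTC_mem hm U V Z x).2 hx) (fun x _ y _ he => fTC_inj he)
    ?_ (fun x _ => rfl) (fun x _ y _ => Iff.rfl) (fun x _ y _ => Iff.rfl)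
  · exact h.2
  · intro y hy
    have e : fTC (fun k => ((y k).1, (ofLex (y k).2.2.1).1, (y k).2.1,
        (ofLex (ofLex (y k).2.2.1).2).1, (ofLex (ofLex (y k).2.2.1).2).2, (y k).2.2.2)) = y := rfl
    refine ⟨_, ?_, e⟩
    rw [← fTC_mem hm, e]
    exact hy

end Pool.MP_5a0708_an.KRW
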