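import Pool.Agent.Lib.MP_5a0708_an.KRW.SpecB

/-!
# MP_5a0708_an, package KRW : module TN
-/

set_option autoImplicit false

namespace Pool.MP_5a0708_an.KRW

open Finset

private theorem card_prod {p q r : ℕ} (R : Matrix (Fin p) (Fin q) ℕ) (S : Matrix (Fin q) (Fin r) ℕ)
    (i : Fin p) (l : Fin r) :
    (cmp (fun i j => range (R i j)) (fun j l => range (S j l)) i l).card =
      (range ((R * S) i l)).card := by
  rw [card_cmp, card_range, Matrix.mul_apply]
  simp only [card_range]

theorem t_TN (hTT : S_TT) (hLab : S_Lab) : S_TN := by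
  intro m p q r R S T hm
  have h := hTT (Fin p) (Fin q) (Fin r) ℕ ℕ ℕ m (fun i j => range (R i j))
    (fun j l => range (S j l)) (fun l i => range (T l i)) hm
  have h1 : DD m (fun i j => range (R i j)) (cmp (fun j l => range (S j l))
      (fun l i => range (T l i))) = sgc m R (S * T) :=
    hLab _ _ _ _ _ _ m _ _ _ _ hm (fun _ _ => rfl) (fun j i => card_prod S T j i)
  have h2 : DD m (fun j l => range (S j l)) (cmp (fun l i => range (T l i))
      (fun i j => range (R i j))) = sgc m S (T * R) :=
    hLab _ _ _ _ _ _ m _ _ _ _ hm (fun _ _ => rfl) (fun j i => card_prod T R j i)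
  have h3 : DD m (cmp (fun i j => range (R i j)) (fun j l => range (S j l)))
      (fun l i => range (T l i)) = sgc m (R * S) T :=
    hLab _ _ _ _ _ _ m _ _ _ _ hm (fun i l => card_prod R S i l) (fun _ _ => rfl)
  rw [← h1, ← h2, ← h3]
  exact h

end Pool.MP_5a0708_an.KRW
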