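import Pool.Agent.Lib.MP_5a0708_an.KRW.SpecB

/-!
# MP_5a0708_an, package KRW : the triangle identity (task 17528)
-/

set_option autoImplicit false

namespace Pool.MP_5a0708_an.KRW

open Finset

section rot

variable {I J L α β γ : Type}

private theorem rot3_mem [Fintype I] [Fintype J] [Fintype L] {m : ℕ} (hm : 0 < m)
    {U : I → J → Finset α} {V : J → L → Finset β} {Z : L → I → Finset γ}
    {x : ℤ → I × J × L × α × β × γ} (hx : x ∈ TP m U V Z) : rot3 x ∈ TP m V Z U := by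
  rw [mem_TP hm] at hx ⊢
  intro k
  have h1 := hx k
  have h2 := hx (k + 1)
  refine ⟨?_, h1.2.2.1, h1.2.2.2, h2.2.1⟩
  have e : k + m + 1 = k + 1 + m := by ring
  show ((x (k + m)).2.1, (x (k + m)).2.2.1, (x (k + m + 1)).1, (x (k + m)).2.2.2.2.1,
    (x (k + m)).2.2.2.2.2, (x (k + m + 1)).2.2.2.1) = ((x k).2.1, (x k).2.2.1, (x (k + 1)).1,
    (x k).2.2.2.2.1, (x k).2.2.2.2.2, (x (k + 1)).2.2.2.1)
  rw [e, h1.1, h2.1]

private theorem rot3_inj {x y : ℤ → I × J × L × α × β × γ} (h : rot3 x = rot3 y) : x = y := by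
  funext k
  have h1 := congrFun h k
  have h2 := congrFun h (k - 1)
  simp only [rot3, Prod.mk.injEq, sub_add_cancel] at h1 h2
  exact Prod.ext h2.2.2.1 (Prod.ext h1.1 (Prod.ext h1.2.1 (Prod.ext h2.2.2.2.2.2
    (Prod.ext h1.2.2.2.1 h1.2.2.2.2.1))))

private theorem rot3_sur [Fintype I] [Fintype J] [Fintype L] {m : ℕ} (hm : 0 < m)
    {U : I → J → Finset α} {V : J → L → Finset β} {Z : L → I → Finset γ}
    {y : ℤ → J × L × I × β × γ × α} (hy : y ∈ TP m V Z U) :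
    ∃ x ∈ TP m U V Z, rot3 x = y := by
  rw [mem_TP hm] at hy
  refine ⟨fun k => ((y (k - 1)).2.2.1, (y k).1, (y k).2.1, (y (k - 1)).2.2.2.2.2,
    (y k).2.2.2.1, (y k).2.2.2.2.1), ?_, ?_⟩
  · rw [mem_TP hm]
    intro k
    have h1 := hy k
    have h2 := hy (k - 1)
    rw [sub_add_cancel] at h2
    refine ⟨?_, h2.2.2.2, h1.2.1, ?_⟩
    · have e : k + m - 1 = k - 1 + m := by ring
      show ((y (k + m - 1)).2.2.1, (y (k + m)).1, (y (k + m)).2.1, (y (k + m - 1)).2.2.2.2.2,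
        (y (k + m)).2.2.2.1, (y (k + m)).2.2.2.2.1) = ((y (k - 1)).2.2.1, (y k).1, (y k).2.1,
        (y (k - 1)).2.2.2.2.2, (y k).2.2.2.1, (y k).2.2.2.2.1)
      rw [e, h1.1, h2.1]
    · have e : k + 1 - 1 = k := by ring
      show (y k).2.2.2.2.1 ∈ Z (y k).2.1 (y (k + 1 - 1)).2.2.1
      rw [e]
      exact h1.2.2.1
  · funext k
    have e : k + 1 - 1 = k := by ring
    show ((y k).1, (y k).2.1, (y (k + 1 - 1)).2.2.1, (y k).2.2.2.1, (y k).2.2.2.2.1,
      (y (k + 1 - 1)).2.2.2.2.2) = y k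
    rw [e]

private theorem rot3_tr (hTr : S_Tr) [Fintype I] [Fintype J] [Fintype L] {m : ℕ} (hm : 0 < m)
    (U : I → J → Finset α) (V : J → L → Finset β) (Z : L → I → Finset γ) {M M' : Type}
    [LinearOrder M] [LinearOrder M'] (k : (ℤ → J × L × I × β × γ × α) → M)
    (l : (ℤ → J × L × I × β × γ × α) → M') :
    Dl m (shf _) (TP m V Z U) k l =
      Dl m (shf _) (TP m U V Z) (fun x => k (rot3 x)) (fun x => l (rot3 x)) :=
  (hTr (ℤ → I × J × L × α × β × γ) (ℤ → J × L × I × β × γ × α) M M' M M' m (shf _) (shf _)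
    (TP m U V Z) (TP m V Z U) (fun x => k (rot3 x)) (fun x => l (rot3 x)) k l rot3
    (iv_TP hm U V Z) (fun _ hx => rot3_mem hm hx) (fun _ _ _ _ h => rot3_inj h)
    (fun _ hy => rot3_sur hm hy) (fun _ _ => rfl) (fun _ _ _ _ => Iff.rfl)
    (fun _ _ _ _ => Iff.rfl)).2

private theorem rot3_ki [Fintype I] [Fintype J] [Fintype L] {m : ℕ} (hm : 0 < m)
    (U : I → J → Finset α) (V : J → L → Finset β) (Z : L → I → Finset γ) {M : Type}
    {k : (ℤ → J × L × I × β × γ × α) → M}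
    (hk : Ki (TP m V Z U) k) : Ki (TP m U V Z) (fun x => k (rot3 x)) := by
  intro x hx y hy h
  exact rot3_inj (hk _ (rot3_mem hm hx) _ (rot3_mem hm hy) h)

end rot

theorem t_TT (hTr : S_Tr) (hCoc : S_Coc) (hTA : S_TA) (hTB : S_TB) (hTC : S_TC) : S_TT := by
  intro I J L α β γ _ _ _ _ _ _ _ _ _ m U V Z hm
  have iF := iv_TP hm U V Z
  have k0 : Ki (TP m U V Z) (pk m tA) := ki_tA hm U V Z
  have k0' : Ki (TP m U V Z) (pk m tA') := ki_tA' hm U V Z
  have k1 : Ki (TP m U V Z) (fun x => pk m tA (rot3 x)) := rot3_ki hm U V Z (ki_tA hm V Z U)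
  have k1' : Ki (TP m U V Z) (fun x => pk m tA' (rot3 x)) := rot3_ki hm U V Z (ki_tA' hm V Z U)
  have k2 : Ki (TP m U V Z) (fun x => pk m tA (rot3 (rot3 x))) :=
    rot3_ki hm U V Z (rot3_ki hm V Z U (ki_tA hm Z U V))
  have k2' : Ki (TP m U V Z) (fun x => pk m tA' (rot3 (rot3 x))) :=
    rot3_ki hm U V Z (rot3_ki hm V Z U (ki_tA' hm Z U V))
  -- the three relations of `S_TA`
  have d0 : Dl m (shf _) (TP m U V Z) (pk m tA) (pk m tA') = 0 := hTA I J L α β γ m U V Z hm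
  have d1 : Dl m (shf _) (TP m U V Z) (fun x => pk m tA (rot3 x)) (fun x => pk m tA' (rot3 x)) =
      0 := by
    rw [← rot3_tr hTr hm U V Z]
    exact hTA J L I β γ α m V Z U hm
  have d2 : Dl m (shf _) (TP m U V Z) (fun x => pk m tA (rot3 (rot3 x)))
      (fun x => pk m tA' (rot3 (rot3 x))) = 0 := by
    have e1 := rot3_tr hTr hm U V Z (fun x => pk m tA (rot3 x)) (fun x => pk m tA' (rot3 x))
    have e2 := rot3_tr hTr hm V Z U (pk m tA) (pk m tA')
    rw [← e1, ← e2]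
    exact hTA L I J γ α β m Z U V hm
  -- the three terms
  have t1 : DD m U (cmp V Z) = Dl m (shf _) (TP m U V Z) (pk m tA)
      (fun x => pk m tA' (rot3 x)) := hTB I J L α β γ m U V Z hm
  have t2 : DD m V (cmp Z U) = Dl m (shf _) (TP m U V Z) (fun x => pk m tA (rot3 x))
      (fun x => pk m tA' (rot3 (rot3 x))) := by
    rw [hTB J L I β γ α m V Z U hm]
    exact rot3_tr hTr hm U V Z (pk m tA) (fun x => pk m tA' (rot3 x))
  have t3 : DD m (cmp U V) Z = Dl m (shf _) (TP m U V Z) (pk m tA')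
      (fun x => pk m tA (rot3 (rot3 x))) := hTC I J L α β γ m U V Z hm
  rw [t1, t2, t3]
  have c1 := (hCoc _ _ _ _ m (shf _) (TP m U V Z) _ _ _ iF k0 k1 k1').1
  have c2 := (hCoc _ _ _ _ m (shf _) (TP m U V Z) _ _ _ iF k0 k1 k2').1
  have c3 := (hCoc _ _ _ _ m (shf _) (TP m U V Z) _ _ _ iF k0 k2 k2').1
  have c4 := (hCoc _ _ _ _ m (shf _) (TP m U V Z) _ _ _ iF k0 k0' k2).1
  linear_combination c2 - c1 - c3 - c4 + d1 + d2 + d0

end Pool.MP_5a0708_an.KRW
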