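import Pool.Agent.Lib.MP_5a0708_an.KRW.SpecA

/-!
# MP_5a0708_an, package KRW, module Tr : transport of frames
-/

set_option autoImplicit false

namespace Pool.MP_5a0708_an.KRW

open Finset

section transport

variable {W W' Λ M Λ' M' : Type} [LinearOrder Λ] [LinearOrder M] [LinearOrder Λ']
  [LinearOrder M'] {m : ℕ} {s : Equiv.Perm W} {s' : Equiv.Perm W'} {F : Finset W}
  {F' : Finset W'} {f : W → W'} {k : W → Λ} {k' : W' → M} {l : W → Λ'} {l' : W' → M'}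

/-- the hypotheses of the transport -/
private structure TrH (m : ℕ) (s : Equiv.Perm W) (s' : Equiv.Perm W') (F : Finset W)
    (F' : Finset W') (f : W → W') : Prop where
  h : Iv m s F
  map : ∀ x ∈ F, f x ∈ F'
  inj : ∀ x ∈ F, ∀ y ∈ F, f x = f y → x = y
  sur : ∀ y ∈ F', ∃ x ∈ F, f x = y
  com : ∀ x ∈ F, f (s x) = s' (f x)

private theorem tr_pow (H : TrH m s s' F F' f) {x : W} (hx : x ∈ F) (t : ℕ) :
    f ((s ^ t) x) = (s' ^ t) (f x) := by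
  induction t with
  | zero => simp
  | succ t ih =>
    rw [pow_succ', Equiv.Perm.mul_apply, H.com _ (H.h.mem hx t), ih, pow_succ',
      Equiv.Perm.mul_apply]

private theorem tr_lpr (H : TrH m s s' F F' f) {x : W} (hx : x ∈ F) (d : ℕ) :
    LPr s' d (f x) ↔ LPr s d x := by
  have h1 : ∀ t : ℕ, (s' ^ t) (f x) = f x ↔ (s ^ t) x = x := by
    intro t
    rw [← tr_pow H hx t]
    exact ⟨fun e => H.inj _ (H.h.mem hx t) _ hx e, fun e => by rw [e]⟩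
  unfold LPr
  simp only [h1, ne_eq]

private theorem tr_mn (H : TrH m s s' F F' f)
    (hk : ∀ x ∈ F, ∀ y ∈ F, (k x < k y ↔ k' (f x) < k' (f y))) {x : W} (hx : x ∈ F) :
    Mn s' k' (f x) ↔ Mn s k x := by
  unfold Mn
  refine forall_congr' fun t => ?_
  rw [← tr_pow H hx t, ← not_lt, ← not_lt, hk _ (H.h.mem hx t) _ hx]

private theorem tr_sh (H : TrH m s s' F F' f)
    (hk : ∀ x ∈ F, ∀ y ∈ F, (k x < k y ↔ k' (f x) < k' (f y))) {x : W} (hx : x ∈ F) :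
    sh s' k' (f x) = sh s k x := by
  have h1 : {t : ℕ | Mn s' k' ((s' ^ t) (f x))} = {t : ℕ | Mn s k ((s ^ t) x)} := by
    ext t
    rw [Set.mem_ofPred_eq, Set.mem_ofPred_eq, ← tr_pow H hx t]
    exact tr_mn H hk (H.h.mem hx t)
  unfold sh
  rw [h1]

private theorem tr_mkey (H : TrH m s s' F F' f)
    (hk : ∀ x ∈ F, ∀ y ∈ F, (k x < k y ↔ k' (f x) < k' (f y))) {x y : W} (hx : x ∈ F)
    (hy : y ∈ F) : mkey s' k' (f x) < mkey s' k' (f y) ↔ mkey s k x < mkey s k y := by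
  unfold mkey
  rw [tr_sh H hk hx, tr_sh H hk hy, ← tr_pow H hx, ← tr_pow H hy]
  exact (hk _ (H.h.mem hx _) _ (H.h.mem hy _)).symm

private theorem tr_iv (H : TrH m s s' F F' f) : Iv m s' F' := by
  refine ⟨H.h.pos, fun y hy => ?_, fun y hy => ?_⟩
  · obtain ⟨x, hx, rfl⟩ := H.sur y hy
    rw [← H.com x hx]
    exact H.map _ (H.h.st x hx)
  · obtain ⟨x, hx, rfl⟩ := H.sur y hy
    rw [← tr_pow H hx, H.h.per x hx]

private theorem tr_gp (H : TrH m s s' F F' f)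
    (hk : ∀ x ∈ F, ∀ y ∈ F, (k x < k y ↔ k' (f x) < k' (f y)))
    (hl : ∀ x ∈ F, ∀ y ∈ F, (l x < l y ↔ l' (f x) < l' (f y))) :
    gp m s F k l = gp m s' F' k' l' := by
  classical
  unfold gp
  refine Finset.sum_nbij f ?_ ?_ ?_ ?_
  · intro x hx
    rw [mem_filter] at hx ⊢
    exact ⟨H.map x hx.1, (tr_lpr H hx.1 m).2 hx.2.1, (tr_mn H hk hx.1).2 hx.2.2⟩
  · intro x hx y hy e
    rw [mem_coe, mem_filter] at hx hy
    exact H.inj x hx.1 y hy.1 e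
  · intro y hy
    rw [mem_coe, mem_filter] at hy
    obtain ⟨x, hx, rfl⟩ := H.sur y hy.1
    refine ⟨x, ?_, rfl⟩
    rw [mem_coe, mem_filter]
    exact ⟨hx, (tr_lpr H hx m).1 hy.2.1, (tr_mn H hk hx).1 hy.2.2⟩
  · intro x hx
    rw [mem_filter] at hx
    rw [tr_sh H hl hx.1]

private theorem tr_inv (H : TrH m s s' F F' f)
    (hk : ∀ x ∈ F, ∀ y ∈ F, (k x < k y ↔ k' (f x) < k' (f y)))
    (hl : ∀ x ∈ F, ∀ y ∈ F, (l x < l y ↔ l' (f x) < l' (f y))) (d : ℕ) :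
    iv d s F k l = iv d s' F' k' l' := by
  classical
  unfold iv
  refine Finset.card_nbij (fun z => (f z.1, f z.2)) ?_ ?_ ?_
  · rintro ⟨x, y⟩ hz
    rw [mem_coe, mem_filter, mem_product] at hz ⊢
    obtain ⟨⟨hx, hy⟩, ⟨h1, h2⟩, ⟨h3, h4⟩, h5, h6⟩ := hz
    exact ⟨⟨H.map x hx, H.map y hy⟩, ⟨(tr_lpr H hx d).2 h1, (tr_lpr H hy d).2 h2⟩,
      ⟨(tr_mn H hk hx).2 h3, (tr_mn H hk hy).2 h4⟩, (hk x hx y hy).1 h5,
      (tr_mkey H hl hy hx).2 h6⟩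
  · rintro ⟨x, y⟩ hz ⟨x', y'⟩ hz' e
    rw [mem_coe, mem_filter, mem_product] at hz hz'
    simp only [Prod.mk.injEq] at e ⊢
    exact ⟨H.inj x hz.1.1 x' hz'.1.1 e.1, H.inj y hz.1.2 y' hz'.1.2 e.2⟩
  · rintro ⟨u, v⟩ hz
    rw [mem_coe, mem_filter, mem_product] at hz
    obtain ⟨⟨hu, hv⟩, ⟨h1, h2⟩, ⟨h3, h4⟩, h5, h6⟩ := hz
    obtain ⟨x, hx, rfl⟩ := H.sur u hu
    obtain ⟨y, hy, rfl⟩ := H.sur v hv
    refine ⟨(x, y), ?_, rfl⟩
    rw [mem_coe, mem_filter, mem_product]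
    exact ⟨⟨hx, hy⟩, ⟨(tr_lpr H hx d).1 h1, (tr_lpr H hy d).1 h2⟩,
      ⟨(tr_mn H hk hx).1 h3, (tr_mn H hk hy).1 h4⟩, (hk x hx y hy).2 h5,
      (tr_mkey H hl hy hx).1 h6⟩

end transport

/-- transport of the comparison of frames -/
theorem t_Tr : S_Tr := by
  intro W W' Λ Λ' M M' _ _ _ _ m s s' F F' k l k' l' f h hmap hinj hsur hcom hk hl
  have H : TrH m s s' F F' f := ⟨h, hmap, hinj, hsur, hcom⟩
  refine ⟨tr_iv H, ?_⟩
  unfold Dl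
  rw [tr_gp H hk hl]
  have h1 : ∑ d ∈ ds m, iv d s' F' k' l' = ∑ d ∈ ds m, iv d s F k l :=
    sum_congr rfl fun d _ => (tr_inv H hk hl d).symm
  rw [h1]

end Pool.MP_5a0708_an.KRW
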