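import Pool.Agent.Lib.MP_5a0708_an.KRW.SpecD

/-!
# MP_5a0708_an, package KRW : composition of a coding with an automorphism
-/

set_option autoImplicit false

namespace Pool.MP_5a0708_an.KRW

open Finset Matrix Pool.MP_5a0708_an.Nil

theorem t_Tw : S_Tw := by
  intro n u θ hu hθ
  obtain ⟨r, hr⟩ := hθ
  have hc : ∀ (k : ℤ) (x : Pt), (u ∘ θ) (tr k x) = u (tr k (θ x)) := by
    intro k x
    show u (θ (tr k x)) = _
    rw [hr.comm]
  have hex : ∀ i j : Fin n, (∃ x : Pt, (u ∘ θ) x = i ∧ (u ∘ θ) (tr 1 x) = j) ↔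
      ∃ x : Pt, u x = i ∧ u (tr 1 x) = j := by
    intro i j
    constructor
    · rintro ⟨x, h1, h2⟩
      exact ⟨θ x, h1, by rw [← h2, hc]⟩
    · rintro ⟨x, h1, h2⟩
      refine ⟨θ.symm x, ?_, ?_⟩
      · show u (θ (θ.symm x)) = i
        rw [θ.apply_symm_apply]
        exact h1
      · rw [hc, θ.apply_symm_apply]
        exact h2
  refine ⟨⟨hu.surj.comp θ.surjective, ?_, ?_, ?_⟩, ?_⟩
  · obtain ⟨w, hw⟩ := hu.loc
    refine ⟨w + r, fun x y hxy => hw (θ x) (θ y) fun i h1 h2 => hr.loc x y i fun j h3 h4 => ?_⟩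
    exact hxy j (by push_cast; omega) (by push_cast; omega)
  · obtain ⟨w, hw⟩ := hu.win
    refine ⟨w + r, fun x y hxy => ?_⟩
    have h := hw (-(r : ℤ)) r (θ x) (θ y) fun k h1 h2 => by
      rw [← hc, ← hc]
      exact hxy k (by push_cast; omega) (by push_cast; omega)
    have h' := hr.locSymm (θ x) (θ y) 0 fun j h3 h4 => h j (by omega) (by omega)
    rwa [θ.symm_apply_apply, θ.symm_apply_apply] at h'
  · intro x y hxy
    obtain ⟨z, h1, h2⟩ := hu.glue (θ x) (θ y) hxy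
    refine ⟨θ.symm z, fun k hk => ?_, fun k hk => ?_⟩
    · rw [hc, hc, θ.apply_symm_apply]
      exact h1 k hk
    · rw [hc, hc, θ.apply_symm_apply]
      exact h2 k hk
  · funext i j
    unfold tmz tmat
    simp only [Matrix.map_apply]
    congr 1
    by_cases h : ∃ x : Pt, u x = i ∧ u (tr 1 x) = j
    · rw [if_pos h, if_pos ((hex i j).2 h)]
    · rw [if_neg h, if_neg fun h' => h ((hex i j).1 h')]

end Pool.MP_5a0708_an.KRW
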