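import Pool.Agent.Lib.MP_5a0708_an.KRW.SpecC

/-!
# MP_5a0708_an, package KRW : Two
-/

set_option autoImplicit false

namespace Pool.MP_5a0708_an.KRW

open Finset Matrix

private theorem step (hSZ : S_SZ) (A : Matrix (Fin 1) (Fin 1) ℤ) (hA : ∀ i j, A i j = 2)
    (K : KD A) : K.b = 1 ∧ ∀ i j, b22 (K.Q * A * K.P) i j = 2 := by
  have h1 : 1 = K.a + K.b := hSZ.1 1 (K.a + K.b) K.P K.Q K.pq K.qp
  have ha : K.a = 0 := by
    by_contra ha
    have hz := K.z 0 ⟨0, Nat.pos_of_ne_zero ha⟩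
    have hq := congrFun (congrFun K.qp (Fin.castAdd K.b ⟨0, Nat.pos_of_ne_zero ha⟩))
      (Fin.castAdd K.b ⟨0, Nat.pos_of_ne_zero ha⟩)
    rw [Matrix.mul_apply, Fin.sum_univ_one, hA] at hz
    rw [Matrix.mul_apply, Fin.sum_univ_one, Matrix.one_apply_eq] at hq
    have h2 : K.P 0 (Fin.castAdd K.b ⟨0, Nat.pos_of_ne_zero ha⟩) = 0 := by omega
    rw [h2, mul_zero] at hq
    exact zero_ne_one hq
  have hb : K.b = 1 := by omega
  refine ⟨hb, ?_⟩
  intro i j
  have hij : i = j := by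
    apply Fin.ext
    have h3 := i.2
    have h4 := j.2
    omega
  rw [hij]
  have hq := congrFun (congrFun K.qp (Fin.natAdd K.a j)) (Fin.natAdd K.a j)
  rw [Matrix.mul_apply, Fin.sum_univ_one, Matrix.one_apply_eq] at hq
  change (K.Q * A * K.P) (Fin.natAdd K.a j) (Fin.natAdd K.a j) = 2
  rw [Matrix.mul_apply, Fin.sum_univ_one, Matrix.mul_apply, Fin.sum_univ_one, hA]
  linear_combination 2 * hq

theorem t_Two (hSZ : S_SZ) : S_Two := by
  intro m z t n q A C π h hc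
  induction hc with
  | zero A => exact fun hn hA => ⟨hn, hA⟩
  | succ A K C π h hc ih =>
    intro hn hA
    subst hn
    obtain ⟨h1, h2⟩ := step hSZ A hA K
    exact ih h1 h2

end Pool.MP_5a0708_an.KRW
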