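import Pool.Agent.Lib.MP_5a0708_an.KRW.SpecA

/-!
# MP_5a0708_an, package KRW : additivity (module Un)

If the keys of the points of `F₁` are below those of `F₂`, for both keys, then the comparison of
frames of `F₁ ∪ F₂` is the sum of those of `F₁` and `F₂`.
-/

set_option autoImplicit false

namespace Pool.MP_5a0708_an.KRW

open Finset

section un

variable {W Λ Λ' : Type} [LinearOrder Λ] [LinearOrder Λ']

private theorem gp_un (m : ℕ) (s : Equiv.Perm W) (F F₁ F₂ : Finset W) (k : W → Λ) (l : W → Λ')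
    (hF : ∀ x, x ∈ F ↔ x ∈ F₁ ∨ x ∈ F₂) (hd : ∀ x ∈ F₁, x ∉ F₂) :
    gp m s F k l = gp m s F₁ k l + gp m s F₂ k l := by
  classical
  unfold gp
  rw [← Finset.sum_union]
  · apply Finset.sum_congr _ (fun _ _ => rfl)
    ext x
    simp only [mem_union, mem_filter, hF]
    tauto
  · rw [Finset.disjoint_left]
    intro x h1 h2
    exact hd x (mem_filter.mp h1).1 (mem_filter.mp h2).1

private theorem mixed {m : ℕ} {s : Equiv.Perm W} {F₁ F₂ : Finset W} {l : W → Λ'}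
    (h1 : Iv m s F₁) (h2 : Iv m s F₂) (hl : ∀ x ∈ F₁, ∀ y ∈ F₂, l x < l y) {x y : W}
    (hx : x ∈ F₁) (hy : y ∈ F₂) : mkey s l x < mkey s l y := by
  unfold mkey
  exact hl _ (h1.mem hx _) _ (h2.mem hy _)

private theorem iv_un (m d : ℕ) (s : Equiv.Perm W) (F F₁ F₂ : Finset W) (k : W → Λ) (l : W → Λ')
    (hF : ∀ x, x ∈ F ↔ x ∈ F₁ ∨ x ∈ F₂) (hd : ∀ x ∈ F₁, x ∉ F₂) (h1 : Iv m s F₁)
    (h2 : Iv m s F₂) (hk : ∀ x ∈ F₁, ∀ y ∈ F₂, k x < k y)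
    (hl : ∀ x ∈ F₁, ∀ y ∈ F₂, l x < l y) :
    iv d s F k l = iv d s F₁ k l + iv d s F₂ k l := by
  classical
  unfold iv
  rw [← Finset.card_union_of_disjoint]
  · apply congrArg Finset.card
    ext z
    simp only [mem_union, mem_filter, mem_product, hF]
    constructor
    · rintro ⟨⟨ha, hb⟩, hp, hq, hr, ht⟩
      rcases ha with ha | ha <;> rcases hb with hb | hb
      · exact Or.inl ⟨⟨ha, hb⟩, hp, hq, hr, ht⟩
      · exact absurd ht (lt_asymm (mixed h1 h2 hl ha hb))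
      · exact absurd hr (lt_asymm (hk _ hb _ ha))
      · exact Or.inr ⟨⟨ha, hb⟩, hp, hq, hr, ht⟩
    · rintro (⟨⟨ha, hb⟩, hp⟩ | ⟨⟨ha, hb⟩, hp⟩)
      · exact ⟨⟨Or.inl ha, Or.inl hb⟩, hp⟩
      · exact ⟨⟨Or.inr ha, Or.inr hb⟩, hp⟩
  · rw [Finset.disjoint_left]
    intro z ha hb
    exact hd _ (mem_product.mp (mem_filter.mp ha).1).1 (mem_product.mp (mem_filter.mp hb).1).1

end un

theorem t_Un : S_Un := by
  intro W Λ Λ' _ _ _ m s F₁ F₂ k l h1 h2 hk hl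
  have hF : ∀ x, x ∈ F₁ ∪ F₂ ↔ x ∈ F₁ ∨ x ∈ F₂ := fun x => mem_union
  have hd : ∀ x ∈ F₁, x ∉ F₂ := fun x hx hy => lt_irrefl _ (hk x hx x hy)
  have hs : (∑ d ∈ ds m, iv d s (F₁ ∪ F₂) k l : ℕ) =
      (∑ d ∈ ds m, iv d s F₁ k l) + ∑ d ∈ ds m, iv d s F₂ k l := by
    rw [← Finset.sum_add_distrib]
    exact Finset.sum_congr rfl fun d _ => iv_un m d s _ F₁ F₂ k l hF hd h1 h2 hk hl
  unfold Dl
  rw [gp_un m s _ F₁ F₂ k l hF hd, hs, Nat.cast_add]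
  ring

end Pool.MP_5a0708_an.KRW
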