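import Pool.Agent.Lib.MP_5a0708_an.KRW.SpecB

/-!
# MP_5a0708_an, package KRW : module Z
-/

set_option autoImplicit false

namespace Pool.MP_5a0708_an.KRW

open Finset

private theorem TT_pos {m : ℕ} (hm : 0 < m) : 0 < TT m :=
  Nat.mul_pos hm (Nat.factorial_pos m)

private theorem red_z {m : ℕ} (hm : 0 < m) {p q : ℕ} (R : Matrix (Fin p) (Fin q) ℤ) (i : Fin p)
    (j : Fin q) : ((red m R i j : ℕ) : ZMod (TT m)) = ((R i j : ℤ) : ZMod (TT m)) := by
  have hT := TT_pos hm
  have h0 : (0 : ℤ) ≤ R i j % (TT m : ℤ) :=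
    Int.emod_nonneg _ (by exact_mod_cast hT.ne')
  have h1 : ((red m R i j : ℕ) : ℤ) = R i j % (TT m : ℤ) := Int.toNat_of_nonneg h0
  rw [← Int.cast_natCast (R := ZMod (TT m)), h1, ZMod.intCast_mod]

private theorem red_mul {m : ℕ} (hm : 0 < m) {p q r : ℕ} (R : Matrix (Fin p) (Fin q) ℤ)
    (S : Matrix (Fin q) (Fin r) ℤ) (i : Fin p) (j : Fin r) :
    red m (R * S) i j % TT m = (red m R * red m S) i j % TT m := by
  rw [← ZMod.natCast_eq_natCast_iff', red_z hm, Matrix.mul_apply, Matrix.mul_apply]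
  push_cast
  refine Finset.sum_congr rfl fun k _ => ?_
  rw [red_z hm, red_z hm]

private theorem red_zero (m : ℕ) {p q : ℕ} : red m (0 : Matrix (Fin p) (Fin q) ℤ) = 0 := by
  ext i j
  simp [red]

private theorem sgc_zero {m : ℕ} (hm : 0 < m) {p q : ℕ} (R : Matrix (Fin p) (Fin q) ℕ) :
    sgc m R (0 : Matrix (Fin q) (Fin p) ℕ) = 0 := by
  have hE : AP m (fun i j => range (R i j)) (fun (j : Fin q) (i : Fin p) =>
      range ((0 : Matrix (Fin q) (Fin p) ℕ) j i)) = ∅ := by
    rw [Finset.eq_empty_iff_forall_notMem]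
    intro x hx
    have := ((mem_AP hm).1 hx 0).2.2
    simp at this
  unfold sgc DD
  rw [hE]
  simp [Dl, gp, iv]

theorem t_Z (hPer : S_Per) (hTN : S_TN) (hAddN : S_AddN) : S_Z := by
  intro m hm
  refine ⟨⟨?_, ?_, ?_⟩, ?_⟩
  · intro p q r R S T
    simp only [sgz]
    rw [hPer m p q (red m R) (red m R) (red m (S * T)) (red m S * red m T) hm (fun _ _ => rfl)
        (fun i j => red_mul hm S T i j),
      hPer m q r (red m S) (red m S) (red m (T * R)) (red m T * red m R) hm (fun _ _ => rfl)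
        (fun i j => red_mul hm T R i j),
      hPer m p r (red m (R * S)) (red m R * red m S) (red m T) (red m T) hm
        (fun i j => red_mul hm R S i j) (fun _ _ => rfl)]
    exact hTN m p q r _ _ _ hm
  · intro a b c d R S hR hS
    simp only [sgz]
    refine hAddN m a b c d (red m R) (red m S) hm ?_ ?_
    · have : b21 (red m R) = red m (b21 R) := rfl
      rw [this, hR, red_zero]
    · have : b21 (red m S) = red m (b21 S) := rfl
      rw [this, hS, red_zero]
  · intro p q R
    simp only [sgz]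
    rw [red_zero, sgc_zero hm]
  · intro p q R S
    have key : ∀ {a b : ℕ} (M : Matrix (Fin a) (Fin b) ℕ) (i : Fin a) (j : Fin b),
        red m (M.map (Nat.cast : ℕ → ℤ)) i j % TT m = M i j % TT m := by
      intro a b M i j
      rw [← ZMod.natCast_eq_natCast_iff', red_z hm, Matrix.map_apply, Int.cast_natCast]
    exact hPer m p q _ _ _ _ hm (fun i j => key R i j) (fun i j => key S i j)

end Pool.MP_5a0708_an.KRW
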