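import Pool.Agent.Lib.MP_5a0708_an.KRW.SpecC

/-!
# MP_5a0708_an, package KRW : module Z0
-/

set_option autoImplicit false

namespace Pool.MP_5a0708_an.KRW

open Finset Matrix

/-- the first columns of `Q S P` vanish -/
private theorem col_zero {p q n : ℕ} {S : Matrix (Fin q) (Fin p) ℤ} (K : KD S)
    (M : Matrix (Fin n) (Fin q) ℤ) (i : Fin n) (j : Fin K.a) :
    (M * (S * K.P)) i (Fin.castAdd K.b j) = 0 := by
  rw [Matrix.mul_apply]
  refine Finset.sum_eq_zero fun l _ => ?_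
  rw [K.z l j, mul_zero]

/-- the lower rows of `Q R` vanish if `S R = 0` -/
private theorem row_zero {p q n : ℕ} {S : Matrix (Fin q) (Fin p) ℤ} (K : KD S)
    (R : Matrix (Fin p) (Fin n) ℤ) (h : S * R = 0) (i : Fin K.b) (j : Fin n) :
    (K.Q * R) (Fin.natAdd K.a i) j = 0 := by
  have h1 : S *ᵥ (fun l => R l j) = 0 := by
    funext l
    have := congrFun (congrFun h l) j
    exact this
  exact K.k _ h1 i

theorem t_Z0 (hAlg : S_Alg) (hKD : S_KD) : S_Z0 := by
  intro m z hz p q R S hRS hSR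
  obtain ⟨-, h2, h3, -, h5⟩ := hAlg m z hz
  obtain ⟨K⟩ := hKD p q S
  obtain ⟨K'⟩ := hKD q p R
  have e1 := h2 _ _ _ K.Q K.P R S K.pq
  have e2 := h3 _ _ _ K'.P K'.Q (K.Q * R) (S * K.P) K'.pq
  have e3 : K'.Q * (S * K.P) * (K.Q * R) = 0 := by
    have : K'.Q * (S * K.P) * (K.Q * R) = K'.Q * (S * (K.P * K.Q) * R) := by
      simp only [Matrix.mul_assoc]
    rw [this, K.pq, Matrix.mul_one, hSR, Matrix.mul_zero]
  rw [e3, h5, add_zero, e1, hRS, Matrix.zero_mul, h5, add_zero] at e2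
  rw [← e2]
  have c1 : b21 (K.Q * R * K'.P) = 0 := by
    ext i j
    rw [Matrix.mul_assoc]
    exact col_zero K' K.Q _ j
  have c2 : b21 (K'.Q * (S * K.P)) = 0 := by
    ext i j
    exact col_zero K K'.Q _ j
  have c3 : b11 (K'.Q * (S * K.P)) = 0 := by
    ext i j
    exact col_zero K K'.Q _ j
  have c4 : b22 (K'.Q * (S * K.P)) = 0 := by
    ext i j
    show (K'.Q * (S * K.P)) (Fin.natAdd K'.a i) (Fin.natAdd K.a j) = 0
    rw [← Matrix.mul_assoc, Matrix.mul_apply]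
    refine Finset.sum_eq_zero fun l _ => ?_
    rw [row_zero K' S hRS i l, zero_mul]
  rw [hz.add _ _ _ _ _ _ c1 c2, c3, c4, hz.zero, hz.zero, add_zero]

end Pool.MP_5a0708_an.KRW
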