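import Pool.Agent.Lib.MP_5a0708_an.Nil.All
import Pool.Agent.Lib.MP_5a0708_an.KRW.Tr
import Pool.Agent.Lib.MP_5a0708_an.KRW.Coc
import Pool.Agent.Lib.MP_5a0708_an.KRW.Un
import Pool.Agent.Lib.MP_5a0708_an.KRW.Inv
import Pool.Agent.Lib.MP_5a0708_an.KRW.Orb
import Pool.Agent.Lib.MP_5a0708_an.KRW.CntP
import Pool.Agent.Lib.MP_5a0708_an.KRW.Sw
import Pool.Agent.Lib.MP_5a0708_an.KRW.Fib
import Pool.Agent.Lib.MP_5a0708_an.KRW.Sim
import Pool.Agent.Lib.MP_5a0708_an.KRW.Lab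
import Pool.Agent.Lib.MP_5a0708_an.KRW.TA
import Pool.Agent.Lib.MP_5a0708_an.KRW.TB
import Pool.Agent.Lib.MP_5a0708_an.KRW.TC
import Pool.Agent.Lib.MP_5a0708_an.KRW.TT
import Pool.Agent.Lib.MP_5a0708_an.KRW.TN
import Pool.Agent.Lib.MP_5a0708_an.KRW.NP
import Pool.Agent.Lib.MP_5a0708_an.KRW.PF
import Pool.Agent.Lib.MP_5a0708_an.KRW.Per
import Pool.Agent.Lib.MP_5a0708_an.KRW.AddN
import Pool.Agent.Lib.MP_5a0708_an.KRW.Z
import Pool.Agent.Lib.MP_5a0708_an.KRW.Alg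
import Pool.Agent.Lib.MP_5a0708_an.KRW.KD
import Pool.Agent.Lib.MP_5a0708_an.KRW.Z0
import Pool.Agent.Lib.MP_5a0708_an.KRW.St
import Pool.Agent.Lib.MP_5a0708_an.KRW.CorEx
import Pool.Agent.Lib.MP_5a0708_an.KRW.COR
import Pool.Agent.Lib.MP_5a0708_an.KRW.EIG
import Pool.Agent.Lib.MP_5a0708_an.KRW.SZ
import Pool.Agent.Lib.MP_5a0708_an.KRW.INJ
import Pool.Agent.Lib.MP_5a0708_an.KRW.Two
import Pool.Agent.Lib.MP_5a0708_an.KRW.Chi
import Pool.Agent.Lib.MP_5a0708_an.KRW.Pot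
import Pool.Agent.Lib.MP_5a0708_an.KRW.Real
import Pool.Agent.Lib.MP_5a0708_an.KRW.GSp
import Pool.Agent.Lib.MP_5a0708_an.KRW.Enum
import Pool.Agent.Lib.MP_5a0708_an.KRW.CH
import Pool.Agent.Lib.MP_5a0708_an.KRW.REd
import Pool.Agent.Lib.MP_5a0708_an.KRW.LEd
import Pool.Agent.Lib.MP_5a0708_an.KRW.Lam
import Pool.Agent.Lib.MP_5a0708_an.KRW.LamM
import Pool.Agent.Lib.MP_5a0708_an.KRW.LamR
import Pool.Agent.Lib.MP_5a0708_an.KRW.LamL
import Pool.Agent.Lib.MP_5a0708_an.KRW.U0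
import Pool.Agent.Lib.MP_5a0708_an.KRW.Tw
import Pool.Agent.Lib.MP_5a0708_an.KRW.LamT
import Pool.Agent.Lib.MP_5a0708_an.KRW.Edge
import Pool.Agent.Lib.MP_5a0708_an.KRW.KRW
import Pool.Agent.Lib.MP_5a0708_an.KRW.Rot
import Pool.Agent.Lib.MP_5a0708_an.KRW.Ab

/-!
# MP_5a0708_an, package KRW : assembly
-/

set_option autoImplicit false

namespace Pool.MP_5a0708_an.KRW

open Pool.MP_5a0708_an.Nil

theorem all_sw : S_Sw := t_Sw t_Inv t_Orb t_CntP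

theorem all_sim : S_Sim := t_Sim t_Tr (t_Fib t_Tr t_Coc all_sw)

theorem all_lab : S_Lab := t_Lab t_Tr

theorem all_tn : S_TN := t_TN (t_TT t_Tr t_Coc (t_TA t_Tr all_sim) (t_TB t_Tr) (t_TC t_Tr)) all_lab

theorem all_z : S_Z := t_Z (t_Per t_NP (t_PF all_lab) all_tn) all_tn (t_AddN t_Tr t_Un)

theorem all_cor : S_COR := t_COR (t_St t_Alg (t_Z0 t_Alg t_KD))

theorem all_pot : S_Pot :=
  t_Pot (t_CorEx t_KD) all_cor t_EIG (t_INJ t_SZ) t_SZ (t_Two t_SZ) (t_Chi t_Alg)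

theorem all_edge : S_Edge :=
  t_Edge t_Coc all_z (t_CH t_GSp t_Enum) (t_REd t_Tr t_Real) (t_LEd t_Tr t_Real) t_Lam
    (t_LamM t_Lam) (t_LamR t_Lam) (t_LamL t_Lam)

/-- the theorem of Kim, Roush and Wagoner for automorphisms preserving zero blocks -/
theorem all_krw : S_KRW :=
  t_KRW all_edge all_pot all_z t_U0 t_Tw (t_LamM t_Lam) (t_LamT t_Lam t_U0 t_Tw)

/-- the main theorem: every commutator of automorphisms of the 2-shift is in `G` -/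
theorem all_ab : S_Ab :=
  t_Ab tCAOF (tPC (tPCN (tMOV all_pqs tLYN tRR) tRR) (tCELLT all_cut all_cutQ (pre_endt all_win)))
    (t_Rot all_krw tRR)
    (tTHT all_gk (tEF (tEFL (tLSW tSCA tFW))) (tBET all_cut all_cutQ (pre_endt all_win)) tCLA
      all_cut all_cutQ (pre_endt all_win)
      (tEPS (pre_ew all_win) (tETB tETA) (tETC tETA) (tETD (tETC tETA)) (tETE tETA)) (tCNG tNRM)
      tNRM)
    (tCNG tNRM)

end Pool.MP_5a0708_an.KRW
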