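import Pool.Agent.Lib.MP_5a0708_an.KRW.SpecC
import Pool.Agent.Lib.MP_5a0708_an.Nil.SpecD

/-!
# MP_5a0708_an, package KRW : codings of the 2-shift, definitions and basic lemmas
-/

set_option autoImplicit false

namespace Pool.MP_5a0708_an.KRW

open Finset Matrix Pool.MP_5a0708_an.Nil

/-- `u` is a coding which identifies the 2-shift with the vertex shift of the matrix `tmat u` -/
structure Gd (n : ℕ) (u : Pt → Fin n) : Prop where
  surj : Function.Surjective u
  loc : ∃ w : ℕ, ∀ x y : Pt, (∀ i : ℤ, -w ≤ i → i ≤ w → x i = y i) → u x = u y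
  inj : ∃ w : ℕ, ∀ x y : Pt, (∀ k : ℤ, -w ≤ k → k ≤ w → u (tr k x) = u (tr k y)) → x 0 = y 0
  glue : ∀ x y : Pt, u x = u y → ∃ z : Pt, (∀ k : ℤ, k ≤ 0 → u (tr k z) = u (tr k x)) ∧
    ∀ k : ℤ, 0 ≤ k → u (tr k z) = u (tr k y)

/-- the transition matrix of the coding `u` -/
noncomputable def tmat {n : ℕ} (u : Pt → Fin n) : Matrix (Fin n) (Fin n) ℕ := fun i j =>
  open Classical in if ∃ x : Pt, u x = i ∧ u (tr 1 x) = j then 1 else 0

/-- the transition matrix over `ℤ` -/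
noncomputable def tmz {n : ℕ} (u : Pt → Fin n) : Matrix (Fin n) (Fin n) ℤ :=
  (tmat u).map (Nat.cast : ℕ → ℤ)

/-- the points of period `m` -/
noncomputable def PP (m : ℕ) : Finset Pt := fs {x : Pt | ∀ k : ℤ, x (k + m) = x k}

/-- the key of a periodic point given by the coding `u` -/
def uk (m : ℕ) {n : ℕ} (u : Pt → Fin n) (x : Pt) : Lex (Fin m → Fin n) :=
  toLex (fun t : Fin m => u (tr ((t : ℕ) : ℤ) x))

/-- the coding by the letter at `0` -/
def u0 (x : Pt) : Fin 2 := if x 0 = true then 1 else 0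

/-- `u'` is a right splitting of `u` (along `p`) -/
def RSp {n n' : ℕ} (u : Pt → Fin n) (u' : Pt → Fin n') (p : Fin n' → Fin n) : Prop :=
  (∀ x : Pt, u x = p (u' x)) ∧
    ∀ x y : Pt, u x = u y → u (tr 1 x) = u (tr 1 y) → u' x = u' y

/-- `u'` is a left splitting of `u` (along `p`) -/
def LSp {n n' : ℕ} (u : Pt → Fin n) (u' : Pt → Fin n') (p : Fin n' → Fin n) : Prop :=
  (∀ x : Pt, u x = p (u' x)) ∧
    ∀ x y : Pt, u x = u y → u (tr (-1) x) = u (tr (-1) y) → u' x = u' y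

/-- the number of points `y` which vanish on `(-∞, -T)` and have the same `u`-future as `x` -/
noncomputable def cnt (T : ℕ) {n : ℕ} (u : Pt → Fin n) (x : Pt) : ℕ :=
  Set.ncard {y : Pt | (∀ i : ℤ, i < -T → y i = false) ∧ ∀ k : ℕ, u (tr k y) = u (tr k x)}

/-- `l` is the normalised left eigenvector of the coding `u` -/
def LamSp {n : ℕ} (u : Pt → Fin n) (l : Fin n → ℚ) : Prop :=
  ∃ T₀ : ℕ, ∀ (x : Pt) (T : ℕ), T₀ ≤ T → (cnt T u x : ℚ) = l (u x) * 2 ^ T

/-- the normalised left eigenvector of the coding `u` -/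
noncomputable def lam {n : ℕ} (u : Pt → Fin n) : Fin n → ℚ :=
  open Classical in if h : ∃ l : Fin n → ℚ, LamSp u l then h.choose else 0

/-- the comparison of `u` and `u'` is the difference of the potentials -/
def Er (m : ℕ) (Ty : ℕ → (n : ℕ) → Matrix (Fin n) (Fin n) ℤ → Prop)
    (Φ : ℕ → (n : ℕ) → Matrix (Fin n) (Fin n) ℤ → (Fin n → ℚ) → ZMod m) (n : ℕ) (u : Pt → Fin n)
    (n' : ℕ) (u' : Pt → Fin n') : Prop :=
  ∃ t₀ : ℕ, ∀ t : ℕ, t₀ ≤ t → (Ty t n (tmz u) ↔ Ty t n' (tmz u')) ∧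
    (Ty t n (tmz u) → Dl m (shf Bool) (PP m) (uk m u) (uk m u') =
      Φ t n (tmz u) (lam u) - Φ t n' (tmz u') (lam u'))

/-! ### basic lemmas -/

theorem shf_eq_tr (x : Pt) : shf Bool x = tr 1 x := rfl

theorem shf_pow_tr (t : ℕ) (x : Pt) : ((shf Bool) ^ t) x = tr t x := by
  rw [shf_pow]; rfl

theorem tr_tr' (a b : ℤ) (x : Pt) : tr a (tr b x) = tr (a + b) x := by
  funext i; simp only [tr]; congr 1; ring

theorem tr_zero' (x : Pt) : tr 0 x = x := by
  funext i; simp [tr]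

theorem tr_at (k : ℤ) (x : Pt) : tr k x 0 = x k := by simp [tr]

theorem mem_PP {m : ℕ} (hm : 0 < m) {x : Pt} : x ∈ PP m ↔ ∀ k : ℤ, x (k + m) = x k := by
  unfold PP
  rw [mem_fs]
  · rfl
  · refine (per_finite (C := Bool) hm (A := Set.univ) Set.finite_univ).subset ?_
    intro x hx
    exact fun k => ⟨hx k, Set.mem_univ _⟩

theorem mem_PP_tr {m : ℕ} (hm : 0 < m) {x : Pt} : x ∈ PP m ↔ tr (m : ℤ) x = x := by
  rw [mem_PP hm]
  constructor
  · intro h; funext k; exact h k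
  · intro h k; exact congrFun h k

theorem iv_PP {m : ℕ} (hm : 0 < m) : Iv m (shf Bool) (PP m) where
  pos := hm
  st := by
    intro x hx
    rw [mem_PP hm] at hx ⊢
    intro k
    rw [shf_eq_tr]
    simp only [tr]
    have := hx (k + 1)
    rw [← this]
    congr 1
    ring
  per := by
    intro x hx
    rw [shf_pow_tr]
    exact (mem_PP_tr hm).1 hx

theorem Gd.det {n : ℕ} {u : Pt → Fin n} (h : Gd n u) {x y : Pt}
    (hxy : ∀ k : ℤ, u (tr k x) = u (tr k y)) : x = y := by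
  obtain ⟨w, hw⟩ := h.inj
  funext i
  have := hw (tr i x) (tr i y) (fun k _ _ => by rw [tr_tr', tr_tr']; exact hxy _)
  rwa [tr_at, tr_at] at this

/-- the letters on `[a, b]` are determined by the codes on `[a - w, b + w]` -/
theorem Gd.win {n : ℕ} {u : Pt → Fin n} (h : Gd n u) : ∃ w : ℕ, ∀ (a b : ℤ) (x y : Pt),
    (∀ k : ℤ, a - w ≤ k → k ≤ b + w → u (tr k x) = u (tr k y)) →
    ∀ i : ℤ, a ≤ i → i ≤ b → x i = y i := by
  obtain ⟨w, hw⟩ := h.inj
  refine ⟨w, fun a b x y hxy i hi hi' => ?_⟩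
  have := hw (tr i x) (tr i y) (fun k hk hk' => by
    rw [tr_tr', tr_tr']; exact hxy _ (by omega) (by omega))
  rwa [tr_at, tr_at] at this

/-- the codes on `[a, b]` are determined by the letters on `[a - w, b + w]` -/
theorem Gd.locw {n : ℕ} {u : Pt → Fin n} (h : Gd n u) : ∃ w : ℕ, ∀ (a b : ℤ) (x y : Pt),
    (∀ i : ℤ, a - w ≤ i → i ≤ b + w → x i = y i) →
    ∀ k : ℤ, a ≤ k → k ≤ b → u (tr k x) = u (tr k y) := by
  obtain ⟨w, hw⟩ := h.loc
  refine ⟨w, fun a b x y hxy k hk hk' => hw _ _ fun i hi hi' => ?_⟩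
  simp only [tr]
  exact hxy _ (by omega) (by omega)

theorem ki_uk {n : ℕ} {u : Pt → Fin n} (h : Gd n u) {m : ℕ} (hm : 0 < m) :
    Ki (PP m) (uk m u) := by
  intro x hx y hy hxy
  have h1 : ∀ t : Fin m, u (tr ((t : ℕ) : ℤ) x) = u (tr ((t : ℕ) : ℤ) y) := fun t =>
    congrFun (toLex.injective hxy) t
  refine h.det fun k => ?_
  rw [mem_PP hm] at hx hy
  have hk : 0 ≤ k % m := Int.emod_nonneg _ (by omega)
  have hk' : k % m < m := Int.emod_lt_of_pos _ (by omega)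
  have e : ∀ z : Pt, (∀ j : ℤ, z (j + m) = z j) → tr k z = tr (k % m) z := by
    intro z hz
    funext i
    simp only [tr]
    have := per_mul hz (k / m) (i + k % m)
    rw [← this]
    congr 1
    have := Int.emod_add_mul_ediv k m
    linarith
  rw [e x hx, e y hy]
  have := h1 ⟨(k % m).toNat, by omega⟩
  simpa [Int.toNat_of_nonneg hk] using this

end Pool.MP_5a0708_an.KRW
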