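import Pool.Agent.Lib.MP_5a0708_an.KRW.Defs

/-!
# MP_5a0708_an, package KRW : basic lemmas
-/

set_option autoImplicit false

namespace Pool.MP_5a0708_an.KRW

open Finset

/-! ### frames -/

section frames

variable {W Λ : Type} [LinearOrder Λ] {m : ℕ} {s : Equiv.Perm W} {F : Finset W} {k : W → Λ}

theorem pow_ap (s : Equiv.Perm W) (a b : ℕ) (x : W) : (s ^ a) ((s ^ b) x) = (s ^ (a + b)) x := by
  rw [pow_add, Equiv.Perm.mul_apply]

theorem Iv.mem (h : Iv m s F) {x : W} (hx : x ∈ F) (t : ℕ) : (s ^ t) x ∈ F := by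
  induction t with
  | zero => simpa using hx
  | succ t ih =>
    rw [pow_succ', Equiv.Perm.mul_apply]
    exact h.st _ ih

theorem Iv.mul_m (h : Iv m s F) {x : W} (hx : x ∈ F) (c t : ℕ) :
    (s ^ (t + c * m)) x = (s ^ t) x := by
  induction c with
  | zero => simp
  | succ c ih =>
    have e : t + (c + 1) * m = (t + c * m) + m := by ring
    rw [e, ← pow_ap, h.per x hx, ih]

theorem Iv.mod (h : Iv m s F) {x : W} (hx : x ∈ F) (t : ℕ) :
    (s ^ (t % m)) x = (s ^ t) x := by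
  have := h.mul_m hx (t / m) (t % m)
  rw [← this]
  congr 2
  rw [mul_comm]
  exact Nat.mod_add_div t m

/-- every orbit has a least element -/
theorem exists_mn (h : Iv m s F) {x : W} (hx : x ∈ F) : ∃ t : ℕ, t < m ∧ Mn s k ((s ^ t) x) := by
  obtain ⟨t, ht, hmin⟩ := Finset.exists_min_image (range m) (fun t => k ((s ^ t) x))
    ⟨0, mem_range.mpr h.pos⟩
  refine ⟨t, mem_range.mp ht, ?_⟩
  intro u
  rw [pow_ap, ← h.mod hx (u + t)]
  exact hmin _ (mem_range.mpr (Nat.mod_lt _ h.pos))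

theorem sh_spec (h : Iv m s F) {x : W} (hx : x ∈ F) : Mn s k ((s ^ (sh s k x)) x) := by
  obtain ⟨t, -, ht⟩ := exists_mn (k := k) h hx
  exact Nat.sInf_mem (s := {t : ℕ | Mn s k ((s ^ t) x)}) ⟨t, ht⟩

theorem sh_le {x : W} {t : ℕ} (ht : Mn s k ((s ^ t) x)) : sh s k x ≤ t := Nat.sInf_le ht

theorem sh_lt (h : Iv m s F) {x : W} (hx : x ∈ F) : sh s k x < m := by
  obtain ⟨t, htm, ht⟩ := exists_mn (k := k) h hx
  exact lt_of_le_of_lt (sh_le ht) htm

theorem sh_eq_zero {x : W} (hx : Mn s k x) : sh s k x = 0 := by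
  have : Mn s k ((s ^ 0) x) := by simpa using hx
  have := sh_le this
  omega

theorem mkey_of_mn {x : W} (hx : Mn s k x) : mkey s k x = k x := by
  rw [mkey, sh_eq_zero hx]
  simp

/-- least elements of the same orbit are equal -/
theorem mn_unique (h : Iv m s F) (hk : Ki F k) {x : W} (hx : x ∈ F) {t : ℕ} (h1 : Mn s k x)
    (h2 : Mn s k ((s ^ t) x)) : (s ^ t) x = x := by
  apply hk _ (h.mem hx t) _ hx
  apply le_antisymm _ (h1 t)
  -- come back to `x`
  have h3 := h2 (t * (m - 1))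
  rw [pow_ap] at h3
  have e : t * (m - 1) + t = 0 + t * m := by
    obtain ⟨c, rfl⟩ : ∃ c, m = c + 1 := ⟨m - 1, by have := h.pos; omega⟩
    simp only [Nat.add_sub_cancel]
    ring
  rw [e, h.mul_m hx t 0] at h3
  simpa using h3

theorem mkey_le (h : Iv m s F) {x : W} (hx : x ∈ F) (t : ℕ) : mkey s k x ≤ k ((s ^ t) x) := by
  -- `k` at the minimum is below every value on the orbit
  have h1 := sh_spec (k := k) h hx
  have h2 := h1 (t + sh s k x * (m - 1))
  rw [pow_ap] at h2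
  have e : t + sh s k x * (m - 1) + sh s k x = t + sh s k x * m := by
    obtain ⟨c, rfl⟩ : ∃ c, m = c + 1 := ⟨m - 1, by have := h.pos; omega⟩
    simp only [Nat.add_sub_cancel]
    ring
  rw [e, h.mul_m hx (sh s k x) t] at h2
  exact h2

theorem mkey_pow (h : Iv m s F) {x : W} (hx : x ∈ F) (t : ℕ) :
    mkey s k ((s ^ t) x) = mkey s k x := by
  apply le_antisymm
  · have := mkey_le (k := k) h (h.mem hx t) (sh s k x + t * (m - 1))
    rw [pow_ap] at this
    have e : sh s k x + t * (m - 1) + t = sh s k x + t * m := by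
      obtain ⟨c, rfl⟩ : ∃ c, m = c + 1 := ⟨m - 1, by have := h.pos; omega⟩
      simp only [Nat.add_sub_cancel]
      ring
    rw [e, h.mul_m hx t (sh s k x)] at this
    exact this
  · have := mkey_le (k := k) h hx (sh s k ((s ^ t) x) + t)
    rw [← pow_ap] at this
    exact this

/-- equal minimal keys: the same orbit -/
theorem orb_of_mkey (h : Iv m s F) (hk : Ki F k) {x y : W} (hx : x ∈ F) (hy : y ∈ F)
    (he : mkey s k x = mkey s k y) : ∃ t : ℕ, y = (s ^ t) x := by
  have h1 : (s ^ (sh s k x)) x = (s ^ (sh s k y)) y :=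
    hk _ (h.mem hx _) _ (h.mem hy _) he
  refine ⟨sh s k y * (m - 1) + sh s k x, ?_⟩
  rw [← pow_ap, h1, pow_ap]
  have e : sh s k y * (m - 1) + sh s k y = 0 + sh s k y * m := by
    obtain ⟨c, rfl⟩ : ∃ c, m = c + 1 := ⟨m - 1, by have := h.pos; omega⟩
    simp only [Nat.add_sub_cancel]
    ring
  rw [e, h.mul_m hy (sh s k y) 0]
  simp

/-- for a point of least period `d`: equal translates -/
theorem LPr.eq_iff {d : ℕ} {x : W} (hx : LPr s d x) (a b : ℕ) :
    (s ^ a) x = (s ^ b) x ↔ (a : ZMod d) = (b : ZMod d) := by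
  obtain ⟨hd, hp, hl⟩ := hx
  have hmod : ∀ t : ℕ, (s ^ t) x = (s ^ (t % d)) x := by
    intro t
    have : ∀ c u : ℕ, (s ^ (u + d * c)) x = (s ^ u) x := by
      intro c
      induction c with
      | zero => intro u; simp
      | succ c ih =>
        intro u
        have e : u + d * (c + 1) = (u + d * c) + d := by ring
        rw [e, ← pow_ap, hp, ih]
    conv_lhs => rw [← Nat.mod_add_div t d]
    exact this _ _
  rw [ZMod.natCast_eq_natCast_iff']
  constructor
  · intro h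
    rw [hmod a, hmod b] at h
    have ha := Nat.mod_lt a hd
    have hb := Nat.mod_lt b hd
    -- wlog
    have key : ∀ u v : ℕ, u ≤ v → v < d → (s ^ u) x = (s ^ v) x → u = v := by
      intro u v huv hv he
      by_contra hne
      have h1 : (s ^ u) ((s ^ (v - u)) x) = (s ^ u) x := by
        rw [pow_ap, show u + (v - u) = v by omega]
        exact he.symm
      exact hl (v - u) (by omega) (by omega) ((s ^ u).injective h1)
    rcases le_total (a % d) (b % d) with h1 | h1
    · exact key _ _ h1 hb h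
    · exact (key _ _ h1 ha h.symm).symm
  · intro h
    rw [hmod a, hmod b, h]

theorem LPr.pow {d : ℕ} {x : W} (hx : LPr s d x) (t : ℕ) : LPr s d ((s ^ t) x) := by
  obtain ⟨hd, hp, hl⟩ := hx
  refine ⟨hd, ?_, ?_⟩
  · rw [pow_ap, add_comm, ← pow_ap, hp]
  · intro u h1 h2 h3
    rw [pow_ap, add_comm, ← pow_ap] at h3
    exact hl u h1 h2 ((s ^ t).injective h3)

/-- the least period divides `m` -/
theorem LPr.dvd (h : Iv m s F) {d : ℕ} {x : W} (hF : x ∈ F) (hx : LPr s d x) : d ∣ m := by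
  have h1 := (hx.eq_iff m 0).1 (by rw [h.per x hF]; simp)
  rw [Nat.cast_zero] at h1
  exact (ZMod.natCast_eq_zero_iff m d).1 h1

/-- the steps to the minimum, for translates of a point of least period `m` -/
theorem sh_pow (h : Iv m s F) (hk : Ki F k) {x : W} (hF : x ∈ F) (hx : LPr s m x) (t : ℕ) :
    ((sh s k ((s ^ t) x) : ℕ) : ZMod m) = (sh s k x : ZMod m) - (t : ZMod m) := by
  have h1 := sh_spec (k := k) h (h.mem hF t)
  have h2 := sh_spec (k := k) h hF
  rw [pow_ap] at h1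
  have h3 : (s ^ (sh s k ((s ^ t) x) + t)) x = (s ^ (sh s k x)) x := by
    apply hk _ (h.mem hF _) _ (h.mem hF _)
    apply le_antisymm
    · have e : mkey s k ((s ^ t) x) = mkey s k x := mkey_pow h hF t
      have e1 : mkey s k ((s ^ t) x) = k ((s ^ (sh s k ((s ^ t) x) + t)) x) := by
        rw [mkey, pow_ap]
      rw [← e1, e]
      rfl
    · have e : mkey s k ((s ^ t) x) = mkey s k x := mkey_pow h hF t
      have e1 : mkey s k ((s ^ t) x) = k ((s ^ (sh s k ((s ^ t) x) + t)) x) := by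
        rw [mkey, pow_ap]
      rw [← e1, e]
      rfl
  have h4 := (hx.eq_iff _ _).1 h3
  rw [Nat.cast_add] at h4
  rw [← h4]
  ring

end frames

/-! ### sequences -/

theorem shf_ap {C : Type} (x : ℤ → C) : shf C x = fun k => x (k + 1) := rfl

theorem shf_pow {C : Type} (t : ℕ) (x : ℤ → C) : ((shf C) ^ t) x = fun k => x (k + t) := by
  induction t with
  | zero => funext k; simp
  | succ t ih =>
    rw [pow_succ', Equiv.Perm.mul_apply, ih, shf_ap]
    funext k
    congr 1
    push_cast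
    ring

theorem mem_fs {W : Type} {S : Set W} (h : S.Finite) {x : W} : x ∈ fs S ↔ x ∈ S := by
  unfold fs
  rw [dif_pos h]
  exact Set.Finite.mem_toFinset h

/-- an `m`-periodic sequence at all integers -/
theorem per_mul {C : Type} {m : ℕ} {x : ℤ → C} (hx : ∀ k : ℤ, x (k + m) = x k) (a k : ℤ) :
    x (k + a * m) = x k := by
  have h1 : ∀ (c : ℕ) (k : ℤ), x (k + c * m) = x k := by
    intro c
    induction c with
    | zero => intro k; simp
    | succ c ih =>
      intro k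
      have e : k + ((c + 1 : ℕ) : ℤ) * m = (k + c * m) + m := by push_cast; ring
      rw [e, hx, ih]
  rcases Int.eq_nat_or_neg a with ⟨c, rfl | rfl⟩
  · exact h1 c k
  · have := h1 c (k + -(c : ℤ) * m)
    rw [← this]
    congr 1
    ring

theorem per_mod {C : Type} {m : ℕ} {x : ℤ → C} (hx : ∀ k : ℤ, x (k + m) = x k) (k : ℤ) :
    x (k % m) = x k := by
  have := per_mul hx (k / m) (k % m)
  rw [← this]
  congr 1
  have := Int.emod_add_mul_ediv k m
  linarith

theorem per_finite {C : Type} {m : ℕ} (hm : 0 < m) {A : Set C} (hA : A.Finite) :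
    {x : ℤ → C | ∀ k : ℤ, x (k + m) = x k ∧ x k ∈ A}.Finite := by
  have hfin : (Set.pi Set.univ (fun _ : Fin m => A)).Finite := Set.Finite.pi fun _ => hA
  refine Set.Finite.of_finite_image (f := fun x : ℤ → C => fun t : Fin m => x ((t : ℕ) : ℤ))
    (hfin.subset ?_) ?_
  · rintro _ ⟨x, hx, rfl⟩
    intro t _
    exact (hx _).2
  · intro x hx y hy hxy
    funext k
    have hm' : (0 : ℤ) < m := by exact_mod_cast hm
    have h0 := Int.emod_nonneg k (ne_of_gt hm')
    have h1 := Int.emod_lt_of_pos k hm'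
    rw [← per_mod (fun k => (hx k).1) k, ← per_mod (fun k => (hy k).1) k]
    have h2 := congrFun hxy ⟨(k % m).toNat, by omega⟩
    simpa [Int.toNat_of_nonneg h0] using h2

section paths

variable {I J L α β γ : Type} [Fintype I] [Fintype J] [Fintype L]

theorem mem_AP {m : ℕ} (hm : 0 < m) {U : I → J → Finset α} {V : J → I → Finset β}
    {x : ℤ → I × J × α × β} : x ∈ AP m U V ↔ ∀ k : ℤ, x (k + m) = x k ∧
      (x k).2.2.1 ∈ U (x k).1 (x k).2.1 ∧ (x k).2.2.2 ∈ V (x k).2.1 (x (k + 1)).1 := by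
  classical
  unfold AP
  rw [mem_fs]
  · rfl
  refine (per_finite hm (A := {c : I × J × α × β | c.2.2.1 ∈ (univ.biUnion fun i =>
    univ.biUnion fun j => U i j) ∧ c.2.2.2 ∈ (univ.biUnion fun j => univ.biUnion fun i => V j i)})
    ?_).subset ?_
  · refine ((Set.finite_univ (α := I)).prod ((Set.finite_univ (α := J)).prod
      (((univ.biUnion fun i => univ.biUnion fun j => U i j).finite_toSet).prod
        ((univ.biUnion fun j => univ.biUnion fun i => V j i).finite_toSet)))).subset ?_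
    rintro ⟨i, j, a, b⟩ ⟨h1, h2⟩
    exact ⟨Set.mem_univ _, Set.mem_univ _, Finset.mem_coe.mpr h1, Finset.mem_coe.mpr h2⟩
  · intro x hx k
    refine ⟨(hx k).1, ?_, ?_⟩
    · simp only [mem_biUnion, mem_univ, true_and]
      exact ⟨_, _, (hx k).2.1⟩
    · simp only [mem_biUnion, mem_univ, true_and]
      exact ⟨_, _, (hx k).2.2⟩

theorem mem_TP {m : ℕ} (hm : 0 < m) {U : I → J → Finset α} {V : J → L → Finset β}
    {Z : L → I → Finset γ} {x : ℤ → I × J × L × α × β × γ} : x ∈ TP m U V Z ↔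
      ∀ k : ℤ, x (k + m) = x k ∧ (x k).2.2.2.1 ∈ U (x k).1 (x k).2.1 ∧
    (x k).2.2.2.2.1 ∈ V (x k).2.1 (x k).2.2.1 ∧
    (x k).2.2.2.2.2 ∈ Z (x k).2.2.1 (x (k + 1)).1 := by
  classical
  unfold TP
  rw [mem_fs]
  · rfl
  refine (per_finite hm (A := {c : I × J × L × α × β × γ | c.2.2.2.1 ∈ (univ.biUnion fun i =>
    univ.biUnion fun j => U i j) ∧ c.2.2.2.2.1 ∈ (univ.biUnion fun j => univ.biUnion fun l => V j l) ∧
    c.2.2.2.2.2 ∈ (univ.biUnion fun l => univ.biUnion fun i => Z l i)}) ?_).subset ?_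
  · refine ((Set.finite_univ (α := I)).prod ((Set.finite_univ (α := J)).prod
      ((Set.finite_univ (α := L)).prod
      (((univ.biUnion fun i => univ.biUnion fun j => U i j).finite_toSet).prod
        (((univ.biUnion fun j => univ.biUnion fun l => V j l).finite_toSet).prod
        ((univ.biUnion fun l => univ.biUnion fun i => Z l i).finite_toSet)))))).subset ?_
    rintro ⟨i, j, l, a, b, c⟩ ⟨h1, h2, h3⟩
    exact ⟨Set.mem_univ _, Set.mem_univ _, Set.mem_univ _, Finset.mem_coe.mpr h1,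
      Finset.mem_coe.mpr h2, Finset.mem_coe.mpr h3⟩
  · intro x hx k
    refine ⟨(hx k).1, ?_, ?_, ?_⟩
    · simp only [mem_biUnion, mem_univ, true_and]
      exact ⟨_, _, (hx k).2.1⟩
    · simp only [mem_biUnion, mem_univ, true_and]
      exact ⟨_, _, (hx k).2.2.1⟩
    · simp only [mem_biUnion, mem_univ, true_and]
      exact ⟨_, _, (hx k).2.2.2⟩

end paths

section paths2

variable {I J L α β : Type} [Fintype J]

theorem mem_cmp {U : I → J → Finset α} {V : J → L → Finset β} {i : I} {l : L} {p : J ×ₗ α ×ₗ β} :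
    p ∈ cmp U V i l ↔ (ofLex (ofLex p).2).1 ∈ U i (ofLex p).1 ∧
      (ofLex (ofLex p).2).2 ∈ V (ofLex p).1 l := by
  classical
  unfold cmp
  simp only [mem_biUnion, mem_univ, true_and, mem_image, mem_product]
  constructor
  · rintro ⟨j, ⟨a, b⟩, ⟨h1, h2⟩, rfl⟩
    exact ⟨h1, h2⟩
  · rintro ⟨h1, h2⟩
    exact ⟨(ofLex p).1, ((ofLex (ofLex p).2).1, (ofLex (ofLex p).2).2), ⟨h1, h2⟩, rfl⟩

theorem card_cmp (U : I → J → Finset α) (V : J → L → Finset β) (i : I) (l : L) :
    (cmp U V i l).card = ∑ j, (U i j).card * (V j l).card := by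
  classical
  unfold cmp
  rw [card_biUnion]
  · refine sum_congr rfl fun j _ => ?_
    rw [card_image_of_injective, card_product]
    intro p q h
    have h1 : (ofLex (ofLex (toLex (j, toLex (p.1, p.2)) : J ×ₗ α ×ₗ β)).2) =
        (ofLex (ofLex (toLex (j, toLex (q.1, q.2)) : J ×ₗ α ×ₗ β)).2) := by
      exact congrArg (fun z : J ×ₗ α ×ₗ β => ofLex (ofLex z).2) h
    simpa using h1
  · intro j _ j' _ hne
    rw [Function.onFun, disjoint_left]
    intro p hp hp'
    simp only [mem_image] at hp hp'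
    obtain ⟨q, -, rfl⟩ := hp
    obtain ⟨q', -, h⟩ := hp'
    exact hne (congrArg (fun z : J ×ₗ α ×ₗ β => (ofLex z).1) h).symm

end paths2

section graphs

variable {E I : Type}

theorem mem_CP {m : ℕ} (hm : 0 < m) {ED : Finset E} {src tgt : E → I} {x : ℤ → E} :
    x ∈ CP m ED src tgt ↔
      ∀ k : ℤ, x (k + m) = x k ∧ x k ∈ ED ∧ tgt (x k) = src (x (k + 1)) := by
  unfold CP
  rw [mem_fs]
  · rfl
  refine (per_finite hm ED.finite_toSet).subset ?_
  intro x hx k
  exact ⟨(hx k).1, (hx k).2.1⟩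

end graphs

/-! ### invariance and injectivity of keys -/

theorem iv_seq {C : Type} {m : ℕ} (hm : 0 < m) {F : Finset (ℤ → C)}
    (h1 : ∀ x ∈ F, ∀ k : ℤ, x (k + m) = x k) (h2 : ∀ x ∈ F, shf C x ∈ F) : Iv m (shf C) F := by
  refine ⟨hm, h2, ?_⟩
  intro x hx
  rw [shf_pow]
  funext k
  exact h1 x hx k

theorem iv_AP {I J α β : Type} [Fintype I] [Fintype J] {m : ℕ} (hm : 0 < m)
    (U : I → J → Finset α) (V : J → I → Finset β) : Iv m (shf _) (AP m U V) := by
  refine iv_seq hm (fun x hx k => ((mem_AP hm).1 hx k).1) ?_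
  intro x hx
  rw [mem_AP hm] at hx ⊢
  intro k
  refine ⟨?_, (hx (k + 1)).2.1, (hx (k + 1)).2.2⟩
  have := (hx (k + 1)).1
  show x (k + m + 1) = x (k + 1)
  rw [← this]
  congr 1
  ring

theorem iv_TP {I J L α β γ : Type} [Fintype I] [Fintype J] [Fintype L] {m : ℕ} (hm : 0 < m)
    (U : I → J → Finset α) (V : J → L → Finset β) (Z : L → I → Finset γ) :
    Iv m (shf _) (TP m U V Z) := by
  refine iv_seq hm (fun x hx k => ((mem_TP hm).1 hx k).1) ?_
  intro x hx
  rw [mem_TP hm] at hx ⊢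
  intro k
  refine ⟨?_, (hx (k + 1)).2.1, (hx (k + 1)).2.2.1, (hx (k + 1)).2.2.2⟩
  have := (hx (k + 1)).1
  show x (k + m + 1) = x (k + 1)
  rw [← this]
  congr 1
  ring

theorem iv_CP {E I : Type} {m : ℕ} (hm : 0 < m) (ED : Finset E) (src tgt : E → I) :
    Iv m (shf _) (CP m ED src tgt) := by
  refine iv_seq hm (fun x hx k => ((mem_CP hm).1 hx k).1) ?_
  intro x hx
  rw [mem_CP hm] at hx ⊢
  intro k
  refine ⟨?_, (hx (k + 1)).2.1, (hx (k + 1)).2.2⟩
  have := (hx (k + 1)).1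
  show x (k + m + 1) = x (k + 1)
  rw [← this]
  congr 1
  ring

/-- injectivity of a lexicographic key -/
theorem ki_pk {C Λ : Type} [LinearOrder Λ] {m : ℕ} (hm : 0 < m) {F : Finset (ℤ → C)}
    {e : C → C → Λ} (h1 : ∀ x ∈ F, ∀ k : ℤ, x (k + m) = x k)
    (h2 : ∀ x ∈ F, ∀ y ∈ F, (∀ k : ℤ, e (x k) (x (k + 1)) = e (y k) (y (k + 1))) → x = y) :
    Ki F (pk m e) := by
  intro x hx y hy hxy
  apply h2 x hx y hy
  intro k
  have hm' : (0 : ℤ) < m := by exact_mod_cast hm
  have h0 := Int.emod_nonneg k (ne_of_gt hm')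
  have h3 := Int.emod_lt_of_pos k hm'
  have h4 := congrFun (congrArg ofLex hxy) ⟨(k % m).toNat, by omega⟩
  have hx' : ∀ z ∈ F, z (k % m) = z k ∧ z (k % m + 1) = z (k + 1) := by
    intro z hz
    refine ⟨per_mod (h1 z hz) k, ?_⟩
    have := per_mul (h1 z hz) (k / m) (k % m + 1)
    rw [← this]
    congr 1
    have := Int.emod_add_mul_ediv k m
    linarith
  have e1 : (((k % m).toNat : ℕ) : ℤ) = k % m := Int.toNat_of_nonneg h0
  have h5 : e (x (k % m)) (x (k % m + 1)) = e (y (k % m)) (y (k % m + 1)) := by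
    have h6 : e (x (((k % m).toNat : ℕ) : ℤ)) (x ((((k % m).toNat : ℕ) : ℤ) + 1)) =
        e (y (((k % m).toNat : ℕ) : ℤ)) (y ((((k % m).toNat : ℕ) : ℤ) + 1)) := h4
    rwa [e1] at h6
  rw [(hx' x hx).1, (hx' x hx).2, (hx' y hy).1, (hx' y hy).2] at h5
  exact h5

theorem ki_kA {I J α β : Type} [Fintype I] [Fintype J] [LinearOrder I] [LinearOrder J]
    [LinearOrder α] [LinearOrder β] {m : ℕ} (hm : 0 < m) (U : I → J → Finset α)
    (V : J → I → Finset β) : Ki (AP m U V) (pk m kA) := by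
  refine ki_pk hm (fun x hx k => ((mem_AP hm).1 hx k).1) ?_
  intro x _ y _ h
  funext k
  have h1 := h k
  simp only [kA, toLex_inj, Prod.mk.injEq] at h1
  obtain ⟨h2, -, h3, h4, h5⟩ := h1
  exact Prod.ext h2 (Prod.ext h3 (Prod.ext h4 h5))

theorem ki_kB {I J α β : Type} [Fintype I] [Fintype J] [LinearOrder I] [LinearOrder J]
    [LinearOrder α] [LinearOrder β] {m : ℕ} (hm : 0 < m) (U : I → J → Finset α)
    (V : J → I → Finset β) : Ki (AP m U V) (pk m kB) := by
  refine ki_pk hm (fun x hx k => ((mem_AP hm).1 hx k).1) ?_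
  intro x _ y _ h
  funext k
  have h1 := h k
  have h1' := h (k - 1)
  rw [sub_add_cancel] at h1'
  simp only [kB, toLex_inj, Prod.mk.injEq] at h1 h1'
  exact Prod.ext h1'.2.2.1 (Prod.ext h1.1 (Prod.ext h1'.2.2.2.2 h1.2.2.2.1))

theorem ki_tA {I J L α β γ : Type} [Fintype I] [Fintype J] [Fintype L] [LinearOrder I]
    [LinearOrder J] [LinearOrder L] [LinearOrder α] [LinearOrder β] [LinearOrder γ] {m : ℕ}
    (hm : 0 < m) (U : I → J → Finset α) (V : J → L → Finset β) (Z : L → I → Finset γ) :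
    Ki (TP m U V Z) (pk m tA) := by
  refine ki_pk hm (fun x hx k => ((mem_TP hm).1 hx k).1) ?_
  intro x _ y _ h
  funext k
  have h1 := h k
  simp only [tA, toLex_inj, Prod.mk.injEq] at h1
  obtain ⟨h2, -, h3, h4, h5, h6, h7⟩ := h1
  exact Prod.ext h2 (Prod.ext h3 (Prod.ext h5 (Prod.ext h4 (Prod.ext h6 h7))))

theorem ki_tA' {I J L α β γ : Type} [Fintype I] [Fintype J] [Fintype L] [LinearOrder I]
    [LinearOrder J] [LinearOrder L] [LinearOrder α] [LinearOrder β] [LinearOrder γ] {m : ℕ}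
    (hm : 0 < m) (U : I → J → Finset α) (V : J → L → Finset β) (Z : L → I → Finset γ) :
    Ki (TP m U V Z) (pk m tA') := by
  refine ki_pk hm (fun x hx k => ((mem_TP hm).1 hx k).1) ?_
  intro x _ y _ h
  funext k
  have h1 := h k
  simp only [tA', toLex_inj, Prod.mk.injEq] at h1
  obtain ⟨h2, -, h3, ⟨h4, h5, h6⟩, h7⟩ := h1
  exact Prod.ext h2 (Prod.ext h4 (Prod.ext h3 (Prod.ext h5 (Prod.ext h6 h7))))

end Pool.MP_5a0708_an.KRW
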