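import Mathlib

/-!
# MP_5a0708_an, package KRW : definitions

The theorem of Kim, Roush and Wagoner (sign and gyration numbers of inert automorphisms) for the
full 2-shift, and its consequence that `Aut(X_2)/G` is abelian.
-/

set_option autoImplicit false

namespace Pool.MP_5a0708_an.KRW

open Finset

/-! ## 1. Frames of finite sets with a periodic permutation -/

section frames

variable {W Λ Λ' : Type} [LinearOrder Λ] [LinearOrder Λ']

/-- `x` is the least element of its orbit, for the key `k` -/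
def Mn (s : Equiv.Perm W) (k : W → Λ) (x : W) : Prop := ∀ t : ℕ, k x ≤ k ((s ^ t) x)

/-- `x` has least period `d` -/
def LPr (s : Equiv.Perm W) (d : ℕ) (x : W) : Prop :=
  0 < d ∧ (s ^ d) x = x ∧ ∀ t : ℕ, 0 < t → t < d → (s ^ t) x ≠ x

/-- the number of steps from `x` to the least element of its orbit -/
noncomputable def sh (s : Equiv.Perm W) (k : W → Λ) (x : W) : ℕ :=
  sInf {t : ℕ | Mn s k ((s ^ t) x)}

/-- the key of the least element of the orbit of `x` -/
noncomputable def mkey (s : Equiv.Perm W) (k : W → Λ) (x : W) : Λ := k ((s ^ (sh s k x)) x)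

/-- the finite set `F` is invariant and `s ^ m = 1` on `F` -/
structure Iv (m : ℕ) (s : Equiv.Perm W) (F : Finset W) : Prop where
  pos : 0 < m
  st : ∀ x ∈ F, s x ∈ F
  per : ∀ x ∈ F, (s ^ m) x = x

/-- the key is injective on `F` -/
def Ki (F : Finset W) (k : W → Λ) : Prop := ∀ x ∈ F, ∀ y ∈ F, k x = k y → x = y

/-- the gyration part -/
noncomputable def gp (m : ℕ) (s : Equiv.Perm W) (F : Finset W) (k : W → Λ) (l : W → Λ') : ZMod m :=
  open Classical in ∑ x ∈ F.filter (fun x => LPr s m x ∧ Mn s k x), (sh s l x : ZMod m)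

/-- the number of pairs of orbits of length `d` on which the orders given by `k` and `l` differ -/
noncomputable def iv (d : ℕ) (s : Equiv.Perm W) (F : Finset W) (k : W → Λ) (l : W → Λ') : ℕ :=
  open Classical in ((F ×ˢ F).filter (fun z => (LPr s d z.1 ∧ LPr s d z.2) ∧
    (Mn s k z.1 ∧ Mn s k z.2) ∧ k z.1 < k z.2 ∧ mkey s l z.2 < mkey s l z.1)).card

/-- the numbers `m / 2^i`, `i ≥ 1` -/
noncomputable def ds (m : ℕ) : Finset ℕ :=
  open Classical in (range m).filter (fun d => ∃ i : ℕ, 1 ≤ i ∧ d * 2 ^ i = m)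

/-- the difference of the frames given by the keys `k` and `l` -/
noncomputable def Dl (m : ℕ) (s : Equiv.Perm W) (F : Finset W) (k : W → Λ) (l : W → Λ') : ZMod m :=
  gp m s F k l + ((m / 2 : ℕ) : ZMod m) * ((∑ d ∈ ds m, iv d s F k l : ℕ) : ZMod m)

end frames

/-! ## 2. Closed alternating paths -/

/-- the shift of sequences -/
def shf (C : Type) : Equiv.Perm (ℤ → C) where
  toFun x := fun k => x (k + 1)
  invFun x := fun k => x (k - 1)
  left_inv x := by funext k; simp
  right_inv x := by funext k; simp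

/-- a set as a finset (empty if it is infinite) -/
noncomputable def fs {W : Type} (S : Set W) : Finset W :=
  open Classical in if h : S.Finite then h.toFinset else ∅

/-- lexicographic key of a periodic sequence -/
def pk {C Λ : Type} (m : ℕ) (e : C → C → Λ) (x : ℤ → C) : Lex (Fin m → Λ) :=
  toLex (fun t : Fin m => e (x ((t : ℕ) : ℤ)) (x (((t : ℕ) : ℤ) + 1)))

section paths

variable {I J L α β γ : Type}

/-- closed alternating paths of length `m`: `x k = (i_k, j_k, a_k, b_k)`, `a_k ∈ U i_k j_k`,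
`b_k ∈ V j_k i_(k+1)` -/
noncomputable def AP (m : ℕ) (U : I → J → Finset α) (V : J → I → Finset β) :
    Finset (ℤ → I × J × α × β) :=
  fs {x | ∀ k : ℤ, x (k + m) = x k ∧ (x k).2.2.1 ∈ U (x k).1 (x k).2.1 ∧
    (x k).2.2.2 ∈ V (x k).2.1 (x (k + 1)).1}

/-- the key of the edges of the product `U V` -/
def kA (c c' : I × J × α × β) : I ×ₗ I ×ₗ J ×ₗ α ×ₗ β :=
  toLex (c.1, toLex (c'.1, toLex (c.2.1, toLex (c.2.2.1, c.2.2.2))))

/-- the key of the edges of the product `V U` -/
def kB (c c' : I × J × α × β) : J ×ₗ J ×ₗ I ×ₗ β ×ₗ α :=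
  toLex (c.2.1, toLex (c'.2.1, toLex (c'.1, toLex (c.2.2.2, c'.2.2.1))))

/-- the comparison of the two frames of the set of closed alternating paths -/
noncomputable def DD [LinearOrder I] [LinearOrder J] [LinearOrder α] [LinearOrder β] (m : ℕ)
    (U : I → J → Finset α) (V : J → I → Finset β) : ZMod m :=
  Dl m (shf _) (AP m U V) (pk m kA) (pk m kB)

/-- the product of two families of labels -/
noncomputable def cmp [Fintype J] (U : I → J → Finset α) (V : J → L → Finset β) (i : I) (l : L) :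
    Finset (J ×ₗ α ×ₗ β) :=
  open Classical in univ.biUnion fun j =>
    ((U i j) ×ˢ (V j l)).image fun p => (toLex (j, toLex (p.1, p.2)) : J ×ₗ α ×ₗ β)

/-- closed paths of length `m` in a triple product: `x k = (i_k, j_k, l_k, a_k, b_k, c_k)`,
`a_k ∈ U i_k j_k`, `b_k ∈ V j_k l_k`, `c_k ∈ Z l_k i_(k+1)` -/
noncomputable def TP (m : ℕ) (U : I → J → Finset α) (V : J → L → Finset β)
    (Z : L → I → Finset γ) : Finset (ℤ → I × J × L × α × β × γ) :=
  fs {x | ∀ k : ℤ, x (k + m) = x k ∧ (x k).2.2.2.1 ∈ U (x k).1 (x k).2.1 ∧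
    (x k).2.2.2.2.1 ∈ V (x k).2.1 (x k).2.2.1 ∧
    (x k).2.2.2.2.2 ∈ Z (x k).2.2.1 (x (k + 1)).1}

/-- key of the triple product, as `U (V Z)` -/
def tA (c c' : I × J × L × α × β × γ) : I ×ₗ I ×ₗ J ×ₗ α ×ₗ (L ×ₗ β ×ₗ γ) :=
  toLex (c.1, toLex (c'.1, toLex (c.2.1, toLex (c.2.2.2.1,
    toLex (c.2.2.1, toLex (c.2.2.2.2.1, c.2.2.2.2.2))))))

/-- key of the triple product, as `(U V) Z` -/
def tA' (c c' : I × J × L × α × β × γ) : I ×ₗ I ×ₗ L ×ₗ (J ×ₗ α ×ₗ β) ×ₗ γ :=
  toLex (c.1, toLex (c'.1, toLex (c.2.2.1, toLex (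
    toLex (c.2.1, toLex (c.2.2.2.1, c.2.2.2.2.1)), c.2.2.2.2.2))))

/-- key of the triple product, as `(V Z) U` -/
def tB (c c' : I × J × L × α × β × γ) : J ×ₗ J ×ₗ I ×ₗ (L ×ₗ β ×ₗ γ) ×ₗ α :=
  toLex (c.2.1, toLex (c'.2.1, toLex (c'.1, toLex (
    toLex (c.2.2.1, toLex (c.2.2.2.2.1, c.2.2.2.2.2)), c'.2.2.2.1))))

/-- key of the triple product, as `Z (U V)` -/
def tC (c c' : I × J × L × α × β × γ) : L ×ₗ L ×ₗ I ×ₗ γ ×ₗ (J ×ₗ α ×ₗ β) :=
  toLex (c.2.2.1, toLex (c'.2.2.1, toLex (c'.1, toLex (c.2.2.2.2.2,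
    toLex (c'.2.1, toLex (c'.2.2.2.1, c'.2.2.2.2.1))))))

/-- the rotation of triple closed paths: `(j_k, l_k, i_(k+1), b_k, c_k, a_(k+1))` -/
def rot3 (x : ℤ → I × J × L × α × β × γ) : ℤ → J × L × I × β × γ × α := fun k =>
  ((x k).2.1, (x k).2.2.1, (x (k + 1)).1, (x k).2.2.2.2.1, (x k).2.2.2.2.2, (x (k + 1)).2.2.2.1)

end paths

/-! ## 3. Closed paths in a graph -/

section graphs

variable {E I Λ : Type}

/-- closed paths of length `m` with edges in `ED` -/
noncomputable def CP (m : ℕ) (ED : Finset E) (src tgt : E → I) : Finset (ℤ → E) :=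
  fs {x | ∀ k : ℤ, x (k + m) = x k ∧ x k ∈ ED ∧ tgt (x k) = src (x (k + 1))}

/-- the edge key `e` refines the order of the pairs (source, target) -/
def Rf [LinearOrder I] [LinearOrder Λ] (ED : Finset E) (src tgt : E → I) (e : E → Λ) : Prop :=
  ∀ a ∈ ED, ∀ b ∈ ED, (src a < src b ∨ (src a = src b ∧ tgt a < tgt b)) → e a < e b

/-- lexicographic key of a periodic sequence of edges -/
def pk1 (m : ℕ) (e : E → Λ) (x : ℤ → E) : Lex (Fin m → Λ) :=
  toLex (fun t : Fin m => e (x ((t : ℕ) : ℤ)))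

/-- a permutation of the edges acts on sequences -/
def ext (π : Equiv.Perm E) : Equiv.Perm (ℤ → E) where
  toFun x := fun k => π (x k)
  invFun x := fun k => π.symm (x k)
  left_inv x := by funext k; simp
  right_inv x := by funext k; simp

end graphs

/-! ## 4. Matrices -/

/-- the cocycle for matrices over `ℕ` -/
noncomputable def sgc (m : ℕ) {p q : ℕ} (R : Matrix (Fin p) (Fin q) ℕ)
    (S : Matrix (Fin q) (Fin p) ℕ) : ZMod m :=
  DD m (fun i j => range (R i j)) (fun j i => range (S j i))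

/-- the period of the cocycle -/
def TT (m : ℕ) : ℕ := m * m.factorial

/-- reduction modulo `TT m` -/
def red (m : ℕ) {p q : ℕ} (R : Matrix (Fin p) (Fin q) ℤ) : Matrix (Fin p) (Fin q) ℕ :=
  fun i j => (R i j % (TT m : ℤ)).toNat

/-- the cocycle for matrices over `ℤ` -/
noncomputable def sgz (m : ℕ) {p q : ℕ} (R : Matrix (Fin p) (Fin q) ℤ)
    (S : Matrix (Fin q) (Fin p) ℤ) : ZMod m := sgc m (red m R) (red m S)

end Pool.MP_5a0708_an.KRW
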