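import Pool.Agent.Lib.MP_5a0708_an.KRW.SpecB

/-!
# MP_5a0708_an, package KRW : the cocycle depends only on the numbers of labels
-/

set_option autoImplicit false

namespace Pool.MP_5a0708_an.KRW

open Finset

/-- An order preserving bijection of two finite sets, extended to functions. -/
private theorem lab_bij {α α' : Type} [LinearOrder α] [LinearOrder α'] [Nonempty α] [Nonempty α']
    (A : Finset α) (B : Finset α') (h : A.card = B.card) :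
    ∃ (φ : α → α') (ψ : α' → α), (∀ a ∈ A, φ a ∈ B ∧ ψ (φ a) = a) ∧
      (∀ b ∈ B, ψ b ∈ A ∧ φ (ψ b) = b) ∧ ∀ a ∈ A, ∀ b ∈ A, (a < b ↔ φ a < φ b) := by
  classical
  obtain ⟨e⟩ : Nonempty (A ≃o B) :=
    ⟨(A.orderIsoOfFin rfl).symm.trans (B.orderIsoOfFin h.symm)⟩
  obtain ⟨φ, hφ⟩ : ∃ φ : α → α', ∀ a (ha : a ∈ A), φ a = (e ⟨a, ha⟩ : B).1 :=
    ⟨fun a => if ha : a ∈ A then (e ⟨a, ha⟩ : B).1 else Classical.arbitrary α',
      fun a ha => dif_pos ha⟩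
  obtain ⟨ψ, hψ⟩ : ∃ ψ : α' → α, ∀ b (hb : b ∈ B), ψ b = (e.symm ⟨b, hb⟩ : A).1 :=
    ⟨fun b => if hb : b ∈ B then (e.symm ⟨b, hb⟩ : A).1 else Classical.arbitrary α,
      fun b hb => dif_pos hb⟩
  refine ⟨φ, ψ, ?_, ?_, ?_⟩
  · intro a ha
    have h1 : φ a ∈ B := by rw [hφ a ha]; exact (e ⟨a, ha⟩).2
    refine ⟨h1, ?_⟩
    rw [hψ _ h1]
    have h2 : (⟨φ a, h1⟩ : B) = e ⟨a, ha⟩ := Subtype.ext (hφ a ha)
    rw [h2, OrderIso.symm_apply_apply]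
  · intro b hb
    have h1 : ψ b ∈ A := by rw [hψ b hb]; exact (e.symm ⟨b, hb⟩).2
    refine ⟨h1, ?_⟩
    rw [hφ _ h1]
    have h2 : (⟨ψ b, h1⟩ : A) = e.symm ⟨b, hb⟩ := Subtype.ext (hψ b hb)
    rw [h2, OrderIso.apply_symm_apply]
  · intro a ha b hb
    rw [hφ a ha, hφ b hb, Subtype.coe_lt_coe, OrderIso.lt_iff_lt]
    exact Iff.rfl

/-- Comparison of lexicographic keys by components. -/
private theorem lab_pi {Λ Λ' : Type} [LinearOrder Λ] [LinearOrder Λ'] {m : ℕ} (u v : Fin m → Λ)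
    (u' v' : Fin m → Λ') (h : ∀ t, (u t < v t ↔ u' t < v' t) ∧ (u t = v t ↔ u' t = v' t)) :
    (toLex u < toLex v ↔ toLex u' < toLex v') := by
  constructor
  · rintro ⟨i, h1, h2⟩
    exact ⟨i, fun j hj => (h j).2.1 (h1 j hj), (h i).1.1 h2⟩
  · rintro ⟨i, h1, h2⟩
    exact ⟨i, fun j hj => (h j).2.2 (h1 j hj), (h i).1.2 h2⟩

/-- One component of a lexicographic key. -/
private theorem lab_lex {A Λ Λ' : Type} [LinearOrder A] [LinearOrder Λ] [LinearOrder Λ'] {a b : A}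
    {u v : Λ} {u' v' : Λ'} (h : a = b → (u < v ↔ u' < v') ∧ (u = v ↔ u' = v')) :
    ((toLex (a, u) : A ×ₗ Λ) < toLex (b, v) ↔ (toLex (a, u') : A ×ₗ Λ') < toLex (b, v')) ∧
    ((toLex (a, u) : A ×ₗ Λ) = toLex (b, v) ↔ (toLex (a, u') : A ×ₗ Λ') = toLex (b, v')) := by
  rw [Prod.Lex.toLex_lt_toLex, Prod.Lex.toLex_lt_toLex, toLex_inj, toLex_inj, Prod.mk.injEq,
    Prod.mk.injEq]
  constructor
  · constructor
    · rintro (h1 | ⟨h1, h2⟩)
      · exact Or.inl h1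
      · exact Or.inr ⟨h1, (h h1).1.1 h2⟩
    · rintro (h1 | ⟨h1, h2⟩)
      · exact Or.inl h1
      · exact Or.inr ⟨h1, (h h1).1.2 h2⟩
  · constructor
    · rintro ⟨h1, h2⟩
      exact ⟨h1, (h h1).2.1 h2⟩
    · rintro ⟨h1, h2⟩
      exact ⟨h1, (h h1).2.2 h2⟩

/-- The pair of labels. -/
private theorem lab_pair {α α' β β' : Type} [LinearOrder α] [LinearOrder α'] [LinearOrder β]
    [LinearOrder β'] {a b : α} {a' b' : α'} {c d : β} {c' d' : β'}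
    (h1 : (a < b ↔ a' < b') ∧ (a = b ↔ a' = b')) (h2 : (c < d ↔ c' < d') ∧ (c = d ↔ c' = d')) :
    ((toLex (a, c) : α ×ₗ β) < toLex (b, d) ↔ (toLex (a', c') : α' ×ₗ β') < toLex (b', d')) ∧
    ((toLex (a, c) : α ×ₗ β) = toLex (b, d) ↔ (toLex (a', c') : α' ×ₗ β') = toLex (b', d')) := by
  rw [Prod.Lex.toLex_lt_toLex, Prod.Lex.toLex_lt_toLex, toLex_inj, toLex_inj, Prod.mk.injEq,
    Prod.mk.injEq]
  exact ⟨by rw [h1.1, h1.2, h2.1], by rw [h1.2, h2.2]⟩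

private theorem lab_iff {α α' : Type} [LinearOrder α] [LinearOrder α'] {A : Finset α}
    {φ : α → α'} (h : ∀ a ∈ A, ∀ b ∈ A, (a < b ↔ φ a < φ b)) {a b : α} (ha : a ∈ A)
    (hb : b ∈ A) : (a < b ↔ φ a < φ b) ∧ (a = b ↔ φ a = φ b) := by
  refine ⟨h a ha b hb, fun e => by rw [e], fun e => ?_⟩
  rcases lt_trichotomy a b with h1 | h1 | h1
  · exact absurd e (ne_of_lt ((h a ha b hb).1 h1))
  · exact h1
  · exact absurd e.symm (ne_of_lt ((h b hb a ha).1 h1))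

/-- The case in which there are labels. -/
private theorem lab_main (hTr : S_Tr) {I J α β α' β' : Type} [Fintype I] [Fintype J]
    [LinearOrder I] [LinearOrder J] [LinearOrder α] [LinearOrder β] [LinearOrder α']
    [LinearOrder β'] [Nonempty α] [Nonempty β] [Nonempty α'] [Nonempty β'] (m : ℕ)
    (U : I → J → Finset α) (V : J → I → Finset β) (U' : I → J → Finset α')
    (V' : J → I → Finset β') (hm : 0 < m) (hU : ∀ i j, (U i j).card = (U' i j).card)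
    (hV : ∀ j i, (V j i).card = (V' j i).card) : DD m U V = DD m U' V' := by
  choose φ ψ hφ hψ hφm using fun i j => lab_bij (U i j) (U' i j) (hU i j)
  choose χ ω hχ hω hχm using fun j i => lab_bij (V j i) (V' j i) (hV j i)
  let f : (ℤ → I × J × α × β) → (ℤ → I × J × α' × β') := fun x k =>
    ((x k).1, (x k).2.1, φ (x k).1 (x k).2.1 (x k).2.2.1,
      χ (x k).2.1 (x (k + 1)).1 (x k).2.2.2)
  have hper : ∀ (C : Type) (x : ℤ → C) (_ : ∀ k : ℤ, x (k + m) = x k) (k : ℤ),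
      x (k + m + 1) = x (k + 1) := by
    intro C x hx k
    rw [← hx (k + 1)]
    congr 1
    ring
  refine (hTr _ _ _ _ _ _ m (shf _) (shf _) (AP m U V) (AP m U' V') (pk m kA) (pk m kB)
    (pk m kA) (pk m kB) f (iv_AP hm U V) ?_ ?_ ?_ ?_ ?_ ?_).2.symm
  · intro x hx
    rw [mem_AP hm] at hx ⊢
    intro k
    refine ⟨?_, (hφ _ _ _ (hx k).2.1).1, (hχ _ _ _ (hx k).2.2).1⟩
    change ((x (k + m)).1, (x (k + m)).2.1, φ (x (k + m)).1 (x (k + m)).2.1 (x (k + m)).2.2.1,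
      χ (x (k + m)).2.1 (x (k + m + 1)).1 (x (k + m)).2.2.2) = ((x k).1, (x k).2.1,
        φ (x k).1 (x k).2.1 (x k).2.2.1, χ (x k).2.1 (x (k + 1)).1 (x k).2.2.2)
    rw [(hx k).1, hper _ x (fun k => (hx k).1) k]
  · intro x hx y hy hxy
    rw [mem_AP hm] at hx hy
    have e1 : ∀ k, (x k).1 = (y k).1 := fun k => congrArg (fun z => (z k).1) hxy
    have e2 : ∀ k, (x k).2.1 = (y k).2.1 := fun k => congrArg (fun z => (z k).2.1) hxy
    funext k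
    have e3 : φ (x k).1 (x k).2.1 (x k).2.2.1 = φ (y k).1 (y k).2.1 (y k).2.2.1 :=
      congrArg (fun z => (z k).2.2.1) hxy
    have e4 : χ (x k).2.1 (x (k + 1)).1 (x k).2.2.2 = χ (y k).2.1 (y (k + 1)).1 (y k).2.2.2 :=
      congrArg (fun z => (z k).2.2.2) hxy
    have hx1 := (hx k).2.1
    have hx2 := (hx k).2.2
    rw [e1 k, e2 k] at e3 hx1
    rw [e1 (k + 1), e2 k] at e4 hx2
    exact Prod.ext (e1 k) (Prod.ext (e2 k) (Prod.ext
      ((lab_iff (hφm _ _) hx1 (hy k).2.1).2.2 e3) ((lab_iff (hχm _ _) hx2 (hy k).2.2).2.2 e4)))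
  · intro y hy
    rw [mem_AP hm] at hy
    refine ⟨fun k => ((y k).1, (y k).2.1, ψ (y k).1 (y k).2.1 (y k).2.2.1,
      ω (y k).2.1 (y (k + 1)).1 (y k).2.2.2), ?_, ?_⟩
    · rw [mem_AP hm]
      intro k
      refine ⟨?_, (hψ _ _ _ (hy k).2.1).1, (hω _ _ _ (hy k).2.2).1⟩
      change ((y (k + m)).1, (y (k + m)).2.1, ψ (y (k + m)).1 (y (k + m)).2.1 (y (k + m)).2.2.1,
        ω (y (k + m)).2.1 (y (k + m + 1)).1 (y (k + m)).2.2.2) = ((y k).1, (y k).2.1,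
          ψ (y k).1 (y k).2.1 (y k).2.2.1, ω (y k).2.1 (y (k + 1)).1 (y k).2.2.2)
      rw [(hy k).1, hper _ y (fun k => (hy k).1) k]
    · funext k
      exact Prod.ext rfl (Prod.ext rfl (Prod.ext (hψ _ _ _ (hy k).2.1).2
        (hω _ _ _ (hy k).2.2).2))
  · intro x _
    rfl
  · intro x hx y hy
    rw [mem_AP hm] at hx hy
    refine lab_pi _ _ _ _ fun t => ?_
    obtain ⟨k, hk⟩ : ∃ k : ℤ, k = ((t : ℕ) : ℤ) := ⟨_, rfl⟩
    rw [← hk]
    change ((toLex ((x k).1, toLex ((x (k + 1)).1, toLex ((x k).2.1,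
        toLex ((x k).2.2.1, (x k).2.2.2)))) : I ×ₗ I ×ₗ J ×ₗ α ×ₗ β) <
        toLex ((y k).1, toLex ((y (k + 1)).1, toLex ((y k).2.1,
          toLex ((y k).2.2.1, (y k).2.2.2)))) ↔
      (toLex ((x k).1, toLex ((x (k + 1)).1, toLex ((x k).2.1,
        toLex (φ (x k).1 (x k).2.1 (x k).2.2.1, χ (x k).2.1 (x (k + 1)).1 (x k).2.2.2)))) :
          I ×ₗ I ×ₗ J ×ₗ α' ×ₗ β') <
        toLex ((y k).1, toLex ((y (k + 1)).1, toLex ((y k).2.1,
          toLex (φ (y k).1 (y k).2.1 (y k).2.2.1, χ (y k).2.1 (y (k + 1)).1 (y k).2.2.2))))) ∧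
      ((toLex ((x k).1, toLex ((x (k + 1)).1, toLex ((x k).2.1,
        toLex ((x k).2.2.1, (x k).2.2.2)))) : I ×ₗ I ×ₗ J ×ₗ α ×ₗ β) =
        toLex ((y k).1, toLex ((y (k + 1)).1, toLex ((y k).2.1,
          toLex ((y k).2.2.1, (y k).2.2.2)))) ↔
      (toLex ((x k).1, toLex ((x (k + 1)).1, toLex ((x k).2.1,
        toLex (φ (x k).1 (x k).2.1 (x k).2.2.1, χ (x k).2.1 (x (k + 1)).1 (x k).2.2.2)))) :
          I ×ₗ I ×ₗ J ×ₗ α' ×ₗ β') =
        toLex ((y k).1, toLex ((y (k + 1)).1, toLex ((y k).2.1,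
          toLex (φ (y k).1 (y k).2.1 (y k).2.2.1, χ (y k).2.1 (y (k + 1)).1 (y k).2.2.2)))))
    refine lab_lex fun e1 => lab_lex fun e2 => lab_lex fun e3 => ?_
    have hx1 := (hx k).2.1
    have hx2 := (hx k).2.2
    rw [e1, e3] at hx1
    rw [e3, e2] at hx2
    rw [e1, e2, e3]
    exact lab_pair (lab_iff (hφm _ _) hx1 (hy k).2.1) (lab_iff (hχm _ _) hx2 (hy k).2.2)
  · intro x hx y hy
    rw [mem_AP hm] at hx hy
    refine lab_pi _ _ _ _ fun t => ?_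
    obtain ⟨k, hk⟩ : ∃ k : ℤ, k = ((t : ℕ) : ℤ) := ⟨_, rfl⟩
    rw [← hk]
    change ((toLex ((x k).2.1, toLex ((x (k + 1)).2.1, toLex ((x (k + 1)).1,
        toLex ((x k).2.2.2, (x (k + 1)).2.2.1)))) : J ×ₗ J ×ₗ I ×ₗ β ×ₗ α) <
        toLex ((y k).2.1, toLex ((y (k + 1)).2.1, toLex ((y (k + 1)).1,
          toLex ((y k).2.2.2, (y (k + 1)).2.2.1)))) ↔
      (toLex ((x k).2.1, toLex ((x (k + 1)).2.1, toLex ((x (k + 1)).1,
        toLex (χ (x k).2.1 (x (k + 1)).1 (x k).2.2.2,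
          φ (x (k + 1)).1 (x (k + 1)).2.1 (x (k + 1)).2.2.1)))) : J ×ₗ J ×ₗ I ×ₗ β' ×ₗ α') <
        toLex ((y k).2.1, toLex ((y (k + 1)).2.1, toLex ((y (k + 1)).1,
          toLex (χ (y k).2.1 (y (k + 1)).1 (y k).2.2.2,
            φ (y (k + 1)).1 (y (k + 1)).2.1 (y (k + 1)).2.2.1))))) ∧
      ((toLex ((x k).2.1, toLex ((x (k + 1)).2.1, toLex ((x (k + 1)).1,
        toLex ((x k).2.2.2, (x (k + 1)).2.2.1)))) : J ×ₗ J ×ₗ I ×ₗ β ×ₗ α) =
        toLex ((y k).2.1, toLex ((y (k + 1)).2.1, toLex ((y (k + 1)).1,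
          toLex ((y k).2.2.2, (y (k + 1)).2.2.1)))) ↔
      (toLex ((x k).2.1, toLex ((x (k + 1)).2.1, toLex ((x (k + 1)).1,
        toLex (χ (x k).2.1 (x (k + 1)).1 (x k).2.2.2,
          φ (x (k + 1)).1 (x (k + 1)).2.1 (x (k + 1)).2.2.1)))) : J ×ₗ J ×ₗ I ×ₗ β' ×ₗ α') =
        toLex ((y k).2.1, toLex ((y (k + 1)).2.1, toLex ((y (k + 1)).1,
          toLex (χ (y k).2.1 (y (k + 1)).1 (y k).2.2.2,
            φ (y (k + 1)).1 (y (k + 1)).2.1 (y (k + 1)).2.2.1)))))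
    refine lab_lex fun e1 => lab_lex fun e2 => lab_lex fun e3 => ?_
    have hx1 := (hx (k + 1)).2.1
    have hx2 := (hx k).2.2
    rw [e3, e2] at hx1
    rw [e1, e3] at hx2
    rw [e1, e2, e3]
    exact lab_pair (lab_iff (hχm _ _) hx2 (hy k).2.2) (lab_iff (hφm _ _) hx1 (hy (k + 1)).2.1)

/-- The labels exist if there is a closed path. -/
private theorem lab_ne {I J α β : Type} [Fintype I] [Fintype J] {α' β' : Type} {m : ℕ}
    {U : I → J → Finset α} {V : J → I → Finset β} {U' : I → J → Finset α'}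
    {V' : J → I → Finset β'} (hm : 0 < m) (hU : ∀ i j, (U i j).card = (U' i j).card)
    (hV : ∀ j i, (V j i).card = (V' j i).card) (h : (AP m U V).Nonempty) :
    (Nonempty α ∧ Nonempty β) ∧ Nonempty α' ∧ Nonempty β' := by
  obtain ⟨x, hx⟩ := h
  rw [mem_AP hm] at hx
  obtain ⟨_, h1, h2⟩ := hx 0
  have h3 : (U' (x 0).1 (x 0).2.1).Nonempty := by
    rw [← Finset.card_pos, ← hU, Finset.card_pos]
    exact ⟨_, h1⟩
  have h4 : (V' (x 0).2.1 (x (0 + 1)).1).Nonempty := by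
    rw [← Finset.card_pos, ← hV, Finset.card_pos]
    exact ⟨_, h2⟩
  obtain ⟨a, _⟩ := h3
  obtain ⟨b, _⟩ := h4
  exact ⟨⟨⟨(x 0).2.2.1⟩, ⟨(x 0).2.2.2⟩⟩, ⟨a⟩, ⟨b⟩⟩

private theorem lab_empty {I J α β : Type} [LinearOrder I] [LinearOrder J] [LinearOrder α]
    [LinearOrder β] (m : ℕ) (U : I → J → Finset α) (V : J → I → Finset β) (h : AP m U V = ∅) :
    DD m U V = 0 := by
  unfold DD Dl gp iv
  rw [h]
  simp

/-- **Lab**. -/
theorem t_Lab (hTr : S_Tr) : S_Lab := by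
  intro I J α β α' β' _ _ _ _ _ _ _ _ m U V U' V' hm hU hV
  rcases (AP m U V).eq_empty_or_nonempty with h | h
  · rcases (AP m U' V').eq_empty_or_nonempty with h' | h'
    · rw [lab_empty m U V h, lab_empty m U' V' h']
    · obtain ⟨⟨_, _⟩, _, _⟩ := lab_ne hm (fun i j => (hU i j).symm) (fun j i => (hV j i).symm) h'
      exact (lab_main hTr m U' V' U V hm (fun i j => (hU i j).symm)
        (fun j i => (hV j i).symm)).symm
  · obtain ⟨⟨_, _⟩, _, _⟩ := lab_ne hm hU hV h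
    exact lab_main hTr m U V U' V' hm hU hV

end Pool.MP_5a0708_an.KRW
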