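import Pool.Agent.Lib.MP_5a0708_an.KRW.SpecC

/-!
# MP_5a0708_an, package KRW : the potential of a cocycle
-/

set_option autoImplicit false

namespace Pool.MP_5a0708_an.KRW

open Finset Matrix

/-- the core of `A` is `(2)` -/
private def PTy {m : ℕ} (z : Zt m) (t n : ℕ) (A : Matrix (Fin n) (Fin n) ℤ) : Prop :=
  ∃ (C : Matrix (Fin 1) (Fin 1) ℤ) (π : Matrix (Fin 1) (Fin n) ℤ) (h : ZMod m),
    Cor z t A C π h ∧ C 0 0 = 2

/-- `x` is a value of the potential -/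
private def PPt {m : ℕ} (z : Zt m) (χ : ℚ → ZMod m) (t n : ℕ) (A : Matrix (Fin n) (Fin n) ℤ)
    (v : Fin n → ℚ) (x : ZMod m) : Prop :=
  ∃ (C : Matrix (Fin 1) (Fin 1) ℤ) (π : Matrix (Fin 1) (Fin n) ℤ) (h : ZMod m) (c : ℚ),
    Cor z t A C π h ∧ C 0 0 = 2 ∧ c ≠ 0 ∧ (∀ j, v j = c * (π 0 j : ℚ)) ∧ x = h - χ c

open Classical in
private noncomputable def PPhi {m : ℕ} (z : Zt m) (χ : ℚ → ZMod m) (t n : ℕ)
    (A : Matrix (Fin n) (Fin n) ℤ) (v : Fin n → ℚ) : ZMod m :=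
  if h : ∃ x, PPt z χ t n A v x then h.choose else 0

private theorem pphi_spec {m : ℕ} {z : Zt m} {χ : ℚ → ZMod m} {t n : ℕ}
    {A : Matrix (Fin n) (Fin n) ℤ} {v : Fin n → ℚ} (h : ∃ x, PPt z χ t n A v x) :
    PPt z χ t n A v (PPhi z χ t n A v) := by
  unfold PPhi
  rw [dif_pos h]
  exact h.choose_spec

private theorem mul11 {p : ℕ} (R : Matrix (Fin 1) (Fin 1) ℤ) (S : Matrix (Fin 1) (Fin p) ℤ)
    (j : Fin p) : (R * S) 0 j = R 0 0 * S 0 j := by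
  rw [Matrix.mul_apply, Fin.sum_univ_one]

/-- one direction of `iff` -/
private theorem pty_imp (hCorEx : S_CorEx) (hCOR : S_COR) (hINJ : S_INJ) (hSZ : S_SZ) {m : ℕ}
    {z : Zt m} (hz : Cz m z) {t p q : ℕ} (hp : p ≤ t) (hq : q ≤ t)
    (R : Matrix (Fin p) (Fin q) ℤ) (S : Matrix (Fin q) (Fin p) ℤ) (h : PTy z t p (R * S)) :
    PTy z t q (S * R) := by
  obtain ⟨C, π, h, hC, h2⟩ := h
  obtain ⟨s, C', π', h', hC'⟩ := hCorEx m z t q (S * R)
  obtain ⟨R₀, S₀, e1, e2, e3, e4⟩ := hCOR m z hz t p q R S 1 s C π h C' π' h' hC hC'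
  have i1 := hINJ m z t p 1 (R * S) C π h hC hp
  have i2 := hINJ m z t q s (S * R) C' π' h' hC' hq
  rw [e1] at i1
  rw [e2] at i2
  have hs : 1 = s := hSZ.2 1 s R₀ S₀ i1 i2
  subst hs
  refine ⟨C', π', h', hC', ?_⟩
  rw [e2, mul11, mul_comm, ← mul11, ← e1, h2]

theorem t_Pot (hCorEx : S_CorEx) (hCOR : S_COR) (hEIG : S_EIG) (hINJ : S_INJ) (hSZ : S_SZ)
    (hTwo : S_Two) (hChi : S_Chi) : S_Pot := by
  classical
  intro m z hz
  obtain ⟨χ, hχ, hχ2⟩ := hChi m z hz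
  refine ⟨fun t n A => PTy z t n A, fun t n A v => PPhi z χ t n A v, ⟨?_, ?_, ?_⟩⟩
  · intro t A ht hA
    let X : Matrix (Fin 2) (Fin 1) ℤ := Matrix.of fun _ _ => 1
    let Y : Matrix (Fin 1) (Fin 2) ℤ := Matrix.of fun _ _ => 1
    have e1 : X * Y = A := by
      ext i j
      rw [Matrix.mul_apply, Fin.sum_univ_one, hA]
      rfl
    have h1 : PTy z t 1 (Y * X) := by
      obtain ⟨q, C, π, h, hC⟩ := hCorEx m z t 1 (Y * X)
      obtain ⟨hq, h2⟩ := hTwo m z t 1 q _ C π h hC rfl (fun i j => by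
        rw [Matrix.mul_apply, Fin.sum_univ_two]
        rfl)
      subst hq
      exact ⟨C, π, h, hC, h2 0 0⟩
    have h2 := pty_imp hCorEx hCOR hINJ hSZ hz (by omega) ht _ _ h1
    rw [e1] at h2
    exact h2
  · intro t p q R S hp hq
    exact ⟨pty_imp hCorEx hCOR hINJ hSZ hz hp hq R S, pty_imp hCorEx hCOR hINJ hSZ hz hq hp S R⟩
  · intro t p q R S v hp hq hTy hv hev
    -- existence of values
    have hex : ∀ (n : ℕ) (A : Matrix (Fin n) (Fin n) ℤ) (v : Fin n → ℚ), PTy z t n A → v ≠ 0 →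
        v ᵥ* A.map (Int.cast : ℤ → ℚ) = (2 : ℚ) • v → ∃ x, PPt z χ t n A v x := by
      intro n A v hA hv hev
      obtain ⟨C, π, h, hC, h2⟩ := hA
      obtain ⟨w, hw, -⟩ := hEIG m z t n 1 A C π h hC v hev
      have h3 : ∀ j, v j = w 0 * (π 0 j : ℚ) := by
        intro j
        have := congrFun hw j
        rw [this, Matrix.vecMul, dotProduct, Fin.sum_univ_one, Matrix.map_apply]
      refine ⟨h - χ (w 0), C, π, h, w 0, hC, h2, ?_, h3, rfl⟩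
      intro h0
      apply hv
      funext j
      rw [h3 j, h0, zero_mul, Pi.zero_apply]
    have hmul : ∀ {a b c : ℕ} (X : Matrix (Fin a) (Fin b) ℤ) (Y : Matrix (Fin b) (Fin c) ℤ),
        (X * Y).map (Int.cast : ℤ → ℚ) = X.map (Int.cast : ℤ → ℚ) * Y.map (Int.cast : ℤ → ℚ) :=
      fun X Y => Matrix.map_mul (f := Int.castRingHom ℚ)
    have hvR : v ᵥ* R.map (Int.cast : ℤ → ℚ) ≠ 0 := by
      intro h0
      rw [hmul, ← Matrix.vecMul_vecMul, h0, Matrix.zero_vecMul] at hev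
      exact hv ((smul_eq_zero.1 hev.symm).resolve_left two_ne_zero)
    have hevR : (v ᵥ* R.map (Int.cast : ℤ → ℚ)) ᵥ* (S * R).map (Int.cast : ℤ → ℚ) =
        (2 : ℚ) • (v ᵥ* R.map (Int.cast : ℤ → ℚ)) := by
      rw [hmul, ← Matrix.vecMul_vecMul, Matrix.vecMul_vecMul v, ← hmul, hev, Matrix.smul_vecMul]
    have hTy' : PTy z t q (S * R) := pty_imp hCorEx hCOR hINJ hSZ hz hp hq R S hTy
    obtain ⟨C, π, h, c, hC, hC2, hc, hvc, hx⟩ := pphi_spec (hex p (R * S) v hTy hv hev)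
    obtain ⟨C', π', h', c', hC', hC2', hc', hvc', hy⟩ := pphi_spec (hex q (S * R) _ hTy' hvR hevR)
    obtain ⟨R₀, S₀, e1, e2, e3, e4⟩ := hCOR m z hz t p q R S 1 1 C π h C' π' h' hC hC'
    have hρσ : R₀ 0 0 * S₀ 0 0 = 2 := by rw [← mul11, ← e1, hC2]
    have hρ : R₀ 0 0 ≠ 0 := by
      intro h0
      rw [h0, zero_mul] at hρσ
      exact absurd hρσ (by norm_num)
    have hρ' : ((R₀ 0 0 : ℤ) : ℚ) ≠ 0 := Int.cast_ne_zero.2 hρ
    have hcc : c' = c * (R₀ 0 0 : ℚ) := by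
      obtain ⟨j, hj⟩ := Function.ne_iff.1 hvR
      rw [Pi.zero_apply] at hj
      have h1 := hvc' j
      have h2 : (v ᵥ* R.map (Int.cast : ℤ → ℚ)) j = c * ((R₀ 0 0 : ℚ) * (π' 0 j : ℚ)) := by
        have h3 : ((π * R) 0 j : ℤ) = R₀ 0 0 * π' 0 j := by rw [e3, mul11]
        have h4 : (((π * R) 0 j : ℤ) : ℚ) = ∑ i, (π 0 i : ℚ) * (R i j : ℚ) := by
          rw [Matrix.mul_apply]
          push_cast
          rfl
        rw [Matrix.vecMul, dotProduct, ← Int.cast_mul, ← h3, h4, Finset.mul_sum]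
        refine Finset.sum_congr rfl fun i _ => ?_
        rw [hvc i, Matrix.map_apply, mul_assoc]
      have h5 : (π' 0 j : ℚ) ≠ 0 := by
        intro h0
        rw [h0, mul_zero] at h1
        exact hj h1
      rw [h1, ← mul_assoc] at h2
      exact mul_right_cancel₀ h5 h2
    have hz1 := hχ2 R₀ S₀ hρσ
    have hχc : χ c' = χ c + χ (R₀ 0 0 : ℚ) := by rw [hcc, hχ _ _ hc hρ']
    rw [e4, hz1, hx, hy, hχc]
    ring

end Pool.MP_5a0708_an.KRW
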