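import Pool.Agent.Lib.MP_5a0708_an.KRW.Basic

/-!
# MP_5a0708_an, package KRW : the modules, part A (comparison of frames, closed paths in graphs)

Every `def S_... : Prop` is a module.  A module file `KRW/<Name>.lean` imports this file (or a later
Spec file) and proves `theorem t_<Name> : S_<Name>`, or `theorem t_<Name> (h1 : S_Xxx) ... : S_<Name>`
when the docstring says that `S_Xxx` may be used.  All auxiliary lemmas private.  The lemmas of
`KRW/Basic.lean` (`sh_spec`, `sh_le`, `mn_unique`, `mkey_pow`, `orb_of_mkey`, `sh_pow`, ...) are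
there to be used.
-/

set_option autoImplicit false

namespace Pool.MP_5a0708_an.KRW

open Finset

/-! ## A1. Comparison of frames -/

/-- **Tr** : transport.  Proof: `s x` is in `F` for `x` in `F`, so by induction
`f ((s ^ t) x) = (s' ^ t) (f x)` for `x ∈ F` and all `t : ℕ`.  Hence, for `x ∈ F`:
`LPr s d x ↔ LPr s' d (f x)` (injectivity of `f` on `F`), `Mn s k x ↔ Mn s' k' (f x)` (`k x ≤ k y` is
`¬ k y < k x`), the sets in the definition of `sh s l x` and `sh s' l' (f x)` are the same, so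
`sh s l x = sh s' l' (f x)`, and `mkey s l x < mkey s l y ↔ mkey s' l' (f x) < mkey s' l' (f y)`.
`Iv m s' F'`: every element of `F'` is `f x` with `x ∈ F`.  The sum `gp` is re-indexed along the
bijection `f` (`Finset.sum_nbij`), the set in `iv` along `(x, y) ↦ (f x, f y)`
(`Finset.card_nbij`). -/
def S_Tr : Prop := ∀ (W W' Λ Λ' M M' : Type) [LinearOrder Λ] [LinearOrder Λ'] [LinearOrder M]
    [LinearOrder M'] (m : ℕ) (s : Equiv.Perm W) (s' : Equiv.Perm W') (F : Finset W)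
    (F' : Finset W') (k : W → Λ) (l : W → Λ') (k' : W' → M) (l' : W' → M') (f : W → W'),
    Iv m s F → (∀ x ∈ F, f x ∈ F') → (∀ x ∈ F, ∀ y ∈ F, f x = f y → x = y) →
    (∀ y ∈ F', ∃ x ∈ F, f x = y) → (∀ x ∈ F, f (s x) = s' (f x)) →
    (∀ x ∈ F, ∀ y ∈ F, (k x < k y ↔ k' (f x) < k' (f y))) →
    (∀ x ∈ F, ∀ y ∈ F, (l x < l y ↔ l' (f x) < l' (f y))) →
    Iv m s' F' ∧ Dl m s' F' k' l' = Dl m s F k l

/-- **Coc** : the cocycle property.  Proof.
(1) Gyration part.  Let `X1` be the set of `x ∈ F` with `LPr s m x`, `Mn s k₁ x`, and `X2` the same for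
`k₂`.  For `x ∈ X1` let `g x = (s ^ (sh s k₂ x)) x`; it is in `X2` (`sh_spec`, `LPr.pow`, `Iv.mem`), and
`g` is a bijection of `X1` onto `X2` with inverse `y ↦ (s ^ (sh s k₁ y)) y` (both compositions are
the identity by `mn_unique`, as the image is a `k`-minimum in the orbit of `x`; use `pow_ap`).  By
`sh_pow` (for `k₃`), `sh k₃ (g x) = sh k₃ x - sh k₂ x` in `ZMod m`.  So
`gp k₁ k₃ - gp k₁ k₂ = ∑ x ∈ X1, sh k₃ (g x) = ∑ y ∈ X2, sh k₃ y = gp k₂ k₃`.
`gp k₁ k₁ = 0` by `sh_eq_zero`.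
(2) Orders.  Fix `d`.  Let `Y = {x ∈ F : LPr s d x ∧ Mn s k₁ x}`.  Then for keys `k, l` among
`k₁, k₂, k₃`: `iv d s F k l = card {(x, y) ∈ Y × Y : mkey k x < mkey k y ∧ mkey l y < mkey l x}`, by the
bijection `(x, y) ↦` (the `k₁`-minima of the orbits of `x` and `y`) from pairs of `k`-minima
to pairs of `k₁`-minima (`mkey_pow`, `mkey_of_mn`, and `mn_unique` as in (1)).  On `Y` each of the
functions `mᵢ = mkey s kᵢ` is injective: by `orb_of_mkey` equal values mean the same orbit, then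
`mn_unique`.
Let `P12`, `P23`, `P13` be the three sets of pairs, so `P12 = {m₁ x < m₁ y, m₂ y < m₂ x}` etc.
`P12` is the disjoint union of `a = {m₁ <, m₂ >, m₃ <}` (meaning `m₁ x < m₁ y`, `m₂ x > m₂ y`,
`m₃ x < m₃ y`) and `b = {m₁ <, m₂ >, m₃ >}` (if `m₃ x = m₃ y` then `x = y`, impossible); `P23` is
the disjoint union of `c = {m₁ <, m₂ <, m₃ >}` and `a' = {m₁ >, m₂ <, m₃ >}`, and `a'` is the
image of `a` under `(x, y) ↦ (y, x)`; `P13` is the disjoint union of `b` and `c`.  So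
`iv d k₁ k₂ + iv d k₂ k₃ = iv d k₁ k₃ + 2 * card a`.  Also `iv d k₁ k₁ = 0`.
(3) Sum over `d ∈ ds m` and multiply by `m / 2`: if `m` is even, `(m / 2) * 2 = 0` in `ZMod m`; if
`m` is odd, `ds m` is empty (`d * 2 ^ i = m` with `1 ≤ i` makes `m` even), so all sums vanish. -/
def S_Coc : Prop := ∀ (W Λ₁ Λ₂ Λ₃ : Type) [LinearOrder Λ₁] [LinearOrder Λ₂] [LinearOrder Λ₃]
    (m : ℕ) (s : Equiv.Perm W) (F : Finset W) (k₁ : W → Λ₁) (k₂ : W → Λ₂) (k₃ : W → Λ₃),
    Iv m s F → Ki F k₁ → Ki F k₂ → Ki F k₃ →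
    Dl m s F k₁ k₂ + Dl m s F k₂ k₃ = Dl m s F k₁ k₃ ∧ Dl m s F k₁ k₁ = 0

/-- **Un** : additivity.  `F₁`, `F₂` are disjoint (`x` in both would give `k x < k x`).  The filter
of `F₁ ∪ F₂` in `gp` is the disjoint union of the two filters.  In `iv` the set for `F₁ ∪ F₂` is the
disjoint union of the sets for `F₁` and `F₂`: no pair with `z.1 ∈ F₁`, `z.2 ∈ F₂`, since
`mkey s l z.1 = l ((s ^ _) z.1) < l ((s ^ _) z.2) = mkey s l z.2` (`Iv.mem`); none with `z.1 ∈ F₂`,
`z.2 ∈ F₁`, since `k z.2 < k z.1`. -/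
def S_Un : Prop := ∀ (W Λ Λ' : Type) [LinearOrder Λ] [LinearOrder Λ'] [DecidableEq W] (m : ℕ)
    (s : Equiv.Perm W) (F₁ F₂ : Finset W) (k : W → Λ) (l : W → Λ'),
    Iv m s F₁ → Iv m s F₂ → (∀ x ∈ F₁, ∀ y ∈ F₂, k x < k y) → (∀ x ∈ F₁, ∀ y ∈ F₂, l x < l y) →
    Dl m s (F₁ ∪ F₂) k l = Dl m s F₁ k l + Dl m s F₂ k l

/-! ## A2. Involutions -/

section inv

variable {W Λ : Type} [LinearOrder Λ]

/-- the number of orbits of length `d` which are turned by `ψ` -/
noncomputable def Nn (d : ℕ) (s ψ : Equiv.Perm W) (F : Finset W) (k : W → Λ) : ℕ :=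
  open Classical in (F.filter (fun x => (LPr s d x ∧ Mn s k x) ∧ ψ x ≠ x ∧
    ∃ t : ℕ, ψ x = (s ^ t) x)).card

/-- the number of pairs of orbits of length `d` which are exchanged by `ψ` -/
noncomputable def Tn (d : ℕ) (s ψ : Equiv.Perm W) (F : Finset W) (k : W → Λ) : ℕ :=
  open Classical in (F.filter (fun x => (LPr s d x ∧ Mn s k x) ∧
    mkey s k x < mkey s k (ψ x))).card

/-- `ψ` is an involution of `F` commuting with `s` -/
structure Vol (s ψ : Equiv.Perm W) (F : Finset W) : Prop where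
  st : ∀ x ∈ F, ψ x ∈ F
  inv : ∀ x ∈ F, ψ (ψ x) = x
  com : ∀ x ∈ F, ψ (s x) = s (ψ x)

end inv

/-- **Inv** : the comparison of `k` and `k ∘ ψ` for an involution `ψ`.  Proof.  By induction
`ψ ((s ^ t) x) = (s ^ t) (ψ x)` for `x ∈ F`.  Let `l = k ∘ ψ`.  So for `x ∈ F`:
`Mn s l x ↔ Mn s k (ψ x)`, `sh s l x = sh s k (ψ x)`, `mkey s l x = mkey s k (ψ x)`, and
`LPr s d x ↔ LPr s d (ψ x)` (as `ψ` is injective).
(1) Gyration part.  Let `X = {x ∈ F : LPr s m x ∧ Mn s k x}`, for `x ∈ X` let `t x = sh s k (ψ x)` and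
`g x = (s ^ (t x)) (ψ x)`, which is in `X`.  `ψ (g x) = (s ^ (t x)) x`, and `x` is a `k`-minimum in
the orbit of `ψ (g x)`, so `g (g x) = x` (`mn_unique`) and, by `sh_pow`,
`t (g x) = sh k ((s ^ (t x)) x) = - t x` in `ZMod m` (as `sh k x = 0`).  So in the sum
`∑ x ∈ X, t x` the terms of `x` and `g x` cancel if `g x ≠ x`: by `Finset.sum_involution` the sum
over `{x ∈ X : g x ≠ x}` is `0`.  If `g x = x`: then `ψ x = ψ (g x) = (s ^ (t x)) x`, and
`(s ^ (2 t x)) x = ψ (ψ x) = x`, so `m ∣ 2 t x`, `t x < m` (`sh_lt`), hence `t x = 0` or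
(`m` even and) `t x = m / 2`, and `t x = 0` iff `ψ x = x` (`LPr.eq_iff`).
Conversely, if `ψ x = (s ^ a) x` for some `a` then `g x`
is a `k`-minimum in the orbit of `x`, so `g x = x`.  Hence `∑ x ∈ X, t x = (m / 2) * Nn`.
(2) Orders.  Fix `d`.  Let `Y = {x ∈ F : LPr s d x ∧ Mn s k x}` and for `x ∈ Y` let
`g x = (s ^ (sh s k (ψ x))) (ψ x) ∈ Y`; as before `g (g x) = x`, and `k (g x) = mkey s k (ψ x)`.
`iv d s F k l = card I`, `I = {(x, y) ∈ Y × Y : k x < k y ∧ k (g y) < k (g x)}`.  The map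
`(x, y) ↦ (g y, g x)` is an involution of `I`.  Its fixed points are the `(x, g x)` with
`k x < k (g x)`; their number is `Tn d`.  So `iv d s F k l = Tn d + 2 * e` for some `e` (the number of
points of an involution has the parity of the number of its fixed points, for instance
`Finset.card_involution`-type lemmas or `Finset.sum_involution` in `ZMod 2` for `I` minus the
fixed points).
(3) As in `S_Coc`, `(m / 2) * 2 = 0` for even `m`, and `ds m = ∅` for odd `m`. -/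
def S_Inv : Prop := ∀ (W Λ : Type) [LinearOrder Λ] (m : ℕ) (s ψ : Equiv.Perm W) (F : Finset W)
    (k : W → Λ), Iv m s F → Ki F k → Vol s ψ F →
    Dl m s F k (k ∘ ψ) =
      ((m / 2 : ℕ) : ZMod m) * ((Nn m s ψ F k + ∑ d ∈ ds m, Tn d s ψ F k : ℕ) : ZMod m)

/-- **Orb** : counting points instead of orbits.  Proof.  (0) Let `A` be a set with
`x ∈ A ↔ s x ∈ A` for `x ∈ F`.  Then `d * card {x ∈ F : LPr s d x, Mn s k x, x ∈ A}` is
`card {x ∈ F : LPr s d x, x ∈ A}`: the map `(x, t) ↦ (s ^ t) x`, `t ∈ range d`, is a bijection from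
`{x ∈ F : LPr, Mn, A} × range d` onto `{x ∈ F : LPr, A}`.  Injective: if
`(s ^ t) x = (s ^ t') x'` then `x'` is in the orbit of `x` (`(s ^ m) x' = x'`, `Iv.mul_m`), so
`x = x'` (`mn_unique`) and `t = t'` by `LPr.eq_iff`.  Surjective: `y` is in the orbit of its
`k`-minimum `(s ^ (sh s k y)) y`; reduce the exponent modulo `d`.
(1) `A = {x : ψ x ≠ x ∧ ∃ t : ℕ, ψ x = (s ^ t) x}` gives the first claim.
(2) `A = {x : mkey s k x < mkey s k (ψ x)}` (`mkey_pow`) gives
`d * Tn d = card B1`, `B1 = {x ∈ F : LPr s d x, mkey k x < mkey k (ψ x)}`.  `ψ` maps `B1` bijectively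
onto `B2 = {x ∈ F : LPr s d x, mkey k (ψ x) < mkey k x}`, and `B1`, `B2` are disjoint with union
`{x ∈ F : LPr s d x, mkey k x ≠ mkey k (ψ x)}`; finally `mkey k x = mkey k (ψ x)` iff
`ψ x = (s ^ t) x` for some `t` (`orb_of_mkey`, `mkey_pow`). -/
def S_Orb : Prop := ∀ (W Λ : Type) [LinearOrder Λ] (m d : ℕ) (s ψ : Equiv.Perm W)
    (F : Finset W) (k : W → Λ), Iv m s F → Ki F k → Vol s ψ F → 0 < d →
    d * Nn d s ψ F k = (open Classical in (F.filter (fun x => LPr s d x ∧ ψ x ≠ x ∧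
      ∃ t : ℕ, ψ x = (s ^ t) x)).card) ∧
    2 * (d * Tn d s ψ F k) = (open Classical in (F.filter (fun x => LPr s d x ∧
      ∀ t : ℕ, ψ x ≠ (s ^ t) x)).card)

/-! ## A3. Closed paths in a graph -/

section graphs

variable {E I : Type}

/-- closed paths of least period `d` which are turned by `π` -/
noncomputable def nP (d : ℕ) (ED : Finset E) (src tgt : E → I) (π : Equiv.Perm E) : ℕ :=
  open Classical in ((CP d ED src tgt).filter (fun x => LPr (shf E) d x ∧ ext π x ≠ x ∧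
    ∃ t : ℕ, ext π x = ((shf E) ^ t) x)).card

/-- closed paths of least period `d` which `π` maps to another orbit -/
noncomputable def tP (d : ℕ) (ED : Finset E) (src tgt : E → I) (π : Equiv.Perm E) : ℕ :=
  open Classical in ((CP d ED src tgt).filter (fun x => LPr (shf E) d x ∧
    ∀ t : ℕ, ext π x ≠ ((shf E) ^ t) x)).card

/-- `π` permutes the edges in `ED` and preserves source and target -/
def Fb (ED : Finset E) (src tgt : E → I) (π : Equiv.Perm E) : Prop :=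
  ∀ e ∈ ED, π e ∈ ED ∧ src (π e) = src e ∧ tgt (π e) = tgt e

end graphs

/-- **CntP** : the count of closed paths.  Write `ψ = ext π`, `s = shf E`, `P d` for the set of all
`x ∈ CP d` (a set of sequences: `x (k + d) = x k`, edges in `ED`, consecutive), `ψ` commutes with `s`,
`ψ ψ = 1` on these, `c d = nP d + tP d` = number of `x ∈ P d` with least period `d` and `ψ x ≠ x`.
(1) Let `x` have least period `d`, `ψ x = s ^ t x`, `ψ x ≠ x`.  Then `s ^ (2t) x = x`, so `d ∣ 2t`, not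
`d ∣ t` (`LPr.eq_iff`).  So `d` is even and `t ≡ d / 2` modulo `d`, so `ψ x = s ^ (d / 2) x`.  Hence
`nP d = 0` for odd `d`, and `nP (2 e)` = number of `x ∈ P (2e)` of least period `2e` with
`ψ x = s ^ e x` (for such `x`, `s ^ e x ≠ x`).
(2) Let `h > 0`, `Z h = {y ∈ P (2h) : ψ y = s ^ h y}`.  The map `P h → Z h`, `w ↦ y`,
`y k = w k` if `k / h` (floor division in `ℤ`) is even, `y k = π (w k)` if `k / h` is odd, is a
bijection: `y (k + h) = π (y k)`, and `y` is a path because `π` preserves source and target; the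
inverse sends `y` to the sequence `k ↦ y (k % h)` (which is a path: `tgt (y (h-1)) = src (y h) =
src (π (y 0)) = src (y 0)`).  It satisfies `ψ w = w ↔ ψ y = y`.
So the number of `y ∈ Z h` with `ψ y ≠ y` is the number of `w ∈ P h` with `ψ w ≠ w`, which is
`∑ d ∈ divisors h, c d` (partition by the least period, `P d ⊆ P h` for `d ∣ h`).
(3) Let `y ∈ Z h`, `ψ y ≠ y`, `D` its least period; `D ∣ 2h`.  By (1) `D = 2e` and `ψ y = s ^ e y =
s ^ h y`, so `h ≡ e` modulo `2e`: `e ∣ h` and `h / e` is odd.  Conversely if `e ∣ h`, `h / e` odd, `y` has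
least period `2e` and `ψ y = s ^ e y` then `y ∈ Z h`, `ψ y ≠ y`.  So
`(*)  ∑ (e ∣ h, h / e odd) nP (2 e) = ∑ (d ∣ h) c d`.
(4) Claim `nP (2h) = nP h + c h` for all `h > 0`, by strong induction.  By `(*)` and the induction
hypothesis for the proper divisors `e` of `h` with `h / e` odd,
`nP (2h) = ∑ (d ∣ h) c d - ∑ (e ∣ h, h / e odd, e ≠ h) (nP e + c e)`.  Here
`∑ (d ∣ h) c d = ∑ (d ∣ h, h / d odd) c d + ∑ (d ∣ h, h / d even) c d`.  If `h` is odd the last sum is
empty and all `nP e` are `0` by (1), so `nP (2h) = c h = nP h + c h`.  If `h = 2 h'` then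
`∑ (d ∣ h, h / d even) c d = ∑ (d ∣ h') c d = ∑ (e ∣ h', h' / e odd) nP (2e) =
∑ (e' ∣ h, h / e' odd) nP e'` (by `(*)` for `h'`; the `e'` with `e' ∣ h`, `h / e'` odd are the `2e` with
`e ∣ h'`, `h' / e` odd), and the claim follows.  (Write all identities without subtraction.) -/
def S_CntP : Prop := ∀ (E I : Type) (ED : Finset E) (src tgt : E → I) (π : Equiv.Perm E),
    Fb ED src tgt π → (∀ e ∈ ED, π (π e) = e) →
    (∀ d : ℕ, d % 2 = 1 → nP d ED src tgt π = 0) ∧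
    (∀ h : ℕ, 0 < h → nP (2 * h) ED src tgt π = 2 * nP h ED src tgt π + tP h ED src tgt π)

/-- **Sw** (uses `S_Inv`, `S_Orb`, `S_CntP`).  Let `F = CP m`, `s = shf E`, `ψ = ext π`; `Vol s ψ F`
(`mem_CP`) and `Iv m s F` (`iv_CP`).  For `d ∣ m`, `0 < d`: `{x ∈ CP m : LPr s d x ∧ ...}` is
`{x ∈ CP d : LPr s d x ∧ ...}` (an `x` with `s ^ d x = x` satisfies `x (k + d) = x k`, and
conversely `x (k + d) = x k` for all `k` gives `x (k + m) = x k`, `per_mul`).  So by `S_Orb`, with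
`N d = Nn d s ψ F k`, `T d = Tn d s ψ F k`: `d * N d = nP d`, `2 * (d * T d) = tP d`.  By `S_CntP`, for
`2 * h ∣ m`: `2 h N (2h) = 2 h N h + 2 h T h`, so `N (2h) = N h + T h`; and `N d = 0` for odd
`d ∣ m`.  Write `m = 2 ^ r * q`, `q` odd (`Nat.exists_eq_two_pow_mul_odd`).  By induction
`N (2 ^ j * q) = ∑ i ∈ range j, T (2 ^ i * q)` for `j ≤ r`, and `ds m = {2 ^ i * q : i < r}`, so
`N m = ∑ d ∈ ds m, T d`.  By `S_Inv`: `Dl = (m / 2) * (2 * ∑ d ∈ ds m, T d)`.  If `m` is even this is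
`0` as `(m / 2) * 2 = m`; if `m` is odd the sum is empty. -/
def S_Sw : Prop := ∀ (E I Λ : Type) [LinearOrder Λ] (m : ℕ) (ED : Finset E) (src tgt : E → I)
    (π : Equiv.Perm E) (k : (ℤ → E) → Λ), 0 < m → Fb ED src tgt π → (∀ e ∈ ED, π (π e) = e) →
    Ki (CP m ED src tgt) k → Dl m (shf E) (CP m ED src tgt) k (k ∘ ext π) = 0

/-- **Fib** (uses `S_Tr`, `S_Coc`, `S_Sw`).  Induction on the number of `e ∈ ED` with `π e ≠ e`, for all
keys `k` at once.  If there is none, `ext π x = x` for `x ∈ CP m` (all `x k ∈ ED`), so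
`Dl k (k ∘ ext π) = Dl k k = 0` (`S_Tr` with `f = id`, `S_Coc`).  Otherwise let `π e ≠ e`, `e ∈ ED`,
`τ = Equiv.swap e (π e)` (classical decidability), which satisfies `Fb` and `τ τ = 1`, and
`π' = τ * π`.  `π'` satisfies `Fb`; `π' e = e`; if `π e' = e'` then `e' ≠ e` and `e' ≠ π e` (otherwise
`π e' = e' = π e`, `e' = e`), so `π' e' = e'`.  So the induction hypothesis applies to `π'`.
`π = τ * π'`, `k ∘ ext π = (k ∘ ext τ) ∘ ext π'`.  `ext π'` is a bijection of `CP m` onto itself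
commuting with the shift.  By `S_Tr` (with `f = ext π'`)
`Dl (k ∘ ext π') ((k ∘ ext τ) ∘ ext π') = Dl k (k ∘ ext τ) = 0` (`S_Sw`), and
`Dl k (k ∘ ext π') = 0`.  Add them by `S_Coc` (the keys `k ∘ ext _` satisfy `Ki`). -/
def S_Fib : Prop := ∀ (E I Λ : Type) [LinearOrder Λ] (m : ℕ) (ED : Finset E) (src tgt : E → I)
    (π : Equiv.Perm E) (k : (ℤ → E) → Λ), 0 < m → Fb ED src tgt π →
    Ki (CP m ED src tgt) k → Dl m (shf E) (CP m ED src tgt) k (k ∘ ext π) = 0

/-- **Sim** (uses `S_Tr`, `S_Fib`).  Two injective edge keys which refine the order of the pairs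
(source, target) give the same frame.  Proof.  For `i = 1, 2` and `a ∈ ED` let
`rᵢ a = card {b ∈ ED : eᵢ b < eᵢ a}`; `rᵢ` is a bijection of `ED` onto `range (card ED)` and
`rᵢ a < rᵢ b ↔ eᵢ a < eᵢ b`.  Let `π a` for `a ∈ ED` be the element of `ED` with
`r₁ (π a) = r₂ a`, and `π a = a` outside `ED`; it is a permutation of `E`.  `Fb`: let
`A = card {b ∈ ED : (src, tgt) b < (src, tgt) a}` (lexicographically) and
`B = card {b ∈ ED : (src, tgt) b ≤ (src, tgt) a}`.  `Rf` gives, for both `i`: for `c ∈ ED`, if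
`(src, tgt) c` is smaller than, equal to, larger than `(src, tgt) a`, then `rᵢ c < A`,
`A ≤ rᵢ c < B`, `B ≤ rᵢ c` respectively.  Here `A ≤ r₂ a < B`, so `A ≤ r₁ (π a) < B` and
`(src, tgt) (π a) = (src, tgt) a`.
For `a, b ∈ ED`: `e₁ (π a) < e₁ (π b) ↔ e₂ a < e₂ b`, and `a = b` iff `e₂ a = e₂ b`.  Hence the keys
`pk1 m e₂` and `pk1 m (e₁ ∘ π) = (pk1 m e₁) ∘ ext π` define the same order on `CP m` (compare at
the first `t : Fin m` at which the sequences differ; `Pi.Lex`, `Pi.toLex_lt_toLex`-type lemmas or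
`Pi.Lex` unfolding).  By `S_Tr` with `f = id`,
`Dl (pk1 m e₁) (pk1 m e₂) = Dl (pk1 m e₁) ((pk1 m e₁) ∘ ext π) = 0` by `S_Fib`; `Ki` for
`pk1 m e₁`: as in `ki_pk`. -/
def S_Sim : Prop := ∀ (E I Λ Λ' : Type) [LinearOrder I] [LinearOrder Λ] [LinearOrder Λ'] (m : ℕ)
    (ED : Finset E) (src tgt : E → I) (e₁ : E → Λ) (e₂ : E → Λ'), 0 < m →
    (∀ a ∈ ED, ∀ b ∈ ED, e₁ a = e₁ b → a = b) → (∀ a ∈ ED, ∀ b ∈ ED, e₂ a = e₂ b → a = b) →
    Rf ED src tgt e₁ → Rf ED src tgt e₂ →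
    Dl m (shf E) (CP m ED src tgt) (pk1 m e₁) (pk1 m e₂) = 0

end Pool.MP_5a0708_an.KRW
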