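import Pool.Agent.Lib.MP_5a0708_an.KRW.SpecA

/-!
# MP_5a0708_an, package KRW : the modules, part B (the cocycle for matrices)

Conventions as in `KRW/SpecA.lean`.
-/

set_option autoImplicit false

namespace Pool.MP_5a0708_an.KRW

open Finset

/-! ## B1. Closed alternating paths -/

/-- **Lab** (uses `S_Tr`).  `DD` depends only on the numbers of labels.  Proof.  For all `i, j` there
is a bijection `φ i j` from `U i j` to `U' i j` preserving the order (both are order isomorphic to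
`Fin n`, `Finset.orderIsoOfFin`), extended to a function `α → α'`, with an inverse on `U' i j`; the
same for `V`: `χ j i`.  Let `f x = fun k => ((x k).1, (x k).2.1, φ _ _ (x k).2.2.1,
χ (x k).2.1 (x (k+1)).1 (x k).2.2.2)`.  It maps `AP m U V` bijectively onto `AP m U' V'`
(`mem_AP`; the inverse is given by the inverse bijections) and commutes with the shift.
Orders: let `x ≠ y` be in `AP m U V` (for `x = y` both sides of the equivalences are false).
`pk m kA x < pk m kA y` iff at the first `t < m` at which `kA (x t) (x (t+1))` and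
`kA (y t) (y (t+1))` differ, the one of `x` is smaller.  `kA (x t) (x (t+1))` and
`kA (f x t) (f x (t+1))` have the same components in `I, I, J`; if these are the same for `x` and
`y`, the labels of `x` and `y` are in the same sets `U i j`, `V j i'`, on which `φ`, `χ` preserve
the order and equality.  So the edge keys of `f x`, `f y` at `t` are equal, or ordered, as those of
`x`, `y`.  The same for `kB` (components: `j_t, j_(t+1), i_(t+1), b_t, a_(t+1)`, where
`a_(t+1) ∈ U i_(t+1) j_(t+1)`).  Apply `S_Tr`. -/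
def S_Lab : Prop := ∀ (I J α β α' β' : Type) [Fintype I] [Fintype J] [LinearOrder I]
    [LinearOrder J] [LinearOrder α] [LinearOrder β] [LinearOrder α'] [LinearOrder β'] (m : ℕ)
    (U : I → J → Finset α) (V : J → I → Finset β) (U' : I → J → Finset α')
    (V' : J → I → Finset β'), 0 < m → (∀ i j, (U i j).card = (U' i j).card) →
    (∀ j i, (V j i).card = (V' j i).card) → DD m U V = DD m U' V'

/-- **TA** (uses `S_Tr`, `S_Sim`).  Proof.  Let `E = (I × J × L × α × β × γ) × I`,
`f x = fun k => (x k, (x (k + 1)).1)`, `src e = e.1.1`, `tgt e = e.2`, and `ED` the finite set of the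
`((i, j, l, a, b, c), i')` with `a ∈ U i j`, `b ∈ V j l`, `c ∈ Z l i'`.  `f` is injective, commutes
with the shift and maps `TP m U V Z` onto `CP m ED src tgt` (`mem_TP`, `mem_CP`; a path `y` in
`CP` is `f` of `fun k => (y k).1`, since `(y k).2 = src (y (k+1))`).  Let
`e₁ (c, i') = toLex (c.1, toLex (i', toLex (c.2.1, toLex (c.2.2.2.1, toLex (c.2.2.1,
toLex (c.2.2.2.2.1, c.2.2.2.2.2))))))` and `e₂ (c, i') = toLex (c.1, toLex (i', toLex (c.2.2.1,
toLex (toLex (c.2.1, toLex (c.2.2.2.1, c.2.2.2.2.1)), c.2.2.2.2.2))))`.  Then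
`pk m tA x = pk1 m e₁ (f x)` and `pk m tA' x = pk1 m e₂ (f x)` by definition, `e₁`, `e₂` are
injective and begin with (source, target), so `Rf`.  `S_Tr` and `S_Sim`. -/
def S_TA : Prop := ∀ (I J L α β γ : Type) [Fintype I] [Fintype J] [Fintype L] [LinearOrder I]
    [LinearOrder J] [LinearOrder L] [LinearOrder α] [LinearOrder β] [LinearOrder γ] (m : ℕ)
    (U : I → J → Finset α) (V : J → L → Finset β) (Z : L → I → Finset γ), 0 < m →
    Dl m (shf _) (TP m U V Z) (pk m tA) (pk m tA') = 0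

/-- **TB** (uses `S_Tr`).  Proof.  `f x = fun k => ((x k).1, (x k).2.1, (x k).2.2.2.1,
toLex ((x k).2.2.1, toLex ((x k).2.2.2.2.1, (x k).2.2.2.2.2)))` is a bijection from `TP m U V Z` onto
`AP m U (cmp V Z)` commuting with the shift (`mem_TP`, `mem_AP`, `mem_cmp`), and
`pk m kA (f x) = pk m tA x`, `pk m kB (f x) = pk m tB x` by definition. -/
def S_TB : Prop := ∀ (I J L α β γ : Type) [Fintype I] [Fintype J] [Fintype L] [LinearOrder I]
    [LinearOrder J] [LinearOrder L] [LinearOrder α] [LinearOrder β] [LinearOrder γ] (m : ℕ)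
    (U : I → J → Finset α) (V : J → L → Finset β) (Z : L → I → Finset γ), 0 < m →
    DD m U (cmp V Z) = Dl m (shf _) (TP m U V Z) (pk m tA) (pk m tB)

/-- **TC** (uses `S_Tr`).  Proof.  As `S_TB`, with `f x = fun k => ((x k).1, (x k).2.2.1,
toLex ((x k).2.1, toLex ((x k).2.2.2.1, (x k).2.2.2.2.1)), (x k).2.2.2.2.2)`. -/
def S_TC : Prop := ∀ (I J L α β γ : Type) [Fintype I] [Fintype J] [Fintype L] [LinearOrder I]
    [LinearOrder J] [LinearOrder L] [LinearOrder α] [LinearOrder β] [LinearOrder γ] (m : ℕ)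
    (U : I → J → Finset α) (V : J → L → Finset β) (Z : L → I → Finset γ), 0 < m →
    DD m (cmp U V) Z = Dl m (shf _) (TP m U V Z) (pk m tA') (pk m tC)

/-- **TT** (uses `S_Tr`, `S_Coc`, `S_TA`, `S_TB`, `S_TC`).  The triangle identity.  Proof.  `rot3` is
a bijection from `TP m U V Z` onto `TP m V Z U`, and `rot3 ∘ rot3` onto `TP m Z U V`, commuting
with the shift (`mem_TP`; the inverse of `rot3` is `y ↦ fun k => ((y (k-1)).2.2.1, (y k).1, (y k).2.1,
(y (k-1)).2.2.2.2.2, (y k).2.2.2.1, (y k).2.2.2.2.1)`).  By definition (all sides are functions of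
`x : ℤ → I × J × L × α × β × γ`)
`pk m tB = pk m tA' ∘ rot3`, `pk m tC = pk m tA ∘ rot3 ∘ rot3`,
`pk m tB ∘ rot3 = pk m tA' ∘ rot3 ∘ rot3`.
Write `D k l = Dl m (shf _) (TP m U V Z) k l`, `a = pk m tA`, `a' = pk m tA'`, `a₁ = pk m tA ∘ rot3`,
`a₁' = pk m tA' ∘ rot3`, `a₂ = pk m tA ∘ rot3 ∘ rot3`, `a₂' = pk m tA' ∘ rot3 ∘ rot3`.  By `S_TA` for
`(U, V, Z)`, `(V, Z, U)`, `(Z, U, V)` and `S_Tr`: `D a a' = D a₁ a₁' = D a₂ a₂' = 0`.  By `S_TB`:
`DD m U (cmp V Z) = D a a₁'` and `DD m V (cmp Z U) = D a₁ a₂'` (`S_Tr` for `rot3`); by `S_TC`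
`DD m (cmp U V) Z = D a' a₂`.  All six keys are injective on `TP m U V Z` (`ki_tA`, `ki_tA'` for the
rotated triples, and injectivity of `rot3`).  By `S_Coc` (cocycle identity, so also
`D l k = - D k l`): `D a a₁' + D a₁ a₂' = D a a₁ + D a₁ a₂' = D a a₂' = D a a₂ = D a' a₂`. -/
def S_TT : Prop := ∀ (I J L α β γ : Type) [Fintype I] [Fintype J] [Fintype L] [LinearOrder I]
    [LinearOrder J] [LinearOrder L] [LinearOrder α] [LinearOrder β] [LinearOrder γ] (m : ℕ)
    (U : I → J → Finset α) (V : J → L → Finset β) (Z : L → I → Finset γ), 0 < m →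
    DD m U (cmp V Z) + DD m V (cmp Z U) = DD m (cmp U V) Z

/-! ## B2. Matrices over `ℕ` -/

/-- **TN** (uses `S_TT`, `S_Lab`).  `S_TT` for `U i j = range (R i j)`, `V j l = range (S j l)`,
`Z l i = range (T l i)`; `card_cmp` gives `card (cmp U V i l) = ∑ j, R i j * S j l = (R * S) i l`
(`Matrix.mul_apply`), so by `S_Lab` each `cmp` may be replaced by `range` of the entry of the
product. -/
def S_TN : Prop := ∀ (m p q r : ℕ) (R : Matrix (Fin p) (Fin q) ℕ) (S : Matrix (Fin q) (Fin r) ℕ)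
    (T : Matrix (Fin r) (Fin p) ℕ), 0 < m →
    sgc m R (S * T) + sgc m S (T * R) = sgc m (R * S) T

/-- **NP**.  A function with vanishing `(m+1)`-st difference and values in `ZMod m` has the period
`TT m`.  Proof.  Newton: `f (n + T) = ∑ i ∈ range (T + 1), (T.choose i) • (Δ^i f) n`
(`shift_eq_sum_fwdDiff_iter`); `Δ^i f = 0` for `i ≥ m + 1`.  For `1 ≤ i ≤ m` and `T = m * m !`:
`i * T.choose i = T * (T-1).choose (i-1)` (`Nat.succ_mul_choose_eq` or
`Nat.add_one_mul_choose_eq`), and `m ! = i * c`, so `T.choose i = m * c * (T-1).choose (i-1)` is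
divisible by `m` and kills `ZMod m`.  There remains the term `i = 0`, which is `f n`. -/
def S_NP : Prop := ∀ (m : ℕ) (f : ℕ → ZMod m), 0 < m →
    (∀ n : ℕ, ((fwdDiff (1 : ℕ))^[m + 1] f) n = 0) → ∀ n : ℕ, f (n + TT m) = f n

/-- `R` with `n` added to the entry `(i₀, j₀)` -/
def upd {p q : ℕ} (R : Matrix (Fin p) (Fin q) ℕ) (i₀ : Fin p) (j₀ : Fin q) (n : ℕ) :
    Matrix (Fin p) (Fin q) ℕ := fun i j => R i j + (open Classical in if i = i₀ ∧ j = j₀ then n else 0)

/-- **PF** (uses `S_Lab`).  The cocycle is a polynomial function of degree at most `m` of each entry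
of `R`.  Proof.  `Δ^(m+1) f n = ∑ j ∈ range (m + 2), (-1)^(m+1-j) (m+1).choose j • f (n + j)`
(`fwdDiff_iter_eq_sum_shift`).  Replacing `R` by `upd R i₀ j₀ n` we may take `n = 0`.  Let
`r = R i₀ j₀`, `X = {r, ..., r + m}` (`m + 1` new labels), and for `D ⊆ X` let `U_D i j = range (R i j)`
for `(i, j) ≠ (i₀, j₀)`, `U_D i₀ j₀ = range r ∪ D`, `V j i = range (S j i)`.  By `S_Lab`
`sgc m (upd R i₀ j₀ (card D)) S = DD m U_D V`.  So
`Δ^(m+1) f 0 = ∑ D ∈ powerset X, (-1)^(m + 1 - card D) DD m U_D V` (group by `card D`,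
`Finset.sum_powerset` or `Finset.powersetCard`).  Let `W = AP m U_X V ⊇ AP m U_D V`.  For a finite set
`O` of sequences let `sp O ⊆ X` be the set of the labels `a ∈ X` which occur in some `x ∈ O` as
`(x k).2.2.1` with `(x k).1 = i₀`, `(x k).2.1 = j₀`.  For `x ∈ W`: `x ∈ AP m U_D V` iff
`sp {x} ⊆ D`.  If `x` has period `d` then `card (sp {x}) ≤ d`.
`DD m U_D V` is the sum over the `x ∈ W` with `LPr m x`, `Mn (pk m kA) x` and `sp {x} ⊆ D` of
`sh (pk m kB) x`, plus `m / 2` times the sum over `d ∈ ds m` of the number of pairs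
`(x, y) ∈ W × W` (least periods `d`, `kA`-minimal, order conditions) with `sp {x, y} ⊆ D`.  The
conditions other than `sp ⊆ D` do not depend on `D`.  For `d ∈ ds m`, `2 * d ≤ m`, so
`card (sp {x, y}) ≤ 2 d ≤ m`.  So in all cases the set `sp O` is not all of `X`, and
`∑ (D ⊆ X, sp O ⊆ D) (-1)^(m + 1 - card D) = 0` (`Finset.sum_powerset_neg_one_pow_card`-type
lemma for `X \ sp O`, which is not empty).  Exchange the sums. -/
def S_PF : Prop := ∀ (m p q : ℕ) (R : Matrix (Fin p) (Fin q) ℕ) (S : Matrix (Fin q) (Fin p) ℕ)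
    (i₀ : Fin p) (j₀ : Fin q), 0 < m →
    ∀ n : ℕ, ((fwdDiff (1 : ℕ))^[m + 1] (fun n : ℕ => sgc m (upd R i₀ j₀ n) S)) n = 0

/-- **Per** (uses `S_NP`, `S_PF`, `S_TN`).  Proof.  By `S_NP`, `S_PF`:
`sgc m (upd R i₀ j₀ (n + TT m)) S = sgc m (upd R i₀ j₀ n) S`, so `sgc m (upd R i₀ j₀ (c * TT m)) S =
sgc m R S`.  (1) If `R' i j = R i j + (TT m) * C i j` for all `i, j` then `sgc m R' S = sgc m R S`:
change the entries one after the other (induction on the finite set of entries already changed,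
or on `∑ i j, C i j`).  (2) If `R`, `R'` are congruent entrywise modulo `TT m` then both are of the form
(1) over the matrix of the remainders, so `sgc m R S = sgc m R' S`.  (3) `S_TN` with `T = 1` gives
`sgc m R S + sgc m S R = sgc m (R * S) 1`.  If `S`, `S'` are congruent then `R * S`, `R * S'` are, so by
(2) `sgc m R S = sgc m (R * S) 1 - sgc m S R = sgc m (R * S') 1 - sgc m S' R = sgc m R S'`. -/
def S_Per : Prop := ∀ (m p q : ℕ) (R R' : Matrix (Fin p) (Fin q) ℕ)
    (S S' : Matrix (Fin q) (Fin p) ℕ), 0 < m → (∀ i j, R i j % TT m = R' i j % TT m) →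
    (∀ i j, S i j % TT m = S' i j % TT m) → sgc m R S = sgc m R' S'

section blocks

variable {K : Type} {a b c d : ℕ}

/-- upper left block -/
def b11 (R : Matrix (Fin (a + b)) (Fin (c + d)) K) : Matrix (Fin a) (Fin c) K :=
  fun i j => R (Fin.castAdd b i) (Fin.castAdd d j)

/-- lower left block -/
def b21 (R : Matrix (Fin (a + b)) (Fin (c + d)) K) : Matrix (Fin b) (Fin c) K :=
  fun i j => R (Fin.natAdd a i) (Fin.castAdd d j)

/-- lower right block -/
def b22 (R : Matrix (Fin (a + b)) (Fin (c + d)) K) : Matrix (Fin b) (Fin d) K :=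
  fun i j => R (Fin.natAdd a i) (Fin.natAdd c j)

/-- upper right block -/
def b12 (R : Matrix (Fin (a + b)) (Fin (c + d)) K) : Matrix (Fin a) (Fin d) K :=
  fun i j => R (Fin.castAdd b i) (Fin.natAdd c j)

end blocks

/-- **AddN** (uses `S_Tr`, `S_Un`).  Block triangular matrices.  Proof.  Let `x ∈ AP m U V`
(`U i j = range (R i j)`, `V j i = range (S j i)`).  If `(x k).1 ≥ a` (lower block) then
`(x k).2.1 ≥ c`, as `R` vanishes on the lower left block, and then `(x (k+1)).1 ≥ a`.  By periodicity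
either all `(x k).1`, `(x k).2.1` are in the lower blocks or all are in the upper blocks (if
`(x k).1 < a` but `(x k).2.1 ≥ c` then all later `(x k').1 ≥ a`, in particular
`(x (k + m)).1 = (x k).1`, a contradiction).  So `AP m U V = F₁ ∪ F₂` (`F₁` upper, `F₂` lower), both
invariant, and all keys of `F₁` are smaller than those of `F₂` (the first component of `pk m kA` is
`(x 0).1`, the first one of `pk m kB` is `(x 0).2.1`).  `S_Un`.  By `S_Tr` `Dl` on `F₁`, `F₂` is
`sgc m (b11 R) (b11 S)`, `sgc m (b22 R) (b22 S)`: apply `Fin.castAdd`, `Fin.natAdd` to the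
components, which preserve the order. -/
def S_AddN : Prop := ∀ (m a b c d : ℕ) (R : Matrix (Fin (a + b)) (Fin (c + d)) ℕ)
    (S : Matrix (Fin (c + d)) (Fin (a + b)) ℕ), 0 < m → b21 R = 0 → b21 S = 0 →
    sgc m R S = sgc m (b11 R) (b11 S) + sgc m (b22 R) (b22 S)

/-! ## B3. Matrices over `ℤ` -/

/-- the type of cocycles -/
abbrev Zt (m : ℕ) : Type :=
  (p q : ℕ) → Matrix (Fin p) (Fin q) ℤ → Matrix (Fin q) (Fin p) ℤ → ZMod m

/-- the axioms of a cocycle -/
structure Cz (m : ℕ) (z : Zt m) : Prop where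
  tri : ∀ (p q r : ℕ) (R : Matrix (Fin p) (Fin q) ℤ) (S : Matrix (Fin q) (Fin r) ℤ)
    (T : Matrix (Fin r) (Fin p) ℤ), z p q R (S * T) + z q r S (T * R) = z p r (R * S) T
  add : ∀ (a b c d : ℕ) (R : Matrix (Fin (a + b)) (Fin (c + d)) ℤ)
    (S : Matrix (Fin (c + d)) (Fin (a + b)) ℤ), b21 R = 0 → b21 S = 0 →
    z (a + b) (c + d) R S = z a c (b11 R) (b11 S) + z b d (b22 R) (b22 S)
  zero : ∀ (p q : ℕ) (R : Matrix (Fin p) (Fin q) ℤ), z p q R 0 = 0

/-- **Z** (uses `S_Per`, `S_TN`, `S_AddN`).  `sgz` is a cocycle and extends `sgc`.  Proof.  `red`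
commutes with products, up to congruence modulo `TT m` (`TT m > 0`; entries in `ℤ`), so `tri`
follows from `S_TN` by `S_Per`.  `b21 (red R) = red (b21 R) = 0` etc., so `add` follows from `S_AddN`.
`sgz R 0 = sgc (red R) 0 = 0`: `AP m U V` is empty when `V j i = range 0` (`mem_AP`), so `Dl` is a sum
over empty sets.  Last claim: `red` of the cast of `R` is congruent to `R` modulo `TT m`,
`S_Per`. -/
def S_Z : Prop := ∀ m : ℕ, 0 < m → Cz m (fun _ _ R S => sgz m R S) ∧
    ∀ (p q : ℕ) (R : Matrix (Fin p) (Fin q) ℕ) (S : Matrix (Fin q) (Fin p) ℕ),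
      sgz m (R.map (Nat.cast : ℕ → ℤ)) (S.map (Nat.cast : ℕ → ℤ)) = sgc m R S

end Pool.MP_5a0708_an.KRW
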