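import Pool.Agent.Lib.MP_5a0708_an.KRW.SpecB

/-!
# MP_5a0708_an, package KRW : the modules, part C (the potential of a cocycle)

Conventions as in `KRW/SpecA.lean`.  Everything here is linear algebra over `ℤ` and works for an
arbitrary cocycle `z` (`Cz m z`).
-/

set_option autoImplicit false

namespace Pool.MP_5a0708_an.KRW

open Finset Matrix

/-! ## C1. First consequences of the axioms -/

/-- **Alg**.  Proof, with `tri` for the triple `(R, S, T)`: `z R (S T) + z S (T R) = z (R S) T`.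
(1) `(1, 1, X)`: `z 1 X + z 1 X = z 1 X`.
(2) `(P, R, S Q)`: `z P (R (S Q)) + z R ((S Q) P) = z (P R) (S Q)` and `(S Q) P = S`.
(3) `(R, P, Q S)`: `z R (P (Q S)) + z P ((Q S) R) = z (R P) (Q S)` and `P (Q S) = S`.
(4) `(P, Q, X)`: `z P (Q X) + z Q (X P) = z (P Q) X = z 1 X = 0`.
(5) is `zero`. -/
def S_Alg : Prop := ∀ (m : ℕ) (z : Zt m), Cz m z →
    (∀ (n : ℕ) (X : Matrix (Fin n) (Fin n) ℤ), z n n 1 X = 0) ∧
    (∀ (p p' q : ℕ) (P : Matrix (Fin p') (Fin p) ℤ) (Q : Matrix (Fin p) (Fin p') ℤ)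
      (R : Matrix (Fin p) (Fin q) ℤ) (S : Matrix (Fin q) (Fin p) ℤ), Q * P = 1 →
      z p' q (P * R) (S * Q) = z p q R S + z p' p P (R * S * Q)) ∧
    (∀ (p q q' : ℕ) (P : Matrix (Fin q) (Fin q') ℤ) (Q : Matrix (Fin q') (Fin q) ℤ)
      (R : Matrix (Fin p) (Fin q) ℤ) (S : Matrix (Fin q) (Fin p) ℤ), P * Q = 1 →
      z p q' (R * P) (Q * S) = z p q R S + z q q' P (Q * S * R)) ∧
    (∀ (p p' : ℕ) (P : Matrix (Fin p) (Fin p') ℤ) (Q : Matrix (Fin p') (Fin p) ℤ)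
      (X : Matrix (Fin p) (Fin p) ℤ), P * Q = 1 → z p' p Q (X * P) = - z p p' P (Q * X)) ∧
    (∀ (p q : ℕ) (P : Matrix (Fin p) (Fin q) ℤ), z p q P 0 = 0)

/-! ## C2. Kernels -/

/-- a basis of `ℤ^p` (the columns of `P`) whose first part is a basis of the kernel of `S` -/
structure KD {p q : ℕ} (S : Matrix (Fin q) (Fin p) ℤ) where
  a : ℕ
  b : ℕ
  P : Matrix (Fin p) (Fin (a + b)) ℤ
  Q : Matrix (Fin (a + b)) (Fin p) ℤ
  pq : P * Q = 1
  qp : Q * P = 1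
  z : ∀ (i : Fin q) (j : Fin a), (S * P) i (Fin.castAdd b j) = 0
  k : ∀ v : Fin p → ℤ, S *ᵥ v = 0 → ∀ j : Fin b, (Q *ᵥ v) (Fin.natAdd a j) = 0

/-- **KD**.  Proof.  Let `f = S.mulVecLin : ℤ^p → ℤ^q`, `K = ker f`, `M = range f`.  `M` is a submodule
of the finite free module `ℤ^q` over the PID `ℤ`, so it is finite free, in particular projective,
and the surjection `ℤ^p → M` has a section `g`; `K` is a submodule of `ℤ^p`, so it is finite free.
The map `K × M → ℤ^p`, `(x, y) ↦ x + g y` is a linear equivalence.  Take bases of `K` (indexed by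
`Fin a`) and `M` (indexed by `Fin b`), and let the columns of `P` be the images of the basis
vectors, `Q` the matrix of the inverse.  `z`: `f` vanishes on `K`.  `k`: if `f v = 0` then `v ∈ K`, so
the coordinates of `v` in the second part vanish (`v = v + g 0`).  (Linear equivalences between
`Fin n → ℤ` and `Fin (a + b) → ℤ` and matrices: `LinearMap.toMatrix'`.) -/
def S_KD : Prop := ∀ (p q : ℕ) (S : Matrix (Fin q) (Fin p) ℤ), Nonempty (KD S)

/-- **Z0** (uses `S_Alg`, `S_KD`).  Proof.  Let `K = KD S` (`P`, `Q`), `K' = KD R` (`P'`, `Q'`).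
`R' = Q R P'`, `S' = Q' S P`.  By `S_Alg` (3) for `(Q R, S P)` and `P'` and (2) for `(R, S)` and `Q`:
`z R' S' = z (Q R) (S P) + z P' (Q' (S P) (Q R)) = z (Q R) (S P) + z P' (Q' (S R))` and
`z (Q R) (S P) = z R S + z Q (R S P)`; as `R S = 0`, `S R = 0` the extra terms are `0`
(`S_Alg` (5)), so `z R' S' = z R S`.  Blocks: the columns of `R` are in the kernel of `S` (`S R = 0`),
so by `K.k` the lower rows of `Q R` vanish, so `b21 R' = 0`, `b22 R' = 0`; the first columns of `R P'`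
vanish by `K'.z`, so `b11 R' = 0`.  In the same way (`R S = 0`) `b21 S' = 0`, `b22 S' = 0`,
`b11 S' = 0`.  By `add` and `zero`: `z R' S' = z 0 0 + z 0 0 = 0`. -/
def S_Z0 : Prop := ∀ (m : ℕ) (z : Zt m), Cz m z → ∀ (p q : ℕ) (R : Matrix (Fin p) (Fin q) ℤ)
    (S : Matrix (Fin q) (Fin p) ℤ), R * S = 0 → S * R = 0 → z p q R S = 0

/-- the lower rows of `Q` -/
def low {a b n : ℕ} (Q : Matrix (Fin (a + b)) (Fin n) ℤ) : Matrix (Fin b) (Fin n) ℤ :=
  fun i j => Q (Fin.natAdd a i) j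

/-- **St** (uses `S_Alg`, `S_Z0`).  One step.  `A = R S`, `B = S R`, `K : KD A`, `K' : KD B`.  Proof.
`R' = K.Q * R * K'.P`, `S' = K'.Q * S * K.P`.  `R' S' = K.Q * A * K.P`, `S' R' = K'.Q * B * K'.P`
(`K'.pq`, `K.pq`).
(a) `b21 R' = 0`: the `j`-th column of `K'.P` (`j` in the first part) is killed by `B` (`K'.z`), and
`R` maps the kernel of `B` to the kernel of `A` (`A (R v) = R (B v)`), and `K.k`.  `b21 S' = 0` in the
same way (`B (S v) = S (A v)`).  Also `b21 (K.Q * A * K.P) = 0` and even `b11 = 0` (`K.z`).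
(b) So `b22 R' * b22 S' = b22 (R' S')` and `b22 S' * b22 R' = b22 (S' R')`,
`b11 R' * b11 S' = b11 (R' S') = 0`, `b11 S' * b11 R' = 0`.
(c) `low K.Q * R = low (K.Q * R) = low (R' * K'.Q) = b22 R' * low K'.Q`, since `b21 R' = 0`.  The
same for `S`.
(d) By `add` and `S_Z0`: `z R' S' = z (b11 R') (b11 S') + z (b22 R') (b22 S') = z (b22 R') (b22 S')`.
By `S_Alg` (2) with the pair `(P, Q) := (K.Q, K.P)` applied to `(R K'.P, K'.Q S)`:
`z R' S' = z (R K'.P) (K'.Q S) + z K.Q (R K'.P K'.Q S K.P) = z (R K'.P) (K'.Q S) + z K.Q (A K.P)`, by (3)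
`z (R K'.P) (K'.Q S) = z R S + z K'.P (K'.Q S R) = z R S + z K'.P (K'.Q B)`, and by (4)
`z K.Q (A K.P) = - z K.P (K.Q A)`.  Hence `z R S = z K.P (K.Q A) - z K'.P (K'.Q B) + z (b22 R') (b22 S')`. -/
def S_St : Prop := ∀ (m : ℕ) (z : Zt m), Cz m z → ∀ (p q : ℕ) (R : Matrix (Fin p) (Fin q) ℤ)
    (S : Matrix (Fin q) (Fin p) ℤ) (K : KD (R * S)) (K' : KD (S * R)),
    z p q R S = z _ _ K.P (K.Q * (R * S)) - z _ _ K'.P (K'.Q * (S * R)) +
      z K.b K'.b (b22 (K.Q * R * K'.P)) (b22 (K'.Q * S * K.P)) ∧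
    b22 (K.Q * R * K'.P) * b22 (K'.Q * S * K.P) = b22 (K.Q * (R * S) * K.P) ∧
    b22 (K'.Q * S * K.P) * b22 (K.Q * R * K'.P) = b22 (K'.Q * (S * R) * K'.P) ∧
    low K.Q * R = b22 (K.Q * R * K'.P) * low K'.Q ∧
    low K'.Q * S = b22 (K'.Q * S * K.P) * low K.Q

/-! ## C3. The core -/

/-- `Cor z t A C π h` : after dividing `t` times by the kernel one obtains from `A` the matrix `C`, with
`π A = C π`; `h` is the accumulated value of the cocycle -/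
inductive Cor {m : ℕ} (z : Zt m) : (t : ℕ) → {n : ℕ} → Matrix (Fin n) (Fin n) ℤ → {q : ℕ} →
    Matrix (Fin q) (Fin q) ℤ → Matrix (Fin q) (Fin n) ℤ → ZMod m → Prop
  | zero {n : ℕ} (A : Matrix (Fin n) (Fin n) ℤ) : Cor z 0 A A 1 0
  | succ {t n q : ℕ} (A : Matrix (Fin n) (Fin n) ℤ) (K : KD A) (C : Matrix (Fin q) (Fin q) ℤ)
      (π : Matrix (Fin q) (Fin K.b) ℤ) (h : ZMod m) (hc : Cor z t (b22 (K.Q * A * K.P)) C π h) :
      Cor z (t + 1) A C (π * low K.Q) (z _ _ K.P (K.Q * A) + h)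

/-- **CorEx** (uses `S_KD`).  Existence; induction on `t` for all `n`, `A`. -/
def S_CorEx : Prop := ∀ (m : ℕ) (z : Zt m) (t n : ℕ) (A : Matrix (Fin n) (Fin n) ℤ),
    ∃ (q : ℕ) (C : Matrix (Fin q) (Fin q) ℤ) (π : Matrix (Fin q) (Fin n) ℤ) (h : ZMod m),
      Cor z t A C π h

/-- **COR** (uses `S_St`).  The pair lemma.  Proof by induction on `t`, for all `p, q, R, S`.
`t = 0`: `C = R S`, `π = 1`, `h = 0` on both sides, take `R, S`.  `t + 1`: by inversion of the two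
hypotheses there are `K : KD (R S)`, `K' : KD (S R)` etc.; use `S_St` and the induction hypothesis for
`b22 (K.Q * R * K'.P)`, `b22 (K'.Q * S * K.P)`: there are `R₀, S₀` with `C_A = R₀ S₀`, `C_B = S₀ R₀`,
`π_A (b22 ..) = R₀ π_B`.  So `(π_A low K.Q) R = π_A (b22 ..) low K'.Q = R₀ (π_B low K'.Q)`, and the
values add up.  (For the inversion state the induction for `A`, `B` with equations `A = R * S`,
`B = S * R`, and use `cases`; to avoid problems with dependent types one can first prove an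
inversion lemma `Cor z (t+1) A C π h → ∃ K π' h', π = π' * low K.Q ∧ h = .. ∧ Cor z t _ C π' h'`.) -/
def S_COR : Prop := ∀ (m : ℕ) (z : Zt m), Cz m z → ∀ (t p q : ℕ) (R : Matrix (Fin p) (Fin q) ℤ)
    (S : Matrix (Fin q) (Fin p) ℤ) (r s : ℕ) (C : Matrix (Fin r) (Fin r) ℤ)
    (π : Matrix (Fin r) (Fin p) ℤ) (h : ZMod m) (C' : Matrix (Fin s) (Fin s) ℤ)
    (π' : Matrix (Fin s) (Fin q) ℤ) (h' : ZMod m), Cor z t (R * S) C π h → Cor z t (S * R) C' π' h' →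
    ∃ (R₀ : Matrix (Fin r) (Fin s) ℤ) (S₀ : Matrix (Fin s) (Fin r) ℤ), C = R₀ * S₀ ∧
      C' = S₀ * R₀ ∧ π * R = R₀ * π' ∧ z p q R S = h - h' + z r s R₀ S₀

/-- **EIG**.  Left eigenvectors factor through the core.  Proof by induction on `t`.  `t = 0`:
`w = v`.  `t + 1`: `K : KD A`, `v A = 2 v` over `ℚ`.  Let `u = v P` (`P = K.P`, `Q = K.Q`, cast to `ℚ`), so
`v = u Q`.  For `j` in the first part, `2 u_j = (v A P)_j = 0` by `K.z`.  So `v = w₁ (low Q)` with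
`w₁ j = u (natAdd j)`.  `w₁` is a left eigenvector of `A₁ = b22 (Q A P)`: `u (Q A P) = v A P = 2 u`, and
the first part of `u` vanishes, so `w₁ A₁ = 2 w₁`.  Induction. -/
def S_EIG : Prop := ∀ (m : ℕ) (z : Zt m) (t n q : ℕ) (A : Matrix (Fin n) (Fin n) ℤ)
    (C : Matrix (Fin q) (Fin q) ℤ) (π : Matrix (Fin q) (Fin n) ℤ) (h : ZMod m), Cor z t A C π h →
    ∀ v : Fin n → ℚ, v ᵥ* A.map (Int.cast : ℤ → ℚ) = (2 : ℚ) • v →
    ∃ w : Fin q → ℚ, v = w ᵥ* π.map (Int.cast : ℤ → ℚ) ∧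
      w ᵥ* C.map (Int.cast : ℤ → ℚ) = (2 : ℚ) • w

/-- **SZ**.  Sizes.  (1) `P Q = 1`, `Q P = 1` implies `p = q`: `p = trace (P Q) = trace (Q P) = q` in
`ℤ` (`Matrix.trace_mul_comm`, `Matrix.trace_one`).  (2) If `C = R S` is injective then `S : ℤ^r → ℤ^s`
is injective, so `r ≤ s` (pass to `ℚ`, or `Matrix`/`LinearMap` rank: an injective linear map between
finite free `ℤ`-modules, `LinearMap.finrank_le_finrank_of_injective`); if `C' = S R` is injective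
then `s ≤ r`. -/
def S_SZ : Prop := (∀ (p q : ℕ) (P : Matrix (Fin p) (Fin q) ℤ) (Q : Matrix (Fin q) (Fin p) ℤ),
      P * Q = 1 → Q * P = 1 → p = q) ∧
    ∀ (r s : ℕ) (R : Matrix (Fin r) (Fin s) ℤ) (S : Matrix (Fin s) (Fin r) ℤ),
      (∀ v : Fin r → ℤ, (R * S) *ᵥ v = 0 → v = 0) → (∀ v : Fin s → ℤ, (S * R) *ᵥ v = 0 → v = 0) →
      r = s

/-- **INJ** (uses `S_SZ`).  For `n ≤ t` the core is injective.  Proof.  (a) If `A` is injective then
so is `C`, by induction on `t`: for `K : KD A` the first part is empty: if `j : Fin a`, then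
`A (P e_j) = 0` (`K.z`), so `P e_j = 0`, `e_j = Q P e_j = 0`, impossible; so `a = 0` and
`A₁ = b22 (Q A P)` is `Q A P` up to the identification `Fin (0 + b) = Fin b`, injective.
(b) By induction on `t`: let `n ≤ t + 1`, `K : KD A`, `a + b = n` (`S_SZ` (1)).  If `a ≥ 1`
then `b ≤ t` and the induction hypothesis applies to `A₁`.  If `a = 0` then `A` is injective: if
`A v = 0`, all coordinates of `Q v` vanish by `K.k`, so `v = P Q v = 0`; use (a).  `t = 0`: `n = 0`, all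
vectors are `0`. -/
def S_INJ : Prop := ∀ (m : ℕ) (z : Zt m) (t n q : ℕ) (A : Matrix (Fin n) (Fin n) ℤ)
    (C : Matrix (Fin q) (Fin q) ℤ) (π : Matrix (Fin q) (Fin n) ℤ) (h : ZMod m), Cor z t A C π h →
    n ≤ t → ∀ v : Fin q → ℤ, C *ᵥ v = 0 → v = 0

/-- **Two** (uses `S_SZ`).  The core of the `1 × 1` matrix `(2)` is `(2)`.  Proof by induction on `t`
for all `A : Matrix (Fin 1) (Fin 1) ℤ` with `A 0 0 = 2`, in the form: for all `n` and `A` of size `n`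
with `n = 1` and all entries `2`.  `K : KD A`: `a + b = 1`.  `a = 0`: if `j : Fin a` then
`0 = (A P)_(0 j) = 2 P_(0 j)`, so the column `j` of `P` is `0`, against `Q P = 1`.  So `a = 0`,
`b = 1`, `b22 (Q A P)` has the entry `Q 2 P = 2 (Q P) = 2`. -/
def S_Two : Prop := ∀ (m : ℕ) (z : Zt m) (t n q : ℕ) (A : Matrix (Fin n) (Fin n) ℤ)
    (C : Matrix (Fin q) (Fin q) ℤ) (π : Matrix (Fin q) (Fin n) ℤ) (h : ZMod m), Cor z t A C π h →
    n = 1 → (∀ i j, A i j = 2) → q = 1 ∧ ∀ i j, C i j = 2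

/-- **Chi** (uses `S_Alg`).  The value of a cocycle on `1 × 1` matrices with product `2`.  Proof.
Write `z(ρ, σ)` for the value on the matrices `(ρ)`, `(σ)`; `ρ σ = 2` means
`(ρ, σ) ∈ {(1,2), (2,1), (-1,-2), (-2,-1)}`.  `z(1, 2) = 0` (`S_Alg` (1)).  Let `τ = z(2, 1)`,
`ε = z(-1, -2)`.  `tri` for `(-1, -1, 2)`: `z(-1, -2) + z(-1, -2) = z(1, 2) = 0`, so `2 ε = 0`.  `tri` for
`(-1, 2, -1)`: `z(-1, -2) + z(2, 1) = z(-2, -1)`, so `z(-2, -1) = ε + τ`.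
`χ x = (padicValRat 2 x) • τ + (if x < 0 then ε else 0)`; it is a homomorphism on nonzero
rationals since `2 ε = 0` (`padicValRat.mul`; signs).  `χ 1 = 0`, `χ 2 = τ`, `χ (-1) = ε`,
`χ (-2) = τ + ε`. -/
def S_Chi : Prop := ∀ (m : ℕ) (z : Zt m), Cz m z → ∃ χ : ℚ → ZMod m,
    (∀ x y : ℚ, x ≠ 0 → y ≠ 0 → χ (x * y) = χ x + χ y) ∧
    ∀ (R S : Matrix (Fin 1) (Fin 1) ℤ), R 0 0 * S 0 0 = 2 → z 1 1 R S = χ (R 0 0 : ℚ)

/-- the potential: `Ty t A` says that the core of `A` is `(2)` -/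
structure Po (m : ℕ) (z : Zt m) (Ty : ℕ → (n : ℕ) → Matrix (Fin n) (Fin n) ℤ → Prop)
    (Φ : ℕ → (n : ℕ) → Matrix (Fin n) (Fin n) ℤ → (Fin n → ℚ) → ZMod m) : Prop where
  two : ∀ (t : ℕ) (A : Matrix (Fin 2) (Fin 2) ℤ), 2 ≤ t → (∀ i j, A i j = 1) → Ty t 2 A
  iff : ∀ (t p q : ℕ) (R : Matrix (Fin p) (Fin q) ℤ) (S : Matrix (Fin q) (Fin p) ℤ), p ≤ t →
    q ≤ t → (Ty t p (R * S) ↔ Ty t q (S * R))
  val : ∀ (t p q : ℕ) (R : Matrix (Fin p) (Fin q) ℤ) (S : Matrix (Fin q) (Fin p) ℤ)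
    (v : Fin p → ℚ), p ≤ t → q ≤ t → Ty t p (R * S) → v ≠ 0 →
    v ᵥ* (R * S).map (Int.cast : ℤ → ℚ) = (2 : ℚ) • v →
    z p q R S = Φ t p (R * S) v - Φ t q (S * R) (v ᵥ* R.map (Int.cast : ℤ → ℚ))

/-- **Pot** (uses `S_CorEx`, `S_COR`, `S_EIG`, `S_INJ`, `S_SZ`, `S_Two`, `S_Chi`).  Proof.
`Ty t n A`: there are `C : Matrix (Fin 1) (Fin 1) ℤ`, `π`, `h` with `Cor z t A C π h`, `C 0 0 = 2`.
(0) Let `p, q ≤ t`, `Cor z t (R S) C π h`, `Cor z t (S R) C' π' h'` (sizes `r`, `s`), and `R₀, S₀` from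
`S_COR`.  By `S_INJ` both cores are injective, so `r = s` by `S_SZ`.  If `r = 1` and
`C 0 0 = 2` then `s = 1`, `R₀ = (ρ)`, `S₀ = (σ)`, `ρ σ = 2 = C' 0 0`.
(1) `iff`: clear from (0) and `S_CorEx`.  With `R = 1`, `S = A`: if `Ty t A`, `n ≤ t` then every core of
`A` is `1 × 1` with entry `2`.
(2) `two`: `A = R S` with `R` the column `(1, 1)`, `S` the row `(1, 1)`, `S R = (2)`; `Ty t 1 (2)` by
`S_CorEx` and `S_Two`; `iff`.
(3) Let `Pt t A v x` mean: there are `C, π, h, c` with `Cor z t A C π h` (size `1`), `C 0 0 = 2`, `c ≠ 0`,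
`v j = c * π 0 j` for all `j`, `x = h - χ c` (`χ` from `S_Chi`).  If `n ≤ t`, `Ty t A`, `v ≠ 0`,
`v A = 2 v` then there is an `x` with `Pt t A v x`: `S_EIG` gives `v = w π`, `c = w 0`, `c ≠ 0` as
`v ≠ 0`.  `Φ t n A v` is such an `x` (choice), `0` if there is none.
(4) `val`: let `x`, `y` be with `Pt t (R S) v x` and `Pt t (S R) (v R) y`; the claim is
`z R S = x - y`.  (`Pt` holds for `Φ` on both sides: `v R ≠ 0` as `(v R) S = 2 v`, and
`(v R) (S R) = 2 (v R)`; `Ty` of `S R` by `iff`.)  With `C, π, h, c`, `C', π', h', c'` and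
`R₀ = (ρ)`, `S₀ = (σ)` from (0): `z R S = h - h' + χ ρ`; `π R = ρ π'`, so
`c' π' = v R = c π R = c ρ π'`, and `π' ≠ 0`, so `c' = c ρ`, `χ c' = χ c + χ ρ` (`ρ ≠ 0`), and
`x - y = h - h' - χ c + χ c' = h - h' + χ ρ`. -/
def S_Pot : Prop := ∀ (m : ℕ) (z : Zt m), Cz m z →
    ∃ (Ty : ℕ → (n : ℕ) → Matrix (Fin n) (Fin n) ℤ → Prop)
      (Φ : ℕ → (n : ℕ) → Matrix (Fin n) (Fin n) ℤ → (Fin n → ℚ) → ZMod m), Po m z Ty Φ

end Pool.MP_5a0708_an.KRW
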