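import Pool.Agent.Lib.MP_5a0708_an.KRW.BaseD

/-!
# MP_5a0708_an, package KRW : the modules, part D (codings of the 2-shift, the main theorem)

Conventions as in `KRW/SpecA.lean`.  Use the lemmas of `KRW/BaseD.lean` (`Gd.det`, `Gd.win`,
`Gd.locw`, `ki_uk`, `iv_PP`, `mem_PP`, `tr_tr'`, ...).
-/

set_option autoImplicit false

namespace Pool.MP_5a0708_an.KRW

open Finset Matrix Pool.MP_5a0708_an.Nil

/-! ## D1. Codings -/

/-- **Real**.  Every path is realised.  Proof.  (1) For all `c : ℤ`, `N : ℕ` there is `x` with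
`u (tr k x) = a k` for `c ≤ k ≤ c + N`, by induction on `N`.  `N = 0`: `surj` (and a translation).
Step: let `x` be given, `d = c + N`.  As `tmat u (a d) (a (d+1)) = 1` there is `y` with `u y = a d`,
`u (tr 1 y) = a (d+1)`.  `glue` for `tr d x` and `y`: `z` with `u (tr k z) = u (tr (k + d) x)` for
`k ≤ 0`, `u (tr k z) = u (tr k y)` for `k ≥ 0`; `tr (-d) z` is as required.
(2) So for each `N` there is `x_N` with `u (tr k x_N) = a k` for `|k| ≤ N`.  With `w` from `Gd.win`:
`x_N i = x_M i` for `|i| + w ≤ N ≤ M`.  Let `x i = x_N i` with `N = |i| + w`; then `x i = x_N i` for all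
`N ≥ |i| + w`.  With `w'` from `Gd.locw`: `u (tr k x) = u (tr k x_N) = a k` for
`N = |k| + w + w'`. -/
def S_Real : Prop := ∀ (n : ℕ) (u : Pt → Fin n), Gd n u → ∀ a : ℤ → Fin n,
    (∀ k : ℤ, tmat u (a k) (a (k + 1)) = 1) → ∃ x : Pt, ∀ k : ℤ, u (tr k x) = a k

/-- **GSp**.  Splittings of codings are codings.  Proof for a right splitting.  `loc`: `u' x` is
determined by `u x`, `u (tr 1 x)`; `Gd.locw`.  `inj`: `u = p ∘ u'`.  `glue`: let `u' x = u' y`; then
`u x = u y`; let `z` be from `glue` for `u`.  For `k ≥ 0`: `u (tr k z) = u (tr k y)`,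
`u (tr (k+1) z) = u (tr (k+1) y)`, so `u' (tr k z) = u' (tr k y)`.  For `k ≤ -1` the same with `x`, and
`u' z = u' y = u' x`.  Left splittings: for `k ≤ 0` compare with `x` (`u` at `k-1` and `k`), for
`k ≥ 1` with `y` (`u` at `k-1 ≥ 0` and `k`), and at `k = 0` `u' z = u' x = u' y`. -/
def S_GSp : Prop := ∀ (n n' : ℕ) (u : Pt → Fin n) (u' : Pt → Fin n') (p : Fin n' → Fin n),
    Gd n u → Function.Surjective u' → (RSp u u' p ∨ LSp u u' p) → Gd n' u'

/-- **Enum**.  The range of `c` is finite; number it. -/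
def S_Enum : Prop := ∀ (K : Type) [Finite K] (c : Pt → K), ∃ (n : ℕ) (u : Pt → Fin n),
    Function.Surjective u ∧ ∀ x y : Pt, u x = u y ↔ c x = c y

/-- **CH** (uses `S_GSp`, `S_Enum`).  Any two codings are connected by splittings.  Let `E` be the
relation in the statement.  Proof.
(0) If `v = f ∘ u` and `u` is determined by `v` (`v x = v y → u x = u y`) then `RSp v u f`, so `E` holds
between them.  In particular `E` is reflexive.  If `c : Pt → K` (`K` finite) and `u' ` is from `S_Enum`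
for `c`, and `u x` is determined by `c x` and `c x` is determined by `u x`, `u (tr 1 x)` (or by
`u (tr (-1) x)`, `u x`), then `u'` is a right (left) splitting of `u` and is good (`S_GSp`); call `u'` the
enumeration of `c`.
(1) Claim `C N`: for all `a b : ℕ` with `a + b = N` and all good `u`, `v` such that `v x` is
determined by `u x` and `u x` is determined by the `v (tr k x)`, `-a ≤ k ≤ b`: `E u v`.  `N = 0`:
(0).  `N + 1`: if `b ≥ 1`, let `u₁` be the enumeration of `x ↦ (u x, v (tr 1 x))` and `v₁` the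
enumeration of `x ↦ (v x, v (tr 1 x))`.  They are right splittings of `u`, `v`.  `v₁ x` is determined by
`u₁ x`, and `u₁ x` is determined by the `v₁ (tr k x)`, `-a ≤ k ≤ b - 1` (they determine the
`v (tr k x)`, `-a ≤ k ≤ b`; as `b - 1 ≥ 0`, `k = 1` occurs).  So `E u u₁`, `E u₁ v₁`, `E v₁ v`.  If `b = 0`,
`a ≥ 1`: the same with `tr (-1)` and left splittings.
(2) For good `u` and `N : ℕ` let `u_N` be the enumeration of `x ↦ (u (tr k x))_{-N ≤ k ≤ N}` (a
function on a finite type).  `E u u_N`: `u_N` is good and `u` is determined by `u_N`, and by (1) with the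
roles `u := u_N`, `v := u`, `a = b = N`; goodness of `u_N`: by induction over the enumerations of
`(u (tr k x))_{-a ≤ k ≤ b}`, each a splitting of the previous one (add one `k` at a time).
(3) Let `u`, `v` be good.  `v x` is determined by the letters of `x` on `[-w, w]` (`loc`), which are
determined by the `u (tr k x)`, `|k| ≤ w + w'` (`Gd.win`), so `v x` is determined by `u_N x` for
`N = w + w'`.  `u_N x` is determined by the `v (tr k x)`, `|k| ≤ M`, for some `M` (`loc` of `u_N`,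
`Gd.win` for `v`).  By (1) `E u_N v`, and `E u u_N`. -/
def S_CH : Prop := ∀ E : (n : ℕ) → (Pt → Fin n) → (n' : ℕ) → (Pt → Fin n') → Prop,
    (∀ n u n' u', E n u n' u' → E n' u' n u) →
    (∀ n u n' u' n'' u'', Gd n u → Gd n' u' → Gd n'' u'' → E n u n' u' → E n' u' n'' u'' →
      E n u n'' u'') →
    (∀ n u n' u' p, Gd n u → Gd n' u' → RSp u u' p → E n u n' u') →
    (∀ n u n' u' p, Gd n u → Gd n' u' → LSp u u' p → E n u n' u') →
    ∀ n u n' u', Gd n u → Gd n' u' → E n u n' u'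

/-- **REd** (uses `S_Tr`, `S_Real`).  A right splitting and its comparison.  Proof.
`R i j = if p j = i then 1 else 0`, `S j i = 1` if there is `x` with `u' x = j`, `u (tr 1 x) = i`, else `0`.
(1) `(R * S) i i' = ∑ (j with p j = i) S j i'`: at most one `j` gives `1`, since `u' x` is determined
by `(u x, u (tr 1 x)) = (i, i')`, and there is one iff `tmat u i i' = 1`.
(2) `(S * R) j j' = S j (p j')`; if `u' x = j`, `u (tr 1 x) = p j'`: choose `y` with `u' y = j'`
(`surj`); `u (tr 1 x) = u y`; `glue` of `u` for `tr 1 x` and `y` gives `z`; `u' z = u' y = j'`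
(determined by `u z = u y`, `u (tr 1 z) = u (tr 1 y)`), `u' (tr (-1) z) = u' x = j`, so
`tmat u' j j' = 1` (for the point `tr (-1) z`).  The converse is clear.
(3) Let `U i j = range (R i j)`, `V j i = range (S j i)`, `F = AP m U V` (all labels are `0`).  The map
`f x = fun k => (u (tr k x), u' (tr k x), 0, 0)` is a bijection of `PP m` onto `F`, commuting with the
shift: into: `mem_AP`; injective: `Gd.det`; onto: let `y ∈ F`, `j_k = (y k).2.1`, `i_k = (y k).1`; then
`p j_k = i_k`, `S j_k i_(k+1) = 1`, so `tmat u' j_k j_(k+1) = (S * R) j_k j_(k+1) = 1`; `S_Real` for `u'`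
gives `x` with `u' (tr k x) = j_k`, so `u (tr k x) = p j_k = i_k`; `x` has period `m` by `Gd.det`.
(4) Orders: for `x, y ∈ PP m`: `uk m u x < uk m u y ↔ pk m kA (f x) < pk m kA (f y)`.  The edge key
`kA` of `f x` at `t` is `(i_t, i_(t+1), j_t, 0, 0)`, and `j_t` is determined by `(i_t, i_(t+1))`.  Let the
edge keys of `f x`, `f y` agree before `t` and differ at `t`.  Then `i_s` agree for `s ≤ t` if `t ≥ 1`; so
either `t = 0` and `i_0` differ, or `i_s` agree for all `s ≤ t` and `i_(t+1)` differ (and `t + 1 < m`, as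
`i_m = i_0`).  In both cases the order of both keys is that of the first `i_s` which differs.
(If `x = y` both sides are false.)  In the same way `uk m u' x < uk m u' y ↔ pk m kB (f x) < pk m kB (f y)`:
the edge key `kB` at `t` is `(j_t, j_(t+1), i_(t+1), 0, 0)` with `i_(t+1) = p j_(t+1)`.  `S_Tr`. -/
def S_REd : Prop := ∀ (m n n' : ℕ) (u : Pt → Fin n) (u' : Pt → Fin n') (p : Fin n' → Fin n),
    0 < m → Gd n u → Gd n' u' → RSp u u' p →
    ∃ (R : Matrix (Fin n) (Fin n') ℕ) (S : Matrix (Fin n') (Fin n) ℕ),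
      (∀ i j, R i j = if p j = i then 1 else 0) ∧ R * S = tmat u ∧ S * R = tmat u' ∧
      Dl m (shf Bool) (PP m) (uk m u) (uk m u') = sgc m R S

/-- **LEd** (uses `S_Tr`, `S_Real`).  A left splitting and its comparison.  Proof.
`S j i = if p j = i then 1 else 0`, `R i j = 1` if there is `x` with `u x = i`, `u' (tr 1 x) = j`, else `0`.
(1) `(R * S) i i' = ∑ (j with p j = i') R i j = tmat u i i'`, since `u' (tr 1 x)` is determined by
`(u x, u (tr 1 x))`.
(2) `(S * R) j j' = R (p j) j'`; if `u x = p j`, `u' (tr 1 x) = j'`: choose `y` with `u' y = j`;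
`glue` of `u` for `y` and `x` gives `z` with `u' z = u' y = j` (determined by `u (tr (-1) z)`, `u z`),
`u' (tr 1 z) = u' (tr 1 x) = j'`; so `tmat u' j j' = 1`.  The converse is clear.
(3) `F = AP m (fun j i => range (S j i)) (fun i j => range (R i j))`,
`f x = fun k => (u' (tr k x), u (tr k x), 0, 0)`, as in `S_REd`; onto: for `y ∈ F`, `j_k = (y k).1`,
`i_k = (y k).2.1 = p j_k`, `R i_k j_(k+1) = 1`, so `tmat u' j_k j_(k+1) = (S * R) j_k j_(k+1) = 1`.
(4) Edge keys: `kA`: `(j_t, j_(t+1), i_t, 0, 0)`, `i_t = p j_t`; `kB`: `(i_t, i_(t+1), j_(t+1), 0, 0)`,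
`j_(t+1) = u' (tr (t+1) x)` is determined by `(i_t, i_(t+1))`. -/
def S_LEd : Prop := ∀ (m n n' : ℕ) (u : Pt → Fin n) (u' : Pt → Fin n') (p : Fin n' → Fin n),
    0 < m → Gd n u → Gd n' u' → LSp u u' p →
    ∃ (R : Matrix (Fin n) (Fin n') ℕ) (S : Matrix (Fin n') (Fin n) ℕ),
      (∀ j i, S j i = if p j = i then 1 else 0) ∧ R * S = tmat u ∧ S * R = tmat u' ∧
      Dl m (shf Bool) (PP m) (uk m u') (uk m u) = sgc m S R

/-! ## D2. The eigenvector -/

/-- **Lam**.  Proof.  Write `Y T x = {y : y i = 0 for i < -T, u (tr k y) = u (tr k x) for k ≥ 0}`, `w` larger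
than the numbers of `Gd.win`, `Gd.locw`.
(1) `Y T x` is finite: `y i` for `i ≥ w` is determined (`y i = x i` by `Gd.win`), `y i = 0` for `i < -T`.
(2) For `T ≥ w`: `card (Y (T+1) x) = 2 * card (Y T x)`: the futures `u (tr k y)`, `k ≥ 0`, do not depend
on the letters `y i`, `i < -w` (`Gd.locw`); the map `(y, e) ↦` (`y` with the letter at `-T-1` replaced by
`e`) is a bijection `Y T x × Bool → Y (T+1) x` (for `y ∈ Y T x` the letter at `-T-1` is `0`; note
`-T-1 < -w`).  So `card (Y T x) = card (Y w x) * 2 ^ (T - w)`.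
(3) For `T ≥ w` and `u x = u x'`: `card (Y T x) = card (Y T x')`: for `y ∈ Y T x` let `z` be from `glue`
for `y`, `x'` (`u y = u x = u x'`); `z` is unique (`Gd.det`); the letters `z i = y i` for `i ≤ -w`
(`Gd.win`), so `z ∈ Y T x'` (zeros on `(-∞, -T)`, as `-T ≤ -w`).  The map in the other direction is
inverse (same past, same future; `Gd.det`).
(4) `card (Y T x) > 0` for `T ≥ w`: `x` with the letters on `(-∞, -T)` replaced by `0`.
So `l a = card (Y w x) / 2 ^ w` for any `x` with `u x = a` satisfies `LamSp u l` with `T₀ = w`, and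
`l a > 0`.  Uniqueness: `surj`, and `l a = cnt T u x / 2 ^ T` for large `T`. -/
def S_Lam : Prop := ∀ (n : ℕ) (u : Pt → Fin n), Gd n u → LamSp u (lam u) ∧
    (∀ a, 0 < lam u a) ∧ ∀ l : Fin n → ℚ, LamSp u l → l = lam u

/-- **LamM** (uses `S_Lam`).  The eigenvector equation.  Proof.  Let `u x = j`, `T` large,
`Y T x` as in `S_Lam` (finite).  Partition `Y T x` by `i = u (tr (-1) y)`.  If `tmat u i j = 0`
the part is empty.  If `tmat u i j = 1`, choose `y₀` with `u y₀ = i`, `u (tr 1 y₀) = j`; `glue` for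
`tr 1 y₀` and `x` gives `z` with `u (tr (-1) z) = i` and `u (tr k z) = u (tr k x)` for `k ≥ 0`; let
`x_i = tr (-1) z`.  The map `y ↦ tr (-1) y` is a bijection of the part onto `Y (T-1) x_i`: the points
`y'` with `y' i = 0` for `i < -(T-1)`, `u y' = i`, `u (tr (k+1) y') = u (tr k x)`.  So
`l j * 2 ^ T = ∑ i, tmat u i j * (l i * 2 ^ (T-1))` with `l = lam u`, hence
`2 * l j = ∑ i, l i * tmat u i j`. -/
def S_LamM : Prop := ∀ (n : ℕ) (u : Pt → Fin n), Gd n u →
    lam u ᵥ* (tmz u).map (Int.cast : ℤ → ℚ) = (2 : ℚ) • lam u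

/-- **LamR** (uses `S_Lam`).  Proof.  For a right splitting the condition
`∀ k : ℕ, u (tr k y) = u (tr k x)` is equivalent to `∀ k : ℕ, u' (tr k y) = u' (tr k x)` (`u'` at `k` is
determined by `u` at `k`, `k + 1`; `u = p ∘ u'`).  So `cnt T u x = cnt T u' x` and
`lam u (u x) = lam u' (u' x)`; `u'` is surjective. -/
def S_LamR : Prop := ∀ (n n' : ℕ) (u : Pt → Fin n) (u' : Pt → Fin n') (p : Fin n' → Fin n),
    Gd n u → Gd n' u' → RSp u u' p → ∀ b, lam u' b = lam u (p b)

/-- **LamL** (uses `S_Lam`).  Proof.  Let `u x = a`, `T` large.  If `u (tr k y) = u (tr k x)` for all `k ≥ 0`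
then `u' (tr k y) = u' (tr k x)` for `k ≥ 1` (determined by `u` at `k - 1`, `k`), and `p (u' y) = a`.
Partition `Y T x` (as in `S_Lam`, for `u`; finite) by `b = u' y`, `p b = a`.  Choose `y₀` with
`u' y₀ = b`; `u y₀ = a = u x`; `glue` of `u` for `y₀`, `x` gives `x_b` with `u' x_b = b`
(determined by `u` at `-1`, `0`) and `u (tr k x_b) = u (tr k x)` for `k ≥ 0`.  The part of `b` is the set
`Y T x_b` for `u'`.  So `lam u a * 2 ^ T = ∑ (b with p b = a) lam u' b * 2 ^ T`. -/
def S_LamL : Prop := ∀ (n n' : ℕ) (u : Pt → Fin n) (u' : Pt → Fin n') (p : Fin n' → Fin n),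
    Gd n u → Gd n' u' → LSp u u' p → ∀ a, lam u a = ∑ b, if p b = a then lam u' b else 0

/-- **U0**.  The coding by the letter at `0`: `u0 x = u0 y ↔ x 0 = y 0`; `u0 (tr k x)` is the letter
`x k`; `glue`: `z i = x i` for `i < 0`, `z i = y i` for `i ≥ 0`; all transitions occur. -/
def S_U0 : Prop := Gd 2 u0 ∧ ∀ i j, tmz u0 i j = 1

/-- **Tw**.  Composition with an automorphism `θ` (radius `r`, `IsAut`).  `surj`: clear.  `loc`: the
letters of `θ x` on `[-w, w]` are determined by those of `x` on `[-w-r, w+r]`.  `inj`: the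
`u (θ (tr k x)) = u (tr k (θ x))`, `|k| ≤ w + r`, determine the letters of `θ x` on `[-r, r]`
(`Gd.win`), so the letter of `x = θ⁻¹ (θ x)` at `0`.  `glue`: `θ⁻¹` of the `z` for `θ x`, `θ y`.
`tmat`: substitute `x = θ⁻¹ x'`. -/
def S_Tw : Prop := ∀ (n : ℕ) (u : Pt → Fin n) (θ : Equiv.Perm Pt), Gd n u → θ ∈ Au →
    Gd n (u ∘ θ) ∧ tmz (u ∘ θ) = tmz u

/-- **LamT** (uses `S_Lam`, `S_U0`, `S_Tw`).  Proof.  Let `x = zpt` (all letters `0`);
`θ zpt = zpt` by `CA.zp` (`1 ≤ L`), so `u0 (θ (tr k zpt)) = 0`.  A point `y` satisfies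
`u0 (θ (tr k y)) = 0` for all `k ≥ 0` iff `θ y` vanishes on `[0, ∞)` iff (by `CA.zp`, all blocks
`[i, i + L)` with `i ≥ 0`) `y` vanishes on `[0, ∞)`.  So `cnt T (u0 ∘ θ) zpt` is the number of points
vanishing outside `[-T, 0)`, which is `2 ^ T`; hence `lam (u0 ∘ θ) 0 * 2 ^ T = 2 ^ T`. -/
def S_LamT : Prop := ∀ (L : ℕ) (θ : Equiv.Perm Pt), 1 ≤ L → CA L θ → lam (u0 ∘ θ) 0 = 1

/-! ## D3. The theorem of Kim, Roush and Wagoner for the 2-shift -/

/-- **Edge** (uses `S_Coc`, `S_Z`, `S_CH`, `S_REd`, `S_LEd`, `S_Lam`, `S_LamM`, `S_LamR`,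
`S_LamL`).  Proof.  Apply `S_CH` to `E = Er m Ty Φ`.
Symmetric: `Dl k l = - Dl l k` (`S_Coc` with `ki_uk`, `iv_PP`) and `Ty` is the same on both sides for
large `t`; for codings which are not good (the hypothesis of symmetry in `S_CH` is for all `u`, `u'`)
use the relation `E' n u n' u' := Gd n u → Gd n' u' → Er m Ty Φ n u n' u'` instead.  Transitive:
`S_Coc`.
Right splitting: `R`, `S` from `S_REd`, `R'`, `S'` their casts to `ℤ`, so `R' S' = tmz u`,
`S' R' = tmz u'`, and `sgz m R' S' = sgc m R S` (`S_Z`).  Let `t ≥ max n n'`.  `Po.iff`: `Ty t n (tmz u)`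
iff `Ty t n' (tmz u')`.  `Po.val` for `v = lam u` (`v ≠ 0`: positive entries and `n > 0`;
eigenvector by `S_LamM`): `sgz m R' S' = Φ t (tmz u) (lam u) - Φ t (tmz u') (lam u ᵥ* R')` and
`(lam u ᵥ* R') b = lam u (p b) = lam u' b` (`S_LamR`).
Left splitting: `R`, `S` from `S_LEd`; `Po.val` for the pair `(S', R')` and `v = lam u'`:
`Dl (uk u') (uk u) = sgz m S' R' = Φ t (tmz u') (lam u') - Φ t (tmz u) (lam u' ᵥ* S')` and
`(lam u' ᵥ* S') a = ∑ b, lam u' b * [p b = a] = lam u a` (`S_LamL`); `Dl (uk u) (uk u')` is the negative. -/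
def S_Edge : Prop := ∀ (m : ℕ) (Ty : ℕ → (n : ℕ) → Matrix (Fin n) (Fin n) ℤ → Prop)
    (Φ : ℕ → (n : ℕ) → Matrix (Fin n) (Fin n) ℤ → (Fin n → ℚ) → ZMod m), 0 < m →
    Po m (fun _ _ R S => sgz m R S) Ty Φ → ∀ (n : ℕ) (u : Pt → Fin n) (n' : ℕ) (u' : Pt → Fin n'),
    Gd n u → Gd n' u' → Er m Ty Φ n u n' u'

/-- **KRW** (uses `S_Edge`, `S_Pot`, `S_Z`, `S_U0`, `S_Tw`, `S_LamM`, `S_LamT`).  Proof.  `Ty`, `Φ` from
`S_Pot` for `sgz` (`S_Z`).  `S_Edge` for `u0` and `u0 ∘ θ` gives `t₀`; let `t = max t₀ 2`; `Ty t 2 (tmz u0)`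
by `Po.two` and `S_U0`.  `tmz (u0 ∘ θ) = tmz u0` (`S_Tw`), the matrix with all entries `1`.  By `S_LamM`
both `v = lam u0` and `v = lam (u0 ∘ θ)` satisfy `v 0 + v 1 = 2 * v 0`, so `v 1 = v 0`, and `v 0 = 1`
by `S_LamT` (for `1 : Equiv.Perm Pt` and `θ`; `CA.one`).  So the two values of `Φ` are equal. -/
def S_KRW : Prop := ∀ (L m : ℕ) (θ : Equiv.Perm Pt), 1 ≤ L → 0 < m → CA L θ →
    Dl m (shf Bool) (PP m) (uk m u0) (uk m (u0 ∘ θ)) = 0

/-- **Rot** (uses `S_KRW`, `SRR`; see also `FIN_rr` in `Nil/FIN.lean`).  Proof.  Let `1 ≤ n < N`,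
`F = PP n`, `s = shf Bool`, `k = uk n u0`, `l = uk n (u0 ∘ α)`; `l x = k (α x)` as `α` commutes with `tr`.
`S_KRW` with `m = n`: `Dl n s F k l = 0`.
(1) For `x ∈ F` let `d` be its least period (`d ∣ n`), `LP d x`, equivalently `LPr s d x`.
`α x` is in the orbit of `x`: `α x = x`, or `x` is in the orbit of `rr d`, and then `α (rr d)` is in
the orbit of `rr d` (otherwise `α (rr d)`, of least period `d`, is fixed by `α`, so
`α (rr d) = rr d`; this is `FIN_rr`).  Hence `mkey s l x = mkey s k x` for all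
`x ∈ F` (`mkey s l x` is the least value of `k` on the orbit of `α x`, which is the orbit of `x`).  So
`iv d s F k l = 0` for all `d`: the conditions would give `k z.1 < k z.2` and
`k z.2 = mkey s k z.2 = mkey s l z.2 < mkey s l z.1 = k z.1`.
(2) Therefore `gp n s F k l = 0` in `ZMod n`.  The summands `sh s l x` are `0` for the `k`-minimal `x`
with `α x = x` (on the orbit of `x` `α` is the identity, `l = k`, `sh_eq_zero`).  The only other `x` is
the `k`-minimum `x₀` of the orbit of `rr n`; `α (rr n) = tr j (rr n)`, `α x₀ = tr j x₀`;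
`sh s l x₀ = t` with `t < n`: `tr t x₀` is `l`-minimal, `l (tr i x₀) = k (tr (i + j) x₀)`, so
`tr (t + j) x₀` is `k`-minimal, `= x₀` (`mn_unique`), so `n ∣ t + j`.  So `t = 0` in `ZMod n`,
`n ∣ t`, `n ∣ j`, and `α (rr n) = tr j (rr n) = rr n`. -/
def S_Rot : Prop := ∀ (L N : ℕ) (α : Equiv.Perm Pt), 1 ≤ L → CA L α →
    (∀ (x : Pt) (n : ℕ), LP n x → n < N → Orb (rr n) x ∨ α x = x) →
    ∀ n : ℕ, 1 ≤ n → n < N → α (rr n) = rr n

/-- **Ab** (uses `SCAOF`, `SPC`, `S_Rot`, `STHT`, `SCNG`, `SRR`).  The main theorem: the automorphism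
group of the 2-shift is abelian modulo the group generated by the shift and the involutions.  Proof
(see `tFIN` in `Nil/FIN.lean`): choose `ψ₁, ψ₂ ∈ G`, `L ≥ 2` with `CA L (ψ₁ α)`, `CA L (ψ₂ β)`
(`SCAOF`), `N` from `STHT`, `ρ ∈ G`, `CA L ρ` from `SPC` for `ψ₂ β`; `β₁ = ρ ψ₂ β`.  By `S_Rot`
`β₁ (rr n) = rr n` for `1 ≤ n < N`, so `β₁` fixes all `x` with `Per n x`, `0 < n < N` (least period,
`exists_lp`; on the orbit of `rr m` it commutes with `tr`).  `STHT`: `cm (ψ₁ α) β₁ ∈ G`.  `SCNG`: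
`cm (ψ₁ α) β₁ * (cm α β)⁻¹ ∈ G`. -/
def S_Ab : Prop := ∀ α β : Equiv.Perm Pt, α ∈ Au → β ∈ Au → cm α β ∈ G

end Pool.MP_5a0708_an.KRW
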