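import Pool.Agent.Lib.MP_5a0708_an.KRW.SpecD

/-!
# MP_5a0708_an, package KRW : module U0
-/

set_option autoImplicit false

namespace Pool.MP_5a0708_an.KRW

private theorem u0_iff {x y : Pt} : u0 x = u0 y ↔ x 0 = y 0 := by
  unfold u0
  cases x 0 <;> cases y 0 <;> simp

private theorem u0_tr {x y : Pt} {k : ℤ} : u0 (tr k x) = u0 (tr k y) ↔ x k = y k := by
  rw [u0_iff, tr_at, tr_at]

private def letter (i : Fin 2) : Bool := decide (i = 1)

private theorem u0_letter {x : Pt} {i : Fin 2} (h : x 0 = letter i) : u0 x = i := by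
  unfold u0
  rw [h]
  fin_cases i <;> simp [letter]

theorem t_U0 : S_U0 := by
  constructor
  · refine ⟨?_, ?_, ?_, ?_⟩
    · intro i
      exact ⟨fun _ => letter i, u0_letter rfl⟩
    · exact ⟨0, fun x y h => u0_iff.2 (h 0 (by simp) (by simp))⟩
    · refine ⟨0, fun x y h => ?_⟩
      exact (u0_tr.1 (h 0 (by simp) (by simp)))
    · intro x y hxy
      refine ⟨fun i => if i < 0 then x i else y i, fun k hk => ?_, fun k hk => ?_⟩
      · rw [u0_tr]
        rcases lt_or_eq_of_le hk with h | h
        · simp [h]
        · subst h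
          simpa using (u0_iff.1 hxy).symm
      · rw [u0_tr]
        simp [not_lt.2 hk]
  · intro i j
    unfold tmz tmat
    rw [Matrix.map_apply, if_pos]
    · rfl
    · refine ⟨fun k => if k = 1 then letter j else letter i, u0_letter (by simp), u0_letter ?_⟩
      simp [tr]

end Pool.MP_5a0708_an.KRW
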